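import Pool.Agent.Helper41.ALX.Metric

/-! # ROT: definitions for the statement -/

set_option autoImplicit false

namespace Pool.Agent.Helper75.ROT

open Pool.Agent.Helper41.ALX Quaternion

/-- The set `ρ < 0` is a relatively compact domain of the unit ball, and its boundary `ρ = 0` is a connected regular
hypersurface of class `C³` which has constant mean curvature `H` for the metric `g`. -/
structure CMC {E : Type} [NormedAddCommGroup E] [InnerProductSpace ℝ E] [FiniteDimensional ℝ E]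
    (g : E → E →L[ℝ] E) (ρ : E → ℝ) (H : ℝ) : Prop where
  smooth : ContDiffOn ℝ 3 ρ (Metric.ball 0 1)
  bounded : ∃ R : ℝ, R < 1 ∧ ∀ z ∈ Metric.ball (0 : E) 1, ρ z ≤ 0 → ‖z‖ ≤ R
  nonempty : ∃ z ∈ Metric.ball (0 : E) 1, ρ z < 0
  connected : IsPreconnected {z ∈ Metric.ball (0 : E) 1 | ρ z = 0}
  regular : ∀ z ∈ Metric.ball (0 : E) 1, ρ z = 0 → gradient ρ z ≠ 0
  curvature : ∀ z ∈ Metric.ball (0 : E) 1, ρ z = 0 → meanCurv g ρ z = H

/-- The quaternionic space `ℍ^(n+1)` with its real inner product. -/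
abbrev HV (n : ℕ) := PiLp 2 (fun _ : Fin (n + 1) => ℍ[ℝ])

/-- The map `(z₀, z₁ q, .., z_n q)`.  It is not an isometry of quaternionic hyperbolic space; every function of `z₀` and
`|z₁|² + .. + |z_n|²`, i.e. every function that is invariant under the isometries `(z₀, U (z₁, .., z_n))`, `U` in `Sp(n)`, is
invariant under these maps. -/
noncomputable def rotH {n : ℕ} (q : ℍ[ℝ]) (z : HV n) : HV n :=
  WithLp.toLp 2 (fun i => if i = 0 then z i else z i * q)

/-- `P z` is the orthogonal projection on the span of `z i, z j, z k`: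
`P z v = z Im (∑ star z_j v_j) / |z|²`. -/
def IsPH {n : ℕ} (P : HV n → HV n →L[ℝ] HV n) : Prop :=
  ∀ (z v : HV n) (i : Fin (n + 1)), P z v i = (‖z‖ ^ 2)⁻¹ • (z i * (∑ j, star (z j) * v j).im)

/-- `g` is the Bergman metric of the unit ball of `ℂⁿ` (complex hyperbolic space, curvature between `-4` and `-1`):
`v ↦ v / (1 - |z|²) + ⟨z, v⟩ z / (1 - |z|²)²`, with the complex inner product. -/
def IsBergman {n : ℕ}
    (g : EuclideanSpace ℂ (Fin n) → EuclideanSpace ℂ (Fin n) →L[ℝ] EuclideanSpace ℂ (Fin n)) :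
    Prop :=
  ∀ z v, g z v = (1 - ‖z‖ ^ 2)⁻¹ • v + ((1 - ‖z‖ ^ 2) ^ 2)⁻¹ • (inner ℂ z v • z)

/-- The rotation about the complex line of the unit vector `e`. -/
noncomputable def rotC {n : ℕ} (e : EuclideanSpace ℂ (Fin n)) (θ : ℝ)
    (z : EuclideanSpace ℂ (Fin n)) : EuclideanSpace ℂ (Fin n) :=
  inner ℂ e z • e + Complex.exp (θ * Complex.I) • (z - inner ℂ e z • e)

end Pool.Agent.Helper75.ROT
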