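import Pool.Agent.Helper75.ROT.Main
import Pool.Agent.Helper75.ROT.St

/-! # ROT: quaternionic hyperbolic space -/

set_option autoImplicit false
set_option linter.unusedSectionVars false
set_option linter.unusedVariables false

namespace Pool.Agent.Helper75.ROT

open Filter Topology Quaternion
open scoped ContDiff
open Pool.Agent.Helper41.ALX (S2 Vertical ballMetric meanCurv)

variable {n : ℕ}

noncomputable def RH0 (n : ℕ) : ℍ[ℝ] →ₗ[ℝ] HV n →ₗ[ℝ] HV n :=
  LinearMap.mk₂ ℝ (fun q u => WithLp.toLp 2 (fun i => u i * q))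
    (fun q q' u => by ext i : 1; simp [mul_add])
    (fun c q u => by ext i : 1; simp)
    (fun q u u' => by ext i : 1; simp [add_mul])
    (fun c q u => by ext i : 1; simp)

/-- `RH q u = (u_i q)_i` -/
noncomputable def RH (n : ℕ) : ℍ[ℝ] →L[ℝ] HV n →L[ℝ] HV n :=
  LinearMap.toContinuousLinearMap
    ((LinearMap.toContinuousLinearMap : (HV n →ₗ[ℝ] HV n) ≃ₗ[ℝ] _).toLinearMap ∘ₗ RH0 n)

theorem RH_apply (q : ℍ[ℝ]) (u : HV n) (i : Fin (n + 1)) : RH n q u i = u i * q := rfl

noncomputable def hH0 (n : ℕ) : HV n →ₗ[ℝ] HV n →ₗ[ℝ] ℍ[ℝ] :=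
  LinearMap.mk₂ ℝ (fun z v => ∑ i, star (z i) * v i)
    (fun q q' u => by simp [add_mul, Finset.sum_add_distrib])
    (fun c q u => by simp [Finset.smul_sum])
    (fun q u u' => by simp [mul_add, Finset.sum_add_distrib])
    (fun c q u => by simp [Finset.smul_sum])

/-- the quaternionic hermitian product -/
noncomputable def hH (n : ℕ) : HV n →L[ℝ] HV n →L[ℝ] ℍ[ℝ] :=
  LinearMap.toContinuousLinearMap
    ((LinearMap.toContinuousLinearMap : (HV n →ₗ[ℝ] ℍ[ℝ]) ≃ₗ[ℝ] _).toLinearMap ∘ₗ hH0 n)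

theorem hH_apply (z v : HV n) : hH n z v = ∑ i, star (z i) * v i := rfl

/-- the imaginary part -/
noncomputable def imH : ℍ[ℝ] →L[ℝ] ℍ[ℝ] :=
  LinearMap.toContinuousLinearMap
    { toFun := fun q => q.im
      map_add' := fun a b => Quaternion.im_add a b
      map_smul' := fun c a => Quaternion.im_smul _ c }

theorem imH_apply (q : ℍ[ℝ]) : imH q = q.im := rfl

/-- the projection on the quaternionic line of the first coordinate -/
noncomputable def pH (n : ℕ) : HV n →L[ℝ] HV n :=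
  LinearMap.toContinuousLinearMap
    { toFun := fun u => WithLp.toLp 2 (Pi.single 0 (u 0))
      map_add' := fun a b => by
        ext i : 1
        by_cases h : i = 0
        · subst h; simp
        · simp [Pi.single_apply, h]
      map_smul' := fun c a => by
        ext i : 1
        by_cases h : i = 0
        · subst h; simp
        · simp [Pi.single_apply, h] }

theorem pH_zero (u : HV n) : pH n u 0 = u 0 := by
  show (Pi.single (M := fun _ : Fin (n + 1) => ℍ[ℝ]) 0 (u 0)) 0 = u 0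
  simp

theorem pH_ne (u : HV n) {i : Fin (n + 1)} (h : i ≠ 0) : pH n u i = 0 := by
  show (Pi.single (M := fun _ : Fin (n + 1) => ℍ[ℝ]) 0 (u 0)) i = 0
  rw [Pi.single_eq_of_ne h]

/-- The vertical projection of quaternionic hyperbolic space: the orthogonal projection on the span of `z i, z j, z k`. -/
noncomputable def PH (n : ℕ) (z : HV n) : HV n →L[ℝ] HV n :=
  (‖z‖ ^ 2)⁻¹ • (((RH n).flip z).comp (imH.comp (hH n z)))

theorem PH_apply (z v : HV n) : PH n z v = (‖z‖ ^ 2)⁻¹ • RH n (hH n z v).im z := rfl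

/-- `T b c u = (u - p u) Im (star b₀ c₀)` -/
noncomputable def TH (n : ℕ) : HV n →L[ℝ] HV n →L[ℝ] HV n →L[ℝ] HV n :=
  (ContinuousLinearMap.compL ℝ (HV n) ℍ[ℝ] (HV n →L[ℝ] HV n)
    (((ContinuousLinearMap.compL ℝ (HV n) (HV n) (HV n)).flip
      (ContinuousLinearMap.id ℝ (HV n) - pH n)).comp (RH n))).comp
    ((ContinuousLinearMap.compL ℝ (HV n) ℍ[ℝ] ℍ[ℝ] imH).comp
      ((hH n).comp (pH n)))

theorem TH_apply (b c u : HV n) : TH n b c u = RH n (hH n (pH n b) c).im (u - pH n u) := rfl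

theorem inner_H (x y : ℍ[ℝ]) : inner ℝ x y = x.re * y.re + x.imI * y.imI + x.imJ * y.imJ +
    x.imK * y.imK := by
  rw [Quaternion.inner_def]
  simp

theorem inner_HV (x y : HV n) : inner ℝ x y = ∑ i, inner ℝ (x i) (y i) := by
  simp [PiLp.inner_apply]

/-- `⟪z q, v⟫ = ⟪q, h(z, v)⟫` -/
theorem inner_RH (q : ℍ[ℝ]) (z v : HV n) : inner ℝ (RH n q z) v = inner ℝ q (hH n z v) := by
  rw [inner_HV, hH_apply, inner_sum]
  refine Finset.sum_congr rfl fun i _ => ?_
  rw [RH_apply, inner_H, inner_H]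
  simp
  ring

theorem hH_RH (z : HV n) (q : ℍ[ℝ]) : hH n z (RH n q z) = ‖z‖ ^ 2 • q := by
  have h1 : ‖z‖ ^ 2 = ∑ i, Quaternion.normSq (z i) := by
    rw [← real_inner_self_eq_norm_sq, inner_HV]
    refine Finset.sum_congr rfl fun i _ => ?_
    rw [Quaternion.inner_self]
  rw [hH_apply, h1, Finset.sum_smul]
  refine Finset.sum_congr rfl fun i _ => ?_
  rw [RH_apply, ← mul_assoc, Quaternion.star_mul_self, Quaternion.coe_mul_eq_smul]

theorem hH_self (z : HV n) : (hH n z z).im = 0 := by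
  have h1 := hH_RH z 1
  have h2 : RH n 1 z = z := by
    ext i : 1
    rw [RH_apply, mul_one]
  rw [h2] at h1
  rw [h1, Quaternion.im_smul, Quaternion.im_one, smul_zero]

theorem inner_im (x y : ℍ[ℝ]) : inner ℝ x.im y = inner ℝ x.im y.im := by
  rw [inner_H, inner_H]
  simp

/-- the imaginary quaternion with coordinates `x` -/
noncomputable def qH (x : Fin 3 → ℝ) : ℍ[ℝ] := ⟨0, x 0, x 1, x 2⟩

theorem qH_im (x : Fin 3 → ℝ) : (qH x).im = qH x := rfl

noncomputable def LH (z : HV n) : (Fin 3 → ℝ) →ₗ[ℝ] HV n :=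
  ((RH n).flip z : ℍ[ℝ] →ₗ[ℝ] HV n) ∘ₗ
    { toFun := fun x => qH x
      map_add' := fun a b => by ext <;> simp [qH]
      map_smul' := fun c a => by ext <;> simp [qH] }

theorem LH_apply (z : HV n) (x : Fin 3 → ℝ) : LH z x = RH n (qH x) z := rfl

theorem LH_inj {z : HV n} (hz : z ≠ 0) : Function.Injective (LH z) := by
  rw [injective_iff_map_eq_zero]
  intro x hx
  have h1 : ‖z‖ ^ 2 ≠ 0 := by
    have := norm_pos_iff.2 hz
    positivity
  have h2 := hH_RH z (qH x)
  rw [← LH_apply, hx, map_zero] at h2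
  have h3 : qH x = 0 := by
    rcases smul_eq_zero.1 h2.symm with h | h
    · exact absurd h h1
    · exact h
  have h4 := congrArg QuaternionAlgebra.imI h3
  have h5 := congrArg QuaternionAlgebra.imJ h3
  have h6 := congrArg QuaternionAlgebra.imK h3
  ext i
  fin_cases i
  · exact h4
  · exact h5
  · exact h6

theorem PH_range {z : HV n} (hz : z ≠ 0) :
    LinearMap.range (PH n z : HV n →ₗ[ℝ] HV n) = LinearMap.range (LH z) := by
  have h1 : ‖z‖ ^ 2 ≠ 0 := by
    have := norm_pos_iff.2 hz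
    positivity
  apply le_antisymm
  · rintro _ ⟨v, rfl⟩
    rw [ContinuousLinearMap.coe_coe, PH_apply]
    refine Submodule.smul_mem _ _ ⟨![(hH n z v).imI, (hH n z v).imJ, (hH n z v).imK], ?_⟩
    rw [LH_apply]
    rfl
  · rintro _ ⟨x, rfl⟩
    refine ⟨LH z x, ?_⟩
    rw [ContinuousLinearMap.coe_coe, PH_apply, LH_apply, hH_RH, Quaternion.im_smul, qH_im,
      map_smul, smul_apply, smul_smul, inv_mul_cancel₀ h1, one_smul]

theorem PH_vertical (n : ℕ) : Vertical 3 (PH n) := by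
  constructor
  · intro z u v
    have h1 := inner_im (hH n z u) (hH n z v)
    have h2 := inner_im (hH n z v) (hH n z u)
    rw [PH_apply, PH_apply, real_inner_smul_left, real_inner_smul_right, inner_RH,
      real_inner_comm _ u, inner_RH, h1, h2, real_inner_comm]
  · intro z u
    rw [PH_apply z u, map_smul, PH_apply, hH_RH, Quaternion.im_smul]
    by_cases hz : z = 0
    · rw [hz]
      simp
    · have h1 : ‖z‖ ^ 2 ≠ 0 := by
        have := norm_pos_iff.2 hz
        positivity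
      have h2 : (hH n z u).im.im = (hH n z u).im := rfl
      rw [h2, map_smul, smul_apply, smul_smul, smul_smul]
      congr 1
      field_simp
  · intro z
    rw [PH_apply, hH_self, map_zero, zero_apply, smul_zero]
  · intro z hz
    rw [PH_range hz, LinearMap.finrank_range_of_inj (LH_inj hz)]
    simp

theorem hH_pH (z v : HV n) : hH n (pH n z) v = star (z 0) * v 0 := by
  rw [hH_apply, Finset.sum_eq_single 0]
  · rw [pH_zero]
  · intro i _ hi
    rw [pH_ne _ hi, star_zero, zero_mul]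
  · intro h
    exact absurd (Finset.mem_univ _) h

theorem hH_pH' (z v : HV n) : hH n z (pH n v) = star (z 0) * v 0 := by
  rw [hH_apply, Finset.sum_eq_single 0]
  · rw [pH_zero]
  · intro i _ hi
    rw [pH_ne _ hi, mul_zero]
  · intro h
    exact absurd (Finset.mem_univ _) h

theorem hH_star (z v : HV n) : star (hH n z v) = hH n v z := by
  rw [hH_apply, hH_apply, star_sum]
  refine Finset.sum_congr rfl fun i _ => ?_
  rw [star_mul, star_star]

theorem pH_idem (u : HV n) : pH n (pH n u) = pH n u := by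
  ext i : 1
  by_cases h : i = 0
  · subst h
    rw [pH_zero]
  · rw [pH_ne _ h, pH_ne _ h]

theorem inner_pH (u v : HV n) : inner ℝ (pH n u) v = inner ℝ (u 0) (v 0) := by
  rw [inner_HV, Finset.sum_eq_single 0]
  · rw [pH_zero]
  · intro i _ hi
    rw [pH_ne _ hi, inner_zero_left]
  · intro h
    exact absurd (Finset.mem_univ _) h

noncomputable def eH (n : ℕ) : ℍ[ℝ] →ₗ[ℝ] HV n where
  toFun q := WithLp.toLp 2 (Pi.single 0 q)
  map_add' a b := by
    ext i : 1
    by_cases h : i = 0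
    · subst h; simp
    · simp [Pi.single_apply, h]
  map_smul' c a := by
    ext i : 1
    by_cases h : i = 0
    · subst h; simp
    · simp [Pi.single_apply, h]

theorem pH_rank (n : ℕ) : Module.finrank ℝ (LinearMap.range (pH n : HV n →ₗ[ℝ] HV n)) = 3 + 1 := by
  have h1 : Function.Injective (eH n) := by
    rw [injective_iff_map_eq_zero]
    intro q hq
    have h2 : (eH n q) 0 = 0 := by
      rw [hq]
      rfl
    have h3 : (eH n q) 0 = q := by
      show (Pi.single (M := fun _ : Fin (n + 1) => ℍ[ℝ]) 0 q) 0 = q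
      simp
    rw [← h3, h2]
  have h4 : LinearMap.range (pH n : HV n →ₗ[ℝ] HV n) = LinearMap.range (eH n) := by
    apply le_antisymm
    · rintro _ ⟨v, rfl⟩
      exact ⟨v 0, rfl⟩
    · rintro _ ⟨q, rfl⟩
      refine ⟨eH n q, ?_⟩
      have h3 : (eH n q) 0 = q := by
        show (Pi.single (M := fun _ : Fin (n + 1) => ℍ[ℝ]) 0 q) 0 = q
        simp
      show WithLp.toLp 2 (Pi.single (M := fun _ : Fin (n + 1) => ℍ[ℝ]) 0 ((eH n q) 0)) = _
      rw [h3]
      rfl
  rw [h4, LinearMap.finrank_range_of_inj h1, Quaternion.finrank_eq_four]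

theorem PH_axis (n : ℕ) : Axis 3 (PH n) (pH n) (TH n) := by
  refine ⟨?_, pH_idem, pH_rank n, ?_, ?_, ?_⟩
  · intro u v
    rw [inner_pH, real_inner_comm (pH n v) u, inner_pH, real_inner_comm (u 0) (v 0)]
  · intro b c u v
    rw [TH_apply, TH_apply]
    set q := (hH n (pH n b) c).im with hq
    have hqi : q.im = q := rfl
    have h1 : hH n (u - pH n u) v = hH n u v - star (u 0) * v 0 := by
      rw [map_sub, sub_apply, hH_pH]
    have h2 : hH n (v - pH n v) u = hH n v u - star (v 0) * u 0 := by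
      rw [map_sub, sub_apply, hH_pH]
    rw [inner_RH, real_inner_comm (RH n q (v - pH n v)) u, inner_RH, h1, h2]
    have h3 : hH n v u - star (v 0) * u 0 = star (hH n u v - star (u 0) * v 0) := by
      rw [star_sub, hH_star, star_mul, star_star]
    have h4 : ∀ x : ℍ[ℝ], inner ℝ q (star x) = -inner ℝ q x := by
      intro x
      have h5 : q.re = 0 := rfl
      rw [inner_H, inner_H, h5]
      simp
      ring
    rw [h3, h4, neg_neg]
  · intro b c u
    rw [TH_apply]
    ext i : 1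
    by_cases h : i = 0
    · subst h
      rw [pH_zero, RH_apply]
      have h1 : (u - pH n u) 0 = u 0 - pH n u 0 := rfl
      rw [h1, pH_zero, sub_self, zero_mul]
      rfl
    · rw [pH_ne _ h]
      rfl
  · intro z v hv
    -- the hermitian product of `z - p z` and `v` is real
    have h0 : ∀ q : ℍ[ℝ], q.re = 0 → inner ℝ q (hH n (z - pH n z) v) = 0 := by
      intro q hq
      have h1 := hv (eH n 1) (eH n q)
      have h2 : hH n (pH n (pH n (eH n 1))) (pH n (eH n q)) = q := by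
        rw [pH_idem, hH_pH, pH_zero]
        have h3 : ∀ x : ℍ[ℝ], (eH n x) 0 = x := by
          intro x
          show (Pi.single (M := fun _ : Fin (n + 1) => ℍ[ℝ]) 0 x) 0 = x
          simp
        rw [h3, h3, star_one, one_mul]
      have h4 : q.im = q := by
        ext <;> simp [hq]
      rw [TH_apply, h2, h4, inner_RH] at h1
      exact h1
    have h1 : (hH n (z - pH n z) v).im = 0 := by
      have h2 := h0 (hH n (z - pH n z) v).im rfl
      rw [inner_im] at h2
      exact inner_self_eq_zero.1 h2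
    have h2 : (hH n z v).im = (star (z 0) * v 0).im := by
      rw [map_sub, sub_apply, hH_pH, Quaternion.im_sub] at h1
      exact sub_eq_zero.1 h1
    have h3 : ‖z‖ ^ 2 • PH n z v = RH n (star (z 0) * v 0).im z := by
      rw [PH_apply, smul_smul, h2]
      by_cases hz : z = 0
      · rw [hz, map_zero, smul_zero]
      · have h8 : ‖z‖ ^ 2 ≠ 0 := by
          have := norm_pos_iff.2 hz
          positivity
        rw [mul_inv_cancel₀ h8, one_smul]
    have h4 : hH n (pH n (pH n z)) (pH n v) = star (z 0) * v 0 := by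
      rw [pH_idem, hH_pH, pH_zero]
    have h5 : ‖pH n z‖ ^ 2 = Quaternion.normSq (z 0) := by
      rw [← real_inner_self_eq_norm_sq, inner_pH, pH_zero, Quaternion.inner_self]
    rw [h3, TH_apply, h4, h5, inner_pH]
    ext i : 1
    by_cases h : i = 0
    · subst h
      have g1 : (Quaternion.normSq (z 0) • pH n v - inner ℝ (z 0) (v 0) • pH n z +
          RH n (star (z 0) * v 0).im (z - pH n z)) 0 =
          Quaternion.normSq (z 0) • pH n v 0 - inner ℝ (z 0) (v 0) • pH n z 0 +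
            (z 0 - pH n z 0) * (star (z 0) * v 0).im := rfl
      rw [g1, pH_zero, pH_zero, sub_self, zero_mul, add_zero, RH_apply]
      have g2 : (star (z 0) * v 0).im = star (z 0) * v 0 - (inner ℝ (z 0) (v 0) : ℝ) := by
        have g3 : (inner ℝ (z 0) (v 0) : ℝ) = (star (z 0) * v 0).re := by
          rw [inner_H]
          simp
        rw [g3, Quaternion.sub_re_self]
      rw [g2, mul_sub, ← mul_assoc, Quaternion.self_mul_star, Quaternion.coe_mul_eq_smul,
        ← Quaternion.coe_commutes, Quaternion.coe_mul_eq_smul]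
    · have g1 : (Quaternion.normSq (z 0) • pH n v - inner ℝ (z 0) (v 0) • pH n z +
          RH n (star (z 0) * v 0).im (z - pH n z)) i =
          Quaternion.normSq (z 0) • pH n v i - inner ℝ (z 0) (v 0) • pH n z i +
            (z i - pH n z i) * (star (z 0) * v 0).im := rfl
      rw [g1, pH_ne _ h, pH_ne _ h, smul_zero, smul_zero, sub_zero, zero_add, sub_zero, RH_apply]

theorem rot_vertical_H {ρ : HV n → ℝ} (hs : ContDiffOn ℝ 3 ρ (Metric.ball 0 1))
    (hinv : ∀ z ∈ Metric.ball (0 : HV n) 1, ∀ q : ℍ[ℝ], ‖q‖ = 1 →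
      ρ (pH n z + RH n q (z - pH n z)) = ρ z) :
    ∀ y ∈ Metric.ball (0 : HV n) 1, ∀ b c,
      inner ℝ (TH n (pH n b) (pH n c) y) (gradient ρ y) = 0 := by
  intro y hy b c
  rw [TH_apply]
  set q := (hH n (pH n (pH n b)) (pH n c)).im with hq
  have hqr : q.re = 0 := rfl
  have hd : DifferentiableAt ℝ ρ y :=
    (hs.contDiffAt (Metric.isOpen_ball.mem_nhds hy)).differentiableAt (by norm_num)
  have hunit : ∀ r : ℍ[ℝ], r.re = 0 → ‖r‖ = 1 →
      fderiv ℝ ρ y (RH n r (y - pH n y)) = 0 := by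
    intro r hr hr1
    have h1 : HasDerivAt (fun θ : ℝ => pH n y +
        RH n (Real.cos θ • 1 + Real.sin θ • r) (y - pH n y)) (RH n r (y - pH n y)) 0 := by
      have h2 : HasDerivAt (fun θ : ℝ => Real.cos θ • (1 : ℍ[ℝ]) + Real.sin θ • r)
          ((-Real.sin 0) • (1 : ℍ[ℝ]) + Real.cos 0 • r) 0 :=
        ((Real.hasDerivAt_cos 0).smul_const _).add ((Real.hasDerivAt_sin 0).smul_const _)
      have h3 : (-Real.sin 0) • (1 : ℍ[ℝ]) + Real.cos 0 • r = r := by
        simp
      rw [h3] at h2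
      have h4 := (((RH n).flip (y - pH n y)).hasFDerivAt (x := Real.cos 0 • (1 : ℍ[ℝ]) +
        Real.sin 0 • r)).comp_hasDerivAt (0 : ℝ) h2
      exact h4.const_add (pH n y)
    have h5 : HasFDerivAt ρ (fderiv ℝ ρ y)
        (pH n y + RH n (Real.cos 0 • 1 + Real.sin 0 • r) (y - pH n y)) := by
      have h6 : pH n y + RH n (Real.cos 0 • 1 + Real.sin 0 • r) (y - pH n y) = y := by
        have h7 : RH n (Real.cos 0 • 1 + Real.sin 0 • r) (y - pH n y) = y - pH n y := by
          ext i : 1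
          rw [RH_apply]
          simp
        rw [h7]
        abel
      rw [h6]
      exact hd.hasFDerivAt
    have h6 := h5.comp_hasDerivAt (0 : ℝ) h1
    have h7 : (ρ ∘ fun θ : ℝ => pH n y +
        RH n (Real.cos θ • 1 + Real.sin θ • r) (y - pH n y)) = fun _ => ρ y := by
      funext θ
      refine hinv y hy _ ?_
      have h8 : ‖Real.cos θ • (1 : ℍ[ℝ]) + Real.sin θ • r‖ ^ 2 = 1 := by
        have h9 : inner ℝ (1 : ℍ[ℝ]) r = 0 := by
          rw [inner_H]
          simp [hr]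
        rw [← real_inner_self_eq_norm_sq, inner_add_left, inner_add_right, inner_add_right,
          real_inner_smul_left, real_inner_smul_left, real_inner_smul_left, real_inner_smul_left,
          real_inner_smul_right, real_inner_smul_right, real_inner_smul_right,
          real_inner_smul_right, real_inner_comm (1 : ℍ[ℝ]) r, h9, real_inner_self_eq_norm_sq,
          real_inner_self_eq_norm_sq, hr1, norm_one]
        have := Real.cos_sq_add_sin_sq θ
        nlinarith
      have h10 := norm_nonneg (Real.cos θ • (1 : ℍ[ℝ]) + Real.sin θ • r)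
      nlinarith
    rw [h7] at h6
    exact h6.unique (hasDerivAt_const (0 : ℝ) (ρ y))
  have hall : fderiv ℝ ρ y (RH n q (y - pH n y)) = 0 := by
    by_cases h : q = 0
    · rw [h, map_zero, zero_apply, map_zero]
    · have h1 : ‖q‖ ≠ 0 := norm_ne_zero_iff.2 h
      have h2 := hunit (‖q‖⁻¹ • q) (by simp [hqr]) (by
        rw [norm_smul, norm_inv, norm_norm, inv_mul_cancel₀ h1])
      rw [map_smul, smul_apply, map_smul, smul_eq_mul] at h2
      rcases mul_eq_zero.1 h2 with h3 | h3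
      · exact absurd (inv_eq_zero.1 h3) h1
      · exact h3
  rw [real_inner_comm, gradient, InnerProductSpace.toDual_symm_apply]
  exact hall

/-- hypersurfaces of quaternionic hyperbolic space that are invariant under the rotations about a quaternionic
geodesic -/
theorem quaternionic_case {ρ : HV n → ℝ} {H : ℝ}
    (hs : ContDiffOn ℝ 3 ρ (Metric.ball 0 1))
    (hinv : ∀ z ∈ Metric.ball (0 : HV n) 1, ∀ q : ℍ[ℝ], ‖q‖ = 1 →
      ρ (pH n z + RH n q (z - pH n z)) = ρ z)
    (hbd : ∃ R : ℝ, R < 1 ∧ ∀ z ∈ Metric.ball (0 : HV n) 1, ρ z ≤ 0 → ‖z‖ ≤ R)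
    (hne : ∃ z ∈ Metric.ball (0 : HV n) 1, ρ z < 0)
    (hcon : IsPreconnected {z ∈ Metric.ball (0 : HV n) 1 | ρ z = 0})
    (hreg : ∀ z ∈ Metric.ball (0 : HV n) 1, ρ z = 0 → fderiv ℝ ρ z ≠ 0)
    (heq : ∀ z ∈ Metric.ball (0 : HV n) 1, ρ z = 0 → meanCurv (ballMetric (PH n)) ρ z = H) :
    ∃ (α : ℍ[ℝ]) (R : ℝ), ‖α‖ < 1 ∧ 1 < R ∧ ∀ z ∈ Metric.ball (0 : HV n) 1,
      (ρ z < 0 ↔ ‖1 - star α * z 0‖ ^ 2 < R * (1 - ‖z‖ ^ 2) * (1 - ‖α‖ ^ 2)) ∧
      (ρ z = 0 ↔ ‖1 - star α * z 0‖ ^ 2 = R * (1 - ‖z‖ ^ 2) * (1 - ‖α‖ ^ 2)) := by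
  obtain ⟨c, R, h1, h2, h3, h4⟩ := rot_main (by norm_num) (PH_vertical n) (PH_axis n) hs
    (rot_vertical_H hs hinv) hbd hne hcon hreg heq
  have h6 : ‖c 0‖ = ‖c‖ := by
    have h7 : ‖c‖ ^ 2 = ‖c 0‖ ^ 2 := by
      rw [← real_inner_self_eq_norm_sq, ← real_inner_self_eq_norm_sq, ← inner_pH, h1]
    have h8 := norm_nonneg c
    have h9 := norm_nonneg (c 0)
    nlinarith
  refine ⟨c 0, R, by rw [h6]; exact h2, h3, fun z hz => ?_⟩
  have h7 : 1 - 2 * inner ℝ z c + ‖pH n z‖ ^ 2 * ‖c‖ ^ 2 = ‖1 - star (c 0) * z 0‖ ^ 2 := by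
    have h8 : ‖pH n z‖ ^ 2 = ‖z 0‖ ^ 2 := by
      rw [← real_inner_self_eq_norm_sq, ← real_inner_self_eq_norm_sq, inner_pH, pH_zero]
    have h9 : inner ℝ z c = inner ℝ (c 0) (z 0) := by
      rw [real_inner_comm, ← h1, inner_pH, pH_zero]
    have h10 : inner ℝ (1 : ℍ[ℝ]) (star (c 0) * z 0) = inner ℝ (c 0) (z 0) := by
      rw [inner_H, inner_H]
      simp
    rw [norm_sub_sq_real, h10, norm_mul, Quaternion.norm_star, norm_one, h9, h8, ← h6]
    ring
  have h10 := h4 z hz
  rw [h7, ← h6] at h10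
  exact h10

/-- the same with an explicit description of the data -/
theorem quaternionic_case' {P : HV n → HV n →L[ℝ] HV n}
    (hP : ∀ (z v : HV n) (i : Fin (n + 1)),
      P z v i = (‖z‖ ^ 2)⁻¹ • (z i * (∑ j, star (z j) * v j).im)) {ρ : HV n → ℝ} {H : ℝ}
    (hs : ContDiffOn ℝ 3 ρ (Metric.ball 0 1))
    (hinv : ∀ z ∈ Metric.ball (0 : HV n) 1, ∀ q : ℍ[ℝ], ‖q‖ = 1 →
      ρ (WithLp.toLp 2 (fun i => if i = 0 then z i else z i * q)) = ρ z)
    (hbd : ∃ R : ℝ, R < 1 ∧ ∀ z ∈ Metric.ball (0 : HV n) 1, ρ z ≤ 0 → ‖z‖ ≤ R)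
    (hne : ∃ z ∈ Metric.ball (0 : HV n) 1, ρ z < 0)
    (hcon : IsPreconnected {z ∈ Metric.ball (0 : HV n) 1 | ρ z = 0})
    (hreg : ∀ z ∈ Metric.ball (0 : HV n) 1, ρ z = 0 → fderiv ℝ ρ z ≠ 0)
    (heq : ∀ z ∈ Metric.ball (0 : HV n) 1, ρ z = 0 → meanCurv (ballMetric P) ρ z = H) :
    ∃ (α : ℍ[ℝ]) (R : ℝ), ‖α‖ < 1 ∧ 1 < R ∧ ∀ z ∈ Metric.ball (0 : HV n) 1,
      (ρ z < 0 ↔ ‖1 - star α * z 0‖ ^ 2 < R * (1 - ‖z‖ ^ 2) * (1 - ‖α‖ ^ 2)) ∧
      (ρ z = 0 ↔ ‖1 - star α * z 0‖ ^ 2 = R * (1 - ‖z‖ ^ 2) * (1 - ‖α‖ ^ 2)) := by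
  have h1 : P = PH n := by
    funext z
    ext v i : 2
    rw [hP, PH_apply]
    rfl
  subst h1
  refine quaternionic_case hs (fun z hz q hq => ?_) hbd hne hcon hreg heq
  rw [← hinv z hz q hq]
  congr 1
  ext i : 1
  have h2 : (pH n z + RH n q (z - pH n z)) i = pH n z i + (z i - pH n z i) * q := rfl
  rw [h2]
  by_cases h : i = 0
  · subst h
    rw [pH_zero, sub_self, zero_mul, add_zero]
    simp
  · rw [pH_ne _ h, zero_add, sub_zero]
    simp [h]

end Pool.Agent.Helper75.ROT
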