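import Pool.Agent.Helper75.ROT.Main

/-! # ROT: complex hyperbolic space -/

set_option autoImplicit false
set_option linter.unusedSectionVars false
set_option linter.unusedVariables false

namespace Pool.Agent.Helper75.ROT

open Filter Topology
open scoped ContDiff
open Pool.Agent.Helper41.ALX (S2 Vertical ballMetric meanCurv PC bergman vertical_PC bergman_eq
  radial)

variable {n : ℕ}

/-- The orthogonal projection on the complex line spanned by the unit vector `e`. -/
noncomputable def pC (e : EuclideanSpace ℂ (Fin n)) :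
    EuclideanSpace ℂ (Fin n) →L[ℝ] EuclideanSpace ℂ (Fin n) :=
  ((innerSL ℂ e).smulRight e).restrictScalars ℝ

/-- multiplication by `i` -/
noncomputable def iC (n : ℕ) : EuclideanSpace ℂ (Fin n) →L[ℝ] EuclideanSpace ℂ (Fin n) :=
  (Complex.I • ContinuousLinearMap.id ℂ (EuclideanSpace ℂ (Fin n))).restrictScalars ℝ

/-- `T b c u = ⟪i b, c⟫ i (u - p u)` -/
noncomputable def TC (e : EuclideanSpace ℂ (Fin n)) :
    EuclideanSpace ℂ (Fin n) →L[ℝ] EuclideanSpace ℂ (Fin n) →L[ℝ]
      EuclideanSpace ℂ (Fin n) →L[ℝ] EuclideanSpace ℂ (Fin n) :=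
  ((ContinuousLinearMap.smulRightL ℝ (EuclideanSpace ℂ (Fin n))
    (EuclideanSpace ℂ (Fin n) →L[ℝ] EuclideanSpace ℂ (Fin n))).flip
      ((iC n).comp (ContinuousLinearMap.id ℝ _ - pC e))).comp ((innerSL ℝ).comp (iC n))

theorem pC_apply (e u : EuclideanSpace ℂ (Fin n)) : pC e u = inner ℂ e u • e := rfl

theorem iC_apply (u : EuclideanSpace ℂ (Fin n)) : iC n u = Complex.I • u := rfl

theorem TC_apply (e b c u : EuclideanSpace ℂ (Fin n)) :
    TC e b c u = inner ℝ (Complex.I • b) c • (Complex.I • (u - pC e u)) := by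
  simp only [TC, ContinuousLinearMap.comp_apply, ContinuousLinearMap.flip_apply]
  rfl

theorem re_inner (x y : EuclideanSpace ℂ (Fin n)) : inner ℝ x y = (inner ℂ x y).re := by
  simp [PiLp.inner_apply]

theorem re_inner_I (z v : EuclideanSpace ℂ (Fin n)) :
    inner ℝ (Complex.I • z) v = (inner ℂ z v).im := by
  rw [re_inner, inner_smul_left]
  simp

theorem PC_apply (z v : EuclideanSpace ℂ (Fin n)) :
    PC n z v = ((‖z‖ ^ 2)⁻¹ * inner ℝ (Complex.I • z) v) • (Complex.I • z) := by
  show (‖z‖ ^ 2)⁻¹ • (inner ℝ (Complex.I • z) v • (Complex.I • z)) = _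
  rw [smul_smul]

theorem axis_PC {e : EuclideanSpace ℂ (Fin n)} (he : ‖e‖ = 1) : Axis 1 (PC n) (pC e) (TC e) := by
  have hee : inner ℂ e e = (1 : ℂ) := by
    rw [inner_self_eq_norm_sq_to_K, he]
    simp
  have hidem : ∀ u, pC e (pC e u) = pC e u := by
    intro u
    rw [pC_apply e (pC e u), pC_apply, inner_smul_right, hee, mul_one]
  have hsymm : ∀ u v, inner ℝ (pC e u) v = inner ℝ u (pC e v) := by
    intro u v
    rw [re_inner, re_inner, pC_apply, pC_apply, inner_smul_left, inner_smul_right,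
      ← inner_conj_symm u e]
    simp only [Complex.mul_re, Complex.conj_re, Complex.conj_im]
    ring
  have hI : ∀ u, pC e (Complex.I • u) = Complex.I • pC e u := by
    intro u
    rw [pC_apply, pC_apply, inner_smul_right, smul_smul]
  refine ⟨hsymm, hidem, ?_, ?_, ?_, ?_⟩
  · have h1 : LinearMap.range (pC e : EuclideanSpace ℂ (Fin n) →ₗ[ℝ] EuclideanSpace ℂ (Fin n)) =
        (Submodule.span ℂ {e}).restrictScalars ℝ := by
      apply le_antisymm
      · rintro _ ⟨v, rfl⟩
        exact Submodule.smul_mem _ _ (Submodule.mem_span_singleton_self _)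
      · intro x hx
        rw [Submodule.restrictScalars_mem, Submodule.mem_span_singleton] at hx
        obtain ⟨c, rfl⟩ := hx
        refine ⟨c • e, ?_⟩
        rw [ContinuousLinearMap.coe_coe, pC_apply, inner_smul_right, hee, mul_one]
    rw [h1]
    have h2 : e ≠ 0 := by
      intro h
      rw [h, norm_zero] at he
      exact zero_ne_one he
    have h3 : Module.finrank ℝ (Submodule.span ℂ {e}) = 2 * Module.finrank ℂ (Submodule.span ℂ {e}) :=
      finrank_real_of_complex _
    rw [finrank_span_singleton h2] at h3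
    exact h3
  · intro b c u v
    rw [TC_apply, TC_apply, real_inner_smul_left, real_inner_smul_right]
    have h1 : inner ℝ (Complex.I • (u - pC e u)) v = -inner ℝ u (Complex.I • (v - pC e v)) := by
      rw [re_inner, re_inner, inner_smul_left, inner_smul_right, inner_sub_left, inner_sub_right,
        pC_apply, pC_apply, inner_smul_left, inner_smul_right, inner_conj_symm]
      have h2 : (inner ℂ u v : ℂ) - inner ℂ u e * inner ℂ e v =
          inner ℂ u v - inner ℂ e v * inner ℂ u e := by ring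
      rw [h2]
      simp
    rw [h1]
    ring
  · intro b c u
    rw [TC_apply, map_smul, hI, map_sub, hidem, sub_self, smul_zero, smul_zero]
  · intro z v hv
    have hpe : pC e e = e := by rw [pC_apply, hee, one_smul]
    have h1 : inner ℝ (Complex.I • (z - pC e z)) v = 0 := by
      have h2 := hv e (Complex.I • e)
      rw [hI, hpe, TC_apply, real_inner_self_eq_norm_sq, norm_smul, Complex.norm_I, one_mul, he,
        one_pow, one_smul] at h2
      exact h2
    have h3 : inner ℝ (Complex.I • z) v = (inner ℂ (pC e z) v).im := by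
      have h4 : z = (z - pC e z) + pC e z := by abel
      conv_lhs => rw [h4, smul_add, inner_add_left, h1, zero_add]
      exact re_inner_I _ _
    have h5 : inner ℂ (pC e z) v = (starRingEnd ℂ) (inner ℂ e z) * inner ℂ e v := by
      rw [pC_apply, inner_smul_left]
    have h6 : inner ℂ (pC e z) (pC e v) = (starRingEnd ℂ) (inner ℂ e z) * inner ℂ e v := by
      rw [pC_apply, pC_apply, inner_smul_left, inner_smul_right, hee, mul_one]
    set A := inner ℂ e z with hA
    set B := inner ℂ e v with hB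
    have h7 : ‖z‖ ^ 2 • PC n z v = ((starRingEnd ℂ) A * B).im • (Complex.I • z) := by
      rw [PC_apply, smul_smul, h3, h5]
      by_cases hz : z = 0
      · rw [hz, smul_zero, smul_zero, smul_zero]
      · have h8 : ‖z‖ ^ 2 ≠ 0 := by
          have := norm_pos_iff.2 hz
          positivity
        rw [← mul_assoc, mul_inv_cancel₀ h8, one_mul]
    have h9 : inner ℝ (Complex.I • pC e z) (pC e v) = ((starRingEnd ℂ) A * B).im := by
      rw [re_inner_I, h6]
    have h10 : inner ℝ (pC e z) v = ((starRingEnd ℂ) A * B).re := by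
      rw [re_inner, h5]
    have h11 : ‖pC e z‖ ^ 2 = Complex.normSq A := by
      rw [pC_apply, norm_smul, he, mul_one, Complex.normSq_eq_norm_sq]
    rw [h7, TC_apply, h9, h10, h11, smul_sub, smul_sub, pC_apply, pC_apply, ← hA, ← hB]
    have h12 : Complex.normSq A • B • e - ((starRingEnd ℂ) A * B).re • A • e =
        ((starRingEnd ℂ) A * B).im • Complex.I • A • e := by
      have h13 : ∀ (r : ℝ) (x : EuclideanSpace ℂ (Fin n)), r • x = (r : ℂ) • x := fun r x => rfl
      rw [h13, h13, h13, smul_smul, smul_smul, smul_smul, smul_smul, ← sub_smul]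
      congr 1
      apply Complex.ext <;> simp [Complex.normSq_apply] <;> ring
    rw [h12]
    abel

/-- an invariant function has no derivative in the direction of the rotation -/
theorem rot_vertical {e : EuclideanSpace ℂ (Fin n)} {ρ : EuclideanSpace ℂ (Fin n) → ℝ}
    (hs : ContDiffOn ℝ 3 ρ (Metric.ball 0 1))
    (hinv : ∀ z ∈ Metric.ball (0 : EuclideanSpace ℂ (Fin n)) 1, ∀ θ : ℝ,
      ρ (pC e z + Complex.exp (θ * Complex.I) • (z - pC e z)) = ρ z) :
    ∀ y ∈ Metric.ball (0 : EuclideanSpace ℂ (Fin n)) 1, ∀ b c,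
      inner ℝ (TC e (pC e b) (pC e c) y) (gradient ρ y) = 0 := by
  intro y hy b c
  have hd : DifferentiableAt ℝ ρ y :=
    (hs.contDiffAt (Metric.isOpen_ball.mem_nhds hy)).differentiableAt (by norm_num)
  have h1 : HasDerivAt (fun θ : ℝ => pC e y + Complex.exp (θ * Complex.I) • (y - pC e y))
      (Complex.I • (y - pC e y)) 0 := by
    have h2 : HasDerivAt (fun θ : ℝ => Complex.exp (θ * Complex.I)) Complex.I 0 := by
      have h3 : HasDerivAt (fun θ : ℝ => (θ : ℂ) * Complex.I) (1 * Complex.I) 0 :=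
        (Complex.ofRealCLM.hasDerivAt).mul_const Complex.I
      have h4 := h3.cexp
      simpa using h4
    exact (h2.smul_const (y - pC e y)).const_add (pC e y)
  have h5 : HasFDerivAt ρ (fderiv ℝ ρ y)
      (pC e y + Complex.exp ((0 : ℝ) * Complex.I) • (y - pC e y)) := by
    simpa using hd.hasFDerivAt
  have h6 := h5.comp_hasDerivAt (0 : ℝ) h1
  have h7 : (ρ ∘ fun θ : ℝ => pC e y + Complex.exp (θ * Complex.I) • (y - pC e y)) =
      fun _ => ρ y := by
    funext θ
    exact hinv y hy θ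
  rw [h7] at h6
  have h8 : fderiv ℝ ρ y (Complex.I • (y - pC e y)) = 0 :=
    h6.unique (hasDerivAt_const (0 : ℝ) (ρ y))
  have h9 : inner ℝ (Complex.I • (y - pC e y)) (gradient ρ y) = 0 := by
    rw [real_inner_comm, gradient, InnerProductSpace.toDual_symm_apply]
    exact h8
  rw [TC_apply, real_inner_smul_left, h9, mul_zero]

/-- hypersurfaces of complex hyperbolic space that are invariant under the rotations about a complex geodesic -/
theorem complex_case {e : EuclideanSpace ℂ (Fin n)} (he : ‖e‖ = 1)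
    {ρ : EuclideanSpace ℂ (Fin n) → ℝ} {H : ℝ}
    (hs : ContDiffOn ℝ 3 ρ (Metric.ball 0 1))
    (hinv : ∀ z ∈ Metric.ball (0 : EuclideanSpace ℂ (Fin n)) 1, ∀ θ : ℝ,
      ρ (inner ℂ e z • e + Complex.exp (θ * Complex.I) • (z - inner ℂ e z • e)) = ρ z)
    (hbd : ∃ R : ℝ, R < 1 ∧ ∀ z ∈ Metric.ball (0 : EuclideanSpace ℂ (Fin n)) 1, ρ z ≤ 0 → ‖z‖ ≤ R)
    (hne : ∃ z ∈ Metric.ball (0 : EuclideanSpace ℂ (Fin n)) 1, ρ z < 0)
    (hcon : IsPreconnected {z ∈ Metric.ball (0 : EuclideanSpace ℂ (Fin n)) 1 | ρ z = 0})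
    (hreg : ∀ z ∈ Metric.ball (0 : EuclideanSpace ℂ (Fin n)) 1, ρ z = 0 → fderiv ℝ ρ z ≠ 0)
    (heq : ∀ z ∈ Metric.ball (0 : EuclideanSpace ℂ (Fin n)) 1, ρ z = 0 →
      meanCurv (bergman n) ρ z = H) :
    ∃ (α : ℂ) (R : ℝ), ‖α‖ < 1 ∧ 1 < R ∧
      ∀ z ∈ Metric.ball (0 : EuclideanSpace ℂ (Fin n)) 1,
      (ρ z < 0 ↔ ‖1 - inner ℂ (α • e) z‖ ^ 2 < R * (1 - ‖z‖ ^ 2) * (1 - ‖α‖ ^ 2)) ∧
      (ρ z = 0 ↔ ‖1 - inner ℂ (α • e) z‖ ^ 2 = R * (1 - ‖z‖ ^ 2) * (1 - ‖α‖ ^ 2)) := by
  rw [bergman_eq] at heq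
  obtain ⟨c, R, h1, h2, h3, h4⟩ := rot_main one_pos (vertical_PC n) (axis_PC he) hs
    (rot_vertical hs hinv) hbd hne hcon hreg heq
  have h5 : inner ℂ e c • e = c := h1
  have h6 : ‖inner ℂ e c‖ = ‖c‖ := by
    conv_rhs => rw [← h5, norm_smul, he, mul_one]
  refine ⟨inner ℂ e c, R, by rw [h6]; exact h2, h3, fun z hz => ?_⟩
  have h7 : 1 - 2 * inner ℝ z c + ‖pC e z‖ ^ 2 * ‖c‖ ^ 2 =
      ‖1 - inner ℂ (inner ℂ e c • e) z‖ ^ 2 := by
    have h8 : ‖pC e z‖ ^ 2 = Complex.normSq (inner ℂ e z) := by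
      rw [pC_apply, norm_smul, he, mul_one, Complex.normSq_eq_norm_sq]
    have h9 : inner ℝ z c = (inner ℂ (inner ℂ e c • e) z).re := by
      rw [real_inner_comm, re_inner, h5]
    rw [h9, h8, ← h6, ← Complex.normSq_eq_norm_sq, ← Complex.normSq_eq_norm_sq, inner_smul_left]
    simp only [Complex.normSq_apply, Complex.sub_re, Complex.sub_im, Complex.one_re,
      Complex.one_im, Complex.mul_re, Complex.mul_im, Complex.conj_re, Complex.conj_im]
    ring
  have h10 := h4 z hz
  rw [h7, ← h6] at h10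
  exact h10

end Pool.Agent.Helper75.ROT
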