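import Pool.Agent.Helper75.ROT.Dm

/-! # ROT: the centre -/

set_option autoImplicit false
set_option linter.unusedSectionVars false
set_option linter.unusedVariables false

namespace Pool.Agent.Helper75.ROT

open Filter Topology
open scoped ContDiff
open Pool.Agent.Helper41.ALX (S2)

variable {E : Type*} [NormedAddCommGroup E] [InnerProductSpace ℝ E] [FiniteDimensional ℝ E]

/-- piece `ROT-Z1`: the hypersurface is not empty.
Proof. `E` is nontrivial (`hr`: the range of `p` is not zero). The ball is preconnected (convex); if `Φ ∘ em` had no zero in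
the ball it would be `< 0` everywhere (`hD.ne`, intermediate value theorem), but it is `> 0` at points of norm between `R`
and `1` (`hD.bd`). -/
theorem zero_ne {a : ℕ} {p : E →L[ℝ] E} (hp : Pj p)
    (hr : Module.finrank ℝ (LinearMap.range (p : E →ₗ[ℝ] E)) = a + 1) {H : ℝ} {Φ : ℝ × E → ℝ}
    (hD : Dm H p Φ) : ∃ z ∈ Metric.ball (0 : E) 1, Φ (em p z) = 0 := by
  obtain ⟨v, hv⟩ : ∃ v : E, p v ≠ 0 := by
    by_contra hcon
    push Not at hcon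
    have h2 : LinearMap.range (p : E →ₗ[ℝ] E) = ⊥ := by
      rw [LinearMap.range_eq_bot]
      ext v
      exact hcon v
    rw [h2, finrank_bot] at hr
    omega
  have hv' : ‖p v‖ ≠ 0 := norm_ne_zero_iff.mpr hv
  obtain ⟨R, hR, hbd⟩ := hD.bd
  obtain ⟨t, ht1, ht2⟩ : ∃ t : ℝ, max R 0 < t ∧ t < 1 :=
    exists_between (max_lt hR one_pos)
  have ht0 : 0 < t := lt_of_le_of_lt (le_max_right _ _) ht1
  have hnorm : ‖t • (‖p v‖⁻¹ • p v)‖ = t := by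
    rw [norm_smul, norm_smul, norm_inv, norm_norm, inv_mul_cancel₀ hv', mul_one,
      Real.norm_of_nonneg ht0.le]
  have hz1 : t • (‖p v‖⁻¹ • p v) ∈ Metric.ball (0 : E) 1 := by
    rw [mem_ball_zero_iff, hnorm]
    exact ht2
  have h1 : 0 < Φ (em p (t • (‖p v‖⁻¹ • p v))) := by
    by_contra hc
    have h2 := hbd _ hz1 (not_lt.1 hc)
    rw [hnorm] at h2
    exact absurd (lt_of_le_of_lt (le_max_left R 0) ht1) (not_lt.2 h2)
  obtain ⟨z0, hz0, h0⟩ := hD.ne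
  have hcont : ContinuousOn (fun z => Φ (em p z)) (Metric.ball 0 1) :=
    hD.sm.continuousOn.comp (em_smooth p).continuous.continuousOn fun z hz => em_Cn hp hz
  have h3 := (convex_ball (0 : E) 1).isPreconnected.intermediate_value hz0 hz1 hcont
    (Set.mem_Icc.2 ⟨h0.le, h1.le⟩)
  obtain ⟨z, hz, hz'⟩ := h3
  exact ⟨z, hz, hz'⟩

/-- `r` is admissible for `c` -/
def Adm (p : E →L[ℝ] E) (Φ : ℝ × E → ℝ) (c : E) (r : ℝ) : Prop :=
  p c = c ∧ ‖c‖ < 1 ∧ ∀ z ∈ Metric.ball (0 : E) 1, Φ (em p z) = 0 →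
    -B1 p (em p z) (em p c) ≤ r * (1 - ‖p z‖ ^ 2) * (1 - ‖c‖ ^ 2)

private theorem rotZ1_B {p : E →L[ℝ] E} (hp : Pj p) {z c : E} (hc : p c = c) :
    -B1 p (em p z) (em p c) = (1 + ‖p z‖ ^ 2) * (1 + ‖c‖ ^ 2) - 4 * inner ℝ (p z) c := by
  unfold B1
  rw [(em_W hp z).1, (em_W hp c).1, hc]
  simp only [inner_smul_left, inner_smul_right, conj_trivial]
  change -(2 * (2 * inner ℝ (p z) c) - (1 + ‖p z‖ ^ 2) * (1 + ‖p c‖ ^ 2)) = _
  rw [hc]
  ring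

private theorem rotZ1_le {p : E →L[ℝ] E} (z c : E) :
    (1 + ‖p z‖ ^ 2) * (1 + ‖c‖ ^ 2) - 4 * (‖p z‖ * ‖c‖) ≤
      (1 + ‖p z‖ ^ 2) * (1 + ‖c‖ ^ 2) - 4 * inner ℝ (p z) c := by
  have := real_inner_le_norm (p z) c
  linarith

private theorem rotZ1_lt {p : E →L[ℝ] E} (hp : Pj p) {z : E} (hz : z ∈ Metric.ball (0 : E) 1) :
    ‖p z‖ < 1 := by
  have hz1 : ‖z‖ < 1 := by simpa using hz
  have h1 := pyth hp z
  have h2 : ‖z‖ ^ 2 < 1 := by nlinarith [norm_nonneg z]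
  have h3 : ‖p z‖ ^ 2 < 1 := by nlinarith [sq_nonneg ‖z - p z‖]
  by_contra h5
  rw [not_lt] at h5
  nlinarith

private theorem rotZ1_pos {p : E →L[ℝ] E} (hp : Pj p) {z c : E} {r : ℝ}
    (hz : z ∈ Metric.ball (0 : E) 1) (hc1 : ‖c‖ < 1)
    (h : (1 + ‖p z‖ ^ 2) * (1 + ‖c‖ ^ 2) - 4 * inner ℝ (p z) c ≤
      r * (1 - ‖p z‖ ^ 2) * (1 - ‖c‖ ^ 2)) : 0 < r := by
  have hx := rotZ1_lt hp hz
  have h1 := rotZ1_le (p := p) z c
  obtain ⟨x, hxx⟩ : ∃ x, x = ‖p z‖ := ⟨_, rfl⟩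
  obtain ⟨y, hyy⟩ : ∃ y, y = ‖c‖ := ⟨_, rfl⟩
  have hx0 : 0 ≤ x := by rw [hxx]; exact norm_nonneg _
  have hy0 : 0 ≤ y := by rw [hyy]; exact norm_nonneg _
  rw [← hxx, ← hyy] at h1 h
  rw [← hxx] at hx
  rw [← hyy] at hc1
  have hxy : x * y < 1 := by nlinarith
  have h2 : 0 < (1 + x ^ 2) * (1 + y ^ 2) - 4 * (x * y) := by
    have h3 : 0 < (1 - x * y) ^ 2 := by
      have : 0 < 1 - x * y := by linarith
      positivity
    nlinarith [sq_nonneg (x - y)]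
  have h4 : 0 < r * ((1 - x ^ 2) * (1 - y ^ 2)) := by
    have e : r * (1 - x ^ 2) * (1 - y ^ 2) = r * ((1 - x ^ 2) * (1 - y ^ 2)) := by ring
    linarith
  have h5 : 0 < (1 - x ^ 2) * (1 - y ^ 2) := by
    have h6 : 0 < 1 - x ^ 2 := by nlinarith
    have h7 : 0 < 1 - y ^ 2 := by nlinarith
    positivity
  by_contra hr
  have h8 : r * ((1 - x ^ 2) * (1 - y ^ 2)) ≤ 0 :=
    mul_nonpos_of_nonpos_of_nonneg (not_lt.1 hr) h5.le
  linarith

/-- piece `ROT-Z1`: the smallest admissible number is attained.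
Proof. For `p c = c`: `- B1 (em z) (em c) = (1 + ‖p z‖²) (1 + ‖c‖²) - 4 ⟪p z, c⟫`. With `‖z‖ ≤ R < 1` on the zero set (`hD.bd`)
`r₀ = 2 / (1 - R²)` is admissible for `c = 0`. Let `K` be the set of `(c, r) ∈ E × ℝ` with `p c = c`, `‖c‖ ≤ 1`, `0 ≤ r ≤ r₀`
and `(1 + ‖p z‖²) (1 + ‖c‖²) - 4 ⟪p z, c⟫ ≤ r (1 - ‖p z‖²) (1 - ‖c‖²)` for all `z` of the zero set: closed and bounded,
hence compact, and nonempty; let `(c, r)` minimise `r` on `K`. If `‖c‖ = 1`, the inequality for the `z` of `zero_ne` says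
`2 (1 + x²) - 4 ⟪p z, c⟫ ≤ 0`, `x = ‖p z‖ < 1`, but it is `≥ 2 (1 - x)² > 0`. So `‖c‖ < 1`, and
`(1 + x²) (1 + ‖c‖²) - 4 x ‖c‖ > 0` (`1 + x² > 2 x`, `1 + ‖c‖² ≥ 2 ‖c‖`) gives `r > 0`. An admissible `(c', r')` has `0 < r'`
in the same way, and either `r' > r₀ ≥ r` or `(c', r') ∈ K`. -/
theorem min_centre {a : ℕ} {p : E →L[ℝ] E} (hp : Pj p)
    (hr : Module.finrank ℝ (LinearMap.range (p : E →ₗ[ℝ] E)) = a + 1) {H : ℝ} {Φ : ℝ × E → ℝ}
    (hD : Dm H p Φ) :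
    ∃ (c : E) (r : ℝ), 0 < r ∧ Adm p Φ c r ∧ ∀ c' r', Adm p Φ c' r' → r ≤ r' := by
  obtain ⟨z0, hz0, hΦ0⟩ := zero_ne hp hr hD
  obtain ⟨R, hR, hbd⟩ := hD.bd
  have hR0 : 0 ≤ R := (norm_nonneg z0).trans (hbd z0 hz0 hΦ0.le)
  have hR1 : 0 < 1 - R ^ 2 := by nlinarith
  obtain ⟨r0, hr0⟩ : ∃ r0 : ℝ, r0 = 2 / (1 - R ^ 2) := ⟨_, rfl⟩
  have hr0p : 0 < r0 := by rw [hr0]; positivity
  obtain ⟨K, hK⟩ : ∃ K : Set (E × ℝ), K = ({x : E × ℝ | p x.1 = x.1} ∩ {x | ‖x.1‖ ≤ 1} ∩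
    {x | 0 ≤ x.2} ∩ {x | x.2 ≤ r0}) ∩
      ⋂ z ∈ {z | z ∈ Metric.ball (0 : E) 1 ∧ Φ (em p z) = 0},
        {x : E × ℝ | (1 + ‖p z‖ ^ 2) * (1 + ‖x.1‖ ^ 2) - 4 * inner ℝ (p z) x.1 ≤
          x.2 * (1 - ‖p z‖ ^ 2) * (1 - ‖x.1‖ ^ 2)} := ⟨_, rfl⟩
  have hcl : IsClosed K := by
    rw [hK]
    refine IsClosed.inter (IsClosed.inter (IsClosed.inter (IsClosed.inter ?_ ?_) ?_) ?_) ?_
    · exact isClosed_eq (p.continuous.comp continuous_fst) continuous_fst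
    · exact isClosed_le continuous_fst.norm continuous_const
    · exact isClosed_le continuous_const continuous_snd
    · exact isClosed_le continuous_snd continuous_const
    · refine isClosed_biInter fun z _ => isClosed_le ?_ ?_
      · exact (continuous_const.mul (continuous_const.add (continuous_fst.norm.pow 2))).sub
          (continuous_const.mul (continuous_const.inner continuous_fst))
      · exact (continuous_snd.mul continuous_const).mul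
          (continuous_const.sub (continuous_fst.norm.pow 2))
  have hmem : ∀ c r, (c, r) ∈ K ↔ (p c = c ∧ ‖c‖ ≤ 1 ∧ 0 ≤ r ∧ r ≤ r0 ∧
      ∀ z ∈ Metric.ball (0 : E) 1, Φ (em p z) = 0 →
        (1 + ‖p z‖ ^ 2) * (1 + ‖c‖ ^ 2) - 4 * inner ℝ (p z) c ≤
          r * (1 - ‖p z‖ ^ 2) * (1 - ‖c‖ ^ 2)) := by
    intro c r
    rw [hK]
    constructor
    · rintro ⟨⟨⟨⟨h1, h2⟩, h3⟩, h4⟩, h5⟩
      refine ⟨h1, h2, h3, h4, fun z hz h0 => ?_⟩
      exact (Set.mem_iInter₂.1 h5) z ⟨hz, h0⟩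
    · rintro ⟨h1, h2, h3, h4, h5⟩
      refine ⟨⟨⟨⟨h1, h2⟩, h3⟩, h4⟩, Set.mem_iInter₂.2 fun z hz => ?_⟩
      exact h5 z hz.1 hz.2
  have hcp : IsCompact K := by
    refine IsCompact.of_isClosed_subset
      ((isCompact_closedBall (0 : E) 1).prod (isCompact_Icc (a := (0 : ℝ)) (b := r0))) hcl ?_
    rintro ⟨c, r⟩ hx
    obtain ⟨-, h2, h3, h4, -⟩ := (hmem c r).1 hx
    exact ⟨mem_closedBall_zero_iff.2 h2, h3, h4⟩
  have hne : K.Nonempty := by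
    refine ⟨(0, r0), (hmem 0 r0).2 ⟨map_zero _, by simp, hr0p.le, le_rfl, fun z hz h0 => ?_⟩⟩
    have h1 := hbd z hz h0.le
    have h2 := pyth hp z
    have h3 : ‖p z‖ ^ 2 ≤ R ^ 2 := by
      have : ‖z‖ ^ 2 ≤ R ^ 2 := pow_le_pow_left₀ (norm_nonneg z) h1 2
      nlinarith [sq_nonneg ‖z - p z‖]
    have h4 : 2 ≤ r0 * (1 - ‖p z‖ ^ 2) := by
      have h5 : r0 * (1 - R ^ 2) = 2 := by rw [hr0]; field_simp
      nlinarith
    rw [norm_zero, inner_zero_right]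
    nlinarith
  obtain ⟨⟨c, r⟩, hcr, hmin⟩ := hcp.exists_isMinOn hne (continuous_snd.continuousOn (s := K))
  obtain ⟨h1, h2, h3, h4, h5⟩ := (hmem c r).1 hcr
  have hc1 : ‖c‖ < 1 := by
    refine lt_of_le_of_ne h2 fun he => ?_
    have h6 := h5 z0 hz0 hΦ0
    have h7 := rotZ1_le (p := p) z0 c
    have h8 := rotZ1_lt hp hz0
    rw [he] at h6 h7
    nlinarith [sq_nonneg (1 - ‖p z0‖)]
  refine ⟨c, r, rotZ1_pos hp hz0 hc1 (h5 z0 hz0 hΦ0), ⟨h1, hc1, fun z hz h0 => ?_⟩, ?_⟩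
  · rw [rotZ1_B hp h1]
    exact h5 z hz h0
  · intro c' r' hA
    have h6 : ∀ z ∈ Metric.ball (0 : E) 1, Φ (em p z) = 0 →
        (1 + ‖p z‖ ^ 2) * (1 + ‖c'‖ ^ 2) - 4 * inner ℝ (p z) c' ≤
          r' * (1 - ‖p z‖ ^ 2) * (1 - ‖c'‖ ^ 2) := by
      intro z hz h0
      rw [← rotZ1_B hp hA.1]
      exact hA.2.2 z hz h0
    have h7 : 0 < r' := rotZ1_pos hp hz0 hA.2.1 (h6 z0 hz0 hΦ0)
    rcases le_or_gt r' r0 with h8 | h8
    · exact hmin ((hmem c' r').2 ⟨hA.1, hA.2.1.le, h7.le, h8, h6⟩)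
    · exact h4.trans h8.le

private theorem rotZ2_np {p : E →L[ℝ] E} (hp : Pj p) {z : E}
    (hz : z ∈ Metric.ball (0 : E) 1) : ‖p z‖ < 1 := by
  have hz1 : ‖z‖ < 1 := by simpa using hz
  have h2 := pyth hp z
  have h3 : ‖z‖ ^ 2 < 1 := by nlinarith [norm_nonneg z]
  have h4 : ‖p z‖ ^ 2 < 1 := by nlinarith [sq_nonneg ‖z - p z‖]
  by_contra h5
  rw [not_lt] at h5
  nlinarith

/-- piece `ROT-Z2`: every plane of symmetry contains the centre.
Proof. Let `X = em c`, `s = 1 - ‖c‖² = tt X`, `β = B1 X n ≠ 0`, `X' = rf n X`, `m = X + X'`. `B1 X X = - s²`,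
`B1 X X' = - s² - 2 β²`, so `B1 m m = - 4 (s² + β²) < 0`, `m.1 > 0` (`rf_Cn`), `m.2 = p m.2` (as `p c = c`), so `m ∈ Cn p`,
`tt m = 2 √(s² + β²) > 2 s`. `c' := pr m`: `p c' = c'`, `‖c'‖ < 1` (`pr_ball`), `em c' = sc l m` (`em_pr`), `tt (em c') = l² tt m`
i.e. `1 - ‖c'‖² = l² tt m`. Let `Φ (em z) = 0`, `t = 1 - ‖p z‖²`. Then `- B1 (em z) X ≤ r t s`; and
`B1 (em z) X' = B1 (rf n (em z)) X`, `em (rr z) = sc k (rf n (em z))` (`em_rr`), `Φ (em (rr z)) = Φ (rf n (em z)) = 0` (`Sy`), so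
`- k² B1 (rf n (em z)) X = - B1 (em (rr z)) X ≤ r (k² t) s` (`1 - ‖p (rr z)‖² = tt (em (rr z)) = k² t`). Together
`- B1 (em z) (em c') = l² (- B1 (em z) X - B1 (em z) X') ≤ 2 l² r t s = (2 s / tt m) r t (1 - ‖c'‖²)`: `(c', (2 s / tt m) r)` is
admissible, but `(2 s / tt m) r < r`. -/
theorem centre_sy {p : E →L[ℝ] E} (hp : Pj p) {H : ℝ} {Φ : ℝ × E → ℝ} (hD : Dm H p Φ) {c : E}
    {r : ℝ} (h0 : 0 < r) (h1 : Adm p Φ c r) (h2 : ∀ c' r', Adm p Φ c' r' → r ≤ r') {n : ℝ × E}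
    (hn : Un p n) (hS : Sy p Φ n) : B1 p (em p c) n = 0 := by
  by_contra hβ
  obtain ⟨hc, hc1, hA⟩ := h1
  have hcb : c ∈ Metric.ball (0 : E) 1 := by simpa using hc1
  have hX : em p c ∈ Cn p := em_Cn hp hcb
  obtain ⟨s, hs⟩ : ∃ s : ℝ, s = 1 - ‖c‖ ^ 2 := ⟨_, rfl⟩
  have hs0 : 0 < s := by
    rw [hs]
    nlinarith [norm_nonneg c]
  obtain ⟨β, hβe⟩ : ∃ β : ℝ, β = B1 p (em p c) n := ⟨_, rfl⟩
  rw [← hβe] at hβ
  have hXX : B1 p (em p c) (em p c) = -s ^ 2 := by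
    rw [B1_em_self hp, hc, ← hs]
  have hX' : rf p n (em p c) ∈ Cn p := rf_Cn hp hn hX
  have hXX' : B1 p (em p c) (rf p n (em p c)) = -s ^ 2 - 2 * β ^ 2 := by
    rw [B1_comm]
    unfold rf
    rw [B1_sub_left, B1_smul_left, B1_comm p n, ← hβe, hXX]
    ring
  obtain ⟨m, hm⟩ : ∃ m : ℝ × E, m = em p c + rf p n (em p c) := ⟨_, rfl⟩
  have hmm : B1 p m m = -(4 * (s ^ 2 + β ^ 2)) := by
    rw [hm, B1_add_left, B1_comm p (em p c), B1_comm p (rf p n (em p c)), B1_add_left,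
      B1_add_left, B1_rf hn, B1_comm p (rf p n (em p c)) (em p c), hXX, hXX']
    ring
  have hm1 : 0 < m.1 := by
    rw [hm]
    exact add_pos hX.1 hX'.1
  have hpm : p m.2 = m.2 := by
    rw [hm]
    change p (c + p c + (c + p c - (2 * B1 p (em p c) n) • n.2)) =
      c + p c + (c + p c - (2 * B1 p (em p c) n) • n.2)
    rw [map_add, map_sub, map_smul, map_add, hc, hc, hn.mem]
  have hτ : tt p m = √(4 * (s ^ 2 + β ^ 2)) := by
    unfold tt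
    rw [hmm, neg_neg]
  have hβ2 : 0 < β ^ 2 := by positivity
  have hτ0 : 0 < tt p m := by
    rw [hτ]
    positivity
  have hτ1 : 2 * s < tt p m := by
    rw [hτ]
    apply Real.lt_sqrt_of_sq_lt
    nlinarith
  have hmC : m ∈ Cn p := by
    refine ⟨hm1, ?_, ?_⟩
    · rw [hmm]
      nlinarith
    · rw [hpm, sub_self, norm_zero]
      simpa using hτ0
  have hc'b := pr_ball hp hmC
  have hc'1 : ‖pr p m‖ < 1 := by simpa using hc'b
  have hpc' : p (pr p m) = pr p m := by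
    unfold pr
    rw [hpm, sub_self, smul_zero, add_zero, map_smul, hpm]
  obtain ⟨hl, hl'⟩ := em_pr hp hmC
  obtain ⟨l, hle⟩ : ∃ l : ℝ, l = √(2 / (m.1 + tt p m)) := ⟨_, rfl⟩
  rw [← hle] at hl hl'
  have hc't : 1 - ‖pr p m‖ ^ 2 = l ^ 2 * tt p m := by
    have h3 := tt_em hp (z := pr p m) (by rw [hpc']; exact hc'1.le)
    rw [hpc', hl', tt_sc hp] at h3
    exact h3.symm
  have hadm : Adm p Φ (pr p m) (2 * s / tt p m * r) := by
    refine ⟨hpc', hc'1, fun z hz hz0 => ?_⟩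
    obtain ⟨t, ht⟩ : ∃ t : ℝ, t = 1 - ‖p z‖ ^ 2 := ⟨_, rfl⟩
    have a1 := hA z hz hz0
    rw [← ht, ← hs] at a1
    have hy := rr_ball hp hn hz
    obtain ⟨e1, -⟩ := phi_rr hp hn hD.hom hz
    have hy0 : Φ (em p (rr p n z)) = 0 := by
      rw [e1]
      exact hS z hz hz0
    have a2 := hA _ hy hy0
    obtain ⟨k, hk, hk'⟩ := em_rr hp hn hz
    have hty : 1 - ‖p (rr p n z)‖ ^ 2 = k ^ 2 * t := by
      have h3 := tt_em hp (z := rr p n z) (rotZ2_np hp hy).le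
      rw [hk', tt_sc hp, tt_rf hn, tt_em hp (rotZ2_np hp hz).le, ← ht] at h3
      exact h3.symm
    rw [hty, ← hs, hk', B1_sc hp, B1_rf_left] at a2
    have hk2 : 0 < k ^ 2 := pow_pos hk 2
    have a3 : -B1 p (em p z) (rf p n (em p c)) ≤ r * t * s := by
      have h4 : k ^ 2 * (-B1 p (em p z) (rf p n (em p c))) ≤ k ^ 2 * (r * t * s) := by
        linarith
      exact le_of_mul_le_mul_left h4 hk2
    have h5 : B1 p (em p z) (em p (pr p m)) = l ^ 2 *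
        (B1 p (em p z) (em p c) + B1 p (em p z) (rf p n (em p c))) := by
      rw [B1_comm, hl', B1_sc hp, hm, B1_add_left, B1_comm p (em p c) (em p z),
        B1_comm p (rf p n (em p c)) (em p z)]
    rw [h5, hc't, ← ht]
    have hl2 : 0 ≤ l ^ 2 := sq_nonneg l
    have h6 : -(l ^ 2 * (B1 p (em p z) (em p c) + B1 p (em p z) (rf p n (em p c)))) ≤
        l ^ 2 * (2 * (r * t * s)) := by
      have h7 : -B1 p (em p z) (em p c) + -B1 p (em p z) (rf p n (em p c)) ≤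
        2 * (r * t * s) := by linarith
      have h8 := mul_le_mul_of_nonneg_left h7 hl2
      linarith
    have h9 : 2 * s / tt p m * r * t * (l ^ 2 * tt p m) = l ^ 2 * (2 * (r * t * s)) := by
      field_simp
    rw [h9]
    exact h6
  have hle2 := h2 _ _ hadm
  have h10 : 2 * s / tt p m < 1 := by
    rw [div_lt_one hτ0]
    exact hτ1
  nlinarith

/-- piece `ROT-Z3`: a reflection that moves `c` to the origin.
Proof. `o = (1 - ‖c‖²)⁻¹ • em c`, `B1 o o = -1`, `o.1 = (1 + ‖c‖²) / (1 - ‖c‖²)`, `e₀ = (1, 0)`. If `c = 0`, `o = e₀`; take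
`m = (0, n)`, `n` a unit vector of the range of `p`. Otherwise `o.1 > 1`, `B1 (o - e₀) (o - e₀) = 2 (o.1 - 1) > 0` and
`m = (√(2 (o.1 - 1)))⁻¹ • (o - e₀)`: `B1 o (o - e₀) = o.1 - 1`, so `rf m o = o - (o - e₀) = e₀`. -/
theorem to_origin {a : ℕ} {p : E →L[ℝ] E} (hp : Pj p)
    (hr : Module.finrank ℝ (LinearMap.range (p : E →ₗ[ℝ] E)) = a + 1) {c : E} (hc : p c = c)
    (hc1 : ‖c‖ < 1) : ∃ m : ℝ × E, Un p m ∧ rf p m ((1 - ‖c‖ ^ 2)⁻¹ • em p c) = (1, 0) := by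
  by_cases h0 : c = 0
  · subst h0
    have h1 : ∃ v : E, p v ≠ 0 := by
      by_contra hcon
      push Not at hcon
      have h2 : LinearMap.range (p : E →ₗ[ℝ] E) = ⊥ := by
        rw [LinearMap.range_eq_bot]
        ext v
        exact hcon v
      rw [h2, finrank_bot] at hr
      omega
    obtain ⟨v, hv⟩ := h1
    have hv' : ‖p v‖ ≠ 0 := norm_ne_zero_iff.mpr hv
    refine ⟨(0, ‖p v‖⁻¹ • p v), Un_zero ?_ ?_, ?_⟩
    · rw [map_smul, hp.idem]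
    · rw [norm_smul, norm_inv, norm_norm, inv_mul_cancel₀ hv']
    · rw [rf_fix]
      · simp [em]
      · simp [B1, em]
  · have hc0 : 0 < ‖c‖ := norm_pos_iff.mpr h0
    have ht : 0 < ‖c‖ ^ 2 := by positivity
    have hs : 0 < 1 - ‖c‖ ^ 2 := by nlinarith
    have hin : inner ℝ c c = ‖c‖ ^ 2 := real_inner_self_eq_norm_sq c
    obtain ⟨t, htt⟩ : ∃ t : ℝ, t = ‖c‖ ^ 2 := ⟨_, rfl⟩
    rw [← htt] at ht hs hin ⊢
    obtain ⟨k, hk⟩ : ∃ k : ℝ, k ^ 2 = (1 - t) / (4 * t) :=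
      ⟨√((1 - t) / (4 * t)), Real.sq_sqrt (by positivity)⟩
    have hs' : (1 - t) ≠ 0 := hs.ne'
    have ht' : t ≠ 0 := ht.ne'
    have hB : B1 p ((1 - t)⁻¹ • em p c) (k * (2 * t / (1 - t)), (k * (2 / (1 - t))) • c) =
        k * (2 * t / (1 - t)) := by
      have h2 : p ((1 - t)⁻¹ • em p c).2 = ((1 - t)⁻¹ * 2) • c := by
        change p ((1 - t)⁻¹ • (c + p c)) = _
        rw [hc, map_smul, map_add, hc, ← two_smul ℝ c, smul_smul]
      have h3 : ((1 - t)⁻¹ • em p c).1 = (1 - t)⁻¹ * (1 + t) := by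
        change (1 - t)⁻¹ * (1 + ‖p c‖ ^ 2) = _
        rw [hc, ← htt]
      unfold B1
      rw [h2, h3]
      simp only [map_smul, hc, inner_smul_left, inner_smul_right, hin]
      simp only [conj_trivial]
      field_simp
      ring
    refine ⟨(k * (2 * t / (1 - t)), (k * (2 / (1 - t))) • c), ⟨?_, ?_⟩, ?_⟩
    · simp only [map_smul, hc]
    · unfold B1
      simp only [map_smul, hc, inner_smul_left, inner_smul_right, hin]
      simp only [conj_trivial]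
      have h5 : k * (2 / (1 - t)) * (k * (2 / (1 - t)) * t) -
          k * (2 * t / (1 - t)) * (k * (2 * t / (1 - t))) =
          k ^ 2 * ((2 / (1 - t)) ^ 2 * t - (2 * t / (1 - t)) ^ 2) := by ring
      rw [h5, hk]
      field_simp
      ring
    · unfold rf
      rw [hB]
      refine Prod.ext ?_ ?_
      · change (1 - t)⁻¹ * (1 + ‖p c‖ ^ 2) -
          2 * (k * (2 * t / (1 - t))) * (k * (2 * t / (1 - t))) = 1
        rw [hc, ← htt]
        have h5 : 2 * (k * (2 * t / (1 - t))) * (k * (2 * t / (1 - t))) =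
            k ^ 2 * (2 * (2 * t / (1 - t)) ^ 2) := by ring
        rw [h5, hk]
        field_simp
        ring
      · change (1 - t)⁻¹ • (c + p c) -
          (2 * (k * (2 * t / (1 - t)))) • ((k * (2 / (1 - t))) • c) = 0
        rw [hc, ← two_smul ℝ c, smul_smul, smul_smul, ← sub_smul]
        have h5 : (1 - t)⁻¹ * 2 - 2 * (k * (2 * t / (1 - t))) * (k * (2 / (1 - t))) =
            (1 - t)⁻¹ * 2 - k ^ 2 * (2 * (2 * t / (1 - t)) * (2 / (1 - t))) := by ring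
        have h6 : (1 - t)⁻¹ * 2 - 2 * (k * (2 * t / (1 - t))) * (k * (2 / (1 - t))) = 0 := by
          rw [h5, hk]
          field_simp
          ring
        rw [h6, zero_smul]

/-- piece `ROT-Z3`: the centred hypersurface.
Proof. `min_centre`, `to_origin`, `Dm.refl`. Let `Ψ = Φ ∘ rf m` be symmetric in `n`. Then `Φ` is symmetric in `n' = rf m n`
(`Un_rf`): for `z` with `Φ (em z) = 0` put `y = rr m z`; `em y = sc l (rf m (em z))`, so `Ψ (em y) = Φ (em z) = 0` (`hD.hom`,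
`sc_rf`, `rf_rf`), hence `0 = Ψ (rf n (em y)) = Φ (rf m (rf n (rf m (em z)))) = Φ (rf n' (em z))` (`rf_conj`). By
`centre_sy` `B1 (em c) n' = 0`, so `0 = B1 o (rf m n) = B1 (rf m o) n = B1 (1, 0) n = - n.1`. -/
theorem centred {a : ℕ} {p : E →L[ℝ] E} (hp : Pj p)
    (hr : Module.finrank ℝ (LinearMap.range (p : E →ₗ[ℝ] E)) = a + 1) {H : ℝ} {Φ : ℝ × E → ℝ}
    (hD : Dm H p Φ) :
    ∃ (c : E) (m : ℝ × E), p c = c ∧ ‖c‖ < 1 ∧ Un p m ∧
      rf p m ((1 - ‖c‖ ^ 2)⁻¹ • em p c) = (1, 0) ∧ Dm H p (fun X => Φ (rf p m X)) ∧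
      ∀ n, Un p n → Sy p (fun X => Φ (rf p m X)) n → n.1 = 0 := by
  obtain ⟨c, r, h0, h1, h2⟩ := min_centre hp hr hD
  obtain ⟨m, hm, hmo⟩ := to_origin hp hr h1.1 h1.2.1
  refine ⟨c, m, h1.1, h1.2.1, hm, hmo, Dm.refl hp hm hD, fun n hn hS => ?_⟩
  have hn' := Un_rf hp hm hn
  have hSy : Sy p Φ (rf p m n) := by
    intro z hz hz0
    have hy := rr_ball hp hm hz
    obtain ⟨-, e2⟩ := phi_rr hp hm hD.hom hz
    have h3 : Φ (rf p m (rf p n (em p (rr p m z)))) = 0 :=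
      hS (rr p m z) hy (by
        change Φ (rf p m (em p (rr p m z))) = 0
        rw [e2]
        exact hz0)
    obtain ⟨l, hl, hl'⟩ := em_rr hp hm hz
    rw [hl', ← sc_rf hp hn, ← sc_rf hp hm,
      hD.hom _ (rf_Cn hp hm (rf_Cn hp hn (rf_Cn hp hm (em_Cn hp hz)))) l hl] at h3
    rw [rf_conj hm hn]
    exact h3
  have h4 := centre_sy hp hD h0 h1 h2 hn' hSy
  have hs : 0 < 1 - ‖c‖ ^ 2 := by nlinarith [norm_nonneg c, h1.2.1]
  rw [← B1_rf_left] at h4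
  have h5 : rf p m (em p c) = (1 - ‖c‖ ^ 2) • ((1 : ℝ), (0 : E)) := by
    rw [← hmo, ← rf_smul, smul_smul, mul_inv_cancel₀ hs.ne', one_smul]
  have h6 : B1 p ((1 : ℝ), (0 : E)) n = -n.1 := by simp [B1]
  rw [h5, B1_smul_left, h6] at h4
  rcases mul_eq_zero.mp h4 with h7 | h7
  · exact absurd h7 hs.ne'
  · linarith

end Pool.Agent.Helper75.ROT
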