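import Pool.Agent.Helper75.ROT.Mod

/-! # ROT: the operator in the model is covariant under reflections and scaling -/

set_option autoImplicit false
set_option linter.unusedSectionVars false
set_option linter.unusedVariables false

namespace Pool.Agent.Helper75.ROT

open Filter Topology
open scoped ContDiff

variable {E : Type*} [NormedAddCommGroup E] [InnerProductSpace ℝ E] [FiniteDimensional ℝ E]

/-! ### piece `ROT-V1` -/

theorem vg_inner (l : E →L[ℝ] ℝ) (u : E) : inner ℝ (vg l) u = l u :=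
  InnerProductSpace.toDual_symm_apply

theorem lin_dec (l : (ℝ × E) →L[ℝ] ℝ) (X : ℝ × E) :
    l X = X.1 * l (1, 0) + inner ℝ (vg (l.comp (ContinuousLinearMap.inr ℝ ℝ E))) X.2 := by
  rw [vg_inner]
  have h1 : X = X.1 • ((1 : ℝ), (0 : E)) + ((0 : ℝ), X.2) := by
    apply Prod.ext
    · simp
    · simp
  conv_lhs => rw [h1]
  rw [map_add, map_smul, smul_eq_mul]
  rfl

private theorem rotV1_pp {p : E →L[ℝ] E} (hp : Pj p) (v : E) :
    inner ℝ v (p v) = ‖p v‖ ^ 2 := by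
  rw [← real_inner_self_eq_norm_sq, hp.symm, hp.idem]

private theorem rotV1_pw {p : E →L[ℝ] E} (hp : Pj p) (v : E) :
    inner ℝ v (v - p v) = ‖v - p v‖ ^ 2 := by
  have h1 : inner ℝ (p v) (v - p v) = 0 := by
    rw [hp.symm, map_sub, hp.idem, sub_self, inner_zero_right]
  rw [← real_inner_self_eq_norm_sq, inner_sub_left, h1, sub_zero]

/-- `l (GV p X l) = 4 tt bV + ‖v - p v‖²`, `v = vg (l ∘ inr)` -/
theorem l_GV {p : E →L[ℝ] E} (hp : Pj p) (X : ℝ × E) (l : (ℝ × E) →L[ℝ] ℝ) :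
    l (GV p X l) = 4 * tt p X * bV p l +
      ‖vg (l.comp (ContinuousLinearMap.inr ℝ ℝ E)) -
        p (vg (l.comp (ContinuousLinearMap.inr ℝ ℝ E)))‖ ^ 2 := by
  rw [lin_dec l (GV p X l)]
  unfold GV bV
  simp only
  set v := vg (l.comp (ContinuousLinearMap.inr ℝ ℝ E)) with hv
  rw [inner_add_right, inner_smul_right, rotV1_pp hp, rotV1_pw hp]
  ring

/-- the value of `rf` -/
private theorem rotV1_l {p : E →L[ℝ] E} {n : ℝ × E} {l l' : (ℝ × E) →L[ℝ] ℝ}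
    (h : ∀ u, l' u = l (rf p n u)) (u : ℝ × E) : l' u = l u - 2 * B1 p u n * l n := by
  rw [h, rf, map_sub, map_smul, smul_eq_mul]

private theorem rotV1_g {p : E →L[ℝ] E} {n : ℝ × E} {l l' : (ℝ × E) →L[ℝ] ℝ}
    (h : ∀ u, l' u = l (rf p n u)) : l' (1, 0) = l (1, 0) + 2 * n.1 * l n := by
  rw [rotV1_l h]
  unfold B1
  simp only [map_zero, inner_zero_left, one_mul]
  ring

private theorem rotV1_B {p : E →L[ℝ] E} (hp : Pj p) {n : ℝ × E} (hn : Un p n) (t : ℝ) (u : E) :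
    B1 p (t, u) n = inner ℝ u n.2 - t * n.1 := by
  unfold B1
  simp only
  rw [hn.mem, hp.symm, hn.mem]

private theorem rotV1_v {p : E →L[ℝ] E} (hp : Pj p) {n : ℝ × E} (hn : Un p n)
    {l l' : (ℝ × E) →L[ℝ] ℝ} (h : ∀ u, l' u = l (rf p n u)) :
    vg (l'.comp (ContinuousLinearMap.inr ℝ ℝ E)) =
      vg (l.comp (ContinuousLinearMap.inr ℝ ℝ E)) - (2 * l n) • n.2 := by
  refine ext_inner_right ℝ fun u => ?_
  rw [vg_inner, inner_sub_left, vg_inner, inner_smul_left]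
  change l' (0, u) = l (0, u) - _
  rw [rotV1_l h, rotV1_B hp hn, zero_mul, sub_zero, real_inner_comm]
  simp only [conj_trivial]
  ring

private theorem rotV1_one {p : E →L[ℝ] E} {n : ℝ × E} (hn : Un p n) :
    ‖n.2‖ ^ 2 - n.1 ^ 2 = 1 := by
  have h1 := hn.one
  unfold B1 at h1
  rw [hn.mem, real_inner_self_eq_norm_sq] at h1
  rw [← h1]
  ring

/-- Invariance under the reflection. With `v = vg (l ∘ inr)`, `g = l (1, 0)`: `l' u = l u - 2 B1(u, n) l n` gives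
`l' (1, 0) = g + 2 n₁ l n` (`n = (n₁, n₂)`), `vg (l' ∘ inr) = v - 2 (l n) n₂` (as `p n₂ = n₂`), so
`GV p X l' = GV p X l - 8 tt (l n) n`, and `B1 (GV p X l) n = 4 tt (l n)`. -/
theorem GV_rf {p : E →L[ℝ] E} (hp : Pj p) {n : ℝ × E} (hn : Un p n) (X : ℝ × E)
    {l l' : (ℝ × E) →L[ℝ] ℝ} (h : ∀ u, l' u = l (rf p n u)) :
    GV p X l' = rf p n (GV p (rf p n X) l) := by
  have hB : B1 p (GV p (rf p n X) l) n = 4 * tt p X * l n := by
    unfold GV
    rw [rotV1_B hp hn, tt_rf hn, lin_dec l n, inner_add_left, inner_smul_left,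
      hp.symm _ n.2, hn.mem, inner_sub_left, hp.symm _ n.2, hn.mem, sub_self]
    simp only [conj_trivial]
    ring
  rw [rf, hB]
  unfold GV
  rw [tt_rf hn, rotV1_g h, rotV1_v hp hn h]
  set v := vg (l.comp (ContinuousLinearMap.inr ℝ ℝ E)) with hv
  apply Prod.ext
  · simp only [Prod.fst_sub, Prod.smul_fst, smul_eq_mul]
    ring
  · simp only [Prod.snd_sub, Prod.smul_snd, map_sub, map_smul, hn.mem]
    module

/-- `bV` is the `B1` norm of the covector on the line: with the formulas of `GV_rf`,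
`‖p v - 2 (l n) n₂‖² - (g + 2 n₁ l n)² = bV - 4 (l n) (⟪p v, n₂⟫ + g n₁) + 4 (l n)² B1 n n = bV`. -/
theorem bV_rf {p : E →L[ℝ] E} (hp : Pj p) {n : ℝ × E} (hn : Un p n)
    {l l' : (ℝ × E) →L[ℝ] ℝ} (h : ∀ u, l' u = l (rf p n u)) : bV p l' = bV p l := by
  unfold bV
  rw [rotV1_g h, rotV1_v hp hn h]
  have h1 := lin_dec l n
  set v := vg (l.comp (ContinuousLinearMap.inr ℝ ℝ E)) with hv
  have h2 : inner ℝ (p v) n.2 = inner ℝ v n.2 := by rw [hp.symm, hn.mem]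
  have h3 := rotV1_one hn
  rw [map_sub, map_smul, hn.mem, norm_sub_sq_real, inner_smul_right, h2, norm_smul, mul_pow,
    Real.norm_eq_abs, sq_abs]
  have h4 : inner ℝ v n.2 = l n - n.1 * l (1, 0) := by linarith
  rw [h4]
  linear_combination 4 * (l n) ^ 2 * h3

/-- The trace. `rf n (0, p e_i) = (0, p e_i) - 2 ⟪e_i, n₂⟫ n`, `rf n (1, 0) = (1, 0) + 2 n₁ n`,
`rf n (0, e_i - p e_i) = (0, e_i - p e_i)`. `∑ i, K (rf (0, p e_i)) (rf (0, p e_i)) = ∑ i, K (0, p e_i) (0, p e_i)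
- 2 K (0, n₂) n - 2 K n (0, n₂) + 4 ‖n₂‖² K n n` (`∑ ⟪e_i, n₂⟫ p e_i = n₂`), minus
`K (1,0) (1,0) + 2 n₁ K (1,0) n + 2 n₁ K n (1,0) + 4 n₁² K n n`; the correction is
`- 4 K n n + 4 (B1 n n) K n n = 0`. -/
theorem trV_rf {p : E →L[ℝ] E} (hp : Pj p) {n : ℝ × E} (hn : Un p n) (X : ℝ × E)
    {K K' : (ℝ × E) →L[ℝ] (ℝ × E) →L[ℝ] ℝ} (h : ∀ u v, K' u v = K (rf p n u) (rf p n v)) :
    trV p X K' = trV p (rf p n X) K := by
  have hK : ∀ u, K' u u = K u u - 2 * B1 p u n * (K u n + K n u) + 4 * B1 p u n ^ 2 * K n n := by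
    intro u
    rw [h, rf]
    simp only [map_sub, map_smul, sub_apply, smul_apply,
      smul_eq_mul]
    ring
  have hW : ∀ u : E, K' (0, u - p u) (0, u - p u) = K (0, u - p u) (0, u - p u) := by
    intro u
    rw [hK, rotV1_B hp hn]
    have h1 : inner ℝ (u - p u) n.2 = 0 := by
      rw [inner_sub_left, hp.symm, hn.mem, sub_self]
    rw [h1]
    ring
  have hb : ∀ i, B1 p ((0 : ℝ), p (stdOrthonormalBasis ℝ E i)) n =
      inner ℝ (stdOrthonormalBasis ℝ E i) n.2 := by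
    intro i
    rw [rotV1_B hp hn, hp.symm, hn.mem, zero_mul, sub_zero]
  have hs : ∑ i, inner ℝ (stdOrthonormalBasis ℝ E i) n.2 • ((0 : ℝ),
      p (stdOrthonormalBasis ℝ E i)) = ((0 : ℝ), n.2) := by
    have h1 : p (∑ i, inner ℝ (stdOrthonormalBasis ℝ E i) n.2 • stdOrthonormalBasis ℝ E i) =
        n.2 := by
      rw [OrthonormalBasis.sum_repr' (stdOrthonormalBasis ℝ E) n.2, hn.mem]
    rw [map_sum] at h1
    apply Prod.ext
    · rw [Prod.fst_sum]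
      simp
    · rw [Prod.snd_sum]
      simp only [Prod.smul_snd]
      simpa only [map_smul] using h1
  have hs1 : ∑ i, inner ℝ (stdOrthonormalBasis ℝ E i) n.2 *
      (K (0, p (stdOrthonormalBasis ℝ E i)) n + K n (0, p (stdOrthonormalBasis ℝ E i))) =
      K (0, n.2) n + K n (0, n.2) := by
    rw [← hs]
    simp only [map_sum, map_smul, sum_apply, smul_apply,
      smul_eq_mul, mul_add, Finset.sum_add_distrib]
  have hs2 : ∑ i, (inner ℝ (stdOrthonormalBasis ℝ E i) n.2) ^ 2 = ‖n.2‖ ^ 2 := by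
    have h1 := OrthonormalBasis.sum_sq_norm_inner_right (stdOrthonormalBasis ℝ E) n.2
    rw [← h1]
    refine Finset.sum_congr rfl fun i _ => ?_
    rw [Real.norm_eq_abs, sq_abs]
  have hsum : ∑ i, K' (0, p (stdOrthonormalBasis ℝ E i)) (0, p (stdOrthonormalBasis ℝ E i)) =
      (∑ i, K (0, p (stdOrthonormalBasis ℝ E i)) (0, p (stdOrthonormalBasis ℝ E i))) -
        2 * (K (0, n.2) n + K n (0, n.2)) + 4 * ‖n.2‖ ^ 2 * K n n := by
    rw [← hs1, ← hs2, Finset.mul_sum, Finset.mul_sum, Finset.sum_mul, ← Finset.sum_sub_distrib,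
      ← Finset.sum_add_distrib]
    refine Finset.sum_congr rfl fun i _ => ?_
    rw [hK, hb]
    ring
  have hone : K' (1, 0) (1, 0) = K (1, 0) (1, 0) + 2 * n.1 * (K (1, 0) n + K n (1, 0)) +
      4 * n.1 ^ 2 * K n n := by
    rw [hK, rotV1_B hp hn, inner_zero_left]
    ring
  have hn1 : n = n.1 • ((1 : ℝ), (0 : E)) + ((0 : ℝ), n.2) := by
    apply Prod.ext
    · simp
    · simp
  have hnn : K n n = n.1 * K (1, 0) n + K (0, n.2) n := by
    conv_lhs =>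
      rw [show K n = K (n.1 • ((1 : ℝ), (0 : E)) + ((0 : ℝ), n.2)) from congrArg K hn1]
    rw [map_add, map_smul, add_apply, smul_apply,
      smul_eq_mul]
  have hnn' : K n n = n.1 * K n (1, 0) + K n (0, n.2) := by
    have h1 : K n n = K n (n.1 • ((1 : ℝ), (0 : E)) + ((0 : ℝ), n.2)) := congrArg (K n) hn1
    rw [h1, map_add, map_smul, smul_eq_mul]
  have h3 := rotV1_one hn
  unfold trV
  rw [tt_rf hn, hsum, hone]
  simp only [hW]
  linear_combination 4 * tt p X * (2 * hnn + 2 * hnn' + 4 * K n n * h3)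

theorem EM_rf {p : E →L[ℝ] E} (hp : Pj p) {n : ℝ × E} (hn : Un p n) (X : ℝ × E)
    {l l' : (ℝ × E) →L[ℝ] ℝ} (h : ∀ u, l' u = l (rf p n u))
    {K K' : (ℝ × E) →L[ℝ] (ℝ × E) →L[ℝ] ℝ} (hK : ∀ u v, K' u v = K (rf p n u) (rf p n v)) :
    EM p X l' K' = EM p (rf p n X) l K := by
  have h1 := GV_rf hp hn X h
  have h2 : l' (GV p X l') = l (GV p (rf p n X) l) := by
    rw [h1, h, rf_rf hn]
  have h3 : K' (GV p X l') (GV p X l') = K (GV p (rf p n X) l) (GV p (rf p n X) l) := by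
    rw [h1, hK, rf_rf hn]
  have h4 : l' (0, X.2 - p X.2) = l (0, (rf p n X).2 - p (rf p n X).2) := by
    rw [rf_W hn, rotV1_l h, rotV1_B hp hn, inner_sub_left, hp.symm, hn.mem]
    ring
  unfold EM
  rw [h2, h3, h4, trV_rf hp hn X hK, bV_rf hp hn h]

/-! ### piece `ROT-V2` -/

private theorem rotV2_inner (l : E →L[ℝ] ℝ) (u : E) : inner ℝ (vg l) u = l u := by
  rw [vg, InnerProductSpace.toDual_symm_apply]

private theorem rotV2_sc_zero (p : E →L[ℝ] E) (c : ℝ) (u : E) :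
    sc p c (0, u) = (0, c ^ 2 • p u + c • (u - p u)) := by
  simp [sc]

private theorem rotV2_sc_p {p : E →L[ℝ] E} (hp : Pj p) (c : ℝ) (u : E) :
    sc p c (0, p u) = c ^ 2 • ((0, p u) : ℝ × E) := by
  simp [sc, hp.idem]

private theorem rotV2_sc_q {p : E →L[ℝ] E} (hp : Pj p) (c : ℝ) (u : E) :
    sc p c (0, u - p u) = c • ((0, u - p u) : ℝ × E) := by
  simp [sc, hp.idem]

private theorem rotV2_sc_one (p : E →L[ℝ] E) (c : ℝ) :
    sc p c (1, 0) = c ^ 2 • ((1, 0) : ℝ × E) := by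
  simp [sc]

private theorem rotV2_tt {p : E →L[ℝ] E} (hp : Pj p) (c : ℝ) (X : ℝ × E) :
    tt p (sc p c X) = c ^ 2 * tt p X := by
  have h : -B1 p (sc p c X) (sc p c X) = (c ^ 2) ^ 2 * (-B1 p X X) := by
    simp only [B1, sc, map_add, map_smul, map_sub, hp.idem, sub_self, smul_zero, add_zero,
      inner_smul_left, inner_smul_right]
    simp only [conj_trivial]
    ring
  rw [tt, tt, h, Real.sqrt_mul (by positivity), Real.sqrt_sq (by positivity)]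

private theorem rotV2_vg {p : E →L[ℝ] E} (hp : Pj p) {c : ℝ}
    {l l' : (ℝ × E) →L[ℝ] ℝ} (h : ∀ u, l' u = l (sc p c u)) :
    vg (l'.comp (ContinuousLinearMap.inr ℝ ℝ E)) =
      c ^ 2 • p (vg (l.comp (ContinuousLinearMap.inr ℝ ℝ E))) +
        c • (vg (l.comp (ContinuousLinearMap.inr ℝ ℝ E)) -
          p (vg (l.comp (ContinuousLinearMap.inr ℝ ℝ E)))) := by
  apply ext_inner_right ℝ
  intro u
  rw [rotV2_inner]
  have h1 : (l'.comp (ContinuousLinearMap.inr ℝ ℝ E)) u =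
      (l.comp (ContinuousLinearMap.inr ℝ ℝ E)) (c ^ 2 • p u + c • (u - p u)) := by
    simp only [ContinuousLinearMap.comp_apply, ContinuousLinearMap.inr_apply, h, rotV2_sc_zero]
  rw [h1, ← rotV2_inner (l.comp (ContinuousLinearMap.inr ℝ ℝ E))]
  simp only [inner_add_left, inner_add_right, inner_sub_left, inner_sub_right, inner_smul_left,
    inner_smul_right, hp.symm, conj_trivial]

private theorem rotV2_GV {p : E →L[ℝ] E} (hp : Pj p) {c : ℝ} (X : ℝ × E)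
    {l l' : (ℝ × E) →L[ℝ] ℝ} (h : ∀ u, l' u = l (sc p c u)) :
    sc p c (GV p X l') = c ^ 2 • GV p (sc p c X) l := by
  have h10 : l' (1, 0) = c ^ 2 * l (1, 0) := by
    rw [h, rotV2_sc_one, map_smul, smul_eq_mul]
  rw [GV, GV, rotV2_vg hp h, h10, rotV2_tt hp]
  generalize tt p X = t
  simp only [sc]
  ext
  · simp only [Prod.smul_mk, smul_eq_mul]
    ring
  · simp only [map_add, map_smul, map_sub, hp.idem, sub_self, add_zero,
      Prod.smul_mk, smul_add, smul_smul, smul_sub]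
    module

private theorem rotV2_trV {p : E →L[ℝ] E} (hp : Pj p) {c : ℝ} (X : ℝ × E)
    {K K' : (ℝ × E) →L[ℝ] (ℝ × E) →L[ℝ] ℝ} (hK : ∀ u v, K' u v = K (sc p c u) (sc p c v)) :
    trV p X K' = c ^ 2 * trV p (sc p c X) K := by
  have h1 : ∀ i, K' (0, p (stdOrthonormalBasis ℝ E i)) (0, p (stdOrthonormalBasis ℝ E i)) =
      (c ^ 2) ^ 2 * K (0, p (stdOrthonormalBasis ℝ E i)) (0, p (stdOrthonormalBasis ℝ E i)) := by
    intro i
    rw [hK, rotV2_sc_p hp]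
    simp only [map_smul, smul_apply, smul_eq_mul]
    ring
  have h2 : K' (1, 0) (1, 0) = (c ^ 2) ^ 2 * K (1, 0) (1, 0) := by
    rw [hK, rotV2_sc_one]
    simp only [map_smul, smul_apply, smul_eq_mul]
    ring
  have h3 : ∀ i, K' (0, stdOrthonormalBasis ℝ E i - p (stdOrthonormalBasis ℝ E i))
      (0, stdOrthonormalBasis ℝ E i - p (stdOrthonormalBasis ℝ E i)) =
      c ^ 2 * K (0, stdOrthonormalBasis ℝ E i - p (stdOrthonormalBasis ℝ E i))
      (0, stdOrthonormalBasis ℝ E i - p (stdOrthonormalBasis ℝ E i)) := by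
    intro i
    rw [hK, rotV2_sc_q hp]
    simp only [map_smul, smul_apply, smul_eq_mul]
    ring
  simp only [trV, h1, h2, h3, rotV2_tt hp, ← Finset.mul_sum]
  ring

private theorem rotV2_bV {p : E →L[ℝ] E} (hp : Pj p) {c : ℝ}
    {l l' : (ℝ × E) →L[ℝ] ℝ} (h : ∀ u, l' u = l (sc p c u)) :
    bV p l' = (c ^ 2) ^ 2 * bV p l := by
  have h10 : l' (1, 0) = c ^ 2 * l (1, 0) := by
    rw [h, rotV2_sc_one, map_smul, smul_eq_mul]
  simp only [bV, rotV2_vg hp h, h10, map_add, map_smul, map_sub, hp.idem, sub_self, smul_zero,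
    add_zero, norm_smul, Real.norm_eq_abs, abs_pow, mul_pow, sq_abs]
  ring

/-- Scaling. `l' (1, 0) = c² l (1, 0)`, `vg (l' ∘ inr) = c² p v + c (v - p v)`, `tt (sc c X) = c² tt X`; so
`sc c (GV p X l') = c² GV p (sc c X) l`, `l' (GV p X l') = c² l (GV p (sc c X) l)`, `trV p X K' = c² trV p (sc c X) K`,
`bV l' = c⁴ bV l`, `l' (0, W) = l (0, c W)` with `c W` the component of `sc c X`. -/
theorem EM_sc {p : E →L[ℝ] E} (hp : Pj p) {c : ℝ} (hc : 0 < c) (X : ℝ × E)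
    {l l' : (ℝ × E) →L[ℝ] ℝ} (h : ∀ u, l' u = l (sc p c u))
    {K K' : (ℝ × E) →L[ℝ] (ℝ × E) →L[ℝ] ℝ} (hK : ∀ u v, K' u v = K (sc p c u) (sc p c v)) :
    EM p X l' K' = c * EM p (sc p c X) l K := by
  have hG := rotV2_GV hp X h
  have h1 : l' (GV p X l') = c ^ 2 * l (GV p (sc p c X) l) := by
    rw [h, hG, map_smul, smul_eq_mul]
  have h2 : K' (GV p X l') (GV p X l') =
      (c ^ 2) ^ 2 * K (GV p (sc p c X) l) (GV p (sc p c X) l) := by
    rw [hK, hG]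
    simp only [map_smul, smul_apply, smul_eq_mul]
    ring
  have h3 : l' (0, X.2 - p X.2) = l (0, (sc p c X).2 - p (sc p c X).2) := by
    rw [h, rotV2_sc_q hp]
    congr 1
    simp [sc, hp.idem]
  simp only [EM, h1, h2, h3, rotV2_trV hp X hK, rotV2_bV hp h]
  rw [Real.sqrt_mul (by positivity), Real.sqrt_sq hc.le]
  have hc2 : c ≠ 0 := hc.ne'
  by_cases h0 : l (GV p (sc p c X) l) = 0
  · simp [h0]
  · by_cases h4 : √(l (GV p (sc p c X) l)) = 0
    · simp [h4]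
    · field_simp

/-! ### piece `ROT-V3` -/

/-- chain rule for a linear map -/
theorem chainL {Φ : ℝ × E → ℝ} {L : (ℝ × E) →L[ℝ] (ℝ × E)} {X : ℝ × E}
    (h : ContDiffAt ℝ 3 Φ (L X)) :
    (∀ u, fderiv ℝ (fun Y => Φ (L Y)) X u = fderiv ℝ Φ (L X) (L u)) ∧
    ∀ u v, SV (fun Y => Φ (L Y)) X u v = SV Φ (L X) (L u) (L v) := by
  have key : ∀ Y : ℝ × E, ContDiffAt ℝ 3 Φ (L Y) →
      fderiv ℝ (fun Z => Φ (L Z)) Y = (fderiv ℝ Φ (L Y)).comp L := by
    intro Y hY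
    have h1 := (hY.differentiableAt (by norm_num)).hasFDerivAt.comp Y (L.hasFDerivAt (x := Y))
    exact h1.fderiv
  refine ⟨fun u => by rw [key X h]; rfl, fun u v => ?_⟩
  have hev : (fun Y => fderiv ℝ (fun Z => Φ (L Z)) Y) =ᶠ[𝓝 X]
      fun Y => (fderiv ℝ Φ (L Y)).comp L := by
    have h1 : ∀ᶠ Z in 𝓝 (L X), ContDiffAt ℝ 3 Φ Z := h.eventually (by decide)
    have h2 := (L.continuous.continuousAt (x := X)).eventually h1
    filter_upwards [h2] with Y hY using key Y hY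
  have h3 : DifferentiableAt ℝ (fderiv ℝ Φ) (L X) :=
    (h.fderiv_right (m := 1) (by norm_num)).differentiableAt (by norm_num)
  have h4 : HasFDerivAt (fun Y => fderiv ℝ Φ (L Y))
      ((fderiv ℝ (fderiv ℝ Φ) (L X)).comp L) X :=
    HasFDerivAt.comp (g := fderiv ℝ Φ) (f := fun Y => L Y) X h3.hasFDerivAt L.hasFDerivAt
  have h5 := ((ContinuousLinearMap.compL ℝ (ℝ × E) (ℝ × E) ℝ).flip L).hasFDerivAt
    (x := fderiv ℝ Φ (L X))
  have h6 := HasFDerivAt.comp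
    (g := fun M => (ContinuousLinearMap.compL ℝ (ℝ × E) (ℝ × E) ℝ).flip L M)
    (f := fun Y => fderiv ℝ Φ (L Y)) X h5 h4
  change fderiv ℝ (fun Y => fderiv ℝ (fun Z => Φ (L Z)) Y) X u v = _
  rw [hev.fderiv_eq]
  have h7 : HasFDerivAt (fun Y => (fderiv ℝ Φ (L Y)).comp L)
      (((ContinuousLinearMap.compL ℝ (ℝ × E) (ℝ × E) ℝ).flip L).comp
        ((fderiv ℝ (fderiv ℝ Φ) (L X)).comp L)) X := h6
  rw [h7.fderiv]
  rfl

/-- `rf p n` as a continuous linear map -/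
theorem exists_rfL (p : E →L[ℝ] E) (n : ℝ × E) :
    ∃ L : (ℝ × E) →L[ℝ] (ℝ × E), ∀ X, L X = rf p n X := by
  refine ⟨ContinuousLinearMap.id ℝ (ℝ × E) - ((2 : ℝ) •
    ((innerSL ℝ (p n.2)).comp (p.comp (ContinuousLinearMap.snd ℝ ℝ E)) -
      n.1 • ContinuousLinearMap.fst ℝ ℝ E)).smulRight n, fun X => ?_⟩
  unfold rf B1
  change X - ((2 : ℝ) * (inner ℝ (p n.2) (p X.2) - n.1 * X.1)) • n = _
  rw [real_inner_comm, mul_comm n.1]

/-- `sc p c` as a continuous linear map -/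
theorem exists_scL (p : E →L[ℝ] E) (c : ℝ) :
    ∃ L : (ℝ × E) →L[ℝ] (ℝ × E), ∀ X, L X = sc p c X := by
  refine ⟨(c ^ 2 • ContinuousLinearMap.fst ℝ ℝ E).prod
    (c ^ 2 • p.comp (ContinuousLinearMap.snd ℝ ℝ E) +
      c • (ContinuousLinearMap.snd ℝ ℝ E - p.comp (ContinuousLinearMap.snd ℝ ℝ E))),
    fun X => ?_⟩
  rfl

private theorem rotV3_at {p : E →L[ℝ] E} {Φ : ℝ × E → ℝ} (sm : ContDiffOn ℝ 3 Φ (Cn p))
    {X : ℝ × E} (hX : X ∈ Cn p) : ContDiffAt ℝ 3 Φ X :=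
  sm.contDiffAt ((Cn_open p).mem_nhds hX)

theorem EE_rf {p : E →L[ℝ] E} (hp : Pj p) {n : ℝ × E} (hn : Un p n) {Φ : ℝ × E → ℝ}
    (sm : ContDiffOn ℝ 3 Φ (Cn p)) {X : ℝ × E} (hX : X ∈ Cn p) :
    EE p (fun Y => Φ (rf p n Y)) X = EE p Φ (rf p n X) := by
  obtain ⟨L, hL⟩ := exists_rfL p n
  have h1 : (fun Y => Φ (rf p n Y)) = fun Y => Φ (L Y) := by
    funext Y
    rw [hL]
  have h2 := chainL (Φ := Φ) (L := L) (X := X) (by
    rw [hL]
    exact rotV3_at sm (rf_Cn hp hn hX))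
  unfold EE
  rw [h1]
  refine EM_rf hp hn X (fun u => ?_) (fun u v => ?_)
  · rw [h2.1 u, hL, hL]
  · rw [h2.2 u v, hL, hL, hL]

theorem fderiv_rf {p : E →L[ℝ] E} (hp : Pj p) {n : ℝ × E} (hn : Un p n) {Φ : ℝ × E → ℝ}
    (sm : ContDiffOn ℝ 3 Φ (Cn p)) {X : ℝ × E} (hX : X ∈ Cn p) (u : ℝ × E) :
    fderiv ℝ (fun Y => Φ (rf p n Y)) X u = fderiv ℝ Φ (rf p n X) (rf p n u) := by
  obtain ⟨L, hL⟩ := exists_rfL p n
  have h1 : (fun Y => Φ (rf p n Y)) = fun Y => Φ (L Y) := by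
    funext Y
    rw [hL]
  have h2 := chainL (Φ := Φ) (L := L) (X := X) (by
    rw [hL]
    exact rotV3_at sm (rf_Cn hp hn hX))
  rw [h1, h2.1 u, hL, hL]

/-- `Φ ∘ sc c = Φ` near `X` (`Cn p` is open), `chainL`, `EM_sc` -/
theorem EE_sc {p : E →L[ℝ] E} (hp : Pj p) {Φ : ℝ × E → ℝ} (sm : ContDiffOn ℝ 3 Φ (Cn p))
    (hom : ∀ X ∈ Cn p, ∀ l : ℝ, 0 < l → Φ (sc p l X) = Φ X) {c : ℝ} (hc : 0 < c) {X : ℝ × E}
    (hX : X ∈ Cn p) : EE p Φ X = c * EE p Φ (sc p c X) := by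
  obtain ⟨L, hL⟩ := exists_scL p c
  have h1 : Φ =ᶠ[𝓝 X] fun Y => Φ (L Y) := by
    filter_upwards [(Cn_open p).mem_nhds hX] with Y hY
    rw [hL, hom Y hY c hc]
  have h2 := chainL (Φ := Φ) (L := L) (X := X) (by
    rw [hL]
    exact rotV3_at sm (sc_Cn hp hc hX))
  have h3 : (fun Y => fderiv ℝ Φ Y) =ᶠ[𝓝 X] fun Y => fderiv ℝ (fun Z => Φ (L Z)) Y :=
    h1.fderiv
  have h4 : SV Φ X = SV (fun Y => Φ (L Y)) X := h3.fderiv_eq
  unfold EE
  refine EM_sc hp hc X (fun u => ?_) (fun u v => ?_)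
  · rw [h1.fderiv_eq, h2.1 u, hL, hL]
  · rw [h4, h2.2 u v, hL, hL, hL]

/-- Euler relations. Derivative at `l = 1` of `Φ (sc l X) = Φ X`: `d/dl sc l X = (2 X₁, X₂ + p X₂)` at `l = 1`; the first
relation holds on the open set `Cn p`; differentiate it in the direction `v` (the derivative of
`X ↦ (2 X₁, X₂ + p X₂)` is `v ↦ (2 v₁, v₂ + p v₂)`); `SV` is symmetric (`ContDiffAt.isSymmSndFDerivAt`). -/
theorem euler {p : E →L[ℝ] E} (hp : Pj p) {Φ : ℝ × E → ℝ} (sm : ContDiffOn ℝ 3 Φ (Cn p))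
    (hom : ∀ X ∈ Cn p, ∀ l : ℝ, 0 < l → Φ (sc p l X) = Φ X) {X : ℝ × E} (hX : X ∈ Cn p) :
    fderiv ℝ Φ X (2 * X.1, X.2 + p X.2) = 0 ∧
    (∀ u v, SV Φ X u v = SV Φ X v u) ∧
    ∀ v, SV Φ X (2 * X.1, X.2 + p X.2) v = -fderiv ℝ Φ X (2 * v.1, v.2 + p v.2) := by
  have first : ∀ Y ∈ Cn p, fderiv ℝ Φ Y (2 * Y.1, Y.2 + p Y.2) = 0 := by
    intro Y hY
    have h1 : HasDerivAt (fun l : ℝ => sc p l Y)
        ((2 * Y.1, (2 : ℝ) • p Y.2 + (1 : ℝ) • (Y.2 - p Y.2)) : ℝ × E) 1 := by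
      unfold sc
      have ha : HasDerivAt (fun l : ℝ => l ^ 2) 2 1 := by
        have := hasDerivAt_pow 2 (1 : ℝ)
        simpa using this
      refine HasDerivAt.prodMk (ha.mul_const Y.1) ?_
      exact (ha.smul_const (p Y.2)).add ((hasDerivAt_id (1 : ℝ)).smul_const (Y.2 - p Y.2))
    have h2 : ((2 * Y.1, (2 : ℝ) • p Y.2 + (1 : ℝ) • (Y.2 - p Y.2)) : ℝ × E) =
        (2 * Y.1, Y.2 + p Y.2) := by
      refine Prod.ext rfl ?_
      change (2 : ℝ) • p Y.2 + (1 : ℝ) • (Y.2 - p Y.2) = Y.2 + p Y.2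
      rw [one_smul, two_smul]
      abel
    rw [h2] at h1
    have h3 : HasFDerivAt Φ (fderiv ℝ Φ Y) (sc p 1 Y) := by
      rw [sc_one]
      exact ((rotV3_at sm hY).differentiableAt (by norm_num)).hasFDerivAt
    have h4 := h3.comp_hasDerivAt (1 : ℝ) h1
    have h5 : (Φ ∘ fun l : ℝ => sc p l Y) =ᶠ[𝓝 (1 : ℝ)] fun _ => Φ Y := by
      filter_upwards [lt_mem_nhds (zero_lt_one' ℝ)] with l hl
      exact hom Y hY l hl
    have h6 := h4.congr_of_eventuallyEq h5.symm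
    exact (h6.unique (hasDerivAt_const (1 : ℝ) (Φ Y)))
  have hsym : ∀ u v, SV Φ X u v = SV Φ X v u := by
    intro u v
    have h1 : IsSymmSndFDerivAt ℝ Φ X :=
      (rotV3_at sm hX).isSymmSndFDerivAt (by
        rw [minSmoothness_of_isRCLikeNormedField]
        norm_num)
    exact h1 u v
  refine ⟨first X hX, hsym, fun v => ?_⟩
  let A : (ℝ × E) →L[ℝ] (ℝ × E) := ((2 : ℝ) • ContinuousLinearMap.fst ℝ ℝ E).prod
    (ContinuousLinearMap.snd ℝ ℝ E + p.comp (ContinuousLinearMap.snd ℝ ℝ E))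
  have hA : ∀ Y : ℝ × E, A Y = (2 * Y.1, Y.2 + p Y.2) := fun Y => rfl
  have h1 : (fun Y => fderiv ℝ Φ Y (A Y)) =ᶠ[𝓝 X] fun _ => (0 : ℝ) := by
    filter_upwards [(Cn_open p).mem_nhds hX] with Y hY
    exact first Y hY
  have h2 : DifferentiableAt ℝ (fderiv ℝ Φ) X :=
    ((rotV3_at sm hX).fderiv_right (m := 1) (by norm_num)).differentiableAt (by norm_num)
  have h3 := h2.hasFDerivAt.clm_apply (A.hasFDerivAt (x := X))
  have h4 := h3.congr_of_eventuallyEq h1.symm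
  have h5 := h4.unique (hasFDerivAt_const (0 : ℝ) X)
  have h6 := congrArg (fun M : (ℝ × E) →L[ℝ] ℝ => M v) h5
  have h7 : fderiv ℝ Φ X (A v) + fderiv ℝ (fderiv ℝ Φ) X v (A X) = 0 := h6
  rw [hsym, ← hA X, ← hA v]
  change fderiv ℝ (fderiv ℝ Φ) X v (A X) = _
  linarith

end Pool.Agent.Helper75.ROT
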