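import Pool.Agent.Helper75.ROT.Ex
import Pool.Agent.Helper75.ROT.ExH

/-! # ROT: the metric of quaternionic hyperbolic space in coordinates -/

set_option autoImplicit false

namespace Pool.Agent.Helper75.ROT

open Quaternion Pool.Agent.Helper41.ALX

variable {n : ℕ}

/-- `v ↦ v / (1 - |z|²) + z (∑ star z_j v_j) / (1 - |z|²)²` is `ballMetric (PH n)`. -/
theorem quat_metric {g : HV n → HV n →L[ℝ] HV n}
    (hg : ∀ (z v : HV n) (i : Fin (n + 1)), g z v i = (1 - ‖z‖ ^ 2)⁻¹ • v i +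
      ((1 - ‖z‖ ^ 2) ^ 2)⁻¹ • (z i * ∑ j, star (z j) * v j)) : g = ballMetric (PH n) := by
  funext z
  ext v i : 2
  rw [hg]
  show _ = ((1 - ‖z‖ ^ 2)⁻¹ • v + ((1 - ‖z‖ ^ 2) ^ 2)⁻¹ • (inner ℝ z v • z +
    ‖z‖ ^ 2 • PH n z v)) i
  have h1 : (inner ℝ z v • z + ‖z‖ ^ 2 • PH n z v) i = z i * ∑ j, star (z j) * v j := by
    have h2 : inner ℝ z v = (hH n z v).re := by
      have h3 : (1 : ℍ[ℝ]) = 1 := rfl
      have h4 := inner_RH (1 : ℍ[ℝ]) z v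
      have h5 : RH n 1 z = z := by
        ext j : 1
        rw [RH_apply, mul_one]
      rw [h5] at h4
      rw [h4, inner_H]
      simp
    have h6 : (inner ℝ z v • z + ‖z‖ ^ 2 • PH n z v) i =
        inner ℝ z v • z i + ‖z‖ ^ 2 • ((‖z‖ ^ 2)⁻¹ • (z i * (hH n z v).im)) := rfl
    rw [h6, ← hH_apply]
    by_cases hz : z = 0
    · subst hz
      simp
    · have h7 : ‖z‖ ^ 2 ≠ 0 := pow_ne_zero 2 (norm_ne_zero_iff.2 hz)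
      rw [smul_smul, mul_inv_cancel₀ h7, one_smul, h2]
      conv_rhs => rw [← Quaternion.re_add_im (hH n z v), mul_add]
      rw [← Quaternion.mul_coe_eq_smul]
  have h8 : ((1 - ‖z‖ ^ 2)⁻¹ • v + ((1 - ‖z‖ ^ 2) ^ 2)⁻¹ • (inner ℝ z v • z +
      ‖z‖ ^ 2 • PH n z v)) i = (1 - ‖z‖ ^ 2)⁻¹ • v i + ((1 - ‖z‖ ^ 2) ^ 2)⁻¹ •
        ((inner ℝ z v • z + ‖z‖ ^ 2 • PH n z v) i) := rfl
  rw [h8, h1]

theorem fderiv_ne {E : Type} [NormedAddCommGroup E] [InnerProductSpace ℝ E]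
    [FiniteDimensional ℝ E] {ρ : E → ℝ} {z : E} (h : gradient ρ z ≠ 0) : fderiv ℝ ρ z ≠ 0 :=
  fun hc => h (by rw [gradient, hc, map_zero])

theorem complex_crisp {g : EuclideanSpace ℂ (Fin n) → EuclideanSpace ℂ (Fin n) →L[ℝ]
      EuclideanSpace ℂ (Fin n)}
    (hg : ∀ z v, g z v = (1 - ‖z‖ ^ 2)⁻¹ • v + ((1 - ‖z‖ ^ 2) ^ 2)⁻¹ • (inner ℂ z v • z))
    {e : EuclideanSpace ℂ (Fin n)} (he : ‖e‖ = 1)
    {ρ : EuclideanSpace ℂ (Fin n) → ℝ} {H : ℝ}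
    (hs : ContDiffOn ℝ 3 ρ (Metric.ball 0 1))
    (hinv : ∀ z ∈ Metric.ball (0 : EuclideanSpace ℂ (Fin n)) 1, ∀ θ : ℝ,
      ρ (inner ℂ e z • e + Complex.exp (θ * Complex.I) • (z - inner ℂ e z • e)) = ρ z)
    (hbd : ∃ R : ℝ, R < 1 ∧ ∀ z ∈ Metric.ball (0 : EuclideanSpace ℂ (Fin n)) 1, ρ z ≤ 0 → ‖z‖ ≤ R)
    (hne : ∃ z ∈ Metric.ball (0 : EuclideanSpace ℂ (Fin n)) 1, ρ z < 0)
    (hcon : IsPreconnected {z ∈ Metric.ball (0 : EuclideanSpace ℂ (Fin n)) 1 | ρ z = 0})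
    (hreg : ∀ z ∈ Metric.ball (0 : EuclideanSpace ℂ (Fin n)) 1, ρ z = 0 → gradient ρ z ≠ 0)
    (heq : ∀ z ∈ Metric.ball (0 : EuclideanSpace ℂ (Fin n)) 1, ρ z = 0 → meanCurv g ρ z = H) :
    ∃ α : ℂ, ‖α‖ < 1 ∧ ∃ R : ℝ, 1 < R ∧
      ∀ z ∈ Metric.ball (0 : EuclideanSpace ℂ (Fin n)) 1,
      (ρ z < 0 ↔ ‖1 - inner ℂ (α • e) z‖ ^ 2 / ((1 - ‖z‖ ^ 2) * (1 - ‖α • e‖ ^ 2)) < R) ∧
      (ρ z = 0 ↔ ‖1 - inner ℂ (α • e) z‖ ^ 2 / ((1 - ‖z‖ ^ 2) * (1 - ‖α • e‖ ^ 2)) = R) := by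
  have hgb : g = bergman n := by
    funext z
    ext1 v
    exact hg z v
  subst hgb
  obtain ⟨α, R, h1, h2, h3⟩ := complex_case he hs hinv hbd hne hcon
    (fun z hz h0 => fderiv_ne (hreg z hz h0)) heq
  have hα : ‖α • e‖ = ‖α‖ := by rw [norm_smul, he, mul_one]
  refine ⟨α, h1, R, h2, fun z hz => ?_⟩
  have hz1 : ‖z‖ < 1 := mem_ball_zero_iff.1 hz
  have hpos : 0 < (1 - ‖z‖ ^ 2) * (1 - ‖α‖ ^ 2) := by
    have h4 := norm_nonneg z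
    have h5 := norm_nonneg α
    exact mul_pos (by nlinarith) (by nlinarith)
  rw [hα, div_lt_iff₀ hpos, div_eq_iff hpos.ne', ← mul_assoc]
  exact h3 z hz

theorem quaternionic_crisp {g : HV n → HV n →L[ℝ] HV n}
    (hg : ∀ (z v : HV n) (i : Fin (n + 1)), g z v i = (1 - ‖z‖ ^ 2)⁻¹ • v i +
      ((1 - ‖z‖ ^ 2) ^ 2)⁻¹ • (z i * ∑ j, star (z j) * v j)) {ρ : HV n → ℝ} {H : ℝ}
    (hs : ContDiffOn ℝ 3 ρ (Metric.ball 0 1))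
    (hinv : ∀ z ∈ Metric.ball (0 : HV n) 1, ∀ q : ℍ[ℝ], ‖q‖ = 1 →
      ρ (WithLp.toLp 2 (fun i => if i = 0 then z i else z i * q)) = ρ z)
    (hbd : ∃ R : ℝ, R < 1 ∧ ∀ z ∈ Metric.ball (0 : HV n) 1, ρ z ≤ 0 → ‖z‖ ≤ R)
    (hne : ∃ z ∈ Metric.ball (0 : HV n) 1, ρ z < 0)
    (hcon : IsPreconnected {z ∈ Metric.ball (0 : HV n) 1 | ρ z = 0})
    (hreg : ∀ z ∈ Metric.ball (0 : HV n) 1, ρ z = 0 → gradient ρ z ≠ 0)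
    (heq : ∀ z ∈ Metric.ball (0 : HV n) 1, ρ z = 0 → meanCurv g ρ z = H) :
    ∃ α : ℍ[ℝ], ‖α‖ < 1 ∧ ∃ R : ℝ, 1 < R ∧ ∀ z ∈ Metric.ball (0 : HV n) 1,
      (ρ z < 0 ↔ ‖1 - star α * z 0‖ ^ 2 / ((1 - ‖z‖ ^ 2) * (1 - ‖α‖ ^ 2)) < R) ∧
      (ρ z = 0 ↔ ‖1 - star α * z 0‖ ^ 2 / ((1 - ‖z‖ ^ 2) * (1 - ‖α‖ ^ 2)) = R) := by
  obtain rfl := quat_metric hg
  obtain ⟨α, R, h1, h2, h3⟩ := quaternionic_case' (fun _ _ _ => rfl) hs hinv hbd hne hcon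
    (fun z hz h0 => fderiv_ne (hreg z hz h0)) heq
  refine ⟨α, h1, R, h2, fun z hz => ?_⟩
  have hz1 : ‖z‖ < 1 := mem_ball_zero_iff.1 hz
  have hpos : 0 < (1 - ‖z‖ ^ 2) * (1 - ‖α‖ ^ 2) := by
    have h4 := norm_nonneg z
    have h5 := norm_nonneg α
    exact mul_pos (by nlinarith) (by nlinarith)
  rw [div_lt_iff₀ hpos, div_eq_iff hpos.ne', ← mul_assoc]
  exact h3 z hz

end Pool.Agent.Helper75.ROT
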