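import Pool.Agent.Helper75.ROT.Defs

/-! # ROT: calculus on level sets -/

set_option autoImplicit false
set_option linter.unusedSectionVars false
set_option linter.unusedVariables false

namespace Pool.Agent.Helper75.ROT

open Filter Topology
open scoped ContDiff
open Pool.Agent.Helper41.ALX (S2)

variable {E : Type*} [NormedAddCommGroup E] [InnerProductSpace ℝ E] [FiniteDimensional ℝ E]

/-- piece `ROT-C1`: a curve on the level set through `y` with tangent `u`.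
Proof. By differentiability `f (y + τ u + s τ ν) = τ (s * f'(y) ν) + o(τ)` uniformly for `|s| ≤ η`. So for small
`τ > 0` it is positive for `s = η` and negative for `s = -η`; `f` is continuous near `y`
(`hf.eventually` or `ContDiffAt.eventually`), so `s ↦ f (y + τ u + s τ ν)` has a zero in `[-η, η]`
(intermediate value theorem); `σ = s τ`. -/
theorem curve {f : E → ℝ} {y u ν : E} (hf : ContDiffAt ℝ 1 f y) (h0 : f y = 0)
    (hu : fderiv ℝ f y u = 0) (hν : 0 < fderiv ℝ f y ν) {η : ℝ} (hη : 0 < η) :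
    ∀ᶠ τ in 𝓝[>] (0 : ℝ), ∃ σ : ℝ, |σ| ≤ η * τ ∧ f (y + τ • u + σ • ν) = 0 := by
  have hd : HasFDerivAt f (fderiv ℝ f y) y := (hf.differentiableAt (by simp)).hasFDerivAt
  obtain ⟨C, hC⟩ : ∃ C : ℝ, C = ‖u‖ + η * ‖ν‖ := ⟨_, rfl⟩
  have hC0 : 0 ≤ C := by rw [hC]; positivity
  obtain ⟨ε, hεd⟩ : ∃ ε : ℝ, ε = η * fderiv ℝ f y ν / (C + 1) := ⟨_, rfl⟩
  have hε : 0 < ε := by rw [hεd]; positivity
  have hεC : ε * C < η * fderiv ℝ f y ν := by
    have h1 : ε * (C + 1) = η * fderiv ℝ f y ν := by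
      rw [hεd]
      field_simp
    linarith
  have h1 : ∀ᶠ z in 𝓝 y, |f z - f y - fderiv ℝ f y (z - y)| ≤ ε * ‖z - y‖ := by
    have h := hd.isLittleO.def hε
    simpa only [Real.norm_eq_abs] using h
  have h2 : ∀ᶠ z in 𝓝 y, ContinuousAt f z :=
    (hf.eventually (by simp)).mono fun z hz => hz.continuousAt
  obtain ⟨r, hr, hball⟩ := Metric.eventually_nhds_iff_ball.1 (h1.and h2)
  have h3 : ∀ᶠ τ in 𝓝[>] (0 : ℝ), τ * (C + 1) < r := by
    have h : Tendsto (fun τ : ℝ => τ * (C + 1)) (𝓝[>] (0 : ℝ)) (𝓝 (0 * (C + 1))) :=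
      ((continuous_id.mul continuous_const).tendsto 0).mono_left nhdsWithin_le_nhds
    rw [zero_mul] at h
    exact h.eventually (gt_mem_nhds hr)
  filter_upwards [h3, self_mem_nhdsWithin] with τ hτr hτ'
  have hτ : 0 < τ := hτ'
  have hητ : 0 < η * τ := mul_pos hη hτ
  have hmem : ∀ σ : ℝ, |σ| ≤ η * τ → ‖τ • u + σ • ν‖ ≤ τ * C := by
    intro σ hσ
    calc ‖τ • u + σ • ν‖ ≤ ‖τ • u‖ + ‖σ • ν‖ := norm_add_le _ _
      _ = τ * ‖u‖ + |σ| * ‖ν‖ := by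
        rw [norm_smul, norm_smul, Real.norm_eq_abs, Real.norm_eq_abs, abs_of_pos hτ]
      _ ≤ τ * ‖u‖ + (η * τ) * ‖ν‖ := by
        have := mul_le_mul_of_nonneg_right hσ (norm_nonneg ν)
        linarith
      _ = τ * C := by rw [hC]; ring
  have hval : ∀ σ : ℝ, |σ| ≤ η * τ →
      |f (y + τ • u + σ • ν) - σ * fderiv ℝ f y ν| ≤ ε * (τ * C) ∧
        ContinuousAt f (y + τ • u + σ • ν) := by
    intro σ hσ
    have h4 : y + τ • u + σ • ν ∈ Metric.ball y r := by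
      rw [Metric.mem_ball, dist_eq_norm,
        show y + τ • u + σ • ν - y = τ • u + σ • ν by abel]
      exact (hmem σ hσ).trans_lt (by nlinarith)
    obtain ⟨h5, h6⟩ := hball _ h4
    refine ⟨?_, h6⟩
    rw [show y + τ • u + σ • ν - y = τ • u + σ • ν by abel, h0, map_add, map_smul, map_smul,
      hu] at h5
    simp only [sub_zero, mul_zero, zero_add, smul_eq_mul] at h5
    exact h5.trans (mul_le_mul_of_nonneg_left (hmem σ hσ) hε.le)
  have hlt : ε * (τ * C) < (η * τ) * fderiv ℝ f y ν := by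
    have := mul_lt_mul_of_pos_left hεC hτ
    linarith
  have hp : 0 < f (y + τ • u + (η * τ) • ν) := by
    have h := (abs_le.1 (hval (η * τ) (abs_of_pos hητ).le).1).1
    linarith
  have hn : f (y + τ • u + (-(η * τ)) • ν) < 0 := by
    have h := (abs_le.1 (hval (-(η * τ)) (by rw [abs_neg]; exact (abs_of_pos hητ).le)).1).2
    linarith
  have hcont : ContinuousOn (fun σ : ℝ => f (y + τ • u + σ • ν))
      (Set.Icc (-(η * τ)) (η * τ)) := by
    intro σ hσ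
    have h6 := (hval σ (abs_le.2 hσ)).2
    exact (ContinuousAt.comp (f := fun σ : ℝ => y + τ • u + σ • ν) h6
      (by fun_prop)).continuousWithinAt
  obtain ⟨σ, hσ, hσ0⟩ := intermediate_value_Icc (by linarith) hcont
    (show (0 : ℝ) ∈ Set.Icc (f (y + τ • u + (-(η * τ)) • ν)) (f (y + τ • u + (η * τ) • ν)) from
      ⟨hn.le, hp.le⟩)
  exact ⟨σ, abs_le.2 hσ, hσ0⟩

/-- piece `ROT-C2`: Taylor's formula at a critical point.
Proof. `G h = g (y + h) - g y - 1/2 S2 g y h h` has for small `h` the derivative `g'(y + h) - S2 g y h` (the form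
`S2 g y` is symmetric: `ContDiffAt.isSymmSndFDerivAt`), and `g'` is differentiable at `y` with
derivative `S2 g y` and `g'(y) = 0`, so `‖G'(h)‖ ≤ η ‖h‖` near `0`. Mean value inequality on the
segment from `0` to `h` (`Convex.norm_image_sub_le_of_norm_hasFDerivWithin_le` on the ball of radius `‖h‖`). -/
theorem taylor2 {g : E → ℝ} {y : E} (hg : ContDiffAt ℝ 2 g y) (h1 : fderiv ℝ g y = 0) {η : ℝ}
    (hη : 0 < η) :
    ∀ᶠ h in 𝓝 (0 : E), |g (y + h) - g y - 1 / 2 * S2 g y h h| ≤ η * ‖h‖ ^ 2 := by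
  have hsym : ∀ u v, S2 g y u v = S2 g y v u := by
    intro u v
    have h := hg.isSymmSndFDerivAt (by simp)
    exact h u v
  have hd1 : ∀ᶠ z in 𝓝 y, DifferentiableAt ℝ g z := by
    filter_upwards [hg.eventually (by simp)] with z hz
    exact hz.differentiableAt (by simp)
  have hd2 : HasFDerivAt (fun w => fderiv ℝ g w) (S2 g y) y := by
    have h3 : ContDiffAt ℝ 1 (fun w => fderiv ℝ g w) y := hg.fderiv_right (by norm_num)
    exact (h3.differentiableAt (by simp)).hasFDerivAt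
  have h4 := hd2.isLittleO.def hη
  have h5 : ∀ᶠ z in 𝓝 y, DifferentiableAt ℝ g z ∧
      ‖fderiv ℝ g z - S2 g y (z - y)‖ ≤ η * ‖z - y‖ := by
    filter_upwards [hd1, h4] with z hz1 hz2
    refine ⟨hz1, ?_⟩
    simpa only [h1, sub_zero] using hz2
  obtain ⟨δ, hδ, hball⟩ := Metric.eventually_nhds_iff_ball.1 h5
  filter_upwards [Metric.ball_mem_nhds (0 : E) hδ] with h hh
  have hh' : ‖h‖ < δ := by simpa using hh
  have hder : ∀ x ∈ Metric.closedBall (0 : E) ‖h‖,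
      HasFDerivWithinAt (fun x => g (y + x) - g y - 1 / 2 * S2 g y x x)
        (fderiv ℝ g (y + x) - S2 g y x) (Metric.closedBall (0 : E) ‖h‖) x := by
    intro x hx
    have hx' : ‖x‖ ≤ ‖h‖ := by simpa using hx
    have hx2 : y + x ∈ Metric.ball y δ := by
      rw [Metric.mem_ball, dist_eq_norm, add_sub_cancel_left]
      exact hx'.trans_lt hh'
    have e1 : HasFDerivAt (fun x => g (y + x)) (fderiv ℝ g (y + x)) x :=
      (hasFDerivAt_comp_add_left y).2 (hball _ hx2).1.hasFDerivAt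
    have e2 : HasFDerivAt (fun x : E => S2 g y x x)
        ((S2 g y x).comp (ContinuousLinearMap.id ℝ E) + (S2 g y).flip x) x :=
      (S2 g y).hasFDerivAt.clm_apply (hasFDerivAt_id x)
    have e3 : (S2 g y x).comp (ContinuousLinearMap.id ℝ E) + (S2 g y).flip x =
        (2 : ℝ) • S2 g y x := by
      ext v
      change S2 g y x v + S2 g y v x = 2 * S2 g y x v
      rw [hsym v x]
      ring
    rw [e3] at e2
    have e4 := (e1.sub_const (g y)).sub (e2.const_mul (1 / 2))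
    refine (e4.congr_fderiv ?_).hasFDerivWithinAt
    rw [smul_smul]
    norm_num
  have hbd : ∀ x ∈ Metric.closedBall (0 : E) ‖h‖,
      ‖fderiv ℝ g (y + x) - S2 g y x‖ ≤ η * ‖h‖ := by
    intro x hx
    have hx' : ‖x‖ ≤ ‖h‖ := by simpa using hx
    have hx2 : y + x ∈ Metric.ball y δ := by
      rw [Metric.mem_ball, dist_eq_norm, add_sub_cancel_left]
      exact hx'.trans_lt hh'
    have h6 := (hball _ hx2).2
    rw [add_sub_cancel_left] at h6
    exact h6.trans (mul_le_mul_of_nonneg_left hx' hη.le)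
  have h7 := (convex_closedBall (0 : E) ‖h‖).norm_image_sub_le_of_norm_hasFDerivWithin_le hder hbd
    (Metric.mem_closedBall_self (norm_nonneg h)) (show h ∈ Metric.closedBall (0 : E) ‖h‖ by simp)
  simp only [add_zero, sub_self, map_zero, mul_zero, sub_zero, Real.norm_eq_abs] at h7
  calc _ ≤ η * ‖h‖ * ‖h‖ := h7
    _ = η * ‖h‖ ^ 2 := by ring

/-- piece `ROT-C2`, second part: quadratic remainder.
Proof. The derivative of `φ` is Lipschitz near `y` (it is `C¹`: `ContDiffAt.exists_lipschitzOnWith`), mean value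
inequality for `z ↦ φ z - φ'(y) z`. -/
theorem quad {φ : E → ℝ} {y : E} (hφ : ContDiffAt ℝ 2 φ y) :
    ∃ C : ℝ, 0 < C ∧ ∀ᶠ z in 𝓝 y, |φ z - φ y - fderiv ℝ φ y (z - y)| ≤ C * ‖z - y‖ ^ 2 := by
  have hd1 : ∀ᶠ z in 𝓝 y, DifferentiableAt ℝ φ z := by
    filter_upwards [hφ.eventually (by simp)] with z hz
    exact hz.differentiableAt (by simp)
  have h3 : ContDiffAt ℝ 1 (fun w => fderiv ℝ φ w) y := hφ.fderiv_right (by norm_num)
  obtain ⟨K, t, ht, hK⟩ := h3.exists_lipschitzOnWith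
  have hyt : y ∈ t := mem_of_mem_nhds ht
  have h5 : ∀ᶠ z in 𝓝 y, DifferentiableAt ℝ φ z ∧ z ∈ t := by
    filter_upwards [hd1, ht] with z hz1 hz2
    exact ⟨hz1, hz2⟩
  obtain ⟨δ, hδ, hball⟩ := Metric.eventually_nhds_iff_ball.1 h5
  refine ⟨K + 1, by positivity, ?_⟩
  filter_upwards [Metric.ball_mem_nhds y hδ] with z hz
  have hz' : ‖z - y‖ < δ := by
    rw [Metric.mem_ball, dist_eq_norm] at hz
    exact hz
  have hder : ∀ x ∈ Metric.closedBall y ‖z - y‖,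
      HasFDerivWithinAt (fun x => φ x - fderiv ℝ φ y x)
        (fderiv ℝ φ x - fderiv ℝ φ y) (Metric.closedBall y ‖z - y‖) x := by
    intro x hx
    have hx2 : x ∈ Metric.ball y δ := Metric.mem_ball.2 ((Metric.mem_closedBall.1 hx).trans_lt hz')
    exact (((hball _ hx2).1.hasFDerivAt).sub (fderiv ℝ φ y).hasFDerivAt).hasFDerivWithinAt
  have hbd : ∀ x ∈ Metric.closedBall y ‖z - y‖,
      ‖fderiv ℝ φ x - fderiv ℝ φ y‖ ≤ K * ‖z - y‖ := by
    intro x hx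
    have hx2 : x ∈ Metric.ball y δ := Metric.mem_ball.2 ((Metric.mem_closedBall.1 hx).trans_lt hz')
    have h6 := hK.dist_le_mul x (hball _ hx2).2 y hyt
    rw [dist_eq_norm] at h6
    exact h6.trans (mul_le_mul_of_nonneg_left (Metric.mem_closedBall.1 hx) K.2)
  have h7 := (convex_closedBall y ‖z - y‖).norm_image_sub_le_of_norm_hasFDerivWithin_le hder hbd
    (Metric.mem_closedBall_self (norm_nonneg _))
    (show z ∈ Metric.closedBall y ‖z - y‖ by rw [Metric.mem_closedBall, dist_eq_norm])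
  have e1 : φ z - φ y - fderiv ℝ φ y (z - y) =
      (φ z - fderiv ℝ φ y z) - (φ y - fderiv ℝ φ y y) := by
    rw [map_sub]
    ring
  rw [e1, ← Real.norm_eq_abs]
  calc _ ≤ K * ‖z - y‖ * ‖z - y‖ := h7
    _ ≤ (K + 1) * ‖z - y‖ ^ 2 := by nlinarith [sq_nonneg ‖z - y‖]

private theorem rotC3_pt {g : E → ℝ} {z u ν : E} (hg : ContDiffAt ℝ 1 g z) (h0 : g z = 0)
    (hu : fderiv ℝ g z u = 0) (hν : 0 < fderiv ℝ g z ν) {η : ℝ} (hη : 0 < η) {P : E → Prop}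
    (hP : ∀ᶠ h in 𝓝 (0 : E), P h) :
    ∃ τ σ : ℝ, 0 < τ ∧ |σ| ≤ η * τ ∧ g (z + (τ • u + σ • ν)) = 0 ∧ P (τ • u + σ • ν) ∧
      ‖τ • u + σ • ν‖ ≤ τ * (‖u‖ + η * ‖ν‖) := by
  obtain ⟨δ, hδ, hP⟩ := Metric.eventually_nhds_iff.1 hP
  have h1 := curve hg h0 hu hν hη
  have h2 : ∀ᶠ τ : ℝ in 𝓝[>] (0 : ℝ), τ < δ / (‖u‖ + η * ‖ν‖ + 1) :=
    eventually_nhdsWithin_of_eventually_nhds (eventually_lt_nhds (by positivity))
  obtain ⟨τ, ⟨⟨σ, hσ, hg0⟩, h3⟩, h4⟩ := ((h1.and h2).and self_mem_nhdsWithin).exists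
  have h4' : 0 < τ := h4
  have h5 : ‖τ • u + σ • ν‖ ≤ τ * (‖u‖ + η * ‖ν‖) := by
    calc ‖τ • u + σ • ν‖ ≤ ‖τ • u‖ + ‖σ • ν‖ := norm_add_le _ _
      _ = τ * ‖u‖ + |σ| * ‖ν‖ := by
        rw [norm_smul, norm_smul, Real.norm_eq_abs, Real.norm_eq_abs, abs_of_pos h4']
      _ ≤ τ * ‖u‖ + η * τ * ‖ν‖ := by gcongr
      _ = τ * (‖u‖ + η * ‖ν‖) := by ring
  refine ⟨τ, σ, h4', hσ, by rw [← add_assoc]; exact hg0, hP ?_, h5⟩
  rw [dist_zero_right]
  rw [lt_div_iff₀ (by positivity)] at h3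
  nlinarith

private theorem rotC3_le {x C : ℝ} (h : ∀ η : ℝ, 0 < η → η ≤ 1 → x ≤ η * C) : x ≤ 0 := by
  by_contra hx
  rw [not_le] at hx
  have hC : 0 < C := by
    have := h 1 one_pos le_rfl
    linarith
  have h1 := h (min 1 (x / (2 * C))) (lt_min one_pos (by positivity)) (min_le_left _ _)
  have h2 : min 1 (x / (2 * C)) * C ≤ x / (2 * C) * C :=
    mul_le_mul_of_nonneg_right (min_le_right _ _) hC.le
  have h3 : x / (2 * C) * C = x / 2 := by field_simp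
  linarith

private theorem rotC3_first {f g : E → ℝ} {z u ν : E} (hf : ContDiffAt ℝ 2 f z)
    (hg : ContDiffAt ℝ 2 g z) (h0 : g z = 0) (hm : ∀ᶠ x in 𝓝 z, g x = 0 → f x ≤ f z)
    (hν : 0 < fderiv ℝ g z ν) (hu : fderiv ℝ g z u = 0) : fderiv ℝ f z u ≤ 0 := by
  refine rotC3_le (C := |fderiv ℝ f z ν| + (‖u‖ + ‖ν‖)) fun η hη hη1 => ?_
  have hd : HasFDerivAt f (fderiv ℝ f z) z := (hf.differentiableAt (by norm_num)).hasFDerivAt
  have hP1 : ∀ᶠ h in 𝓝 (0 : E), |f (z + h) - f z - fderiv ℝ f z h| ≤ η * ‖h‖ := by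
    have h1 := (hasFDerivAt_iff_isLittleO_nhds_zero.1 hd).bound hη
    simpa only [Real.norm_eq_abs] using h1
  have hP2 : ∀ᶠ h in 𝓝 (0 : E), g (z + h) = 0 → f (z + h) ≤ f z := by
    have h1 : Tendsto (fun h : E => z + h) (𝓝 0) (𝓝 z) := by
      have h2 : Tendsto (fun h : E => z + h) (𝓝 0) (𝓝 (z + 0)) :=
        (continuous_const.add continuous_id).tendsto 0
      rwa [add_zero] at h2
    exact h1.eventually hm
  obtain ⟨τ, σ, hτ, hσ, hg0, ⟨ha, hb⟩, hn⟩ :=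
    rotC3_pt (hg.of_le (by norm_num)) h0 hu hν hη (hP1.and hP2)
  have h3 := hb hg0
  have h4 := (abs_le.1 ha).1
  have h5 : fderiv ℝ f z (τ • u + σ • ν) = τ * fderiv ℝ f z u + σ * fderiv ℝ f z ν := by
    simp
  rw [h5] at h4
  have h6 : -(σ * fderiv ℝ f z ν) ≤ η * τ * |fderiv ℝ f z ν| := by
    calc -(σ * fderiv ℝ f z ν) ≤ |σ * fderiv ℝ f z ν| := neg_le_abs _
      _ = |σ| * |fderiv ℝ f z ν| := abs_mul _ _
      _ ≤ η * τ * |fderiv ℝ f z ν| := by gcongr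
  have h7 : η * ‖τ • u + σ • ν‖ ≤ η * (τ * (‖u‖ + ‖ν‖)) := by
    have h8 : τ * (‖u‖ + η * ‖ν‖) ≤ τ * (‖u‖ + ‖ν‖) := by
      have h9 : η * ‖ν‖ ≤ ‖ν‖ := mul_le_of_le_one_left (norm_nonneg _) hη1
      gcongr
    exact mul_le_mul_of_nonneg_left (hn.trans h8) hη.le
  have h10 : τ * fderiv ℝ f z u ≤ τ * (η * (|fderiv ℝ f z ν| + (‖u‖ + ‖ν‖))) := by
    have e : τ * (η * (|fderiv ℝ f z ν| + (‖u‖ + ‖ν‖))) =
      η * τ * |fderiv ℝ f z ν| + η * (τ * (‖u‖ + ‖ν‖)) := by ring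
    linarith
  exact le_of_mul_le_mul_left h10 hτ

private theorem rotC3_S2 {f g : E → ℝ} {z : E} (hf : ContDiffAt ℝ 2 f z)
    (hg : ContDiffAt ℝ 2 g z) (c : ℝ) :
    fderiv ℝ (fun x => f x - c * g x) z = fderiv ℝ f z - c • fderiv ℝ g z ∧
      S2 (fun x => f x - c * g x) z = S2 f z - c • S2 g z := by
  have hfe : ∀ᶠ y in 𝓝 z, DifferentiableAt ℝ f y :=
    (hf.eventually (by simp)).mono fun y hy => hy.differentiableAt (by norm_num)
  have hge : ∀ᶠ y in 𝓝 z, DifferentiableAt ℝ g y :=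
    (hg.eventually (by simp)).mono fun y hy => hy.differentiableAt (by norm_num)
  have hev : (fun y => fderiv ℝ (fun x => f x - c * g x) y) =ᶠ[𝓝 z]
      fun y => fderiv ℝ f y - c • fderiv ℝ g y := by
    filter_upwards [hfe, hge] with y h1 h2
    exact (h1.hasFDerivAt.sub (h2.hasFDerivAt.const_mul c)).fderiv
  have hf1 : DifferentiableAt ℝ (fun y => fderiv ℝ f y) z :=
    (hf.fderiv_right (m := 1) (by norm_num)).differentiableAt (by norm_num)
  have hg1 : DifferentiableAt ℝ (fun y => fderiv ℝ g y) z :=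
    (hg.fderiv_right (m := 1) (by norm_num)).differentiableAt (by norm_num)
  refine ⟨hev.self_of_nhds, ?_⟩
  change fderiv ℝ (fun y => fderiv ℝ (fun x => f x - c * g x) y) z = _
  rw [hev.fderiv_eq]
  exact (hf1.hasFDerivAt.sub (hg1.hasFDerivAt.const_smul c)).fderiv

/-- piece `ROT-C3`: second order condition for a local maximum on a level set.
Proof. There is `ν` with `g' ν > 0`; `c := f' ν / g' ν`. Let `g' u = 0`. By `curve` with any `η > 0` there are points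
`z + τ u + σ ν` of `{g = 0}` with `|σ| ≤ η τ`, `τ → 0`; `f (z + τ u + σ ν) ≤ f z` and differentiability give
`f' u ≤ (|f' ν| + 1) η`-type bounds for all `η`, so `f' u ≤ 0`; the same for `- u`, so `f' u = 0`. As every vector is
`u + s ν` with `g' u = 0`, `f' = c • g'`. The function `L = f - c g` has `L' z = 0`,
`S2 L z = S2 f z - c • S2 g z`, and on the curve `L (z + τ u + σ ν) = f (..) ≤ f z = L z`; by `taylor2`
`1/2 S2 L z h h ≤ η' ‖h‖²` with `h = τ u + σ ν`, `|σ| ≤ η τ`; divide by `τ²` and let `τ → 0`, `η, η' → 0`: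
`S2 L z u u ≤ 0`. -/
theorem lag {f g : E → ℝ} {z : E} (hf : ContDiffAt ℝ 2 f z) (hg : ContDiffAt ℝ 2 g z) (h0 : g z = 0)
    (h1 : fderiv ℝ g z ≠ 0) (hm : ∀ᶠ x in 𝓝 z, g x = 0 → f x ≤ f z) :
    ∃ c : ℝ, fderiv ℝ f z = c • fderiv ℝ g z ∧
      ∀ u, fderiv ℝ g z u = 0 → S2 f z u u ≤ c * S2 g z u u := by
  obtain ⟨ν, hν⟩ : ∃ ν, 0 < fderiv ℝ g z ν := by
    obtain ⟨v, hv⟩ : ∃ v, fderiv ℝ g z v ≠ 0 := by
      by_contra hc
      push Not at hc
      exact h1 (ContinuousLinearMap.ext fun v => by simpa using hc v)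
    rcases lt_or_gt_of_ne hv with h2 | h2
    · refine ⟨-v, ?_⟩
      rw [map_neg]
      linarith
    · exact ⟨v, h2⟩
  have hf0 : ∀ u, fderiv ℝ g z u = 0 → fderiv ℝ f z u = 0 := by
    intro u hu
    refine le_antisymm (rotC3_first hf hg h0 hm hν hu) ?_
    have h2 := rotC3_first hf hg h0 hm hν (u := -u) (by rw [map_neg, hu, neg_zero])
    rw [map_neg] at h2
    linarith
  obtain ⟨c, hc⟩ : ∃ c, c = fderiv ℝ f z ν / fderiv ℝ g z ν := ⟨_, rfl⟩
  have hfc : fderiv ℝ f z = c • fderiv ℝ g z := by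
    refine ContinuousLinearMap.ext fun x => ?_
    have h2 : fderiv ℝ g z (x - (fderiv ℝ g z x / fderiv ℝ g z ν) • ν) = 0 := by
      rw [map_sub, map_smul, smul_eq_mul, div_mul_cancel₀ _ hν.ne', sub_self]
    have h3 := hf0 _ h2
    rw [map_sub, map_smul, smul_eq_mul] at h3
    change fderiv ℝ f z x = c * fderiv ℝ g z x
    rw [hc]
    have h4 : fderiv ℝ g z x / fderiv ℝ g z ν * fderiv ℝ f z ν =
      fderiv ℝ f z ν / fderiv ℝ g z ν * fderiv ℝ g z x := by ring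
    linarith
  refine ⟨c, hfc, fun u hu => ?_⟩
  obtain ⟨hL1, hL2⟩ := rotC3_S2 hf hg c
  have hLc : ContDiffAt ℝ 2 (fun x => f x - c * g x) z := hf.sub (contDiffAt_const.mul hg)
  have hL0 : fderiv ℝ (fun x => f x - c * g x) z = 0 := by rw [hL1, hfc, sub_self]
  obtain ⟨Q, hQ⟩ : ∃ Q, Q = S2 (fun x => f x - c * g x) z := ⟨_, rfl⟩
  have hQuu : S2 f z u u - c * S2 g z u u = Q u u := by
    rw [hQ, hL2]
    rfl
  have key : Q u u ≤ 0 := by
    refine rotC3_le (C := |Q u ν| + |Q ν u| + |Q ν ν| + 2 * (‖u‖ + ‖ν‖) ^ 2)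
      fun η hη hη1 => ?_
    have hP1 := taylor2 hLc hL0 hη
    rw [← hQ] at hP1
    have hP2 : ∀ᶠ h in 𝓝 (0 : E), g (z + h) = 0 → f (z + h) ≤ f z := by
      have h1 : Tendsto (fun h : E => z + h) (𝓝 0) (𝓝 z) := by
        have h2 : Tendsto (fun h : E => z + h) (𝓝 0) (𝓝 (z + 0)) :=
          (continuous_const.add continuous_id).tendsto 0
        rwa [add_zero] at h2
      exact h1.eventually hm
    obtain ⟨τ, σ, hτ, hσ, hg0, ⟨ha, hb⟩, hn⟩ :=
      rotC3_pt (hg.of_le (by norm_num)) h0 hu hν hη (hP1.and hP2)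
    have h3 := hb hg0
    have h4 := (abs_le.1 ha).1
    simp only [hg0, h0, mul_zero, sub_zero] at h4
    have h5 : Q (τ • u + σ • ν) (τ • u + σ • ν) =
        τ ^ 2 * Q u u + τ * σ * (Q u ν + Q ν u) + σ ^ 2 * Q ν ν := by
      simp only [map_add, map_smul, ContinuousLinearMap.add_apply, ContinuousLinearMap.smul_apply,
        smul_eq_mul]
      ring
    have h6 : ‖τ • u + σ • ν‖ ^ 2 ≤ (τ * (‖u‖ + ‖ν‖)) ^ 2 := by
      have h8 : τ * (‖u‖ + η * ‖ν‖) ≤ τ * (‖u‖ + ‖ν‖) := by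
        have h9 : η * ‖ν‖ ≤ ‖ν‖ := mul_le_of_le_one_left (norm_nonneg _) hη1
        gcongr
      exact pow_le_pow_left₀ (norm_nonneg _) (hn.trans h8) 2
    have h7 : -(τ * σ * (Q u ν + Q ν u)) ≤ τ ^ 2 * (η * (|Q u ν| + |Q ν u|)) := by
      calc -(τ * σ * (Q u ν + Q ν u)) ≤ |τ * σ * (Q u ν + Q ν u)| := neg_le_abs _
        _ = τ * |σ| * |Q u ν + Q ν u| := by rw [abs_mul, abs_mul, abs_of_pos hτ]
        _ ≤ τ * (η * τ) * (|Q u ν| + |Q ν u|) := by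
          have := abs_add_le (Q u ν) (Q ν u)
          gcongr
        _ = τ ^ 2 * (η * (|Q u ν| + |Q ν u|)) := by ring
    have h8 : -(σ ^ 2 * Q ν ν) ≤ τ ^ 2 * (η * |Q ν ν|) := by
      calc -(σ ^ 2 * Q ν ν) ≤ |σ ^ 2 * Q ν ν| := neg_le_abs _
        _ = |σ| ^ 2 * |Q ν ν| := by rw [abs_mul, abs_pow]
        _ ≤ (η * τ) ^ 2 * |Q ν ν| := by gcongr
        _ = τ ^ 2 * (η * η * |Q ν ν|) := by ring
        _ ≤ τ ^ 2 * (η * 1 * |Q ν ν|) := by gcongr
        _ = τ ^ 2 * (η * |Q ν ν|) := by ring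
    have h9 : η * ‖τ • u + σ • ν‖ ^ 2 ≤ η * (τ * (‖u‖ + ‖ν‖)) ^ 2 :=
      mul_le_mul_of_nonneg_left h6 hη.le
    have h10 : τ ^ 2 * Q u u ≤
        τ ^ 2 * (η * (|Q u ν| + |Q ν u| + |Q ν ν| + 2 * (‖u‖ + ‖ν‖) ^ 2)) := by
      have e : τ ^ 2 * (η * (|Q u ν| + |Q ν u| + |Q ν ν| + 2 * (‖u‖ + ‖ν‖) ^ 2)) =
        τ ^ 2 * (η * (|Q u ν| + |Q ν u|)) + τ ^ 2 * (η * |Q ν ν|) +
          2 * (η * (τ * (‖u‖ + ‖ν‖)) ^ 2) := by ring
      linarith
    exact le_of_mul_le_mul_left h10 (by positivity)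
  linarith

private theorem rotC4_pos {f : E → ℝ} {y u : E} (hf : DifferentiableAt ℝ f y) (h0 : f y = 0)
    (h1 : 0 < fderiv ℝ f y u) : ∀ᶠ t in 𝓝[>] (0 : ℝ), 0 < f (y + t • u) := by
  have h2 := (hf.hasFDerivAt.hasLineDerivAt u).tendsto_slope_zero_right
  filter_upwards [h2.eventually (lt_mem_nhds h1), self_mem_nhdsWithin] with t h3 h4
  have h5 : (0 : ℝ) < t := h4
  rw [h0, sub_zero, smul_eq_mul] at h3
  exact pos_of_mul_pos_right h3 (inv_pos.2 h5).le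

private theorem rotC4_le {f g : E → ℝ} {y : E} (hf : DifferentiableAt ℝ f y)
    (hg : DifferentiableAt ℝ g y) (hf0 : f y = 0) (hg0 : g y = 0)
    (h : ∀ᶠ z in 𝓝 y, g z ≤ 0 → f z ≤ 0) {u : E} (hu : fderiv ℝ g y u < 0) :
    fderiv ℝ f y u ≤ 0 := by
  by_contra hcon
  have h1 := rotC4_pos hf hf0 (not_le.1 hcon)
  have h2 : ∀ᶠ t in 𝓝[>] (0 : ℝ), 0 < (-g) (y + t • u) := by
    refine rotC4_pos hg.neg ?_ ?_
    · rw [Pi.neg_apply, hg0, neg_zero]
    · rw [fderiv_neg]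
      change 0 < -(fderiv ℝ g y u)
      linarith
  have h3 : Tendsto (fun t : ℝ => y + t • u) (𝓝[>] (0 : ℝ)) (𝓝 y) := by
    have h4 : Tendsto (fun t : ℝ => y + t • u) (𝓝 (0 : ℝ)) (𝓝 (y + (0 : ℝ) • u)) := by
      apply Continuous.tendsto
      fun_prop
    rw [zero_smul, add_zero] at h4
    exact h4.mono_left nhdsWithin_le_nhds
  obtain ⟨t, h4, h5, h6⟩ := (h1.and (h2.and (h3.eventually h))).exists
  have h7 : g (y + t • u) ≤ 0 := by
    have h8 : 0 < -(g (y + t • u)) := h5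
    linarith
  exact absurd (h6 h7) (not_le.2 h4)

/-- piece `ROT-C4`: tangency.
Proof. If `g' u < 0` then `g (y + t u) < 0`, hence `f (y + t u) ≤ 0` for small `t > 0`, so `f' u ≤ 0`. Take `v` with
`g' v < 0`. If `g' u = 0` then `g' (u + s v) < 0` for `s > 0`, so `f' u + s f' v ≤ 0`, `s → 0`: `f' u ≤ 0`, and the
same for `- u`: `f' u = 0`. So `f' = c • g'` with `c = f' v / g' v ≥ 0`, `c ≠ 0` as `f' ≠ 0`. -/
theorem par {f g : E → ℝ} {y : E} (hf : DifferentiableAt ℝ f y) (hg : DifferentiableAt ℝ g y)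
    (hf0 : f y = 0) (hg0 : g y = 0) (hf1 : fderiv ℝ f y ≠ 0) (hg1 : fderiv ℝ g y ≠ 0)
    (h : ∀ᶠ z in 𝓝 y, g z ≤ 0 → f z ≤ 0) :
    ∃ c : ℝ, 0 < c ∧ fderiv ℝ f y = c • fderiv ℝ g y := by
  obtain ⟨v, hv⟩ : ∃ v, fderiv ℝ g y v < 0 := by
    by_contra hcon
    push Not at hcon
    apply hg1
    ext w
    have h2 := hcon w
    have h3 := hcon (-w)
    rw [map_neg] at h3
    rw [zero_apply]
    linarith
  have hfv := rotC4_le hf hg hf0 hg0 h hv
  have hle : ∀ u, fderiv ℝ g y u = 0 → fderiv ℝ f y u ≤ 0 := by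
    intro u hu
    refine le_of_forall_pos_le_add fun ε hε => ?_
    rcases eq_or_lt_of_le hfv with h3 | h3
    · have h4 : fderiv ℝ g y (u + (1 : ℝ) • v) < 0 := by
        rw [map_add, map_smul, hu, smul_eq_mul]
        linarith
      have h5 := rotC4_le hf hg hf0 hg0 h h4
      rw [map_add, map_smul, smul_eq_mul, h3] at h5
      linarith
    · have hs : 0 < ε / (-(fderiv ℝ f y v)) := div_pos hε (by linarith)
      have h4 : fderiv ℝ g y (u + (ε / (-(fderiv ℝ f y v))) • v) < 0 := by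
        rw [map_add, map_smul, hu, smul_eq_mul, zero_add]
        exact mul_neg_of_pos_of_neg hs hv
      have h5 := rotC4_le hf hg hf0 hg0 h h4
      rw [map_add, map_smul, smul_eq_mul] at h5
      have h6 : ε / (-(fderiv ℝ f y v)) * fderiv ℝ f y v = -ε := by
        rw [div_neg, neg_mul, div_mul_cancel₀ _ h3.ne]
      linarith
  have heq : ∀ u, fderiv ℝ g y u = 0 → fderiv ℝ f y u = 0 := by
    intro u hu
    refine le_antisymm (hle u hu) ?_
    have h3 := hle (-u) (by rw [map_neg, hu, neg_zero])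
    rw [map_neg] at h3
    linarith
  have hc : fderiv ℝ f y = (fderiv ℝ f y v / fderiv ℝ g y v) • fderiv ℝ g y := by
    ext x
    have h3 := heq (x - (fderiv ℝ g y x / fderiv ℝ g y v) • v) (by
      rw [map_sub, map_smul, smul_eq_mul, div_mul_cancel₀ _ hv.ne, sub_self])
    rw [map_sub, map_smul, smul_eq_mul] at h3
    rw [smul_apply, smul_eq_mul]
    have h4 : fderiv ℝ f y v / fderiv ℝ g y v * fderiv ℝ g y x =
        fderiv ℝ g y x / fderiv ℝ g y v * fderiv ℝ f y v := by ring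
    rw [h4]
    linarith
  refine ⟨fderiv ℝ f y v / fderiv ℝ g y v, ?_, hc⟩
  rcases eq_or_lt_of_le hfv with h3 | h3
  · exfalso
    rw [h3, zero_div, zero_smul] at hc
    exact hf1 hc
  · exact div_pos_of_neg_of_neg h3 hv

private theorem rotC5_ball {f : E → ℝ} {y ν : E} (hf : ContDiffAt ℝ 1 f y)
    (hf1 : 0 < fderiv ℝ f y ν) :
    ∀ᶠ w in 𝓝 y, DifferentiableAt ℝ f w ∧ 0 < fderiv ℝ f w ν := by
  have h1 : ∀ᶠ w in 𝓝 y, ContDiffAt ℝ 1 f w := hf.eventually (by simp)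
  have h2 : ContinuousAt (fun w => fderiv ℝ f w ν) y := by
    have h3 : ContinuousAt (fderiv ℝ f) y :=
      (hf.fderiv_right (m := 0) (by simp)).continuousAt
    exact h3.clm_apply continuousAt_const
  have h4 : ∀ᶠ w in 𝓝 y, 0 < fderiv ℝ f w ν := h2.eventually (lt_mem_nhds hf1)
  filter_upwards [h1, h4] with w h5 h6
  exact ⟨h5.differentiableAt (by simp), h6⟩

private theorem rotC5_mono {f : E → ℝ} {y ν : E} {R T : ℝ} (hT : T * ‖ν‖ ≤ R / 2)
    (hf : ∀ w ∈ Metric.ball y R, DifferentiableAt ℝ f w ∧ 0 < fderiv ℝ f w ν) {z : E}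
    (hz : z ∈ Metric.ball y (R / 2)) :
    StrictMonoOn (fun t : ℝ => f (z + t • ν)) (Set.Ioo (-T) T) ∧
      ContinuousOn (fun t : ℝ => f (z + t • ν)) (Set.Ioo (-T) T) := by
  have hmem : ∀ t ∈ Set.Ioo (-T) T, z + t • ν ∈ Metric.ball y R := by
    intro t ht
    rw [Metric.mem_ball, dist_eq_norm] at hz ⊢
    have h1 : z + t • ν - y = (z - y) + t • ν := by abel
    have h2 : |t| ≤ T := (abs_lt.2 ht).le
    rw [h1]
    calc ‖(z - y) + t • ν‖ ≤ ‖z - y‖ + ‖t • ν‖ := norm_add_le _ _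
      _ = ‖z - y‖ + |t| * ‖ν‖ := by rw [norm_smul, Real.norm_eq_abs]
      _ ≤ ‖z - y‖ + T * ‖ν‖ := by
        have := mul_le_mul_of_nonneg_right h2 (norm_nonneg ν)
        linarith
      _ < R := by linarith
  have hder : ∀ t ∈ Set.Ioo (-T) T,
      HasDerivAt (fun t : ℝ => f (z + t • ν)) (fderiv ℝ f (z + t • ν) ν) t := by
    intro t ht
    have h1 : HasDerivAt (fun t : ℝ => z + t • ν) ν t := by
      have := ((hasDerivAt_id t).smul_const ν).const_add z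
      simpa using this
    exact (hf _ (hmem t ht)).1.hasFDerivAt.comp_hasDerivAt t h1
  have hcont : ContinuousOn (fun t : ℝ => f (z + t • ν)) (Set.Ioo (-T) T) :=
    fun t ht => (hder t ht).continuousAt.continuousWithinAt
  refine ⟨?_, hcont⟩
  apply strictMonoOn_of_deriv_pos (convex_Ioo _ _) hcont
  intro t ht
  rw [interior_Ioo] at ht
  rw [(hder t ht).deriv]
  exact (hf _ (hmem t ht)).2

private theorem rotC5_sign {F : ℝ → ℝ} {T s : ℝ} (hT : 0 < T)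
    (hF : StrictMonoOn F (Set.Ioo (-T) T)) (hs : s ∈ Set.Ioo (-T) T) (h : F s = 0) :
    (F 0 < 0 ↔ 0 < s) ∧ (F 0 = 0 ↔ s = 0) := by
  have h0 : (0 : ℝ) ∈ Set.Ioo (-T) T := ⟨by linarith, hT⟩
  have h1 := hF.lt_iff_lt h0 hs
  rw [h] at h1
  refine ⟨h1, ?_⟩
  constructor
  · intro h2
    exact (hF.injOn h0 hs (h2.trans h.symm)).symm
  · rintro rfl
    exact h

/-- piece `ROT-C5`: two functions with the same zero set have the same signs.
Proof. Choose `δ > 0` such that on the ball `B (y, 3 δ (1 + ‖ν‖))` `f' ν > 0`, `g' ν > 0` (continuity of `f'`, `g'` at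
`y`), `f` and `g` are differentiable and `f = 0 → g = 0`. For `z` close to `y`, `f (z - δ ν) < 0 < f (z + δ ν)` (as
`f (y - δ ν) < 0 < f (y + δ ν)`, continuity), so `f (z + s ν) = 0` for some `|s| < δ` and then `g (z + s ν) = 0`.
Both `f` and `g` are strictly increasing along `t ↦ z + t ν`, `|t| < 2 δ`, so the sign of `f z` and of
`g z` is the sign of `- s`. -/
theorem sgn {f g : E → ℝ} {y ν : E} (hf : ContDiffAt ℝ 1 f y) (hg : ContDiffAt ℝ 1 g y)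
    (hf0 : f y = 0) (hg0 : g y = 0) (hf1 : 0 < fderiv ℝ f y ν) (hg1 : 0 < fderiv ℝ g y ν)
    (h : ∀ᶠ z in 𝓝 y, f z = 0 → g z = 0) :
    ∀ᶠ z in 𝓝 y, (f z < 0 ↔ g z < 0) ∧ (f z = 0 ↔ g z = 0) := by
  have hev := ((rotC5_ball hf hf1).and (rotC5_ball hg hg1)).and h
  obtain ⟨R, hR, hball⟩ := Metric.eventually_nhds_iff_ball.1 hev
  obtain ⟨T, hT, hTR⟩ : ∃ T : ℝ, 0 < T ∧ T * ‖ν‖ ≤ R / 2 := by
    refine ⟨R / (2 * (‖ν‖ + 1)), by positivity, ?_⟩
    rw [div_mul_eq_mul_div, div_le_div_iff₀ (by positivity) (by norm_num)]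
    nlinarith [norm_nonneg ν]
  have hfb : ∀ w ∈ Metric.ball y R, DifferentiableAt ℝ f w ∧ 0 < fderiv ℝ f w ν :=
    fun w hw => (hball w hw).1.1
  have hgb : ∀ w ∈ Metric.ball y R, DifferentiableAt ℝ g w ∧ 0 < fderiv ℝ g w ν :=
    fun w hw => (hball w hw).1.2
  have hyb : y ∈ Metric.ball y (R / 2) := Metric.mem_ball_self (by linarith)
  have hmem : ∀ z ∈ Metric.ball y (R / 2), ∀ t : ℝ, |t| ≤ T / 2 → z + t • ν ∈ Metric.ball y R := by
    intro z hz t ht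
    rw [Metric.mem_ball, dist_eq_norm] at hz ⊢
    have h1 : z + t • ν - y = (z - y) + t • ν := by abel
    rw [h1]
    calc ‖(z - y) + t • ν‖ ≤ ‖z - y‖ + ‖t • ν‖ := norm_add_le _ _
      _ = ‖z - y‖ + |t| * ‖ν‖ := by rw [norm_smul, Real.norm_eq_abs]
      _ ≤ ‖z - y‖ + T * ‖ν‖ := by
        have := mul_le_mul_of_nonneg_right (ht.trans (by linarith : T / 2 ≤ T)) (norm_nonneg ν)
        linarith
      _ < R := by linarith
  -- signs at the ends
  have hmy := (rotC5_mono hTR hfb hyb).1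
  have i0 : (0 : ℝ) ∈ Set.Ioo (-T) T := ⟨by linarith, hT⟩
  have i1 : T / 2 ∈ Set.Ioo (-T) T := ⟨by linarith, by linarith⟩
  have i2 : -(T / 2) ∈ Set.Ioo (-T) T := ⟨by linarith, by linarith⟩
  have hpos : 0 < f (y + (T / 2) • ν) := by
    have := hmy i0 i1 (by linarith)
    simpa [hf0] using this
  have hneg : f (y + (-(T / 2)) • ν) < 0 := by
    have := hmy i2 i0 (by linarith)
    simpa [hf0] using this
  have hc : ∀ t : ℝ, |t| ≤ T / 2 → ContinuousAt (fun z : E => f (z + t • ν)) y := by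
    intro t ht
    have h1 : ContinuousAt f (y + t • ν) := (hfb _ (hmem y hyb t ht)).1.continuousAt
    exact ContinuousAt.comp (f := fun z : E => z + t • ν) h1 (by fun_prop)
  have hTabs : |T / 2| ≤ T / 2 := (abs_of_pos (by linarith)).le
  have hTabs' : |-(T / 2)| ≤ T / 2 := by rw [abs_neg]; exact hTabs
  have e1 : ∀ᶠ z in 𝓝 y, 0 < f (z + (T / 2) • ν) :=
    (hc _ hTabs).eventually (lt_mem_nhds hpos)
  have e2 : ∀ᶠ z in 𝓝 y, f (z + (-(T / 2)) • ν) < 0 :=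
    (hc _ hTabs').eventually (gt_mem_nhds hneg)
  filter_upwards [e1, e2, Metric.ball_mem_nhds y (by linarith : 0 < R / 2)] with z h1 h2 h3
  obtain ⟨mf, cf⟩ := rotC5_mono hTR hfb h3
  obtain ⟨mg, cg⟩ := rotC5_mono hTR hgb h3
  have hsub : Set.Icc (-(T / 2)) (T / 2) ⊆ Set.Ioo (-T) T := by
    intro t ht
    exact ⟨by linarith [ht.1], by linarith [ht.2]⟩
  obtain ⟨s, hs, hs0⟩ := intermediate_value_Icc (by linarith : -(T / 2) ≤ T / 2) (cf.mono hsub)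
    (show (0 : ℝ) ∈ Set.Icc (f (z + (-(T / 2)) • ν)) (f (z + (T / 2) • ν)) from ⟨h2.le, h1.le⟩)
  have hs0' : f (z + s • ν) = 0 := hs0
  have hgs : g (z + s • ν) = 0 :=
    (hball _ (hmem z h3 s (abs_le.2 ⟨hs.1, hs.2⟩))).2 hs0'
  have sf := rotC5_sign hT mf (hsub hs) hs0'
  have sg := rotC5_sign hT mg (hsub hs) hgs
  simp only [zero_smul, add_zero] at sf sg
  exact ⟨sf.1.trans sg.1.symm, sf.2.trans sg.2.symm⟩

private theorem rotC6_strict {g : E → ℝ} {y : E} {g' : E →L[ℝ] ℝ} (hs : HasStrictFDerivAt g g' y)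
    {η : ℝ} (hη : 0 < η) :
    ∃ δ : ℝ, 0 < δ ∧ ∀ z ∈ Metric.ball y δ, ∀ x ∈ Metric.ball y δ,
      ‖g z - g x - g' (z - x)‖ ≤ η * ‖z - x‖ := by
  have h1 := hs.isLittleO.bound hη
  rw [nhds_prod_eq] at h1
  obtain ⟨t, ht, h2⟩ := Filter.eventually_prod_self_iff'.1 h1
  obtain ⟨δ, hδ, h3⟩ := Metric.mem_nhds_iff.1 ht
  exact ⟨δ, hδ, fun z hz x hx => h2 z (h3 hz) x (h3 hx)⟩

/-- piece `ROT-C6`: the level set is a Lipschitz graph.
Proof. `g` has the strict derivative `g' = fderiv ℝ g y` at `y` (`ContDiffAt.hasStrictFDerivAt`), so for `x`, `z` near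
`y`, `|g z - g x - g' (z - x)| ≤ η ‖z - x‖`, `η := g' ν / 2`. Write `z - x = π + s ν`,
`s = ⟪ν, z - x⟫`. If `g x = g z` then `|s| g' ν ≤ ‖g'‖ ‖π‖ + η (‖π‖ + |s|)`, so `|s| ≤ K' ‖π‖`. -/
theorem gl {g : E → ℝ} {y ν : E} (hg : ContDiffAt ℝ 1 g y) (hν : ‖ν‖ = 1)
    (h1 : 0 < fderiv ℝ g y ν) :
    ∃ K δ : ℝ, 0 < K ∧ 0 < δ ∧ ∀ x ∈ Metric.ball y δ, ∀ z ∈ Metric.ball y δ, g x = g z →
      ‖z - x‖ ≤ K * ‖z - x - inner ℝ ν (z - x) • ν‖ := by
  obtain ⟨g', hg'⟩ : ∃ g', g' = fderiv ℝ g y := ⟨_, rfl⟩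
  rw [← hg'] at h1
  obtain ⟨a, ha⟩ : ∃ a, a = g' ν := ⟨_, rfl⟩
  rw [← ha] at h1
  have hs : HasStrictFDerivAt g g' y := by
    rw [hg']
    exact hg.hasStrictFDerivAt one_ne_zero
  obtain ⟨δ, hδ, hb⟩ := rotC6_strict hs (half_pos h1)
  refine ⟨2 + 2 * ‖g'‖ / a, δ, by positivity, hδ, fun x hx z hz hxz => ?_⟩
  have h2 := hb z hz x hx
  rw [hxz, sub_self, zero_sub, norm_neg, Real.norm_eq_abs] at h2
  obtain ⟨w, hw⟩ : ∃ w, w = z - x := ⟨_, rfl⟩
  rw [← hw] at h2 ⊢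
  obtain ⟨s, hs'⟩ : ∃ s : ℝ, s = inner ℝ ν w := ⟨_, rfl⟩
  rw [← hs']
  obtain ⟨q, hq⟩ : ∃ q, q = w - s • ν := ⟨_, rfl⟩
  rw [← hq]
  have hwq : w = q + s • ν := by rw [hq]; abel
  have h3 : g' w = g' q + s * a := by
    rw [hwq, map_add, map_smul, smul_eq_mul, ← ha]
  have h4 : ‖w‖ ≤ ‖q‖ + |s| := by
    rw [hwq]
    refine (norm_add_le _ _).trans ?_
    rw [norm_smul, hν, mul_one, Real.norm_eq_abs]
  have h5 : |g' q| ≤ ‖g'‖ * ‖q‖ := g'.le_opNorm q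
  have h6 : |s| * a ≤ |g' q| + |g' w| := by
    have h7 : |s * a| = |g' w - g' q| := by
      rw [h3]
      congr 1
      ring
    rw [abs_mul, abs_of_pos h1] at h7
    rw [h7]
    have := abs_sub (g' w) (g' q)
    linarith
  have h8 : |s| * a ≤ 2 * ‖g'‖ * ‖q‖ + a * ‖q‖ := by
    have h9 : a / 2 * ‖w‖ ≤ a / 2 * (‖q‖ + |s|) := mul_le_mul_of_nonneg_left h4 (half_pos h1).le
    linarith
  have h10 : |s| ≤ (2 * ‖g'‖ / a + 1) * ‖q‖ := by
    have h11 : (2 * ‖g'‖ / a + 1) * ‖q‖ = (2 * ‖g'‖ * ‖q‖ + a * ‖q‖) / a := by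
      field_simp
    rw [h11, le_div_iff₀ h1]
    exact h8
  calc ‖w‖ ≤ ‖q‖ + |s| := h4
    _ ≤ ‖q‖ + (2 * ‖g'‖ / a + 1) * ‖q‖ := by linarith
    _ = (2 + 2 * ‖g'‖ / a) * ‖q‖ := by ring

/-- piece `ROT-C6`, second part: a function that vanishes on the level set is bounded by the defining function.
Proof. Take `ν` with `f' ν > 0`, `m = f' ν / 2`. On a ball `B (y, δ)`: `f'(z) ν ≥ m`, `Ψ` is Lipschitz with constant
`L`, `f = 0 → Ψ = 0`. For `z` close to `y` let `s = |f z| / m`; `f (z + s ν) ≥ f z + m s ≥ 0` and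
`f (z - s ν) ≤ 0` (mean value theorem), so `f (z + t ν) = 0` for some `|t| ≤ s`, hence `Ψ (z + t ν) = 0` and
`|Ψ z| ≤ L |t| ‖ν‖ ≤ (L ‖ν‖ / m) |f z|`. -/
theorem lip0 {f Ψ : E → ℝ} {y : E} (hf : ContDiffAt ℝ 1 f y) (hΨ : ContDiffAt ℝ 1 Ψ y)
    (h0 : f y = 0) (h1 : fderiv ℝ f y ≠ 0) (h : ∀ᶠ z in 𝓝 y, f z = 0 → Ψ z = 0) :
    ∃ C : ℝ, 0 < C ∧ ∀ᶠ z in 𝓝 y, |Ψ z| ≤ C * |f z| := by
  obtain ⟨f', hf'⟩ : ∃ f', f' = fderiv ℝ f y := ⟨_, rfl⟩
  rw [← hf'] at h1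
  obtain ⟨ν, hν⟩ : ∃ ν, 0 < f' ν := by
    obtain ⟨u, hu⟩ : ∃ u, f' u ≠ 0 := by
      by_contra hcon
      push Not at hcon
      exact h1 (ContinuousLinearMap.ext hcon)
    rcases lt_or_gt_of_ne hu with h2 | h2
    · exact ⟨-u, by rw [map_neg]; linarith⟩
    · exact ⟨u, h2⟩
  obtain ⟨a, ha⟩ : ∃ a, a = f' ν := ⟨_, rfl⟩
  rw [← ha] at hν
  have hν0 : 0 < ‖ν‖ := by
    rw [norm_pos_iff]
    rintro rfl
    rw [map_zero] at ha
    linarith
  have hs : HasStrictFDerivAt f f' y := by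
    rw [hf']
    exact hf.hasStrictFDerivAt one_ne_zero
  obtain ⟨δ₁, hδ₁, hb⟩ := rotC6_strict hs (η := a / (2 * ‖ν‖)) (by positivity)
  obtain ⟨K, t, ht, hK⟩ := (hΨ.hasStrictFDerivAt one_ne_zero).exists_lipschitzOnWith
  have hcont : ∀ᶠ z in 𝓝 y, ContinuousAt f z :=
    (hf.eventually (by simp)).mono fun z hz => hz.continuousAt
  obtain ⟨δ₂, hδ₂, h3⟩ := Metric.eventually_nhds_iff_ball.1 ((h.and ht).and hcont)
  obtain ⟨δ, hδ, hδ1, hδ2⟩ : ∃ δ : ℝ, 0 < δ ∧ δ ≤ δ₁ ∧ δ ≤ δ₂ :=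
    ⟨min δ₁ δ₂, lt_min hδ₁ hδ₂, min_le_left _ _, min_le_right _ _⟩
  refine ⟨K * ‖ν‖ * (2 / a) + 1, by positivity, ?_⟩
  have h4 : ∀ᶠ z in 𝓝 y, |f z| * (2 / a) * ‖ν‖ < δ / 2 := by
    have h5 : ContinuousAt (fun z => |f z| * (2 / a) * ‖ν‖) y :=
      ((hf.continuousAt.abs).mul continuousAt_const).mul continuousAt_const
    have h6 : |f y| * (2 / a) * ‖ν‖ < δ / 2 := by
      rw [h0, abs_zero, zero_mul, zero_mul]
      exact half_pos hδ
    exact h5.eventually (gt_mem_nhds h6)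
  filter_upwards [h4, Metric.ball_mem_nhds y (half_pos hδ)] with z hz1 hz2
  obtain ⟨s, hs1⟩ : ∃ s, s = |f z| * (2 / a) := ⟨_, rfl⟩
  have hs0 : 0 ≤ s := by rw [hs1]; positivity
  rw [← hs1] at hz1
  have hin : ∀ r ∈ Set.Icc (-s) s, z + r • ν ∈ Metric.ball y δ := by
    intro r hr
    rw [Metric.mem_ball, dist_eq_norm] at hz2 ⊢
    have h6 : z + r • ν - y = (z - y) + r • ν := by abel
    rw [h6]
    refine (norm_add_le _ _).trans_lt ?_
    rw [norm_smul, Real.norm_eq_abs]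
    have h7 : |r| * ‖ν‖ ≤ s * ‖ν‖ := mul_le_mul_of_nonneg_right (abs_le.2 hr) hν0.le
    linarith
  have hzδ : z ∈ Metric.ball y δ := by
    have := hin 0 ⟨by linarith, hs0⟩
    rwa [zero_smul, add_zero] at this
  have hval : ∀ r ∈ Set.Icc (-s) s, |f (z + r • ν) - f z - r * a| ≤ a / 2 * |r| := by
    intro r hr
    have h6 := hb _ (Metric.ball_subset_ball hδ1 (hin r hr)) z (Metric.ball_subset_ball hδ1 hzδ)
    rw [add_sub_cancel_left, map_smul, smul_eq_mul, ← ha, norm_smul, Real.norm_eq_abs,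
      Real.norm_eq_abs] at h6
    have h7 : a / (2 * ‖ν‖) * (|r| * ‖ν‖) = a / 2 * |r| := by
      field_simp
    rwa [h7] at h6
  have hsa : s * a = 2 * |f z| := by
    rw [hs1]
    field_simp
  have hpos : 0 ≤ f (z + s • ν) := by
    have h6 := (abs_le.1 (hval s ⟨by linarith, le_rfl⟩)).1
    rw [abs_of_nonneg hs0] at h6
    have := neg_abs_le (f z)
    nlinarith
  have hneg : f (z + (-s) • ν) ≤ 0 := by
    have h6 := (abs_le.1 (hval (-s) ⟨le_rfl, by linarith⟩)).2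
    rw [abs_neg, abs_of_nonneg hs0] at h6
    have := le_abs_self (f z)
    nlinarith
  have hcontOn : ContinuousOn (fun r : ℝ => f (z + r • ν)) (Set.Icc (-s) s) := by
    intro r hr
    have h6 : ContinuousAt f (z + r • ν) := (h3 _ (Metric.ball_subset_ball hδ2 (hin r hr))).2
    have h7 : ContinuousAt (fun r : ℝ => z + r • ν) r := by fun_prop
    exact (ContinuousAt.comp (f := fun r : ℝ => z + r • ν) h6 h7).continuousWithinAt
  obtain ⟨r, hr, hr0⟩ := intermediate_value_Icc (by linarith : -s ≤ s) hcontOn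
    ⟨hneg, hpos⟩
  have hr0' : f (z + r • ν) = 0 := hr0
  obtain ⟨⟨h8, h9⟩, -⟩ := h3 _ (Metric.ball_subset_ball hδ2 (hin r hr))
  obtain ⟨⟨-, h10⟩, -⟩ := h3 _ (Metric.ball_subset_ball hδ2 hzδ)
  have h11 := hK.dist_le_mul z h10 _ h9
  rw [h8 hr0', dist_zero_right, Real.norm_eq_abs, dist_eq_norm, sub_add_cancel_left, norm_neg,
    norm_smul, Real.norm_eq_abs] at h11
  have h12 : |r| ≤ s := abs_le.2 hr
  calc |Ψ z| ≤ K * (|r| * ‖ν‖) := h11
    _ ≤ K * (s * ‖ν‖) := by gcongr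
    _ = K * ‖ν‖ * (2 / a) * |f z| := by rw [hs1]; ring
    _ ≤ (K * ‖ν‖ * (2 / a) + 1) * |f z| := by nlinarith [abs_nonneg (f z)]

private theorem rotC7_range {f' φ' : E →L[ℝ] ℝ} {u v : E} (hu : f' u = 0) (hu' : φ' u ≠ 0)
    (hv : f' v ≠ 0) : (f'.prod φ').range = ⊤ := by
  rw [eq_top_iff]
  rintro ⟨a, b⟩ -
  refine ⟨(a / f' v) • v + ((b - (a / f' v) * φ' v) / φ' u) • u, ?_⟩
  refine Prod.ext ?_ ?_
  · simp [hu, hv]
  · simp [hu']

private theorem rotC7_conv {W : Type*} [NormedAddCommGroup W] [NormedSpace ℝ W]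
    (e : OpenPartialHomeomorph E ((ℝ × ℝ) × W)) {k₀ : W} {ε : ℝ}
    (hε : Metric.ball (0 : ℝ) ε ×ˢ Metric.ball (0 : ℝ) ε ×ˢ Metric.ball k₀ ε ⊆
      {p : ℝ × ℝ × W | ((p.1, p.2.1), p.2.2) ∈ e.target})
    {S : Set ℝ} (hS : Convex ℝ S) :
    IsPreconnected (e.source ∩ {x | (e x).1.1 = 0 ∧ (e x).1.1 ∈ Metric.ball (0 : ℝ) ε ∧
      (e x).1.2 ∈ Metric.ball (0 : ℝ) ε ∧ (e x).2 ∈ Metric.ball k₀ ε ∧ (e x).1.2 ∈ S}) := by
  by_cases h0 : 0 < ε
  swap
  · have : (e.source ∩ {x | (e x).1.1 = 0 ∧ (e x).1.1 ∈ Metric.ball (0 : ℝ) ε ∧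
      (e x).1.2 ∈ Metric.ball (0 : ℝ) ε ∧ (e x).2 ∈ Metric.ball k₀ ε ∧ (e x).1.2 ∈ S}) = ∅ := by
      rw [Metric.ball_eq_empty.mpr (not_lt.mp h0)]
      simp
    rw [this]
    exact isPreconnected_empty
  have himg : (e.source ∩ {x | (e x).1.1 = 0 ∧ (e x).1.1 ∈ Metric.ball (0 : ℝ) ε ∧
      (e x).1.2 ∈ Metric.ball (0 : ℝ) ε ∧ (e x).2 ∈ Metric.ball k₀ ε ∧ (e x).1.2 ∈ S}) =
      e.symm '' ((({0} : Set ℝ) ×ˢ (Metric.ball (0 : ℝ) ε ∩ S)) ×ˢ Metric.ball k₀ ε) := by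
    ext x
    constructor
    · rintro ⟨hx, h1, h2, h3, h4, h5⟩
      refine ⟨e x, ⟨⟨h1, h3, h5⟩, h4⟩, e.left_inv hx⟩
    · rintro ⟨⟨⟨a, b⟩, k⟩, ⟨⟨ha, hb, hb'⟩, hk⟩, rfl⟩
      simp only [Set.mem_singleton_iff] at ha
      subst ha
      have ht : ((((0 : ℝ), b), k) : (ℝ × ℝ) × W) ∈ e.target :=
        hε (show ((0 : ℝ), b, k) ∈ _ from ⟨Metric.mem_ball_self h0, hb, hk⟩)
      refine ⟨e.map_target ht, ?_⟩
      simp only [Set.mem_ofPred_eq]
      rw [e.right_inv ht]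
      exact ⟨rfl, Metric.mem_ball_self h0, hb, hk, hb'⟩
  rw [himg]
  refine IsPreconnected.image ?_ _ (e.continuousOn_symm.mono ?_)
  · exact (((convex_singleton _).prod ((convex_ball _ _).inter hS)).prod
      (convex_ball _ _)).isPreconnected
  · rintro ⟨⟨a, b⟩, k⟩ ⟨⟨ha, hb, hb'⟩, hk⟩
    simp only [Set.mem_singleton_iff] at ha
    subst ha
    exact hε (show ((0 : ℝ), b, k) ∈ _ from ⟨Metric.mem_ball_self h0, hb, hk⟩)

/-- piece `ROT-C7`: local structure of `{f = 0}` cut by a transversal hypersurface `{φ = 0}`.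
Proof. The map `Ψ z = (f z, φ z) : E → ℝ × ℝ` is `C¹` and its derivative at `z` is onto (the derivatives of `f` and `φ`
are linearly independent: take `u` with `f' u = 0`, `φ' u ≠ 0` and `v` with `f' v ≠ 0`). Use
`HasStrictFDerivAt.implicitToOpenPartialHomeomorph` (or `ContDiffAt.toOpenPartialHomeomorph` of
`(f, φ, π)` for a suitable `π`): a local homeomorphism `e` from a neighbourhood of `z` in `E` to
`(ℝ × ℝ) × ker`, with `(e x).1 = (f x, φ x)`. `U` := preimage in the source of a product of balls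
`B (0, ε) × B (0, ε) × B (k₀, ε)` that is contained in `e.target ∩ e.symm ⁻¹' V`. The set `{z' ∈ U | f z' = 0, 0 < φ z'}` is
the image under the continuous `e.symm` of the convex set `{0} × (0, ε) × B`, so preconnected. A point
`(0, s, k)` is the limit of points `(0, s', k)` with `s' ≠ 0`. -/
theorem lc {f φ : E → ℝ} {z : E} (hf : ContDiffAt ℝ 1 f z) (hφ : ContDiffAt ℝ 1 φ z)
    (hf0 : f z = 0) (hφ0 : φ z = 0) (hf1 : fderiv ℝ f z ≠ 0)
    (hu : ∃ u, fderiv ℝ f z u = 0 ∧ fderiv ℝ φ z u ≠ 0) {V : Set E} (hV : V ∈ 𝓝 z) :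
    ∃ U : Set E, IsOpen U ∧ z ∈ U ∧ U ⊆ V ∧
      IsPreconnected {x | x ∈ U ∧ f x = 0 ∧ 0 < φ x} ∧
      IsPreconnected {x | x ∈ U ∧ f x = 0 ∧ φ x < 0} ∧
      ∀ x ∈ U, f x = 0 → x ∈ closure {x | x ∈ U ∧ f x = 0 ∧ φ x ≠ 0} := by
  obtain ⟨u, hu1, hu2⟩ := hu
  obtain ⟨v, hv⟩ : ∃ v, fderiv ℝ f z v ≠ 0 := by
    by_contra h
    push Not at h
    exact hf1 (ContinuousLinearMap.ext h)
  have hsf : HasStrictFDerivAt f (fderiv ℝ f z) z := hf.hasStrictFDerivAt (by norm_num)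
  have hsφ : HasStrictFDerivAt φ (fderiv ℝ φ z) z := hφ.hasStrictFDerivAt (by norm_num)
  have hs : HasStrictFDerivAt (fun x => (f x, φ x)) ((fderiv ℝ f z).prod (fderiv ℝ φ z)) z :=
    hsf.prodMk hsφ
  have hr := rotC7_range hu1 hu2 hv
  have : CompleteSpace E := FiniteDimensional.complete ℝ E
  obtain ⟨e, he, hes, hez⟩ : ∃ e : OpenPartialHomeomorph E
      ((ℝ × ℝ) × ((fderiv ℝ f z).prod (fderiv ℝ φ z)).ker),
      (∀ x, (e x).1 = (f x, φ x)) ∧ z ∈ e.source ∧ e z = ((0, 0), 0) := by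
    refine ⟨hs.implicitToOpenPartialHomeomorph _ _ hr, fun x => ?_, ?_, ?_⟩
    · exact hs.implicitToOpenPartialHomeomorph_fst hr x
    · exact hs.mem_implicitToOpenPartialHomeomorph_source hr
    · rw [hs.implicitToOpenPartialHomeomorph_self hr, hf0, hφ0]
  have hezt : e.target ∩ e.symm ⁻¹' interior V ∈ 𝓝 (((0, 0), 0) :
      (ℝ × ℝ) × ((fderiv ℝ f z).prod (fderiv ℝ φ z)).ker) := by
    have hO : IsOpen (e.target ∩ e.symm ⁻¹' interior V) :=
      e.isOpen_inter_preimage_symm isOpen_interior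
    refine hO.mem_nhds ⟨?_, ?_⟩
    · rw [← hez]
      exact e.map_source hes
    · rw [← hez, Set.mem_preimage, e.left_inv hes]
      exact mem_interior_iff_mem_nhds.mpr hV
  obtain ⟨ε, hε0, hε⟩ := Metric.mem_nhds_iff.mp hezt
  have hbox : ∀ (a b : ℝ) (k : ((fderiv ℝ f z).prod (fderiv ℝ φ z)).ker),
      a ∈ Metric.ball (0 : ℝ) ε → b ∈ Metric.ball (0 : ℝ) ε → k ∈ Metric.ball 0 ε →
      ((a, b), k) ∈ e.target ∩ e.symm ⁻¹' interior V := by
    intro a b k ha hb hk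
    apply hε
    rw [Metric.mem_ball, Prod.dist_eq, Prod.dist_eq]
    exact max_lt (max_lt ha hb) hk
  have hε' : Metric.ball (0 : ℝ) ε ×ˢ Metric.ball (0 : ℝ) ε ×ˢ
      Metric.ball (0 : ((fderiv ℝ f z).prod (fderiv ℝ φ z)).ker) ε ⊆
      {p : ℝ × ℝ × ((fderiv ℝ f z).prod (fderiv ℝ φ z)).ker | ((p.1, p.2.1), p.2.2) ∈ e.target} := by
    rintro ⟨a, b, k⟩ ⟨ha, hb, hk⟩
    exact (hbox a b k ha hb hk).1
  set B : Set ((ℝ × ℝ) × ((fderiv ℝ f z).prod (fderiv ℝ φ z)).ker) :=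
    (Metric.ball (0 : ℝ) ε ×ˢ Metric.ball (0 : ℝ) ε) ×ˢ Metric.ball 0 ε with hB
  have hBo : IsOpen B := (Metric.isOpen_ball.prod Metric.isOpen_ball).prod Metric.isOpen_ball
  have hU : ∀ x, x ∈ e.source ∩ e ⁻¹' B ↔ x ∈ e.source ∧ f x ∈ Metric.ball (0 : ℝ) ε ∧
      φ x ∈ Metric.ball (0 : ℝ) ε ∧ (e x).2 ∈ Metric.ball 0 ε := by
    intro x
    rw [Set.mem_inter_iff, Set.mem_preimage, hB, Set.mem_prod, Set.mem_prod, he x, and_assoc]
  have key : ∀ S : Set ℝ, Convex ℝ S →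
      IsPreconnected {x | x ∈ e.source ∩ e ⁻¹' B ∧ f x = 0 ∧ φ x ∈ S} := by
    intro S hS
    have := rotC7_conv e hε' hS
    convert this using 1
    ext x
    rw [Set.mem_ofPred_eq, hU x]
    simp only [Set.mem_inter_iff, Set.mem_ofPred_eq, he x]
    tauto
  refine ⟨e.source ∩ e ⁻¹' B, e.isOpen_inter_preimage hBo, ?_, ?_, ?_, ?_, ?_⟩
  · rw [hU, hf0, hφ0, hez]
    exact ⟨hes, Metric.mem_ball_self hε0, Metric.mem_ball_self hε0, Metric.mem_ball_self hε0⟩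
  · intro x hx
    rw [hU] at hx
    have h1 := (hbox (f x) (φ x) (e x).2 hx.2.1 hx.2.2.1 hx.2.2.2).2
    have h2 : ((f x, φ x), (e x).2) = e x := by rw [← he x]
    rw [h2, Set.mem_preimage, e.left_inv hx.1] at h1
    exact interior_subset h1
  · exact key (Set.Ioi 0) (convex_Ioi 0)
  · exact key (Set.Iio 0) (convex_Iio 0)
  · intro x hx hfx
    by_cases hφx : φ x = 0
    swap
    · exact subset_closure ⟨hx, hfx, hφx⟩
    have hx' := (hU x).mp hx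
    have hk := hx'.2.2.2
    rw [Metric.mem_closure_iff]
    intro δ hδ
    have hex : e x = ((0, 0), (e x).2) := by
      rw [show ((0, 0), (e x).2) = ((f x, φ x), (e x).2) by rw [hfx, hφx], ← he x]
    have hct : ContinuousAt (fun t : ℝ => e.symm (((0 : ℝ), t), (e x).2)) 0 := by
      have h1 : ContinuousAt e.symm (((0 : ℝ), (0 : ℝ)), (e x).2) := by
        apply e.continuousAt_symm
        exact (hbox 0 0 (e x).2 (Metric.mem_ball_self hε0) (Metric.mem_ball_self hε0) hk).1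
      have h2 : ContinuousAt (fun t : ℝ => (((0 : ℝ), t), (e x).2)) 0 := by fun_prop
      exact ContinuousAt.comp (f := fun t : ℝ => (((0 : ℝ), t), (e x).2)) h1 h2
    have h0 : e.symm (((0 : ℝ), (0 : ℝ)), (e x).2) = x := by
      rw [← hex]
      exact e.left_inv hx'.1
    have hev : ∀ᶠ t in 𝓝 (0 : ℝ), dist (e.symm (((0 : ℝ), t), (e x).2)) x < δ := by
      have h3 := hct.eventually (Metric.ball_mem_nhds _ hδ)
      filter_upwards [h3] with t ht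
      have h4 : dist (e.symm (((0 : ℝ), t), (e x).2)) (e.symm (((0 : ℝ), (0 : ℝ)), (e x).2)) < δ :=
        ht
      rwa [h0] at h4
    obtain ⟨η, hη0, hη⟩ := Metric.eventually_nhds_iff.mp hev
    have ht0 : (0 : ℝ) < min (η / 2) (ε / 2) := by positivity
    set t := min (η / 2) (ε / 2) with htdef
    have ht1 : t < η := by linarith [min_le_left (η / 2) (ε / 2)]
    have ht2 : t < ε := by linarith [min_le_right (η / 2) (ε / 2)]
    have htb : t ∈ Metric.ball (0 : ℝ) ε := by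
      rw [Metric.mem_ball, Real.dist_eq, sub_zero, abs_of_pos ht0]
      exact ht2
    have hbx := hbox 0 t (e x).2 (Metric.mem_ball_self hε0) htb hk
    have hey : e (e.symm (((0 : ℝ), t), (e x).2)) = ((0, t), (e x).2) := e.right_inv hbx.1
    have hfy : f (e.symm (((0 : ℝ), t), (e x).2)) = 0 ∧ φ (e.symm (((0 : ℝ), t), (e x).2)) = t := by
      have h3 := he (e.symm (((0 : ℝ), t), (e x).2))
      rw [hey] at h3
      exact ⟨(congrArg Prod.fst h3).symm, (congrArg Prod.snd h3).symm⟩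
    refine ⟨e.symm (((0 : ℝ), t), (e x).2), ⟨?_, hfy.1, ?_⟩, ?_⟩
    · rw [hU]
      refine ⟨e.map_target hbx.1, ?_, ?_, ?_⟩
      · rw [hfy.1]; exact Metric.mem_ball_self hε0
      · rw [hfy.2]; exact htb
      · rw [hey]; exact hk
    · rw [hfy.2]
      exact ht0.ne'
    · rw [dist_comm]
      exact hη (by rw [Real.dist_eq, sub_zero, abs_of_pos ht0]; exact ht1)

end Pool.Agent.Helper75.ROT
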