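import Pool.Agent.Helper41.ALX.Ball

/-!
# Project ROT (MP_b769bb_gt): hypersurfaces invariant under the rotations about a line: definitions
-/

/-
THEOREM. M = CH^n (HH^n, OH^2), L a K-line of M (p = orthogonal projection on L, rank a + 1 = 2, 4, 8). Every connected
compact embedded CMC hypersurface that is invariant under the rotations about L is a geodesic sphere with centre on L.

HOW TO WORK (captain helper75). Prove your piece in place, change no statement, name or import (extra imports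
without cycles are fine). Auxiliary results: private, names starting with the name of the piece. Everything in the
imported files may be used, also earlier statements of the same file, although they may be unproved. If a statement is
wrong or a proof has a gap tell helper75 at once.

CONVENTIONS. E finite dimensional Euclidean space, p an orthogonal projection (Pj), pz = p z, w = z - pz.
vg l = gradient vector of the functional l. S2 f z = second derivative (Helper41/ALX/Link.lean), a bilinear form.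
CHART: the open unit ball of E. G z = operator v - <z,v> z - |pz|^2 pv + <pz,v> pz, Yf = G (vg l), qf = l (Yf), and
Mb a p f z = MM a p z (f' z) (f'' z) = mean curvature of the level set of f through z (a + 1 = rank of p).
MODEL: V = R x E with the form B1 X Y = <pX2, pY2> - X1 Y1, tt X = sqrt (- B1 X X), W = X2 - pX2, the cone
Cn = {X1 > 0, B1 X X < 0, |W|^2 < tt X}; sc l X = (l^2 X1, l^2 pX2 + l W); em : ball -> Cn, em z = (1 + |pz|^2, z + pz);
pr : Cn -> ball its inverse up to sc. Functions Phi on Cn that are constant along sc; EE p Phi X = mean curvature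
(up to the factor sqrt (tt X - |W|^2)). rf n = reflection in the plane B1 X n = 0 (Un n: n.2 = p n.2, B1 n n = 1): it
acts only on (X1, pX2) and preserves everything. Dm H p Phi: Phi defines a compact hypersurface of curvature H.
-/

set_option autoImplicit false

namespace Pool.Agent.Helper75.ROT

open Filter Topology
open scoped ContDiff
open Pool.Agent.Helper41.ALX (S2 Vertical ballMetric meanCurv)

variable {E : Type*} [NormedAddCommGroup E] [InnerProductSpace ℝ E] [FiniteDimensional ℝ E]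

/-- `p` is an orthogonal projection. -/
structure Pj (p : E →L[ℝ] E) : Prop where
  symm : ∀ u v, inner ℝ (p u) v = inner ℝ u (p v)
  idem : ∀ u, p (p u) = p u

/-- The vector of a linear functional. -/
noncomputable def vg (l : E →L[ℝ] ℝ) : E := (InnerProductSpace.toDual ℝ E).symm l

/-! ### the operator in the chart -/

/-- `v ↦ v - ⟪z, v⟫ z - ‖p z‖² p v + ⟪p z, v⟫ p z`. -/
noncomputable def Gop (p : E →L[ℝ] E) (z : E) : E →L[ℝ] E :=
  ContinuousLinearMap.id ℝ E - (innerSL ℝ z).smulRight z - ‖p z‖ ^ 2 • p +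
    (innerSL ℝ (p z)).smulRight (p z)

noncomputable def Yf (p : E →L[ℝ] E) (z : E) (l : E →L[ℝ] ℝ) : E := Gop p z (vg l)

noncomputable def qf (p : E →L[ℝ] E) (z : E) (l : E →L[ℝ] ℝ) : ℝ := l (Yf p z l)

noncomputable def Df (p : E →L[ℝ] E) (z : E) (l : E →L[ℝ] ℝ) : ℝ :=
  ‖p z‖ ^ 2 * ‖p (vg l)‖ ^ 2 - (l (p z)) ^ 2

/-- The trace of a bilinear form with respect to `Gop p z`. -/
noncomputable def Tf (p : E →L[ℝ] E) (z : E) (Q : E →L[ℝ] E →L[ℝ] ℝ) : ℝ :=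
  ∑ i, Q (Gop p z (stdOrthonormalBasis ℝ E i)) (stdOrthonormalBasis ℝ E i)

noncomputable def MM (a : ℝ) (p : E →L[ℝ] E) (z : E) (l : E →L[ℝ] ℝ)
    (Q : E →L[ℝ] E →L[ℝ] ℝ) : ℝ :=
  √((1 - ‖z‖ ^ 2) / qf p z l) *
    (Tf p z Q + a * (l z + l (p z)) -
      (Q (Yf p z l) (Yf p z l) + l (z - p z) * Df p z l) / qf p z l)

/-- The mean curvature of the level set of `f` through `z`. -/
noncomputable def Mb (a : ℝ) (p : E →L[ℝ] E) (f : E → ℝ) (z : E) : ℝ :=
  MM a p z (fderiv ℝ f z) (S2 f z)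

/-! ### elliptic operators for level sets -/

/-- `F z l Q` is a degenerate elliptic operator for level sets. -/
structure Ell (U : Set E) (F : E → (E →L[ℝ] ℝ) → (E →L[ℝ] E →L[ℝ] ℝ) → ℝ) : Prop where
  opn : IsOpen U
  smooth : ContDiffOn ℝ 1 (fun x : E × (E →L[ℝ] ℝ) × (E →L[ℝ] E →L[ℝ] ℝ) => F x.1 x.2.1 x.2.2)
    {x | x.1 ∈ U ∧ x.2.1 ≠ 0}
  scal : ∀ z ∈ U, ∀ l, l ≠ 0 → ∀ Q, ∀ c : ℝ, 0 < c → F z (c • l) (c • Q) = F z l Q
  aff : ∀ z ∈ U, ∀ l, l ≠ 0 → ∃ A : (E →L[ℝ] E →L[ℝ] ℝ) →ₗ[ℝ] ℝ, ∀ Q, F z l Q = A Q + F z l 0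
  mono : ∀ z ∈ U, ∀ l, l ≠ 0 → ∀ Q R, (∀ u, l u = 0 → Q u u ≤ R u u) → F z l Q ≤ F z l R
  pos : ∀ z ∈ U, ∀ l, l ≠ 0 → ∀ k : E →L[ℝ] ℝ, (∀ c : ℝ, k ≠ c • l) → ∀ Q,
    F z l Q < F z l (Q + k.smulRight k)

/-- The quadratic function of the barrier: `0 < wf y ν e R z` is a ball of radius `R / 2` that
touches `y`, in the coordinates orthogonal to `ν`. -/
noncomputable def wf (y ν e : E) (R : ℝ) (z : E) : ℝ :=
  R * inner ℝ e (z - y) - ‖z - y‖ ^ 2 + (inner ℝ ν (z - y)) ^ 2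

/-! ### the model -/

noncomputable def B1 (p : E →L[ℝ] E) (X Y : ℝ × E) : ℝ := inner ℝ (p X.2) (p Y.2) - X.1 * Y.1

noncomputable def tt (p : E →L[ℝ] E) (X : ℝ × E) : ℝ := √(-B1 p X X)

def Cn (p : E →L[ℝ] E) : Set (ℝ × E) :=
  {X | 0 < X.1 ∧ B1 p X X < 0 ∧ ‖X.2 - p X.2‖ ^ 2 < tt p X}

noncomputable def sc (p : E →L[ℝ] E) (l : ℝ) (X : ℝ × E) : ℝ × E :=
  (l ^ 2 * X.1, l ^ 2 • p X.2 + l • (X.2 - p X.2))

noncomputable def em (p : E →L[ℝ] E) (z : E) : ℝ × E := (1 + ‖p z‖ ^ 2, z + p z)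

noncomputable def pr (p : E →L[ℝ] E) (X : ℝ × E) : E :=
  (X.1 + tt p X)⁻¹ • p X.2 + √(2 / (X.1 + tt p X)) • (X.2 - p X.2)

noncomputable def rf (p : E →L[ℝ] E) (n X : ℝ × E) : ℝ × E := X - (2 * B1 p X n) • n

/-- Unit normal vectors of the hyperplanes of the line. -/
structure Un (p : E →L[ℝ] E) (n : ℝ × E) : Prop where
  mem : p n.2 = n.2
  one : B1 p n n = 1

/-- The gradient in the model. -/
noncomputable def GV (p : E →L[ℝ] E) (X : ℝ × E) (l : (ℝ × E) →L[ℝ] ℝ) : ℝ × E :=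
  (-(4 * tt p X * l (1, 0)),
    (4 * tt p X) • p (vg (l.comp (ContinuousLinearMap.inr ℝ ℝ E))) +
      (vg (l.comp (ContinuousLinearMap.inr ℝ ℝ E)) -
        p (vg (l.comp (ContinuousLinearMap.inr ℝ ℝ E)))))

noncomputable def trV (p : E →L[ℝ] E) (X : ℝ × E)
    (K : (ℝ × E) →L[ℝ] (ℝ × E) →L[ℝ] ℝ) : ℝ :=
  4 * tt p X * ((∑ i, K (0, p (stdOrthonormalBasis ℝ E i)) (0, p (stdOrthonormalBasis ℝ E i))) -
      K (1, 0) (1, 0)) +
    ∑ i, K (0, stdOrthonormalBasis ℝ E i - p (stdOrthonormalBasis ℝ E i))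
      (0, stdOrthonormalBasis ℝ E i - p (stdOrthonormalBasis ℝ E i))

/-- second derivative on `ℝ × E` -/
noncomputable abbrev SV (Φ : ℝ × E → ℝ) (X : ℝ × E) : (ℝ × E) →L[ℝ] (ℝ × E) →L[ℝ] ℝ :=
  fderiv ℝ (fun Y => fderiv ℝ Φ Y) X

/-- `B1` of the gradient of `Φ` in the direction of the line. -/
noncomputable def bV (p : E →L[ℝ] E) (l : (ℝ × E) →L[ℝ] ℝ) : ℝ :=
  ‖p (vg (l.comp (ContinuousLinearMap.inr ℝ ℝ E)))‖ ^ 2 - (l (1, 0)) ^ 2

/-- The operator in the model, for `l = Φ'`, `K = Φ''`. -/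
noncomputable def EM (p : E →L[ℝ] E) (X : ℝ × E) (l : (ℝ × E) →L[ℝ] ℝ)
    (K : (ℝ × E) →L[ℝ] (ℝ × E) →L[ℝ] ℝ) : ℝ :=
  (trV p X K - (K (GV p X l) (GV p X l) + 4 * l (0, X.2 - p X.2) * bV p l) / l (GV p X l)) /
    √(l (GV p X l))

noncomputable def EE (p : E →L[ℝ] E) (Φ : ℝ × E → ℝ) (X : ℝ × E) : ℝ :=
  EM p X (fderiv ℝ Φ X) (SV Φ X)

/-- `Φ` defines a compact connected hypersurface of curvature `H`. -/
structure Dm (H : ℝ) (p : E →L[ℝ] E) (Φ : ℝ × E → ℝ) : Prop where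
  sm : ContDiffOn ℝ 3 Φ (Cn p)
  hom : ∀ X ∈ Cn p, ∀ l : ℝ, 0 < l → Φ (sc p l X) = Φ X
  bd : ∃ R : ℝ, R < 1 ∧ ∀ z ∈ Metric.ball (0 : E) 1, Φ (em p z) ≤ 0 → ‖z‖ ≤ R
  reg : ∀ X ∈ Cn p, Φ X = 0 → fderiv ℝ Φ X ≠ 0
  eq : ∀ X ∈ Cn p, Φ X = 0 → √(tt p X - ‖X.2 - p X.2‖ ^ 2) * EE p Φ X = H
  con : IsPreconnected {z ∈ Metric.ball (0 : E) 1 | Φ (em p z) = 0}
  ne : ∃ z ∈ Metric.ball (0 : E) 1, Φ (em p z) < 0

/-- The hypersurface crosses the plane `n` with positive angle. -/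
def PP (p : E →L[ℝ] E) (Φ : ℝ × E → ℝ) (n : ℝ × E) : Prop :=
  ∀ z ∈ Metric.ball (0 : E) 1, Φ (em p z) = 0 → B1 p (em p z) n = 0 → 0 < fderiv ℝ Φ (em p z) n

/-- The reflected cap lies in the domain. -/
def QQ (p : E →L[ℝ] E) (Φ : ℝ × E → ℝ) (n : ℝ × E) : Prop :=
  ∀ z ∈ Metric.ball (0 : E) 1, Φ (em p z) ≤ 0 → 0 < B1 p (em p z) n → Φ (rf p n (em p z)) < 0

/-- Weak form of `QQ`. -/
def WW (p : E →L[ℝ] E) (Φ : ℝ × E → ℝ) (n : ℝ × E) : Prop :=
  ∀ z ∈ Metric.ball (0 : E) 1, Φ (em p z) ≤ 0 → 0 < B1 p (em p z) n → Φ (rf p n (em p z)) ≤ 0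

/-- The hypersurface is symmetric in the plane `n`. -/
def Sy (p : E →L[ℝ] E) (Φ : ℝ × E → ℝ) (n : ℝ × E) : Prop :=
  ∀ z ∈ Metric.ball (0 : E) 1, Φ (em p z) = 0 → Φ (rf p n (em p z)) = 0

/-- The unit normal vectors of the planes orthogonal to a geodesic through the origin. -/
noncomputable def nt (n : E) (τ : ℝ) : ℝ × E := (Real.sinh τ, Real.cosh τ • n)

/-! ### the statement -/

/-- `p` is the orthogonal projection on a `K`-line through the origin and `T` describes the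
vertical spaces: the vertical part of a vector `v` at `z` which is orthogonal to the vertical
spaces of `z - p z`. For `K = ℂ`: `T b c u = ⟪i b, c⟫ i (u - p u)`. -/
structure Axis (a : ℕ) (P : E → E →L[ℝ] E) (p : E →L[ℝ] E)
    (T : E →L[ℝ] E →L[ℝ] E →L[ℝ] E) : Prop where
  symm : ∀ u v, inner ℝ (p u) v = inner ℝ u (p v)
  idem : ∀ u, p (p u) = p u
  rank : Module.finrank ℝ (LinearMap.range (p : E →ₗ[ℝ] E)) = a + 1
  skew : ∀ b c u v, inner ℝ (T b c u) v = -inner ℝ u (T b c v)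
  ran : ∀ b c u, p (T b c u) = 0
  vert : ∀ z v, (∀ b c, inner ℝ (T (p b) (p c) z) v = 0) →
    ‖z‖ ^ 2 • P z v = ‖p z‖ ^ 2 • p v - inner ℝ (p z) v • p z + T (p z) (p v) z

end Pool.Agent.Helper75.ROT
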