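import Pool.Agent.Helper75.ROT.Lk

/-! # ROT: first facts on `Dm`: the hypersurface in the chart, construction of `Φ`, reflected hypersurface -/

set_option autoImplicit false
set_option linter.unusedSectionVars false
set_option linter.unusedVariables false

namespace Pool.Agent.Helper75.ROT

open Filter Topology
open scoped ContDiff
open Pool.Agent.Helper41.ALX (S2)

variable {E : Type*} [NormedAddCommGroup E] [InnerProductSpace ℝ E] [FiniteDimensional ℝ E]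

/-- piece `ROT-D1`: the hypersurface in the chart.
Proof. `em_smooth`, `em_Cn`; `fderiv_em_ne` and `hD.reg`; `Mb_em` and `hD.eq` at `X = em p z`, where
`tt X - ‖X.2 - p X.2‖² = 1 - ‖p z‖² - ‖z - p z‖² = 1 - ‖z‖²` (`tt_em`, `em_W`, `pyth`). -/
theorem Dm.chart {a : ℕ} {p : E →L[ℝ] E} (hp : Pj p)
    (hr : Module.finrank ℝ (LinearMap.range (p : E →ₗ[ℝ] E)) = a + 1) {H : ℝ} {Φ : ℝ × E → ℝ}
    (hD : Dm H p Φ) :
    ContDiffOn ℝ 3 (fun z => Φ (em p z)) (Metric.ball 0 1) ∧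
    (∀ z ∈ Metric.ball (0 : E) 1, Φ (em p z) = 0 → fderiv ℝ (fun y => Φ (em p y)) z ≠ 0) ∧
    ∀ z ∈ Metric.ball (0 : E) 1, Φ (em p z) = 0 → Mb a p (fun y => Φ (em p y)) z = H := by
  have key : ∀ z ∈ Metric.ball (0 : E) 1, tt p (em p z) - ‖(em p z).2 - p (em p z).2‖ ^ 2 =
      1 - ‖z‖ ^ 2 := by
    intro z hz
    have hz1 : ‖z‖ < 1 := by simpa using hz
    have hpy := pyth hp z
    have h1 : ‖p z‖ ≤ 1 := by
      have h2 : ‖p z‖ ^ 2 ≤ ‖z‖ ^ 2 := by nlinarith [sq_nonneg ‖z - p z‖]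
      have h3 : ‖p z‖ ≤ ‖z‖ := by
        exact (sq_le_sq₀ (norm_nonneg _) (norm_nonneg _)).mp h2
      linarith
    rw [(em_W hp z).2, tt_em hp h1, hpy]
    ring
  refine ⟨?_, fun z hz h0 => ?_, fun z hz h0 => ?_⟩
  · exact hD.sm.comp (em_smooth p).contDiffOn (fun z hz => em_Cn hp hz)
  · exact fderiv_em_ne hp hD.sm hD.hom hz (hD.reg _ (em_Cn hp hz) h0)
  · rw [Mb_em hp hr hD.sm hD.hom hz (hD.reg _ (em_Cn hp hz) h0), ← key z hz]
    exact hD.eq _ (em_Cn hp hz) h0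

private theorem rotD2_ple {p : E →L[ℝ] E} (hp : Pj p) {z : E} (hz : z ∈ Metric.ball (0 : E) 1) :
    ‖p z‖ ≤ 1 := by
  have h1 : ‖z‖ < 1 := by simpa using hz
  have h2 := pyth hp z
  nlinarith [norm_nonneg (p z), norm_nonneg z, sq_nonneg ‖z - p z‖]

private theorem rotD2_sc {p : E →L[ℝ] E} (hp : Pj p) {X : ℝ × E} (hX : X ∈ Cn p) {l : ℝ}
    (hl : 0 < l) : pr p (sc p l X) = pr p X := by
  have hS : 0 < X.1 + tt p X := add_pos hX.1 (tt_pos hX)
  obtain ⟨h1, h2⟩ := sc_W hp l X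
  have h3 : (sc p l X).1 + tt p (sc p l X) = l ^ 2 * (X.1 + tt p X) := by
    rw [tt_sc hp]
    change l ^ 2 * X.1 + _ = _
    ring
  have h4 : √(2 / (l ^ 2 * (X.1 + tt p X))) * l = √(2 / (X.1 + tt p X)) := by
    have e1 : 2 / (l ^ 2 * (X.1 + tt p X)) = 2 / (X.1 + tt p X) / l ^ 2 := by
      field_simp
    rw [e1, Real.sqrt_div' _ (sq_nonneg l), Real.sqrt_sq hl.le, div_mul_cancel₀ _ hl.ne']
  unfold pr
  rw [h3, h2, h1, smul_smul, smul_smul, h4]
  congr 2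
  field_simp

private theorem rotD2_ev {p : E →L[ℝ] E} (hp : Pj p) {ρ : E → ℝ} {z : E}
    (hz : z ∈ Metric.ball (0 : E) 1) :
    (fun y => ρ (pr p (em p y))) =ᶠ[𝓝 z] ρ := by
  filter_upwards [Metric.isOpen_ball.mem_nhds hz] with y hy
  rw [pr_em hp (rotD2_ple hp hy)]

private theorem rotD2_ne {p : E →L[ℝ] E} (hp : Pj p) {Φ : ℝ × E → ℝ}
    (sm : ContDiffOn ℝ 3 Φ (Cn p)) {z : E} (hz : z ∈ Metric.ball (0 : E) 1)
    (h : fderiv ℝ (fun y => Φ (em p y)) z ≠ 0) : fderiv ℝ Φ (em p z) ≠ 0 := by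
  intro h0
  apply h
  have h1 : DifferentiableAt ℝ Φ (em p z) :=
    ((sm.contDiffAt ((Cn_open p).mem_nhds (em_Cn hp hz))).differentiableAt (by norm_num))
  have h2 := h1.hasFDerivAt.comp z (em_deriv hp z)
  rw [h0, ContinuousLinearMap.zero_comp] at h2
  exact h2.fderiv

private theorem rotD2_ne' {p : E →L[ℝ] E} (hp : Pj p) {Φ : ℝ × E → ℝ}
    (sm : ContDiffOn ℝ 3 Φ (Cn p))
    (hom : ∀ X ∈ Cn p, ∀ l : ℝ, 0 < l → Φ (sc p l X) = Φ X) {X : ℝ × E} (hX : X ∈ Cn p) {c : ℝ}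
    (hc : 0 < c) (h : fderiv ℝ Φ (sc p c X) ≠ 0) : fderiv ℝ Φ X ≠ 0 := by
  intro h0
  apply h
  obtain ⟨L, hL⟩ := exists_scL p c
  have hLX : ContDiffAt ℝ 3 Φ (L X) := by
    rw [hL]
    exact sm.contDiffAt ((Cn_open p).mem_nhds (sc_Cn hp hc hX))
  have h1 : (fun Y => Φ (L Y)) =ᶠ[𝓝 X] Φ := by
    filter_upwards [(Cn_open p).mem_nhds hX] with Y hY
    rw [hL, hom Y hY c hc]
  have h2 := (chainL hLX).1
  rw [h1.fderiv_eq, h0] at h2
  refine ContinuousLinearMap.ext fun v => ?_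
  have h3 := h2 (sc p c⁻¹ v)
  rw [hL, hL, sc_sc hp, mul_inv_cancel₀ hc.ne', sc_one] at h3
  exact h3.symm

/-- piece `ROT-D2`: `Φ = ρ ∘ pr`.
Proof. `pr (sc l X) = pr X` for `l > 0` (`X₁ + tt` is multiplied by `l²`). `sm`: `pr_smooth`, `pr_ball`. `bd`, `con`, `ne`: `pr_em`
(`ρ (pr (em z)) = ρ z` for `z` in the ball). `reg`: let `X ∈ Cn p`, `ρ (pr X) = 0`, `z = pr X`, `em z = sc c X`, `c > 0`
(`em_pr`). If `Φ'(X) = 0` then `Φ'(sc c X) = 0` (derivative of `Φ (sc c Y) = Φ Y`, `sc c` is invertible: `exists_scL`,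
`chainL`), so the derivative of `Φ ∘ em = ρ` (near `z`) at `z` vanishes, contradiction. `eq`: with the same `z`, `c`:
`Mb_em` at `z` (`Mb a p (Φ ∘ em) z = Mb a p ρ z = H` because `Φ ∘ em = ρ` near `z`), `EE p Φ X = c * EE p Φ (sc c X)` (`EE_sc`)
and `√(tt (sc c X) - ‖W (sc c X)‖²) = c √(tt X - ‖W X‖²)` (`tt_sc`, `sc_W`), `tt (em z) - ‖W‖² = 1 - ‖z‖²`. -/
theorem mk_Dm {a : ℕ} {p : E →L[ℝ] E} (hp : Pj p)
    (hr : Module.finrank ℝ (LinearMap.range (p : E →ₗ[ℝ] E)) = a + 1) {H : ℝ} {ρ : E → ℝ}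
    (hs : ContDiffOn ℝ 3 ρ (Metric.ball 0 1))
    (hbd : ∃ R : ℝ, R < 1 ∧ ∀ z ∈ Metric.ball (0 : E) 1, ρ z ≤ 0 → ‖z‖ ≤ R)
    (hne : ∃ z ∈ Metric.ball (0 : E) 1, ρ z < 0)
    (hcon : IsPreconnected {z ∈ Metric.ball (0 : E) 1 | ρ z = 0})
    (hreg : ∀ z ∈ Metric.ball (0 : E) 1, ρ z = 0 → fderiv ℝ ρ z ≠ 0)
    (heq : ∀ z ∈ Metric.ball (0 : E) 1, ρ z = 0 → Mb a p ρ z = H) :
    Dm H p (fun X => ρ (pr p X)) := by
  have sm : ContDiffOn ℝ 3 (fun X => ρ (pr p X)) (Cn p) :=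
    hs.comp (pr_smooth hp) fun X hX => pr_ball hp hX
  have hom : ∀ X ∈ Cn p, ∀ l : ℝ, 0 < l →
      (fun X => ρ (pr p X)) (sc p l X) = (fun X => ρ (pr p X)) X := by
    intro X hX l hl
    change ρ (pr p (sc p l X)) = ρ (pr p X)
    rw [rotD2_sc hp hX hl]
  have hem : ∀ z ∈ Metric.ball (0 : E) 1, ρ (pr p (em p z)) = ρ z := by
    intro z hz
    rw [pr_em hp (rotD2_ple hp hz)]
  have hne1 : ∀ z ∈ Metric.ball (0 : E) 1, ρ z = 0 →
      fderiv ℝ (fun X => ρ (pr p X)) (em p z) ≠ 0 := by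
    intro z hz h0
    refine rotD2_ne hp sm hz ?_
    rw [(rotD2_ev (ρ := ρ) hp hz).fderiv_eq]
    exact hreg z hz h0
  refine ⟨sm, hom, ?_, ?_, ?_, ?_, ?_⟩
  · obtain ⟨R, hR, h⟩ := hbd
    refine ⟨R, hR, fun z hz hz0 => h z hz ?_⟩
    rw [← hem z hz]
    exact hz0
  · intro X hX h0
    obtain ⟨h1, h2⟩ := em_pr hp hX
    have h3 := hne1 (pr p X) (pr_ball hp hX) h0
    rw [h2] at h3
    exact rotD2_ne' hp sm hom hX h1 h3
  · intro X hX h0
    obtain ⟨h1, h2⟩ := em_pr hp hX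
    have hz := pr_ball hp hX
    have h3 := Mb_em hp hr sm hom hz (hne1 _ hz h0)
    have h4 : Mb a p (fun y => (fun X => ρ (pr p X)) (em p y)) (pr p X) = H := by
      rw [← heq _ hz h0]
      have e1 := rotD2_ev (ρ := ρ) hp hz
      unfold Mb
      have e2 : fderiv ℝ (fun y => (fun X => ρ (pr p X)) (em p y)) (pr p X) =
          fderiv ℝ ρ (pr p X) := e1.fderiv_eq
      have e3 : S2 (fun y => (fun X => ρ (pr p X)) (em p y)) (pr p X) = S2 ρ (pr p X) :=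
        e1.fderiv.fderiv_eq
      rw [e2, e3]
    rw [h4, h2] at h3
    have h5 := EE_sc hp sm hom h1 hX
    have hS : 0 < X.1 + tt p X := add_pos hX.1 (tt_pos hX)
    have h6 : 1 - ‖pr p X‖ ^ 2 =
        √(2 / (X.1 + tt p X)) ^ 2 * (tt p X - ‖X.2 - p X.2‖ ^ 2) := by
      rw [norm_pr hp hX, Real.sq_sqrt (by positivity)]
      ring
    rw [h6, Real.sqrt_mul (sq_nonneg _), Real.sqrt_sq h1.le] at h3
    rw [h5, h3]
    ring
  · convert hcon using 1
    ext z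
    constructor
    · rintro ⟨hz, h0⟩
      exact ⟨hz, by rw [← hem z hz]; exact h0⟩
    · rintro ⟨hz, h0⟩
      exact ⟨hz, by rw [hem z hz]; exact h0⟩
  · obtain ⟨z, hz, h0⟩ := hne
    exact ⟨z, hz, by rw [hem z hz]; exact h0⟩

/-- piece `ROT-D3`: the reflected hypersurface.
Proof. `sm`: `rf p n` is a continuous linear map (`exists_rfL`) that maps `Cn p` to itself (`rf_Cn`). `hom`: `sc_rf`.
`bd`: `Φ (rf n (em z)) = Φ (em (rr z))` (`phi_rr`); if it is `≤ 0` then `‖rr z‖ ≤ R`, `z = rr (rr z)` lies in the image of the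
compact set `{‖z‖ ≤ R}` under `rr` (continuous on the ball, `rr_cont`), a compact subset of the open unit ball, so
`‖z‖ ≤ R'` for some `R' < 1`. `reg`, `eq`: `fderiv_rf` (`rf` is onto), `EE_rf`, `tt_rf`, `rf_W`. `con`: the zero set is the
image under `rr` of the old one (`phi_rr`, `rr_rr`), `IsPreconnected.image`. `ne`: `rr z`. -/
theorem Dm.refl {p : E →L[ℝ] E} (hp : Pj p) {n : ℝ × E} (hn : Un p n) {H : ℝ} {Φ : ℝ × E → ℝ}
    (hD : Dm H p Φ) : Dm H p (fun X => Φ (rf p n X)) := by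
  refine ⟨?_, ?_, ?_, ?_, ?_, ?_, ?_⟩
  · obtain ⟨L, hL⟩ := exists_rfL p n
    have h1 : (fun X => Φ (rf p n X)) = Φ ∘ L := funext fun X => by rw [Function.comp_apply, hL]
    rw [h1]
    refine hD.sm.comp L.contDiff.contDiffOn fun X hX => ?_
    rw [hL]
    exact rf_Cn hp hn hX
  · intro X hX l hl
    change Φ (rf p n (sc p l X)) = Φ (rf p n X)
    rw [← sc_rf hp hn]
    exact hD.hom _ (rf_Cn hp hn hX) l hl
  · obtain ⟨R, hR, h1⟩ := hD.bd
    have hsub : Metric.closedBall (0 : E) R ⊆ Metric.ball (0 : E) 1 :=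
      Metric.closedBall_subset_ball hR
    have hK : IsCompact (rr p n '' Metric.closedBall (0 : E) R) :=
      (isCompact_closedBall (0 : E) R).image_of_continuousOn ((rr_cont hp hn).mono hsub)
    have hKb : ∀ z ∈ rr p n '' Metric.closedBall (0 : E) R, ‖z‖ < 1 := by
      rintro _ ⟨y, hy, rfl⟩
      exact mem_ball_zero_iff.1 (rr_ball hp hn (hsub hy))
    obtain ⟨R', hR', h2⟩ : ∃ R' : ℝ, R' < 1 ∧
        ∀ z ∈ rr p n '' Metric.closedBall (0 : E) R, ‖z‖ ≤ R' := by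
      rcases (rr p n '' Metric.closedBall (0 : E) R).eq_empty_or_nonempty with he | hne
      · refine ⟨0, zero_lt_one, fun z hz => ?_⟩
        rw [he] at hz
        exact absurd hz (Set.notMem_empty z)
      · obtain ⟨z0, hz0, hmax⟩ := hK.exists_isMaxOn hne continuous_norm.continuousOn
        exact ⟨‖z0‖, hKb z0 hz0, fun z hz => hmax hz⟩
    refine ⟨R', hR', fun z hz hΦ => h2 z ?_⟩
    have h3 : Φ (em p (rr p n z)) ≤ 0 := by
      rw [(phi_rr hp hn hD.hom hz).1]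
      exact hΦ
    exact ⟨rr p n z, mem_closedBall_zero_iff.2 (h1 _ (rr_ball hp hn hz) h3), rr_rr hp hn hz⟩
  · intro X hX h0 hf
    refine hD.reg _ (rf_Cn hp hn hX) h0 (ContinuousLinearMap.ext fun v => ?_)
    have h1 := fderiv_rf hp hn hD.sm hX (rf p n v)
    rw [hf, rf_rf hn] at h1
    exact h1.symm
  · intro X hX h0
    have h1 := hD.eq _ (rf_Cn hp hn hX) h0
    rw [EE_rf hp hn hD.sm hX]
    rw [tt_rf hn, rf_W hn] at h1
    exact h1
  · have h1 : {z ∈ Metric.ball (0 : E) 1 | Φ (rf p n (em p z)) = 0} =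
        rr p n '' {z ∈ Metric.ball (0 : E) 1 | Φ (em p z) = 0} := by
      ext z
      constructor
      · rintro ⟨hz, h0⟩
        refine ⟨rr p n z, ⟨rr_ball hp hn hz, ?_⟩, rr_rr hp hn hz⟩
        change Φ (em p (rr p n z)) = 0
        rw [(phi_rr hp hn hD.hom hz).1]
        exact h0
      · rintro ⟨y, ⟨hy, h0⟩, rfl⟩
        refine ⟨rr_ball hp hn hy, ?_⟩
        change Φ (rf p n (em p (rr p n y))) = 0
        rw [(phi_rr hp hn hD.hom hy).2]
        exact h0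
    change IsPreconnected {z ∈ Metric.ball (0 : E) 1 | Φ (rf p n (em p z)) = 0}
    rw [h1]
    exact hD.con.image _ ((rr_cont hp hn).mono fun z hz => hz.1)
  · obtain ⟨y, hy, h0⟩ := hD.ne
    refine ⟨rr p n y, rr_ball hp hn hy, ?_⟩
    change Φ (rf p n (em p (rr p n y))) < 0
    rw [(phi_rr hp hn hD.hom hy).2]
    exact h0

/-- piece `ROT-D4`: a point of the plane at which the hypersurface is orthogonal to the plane.
Proof. `D (Φ ∘ rf n ∘ em) z u = Φ' (rf n (em z)) (rf n (DX u)) = Φ'(em z) (DX u - 2 B1 (DX u) n • n) = Φ'(em z) (DX u)` (`DX u` =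
derivative of `em`, `em_deriv`, `fderiv_rf`, `rf_fix`). Second part: `decomp` for `v = n`: `n = DX u + κ ξ`, `Φ' ξ = 0` (`euler`), so
`Φ'(DX u) = 0`, and `B1 (DX u) n = B1 n n - κ B1 ξ n = 1 - 2 κ B1 (em z) n = 1` (`B1 ξ Y = 2 B1 (em z) Y`, `B1_congr`-like:
`p (X₂ + p X₂) = 2 p X₂`). The derivative of `y ↦ B1 (em y) n` is `u ↦ B1 (DX u) n`. -/
theorem tangent_plane {p : E →L[ℝ] E} (hp : Pj p) {n : ℝ × E} (hn : Un p n) {Φ : ℝ × E → ℝ}
    (sm : ContDiffOn ℝ 3 Φ (Cn p))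
    (hom : ∀ X ∈ Cn p, ∀ l : ℝ, 0 < l → Φ (sc p l X) = Φ X) {z : E}
    (hz : z ∈ Metric.ball (0 : E) 1) (h0 : B1 p (em p z) n = 0)
    (h1 : fderiv ℝ Φ (em p z) n = 0) :
    fderiv ℝ (fun y => Φ (rf p n (em p y))) z = fderiv ℝ (fun y => Φ (em p y)) z ∧
    ContDiffAt ℝ 3 (fun y => B1 p (em p y) n) z ∧
    ∃ u, fderiv ℝ (fun y => Φ (em p y)) z u = 0 ∧
      fderiv ℝ (fun y => B1 p (em p y) n) z u ≠ 0 := by
  have hX : em p z ∈ Cn p := em_Cn hp hz
  have hd : DifferentiableAt ℝ Φ (em p z) :=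
    ((sm _ hX).contDiffAt ((Cn_open p).mem_nhds hX)).differentiableAt (by norm_num)
  obtain ⟨L, hL⟩ := exists_rfL p n
  have hfix : rf p n (em p z) = em p z := rf_fix h0
  have hem := em_deriv hp z
  have e1 : ∀ u, fderiv ℝ (fun y => Φ (em p y)) z u =
      fderiv ℝ Φ (em p z) (2 * inner ℝ (p z) u, u + p u) := by
    intro u
    have h2 := (hd.hasFDerivAt.comp z hem).fderiv
    change fderiv ℝ (Φ ∘ em p) z u = _
    rw [h2]
    rfl
  have hd' : DifferentiableAt ℝ (fun Y => Φ (rf p n Y)) (em p z) := by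
    have h2 : (fun Y => Φ (rf p n Y)) = Φ ∘ L := by
      funext Y
      rw [Function.comp_apply, hL]
    rw [h2]
    refine DifferentiableAt.comp (em p z) ?_ L.differentiableAt
    rw [hL, hfix]
    exact hd
  have e2 : ∀ u, fderiv ℝ (fun y => Φ (rf p n (em p y))) z u =
      fderiv ℝ Φ (em p z) (rf p n (2 * inner ℝ (p z) u, u + p u)) := by
    intro u
    have h2 := (hd'.hasFDerivAt.comp z hem).fderiv
    change fderiv ℝ ((fun Y => Φ (rf p n Y)) ∘ em p) z u = _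
    rw [h2]
    change fderiv ℝ (fun Y => Φ (rf p n Y)) (em p z) (2 * inner ℝ (p z) u, u + p u) = _
    rw [fderiv_rf hp hn sm hX, hfix]
  have hBL : ∀ X : ℝ × E, B1 p X n = ((innerSL ℝ (p n.2)).comp
      (p.comp (ContinuousLinearMap.snd ℝ ℝ E)) - n.1 • ContinuousLinearMap.fst ℝ ℝ E) X := by
    intro X
    change inner ℝ (p X.2) (p n.2) - X.1 * n.1 = inner ℝ (p n.2) (p X.2) - n.1 * X.1
    rw [real_inner_comm]
    ring
  have hB : (fun y => B1 p (em p y) n) = ((innerSL ℝ (p n.2)).comp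
      (p.comp (ContinuousLinearMap.snd ℝ ℝ E)) - n.1 • ContinuousLinearMap.fst ℝ ℝ E) ∘ em p := by
    funext y
    rw [Function.comp_apply, hBL]
  refine ⟨?_, ?_, ?_⟩
  · refine ContinuousLinearMap.ext fun u => ?_
    rw [e1, e2]
    unfold rf
    rw [map_sub, map_smul, h1, smul_zero, sub_zero]
  · rw [hB]
    exact (ContinuousLinearMap.contDiff _).contDiffAt.comp z (em_smooth p).contDiffAt
  · have hz1 : ‖z‖ < 1 := by simpa using hz
    have hpz : ‖p z‖ < 1 := by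
      have h2 := pyth hp z
      have h3 : ‖z‖ ^ 2 < 1 := by nlinarith [norm_nonneg z]
      have h4 : ‖p z‖ ^ 2 < 1 := by nlinarith [sq_nonneg ‖z - p z‖]
      by_contra h5
      rw [not_lt] at h5
      nlinarith
    obtain ⟨u, κ, hu⟩ := decomp hp hpz n
    have heu := (euler hp sm hom hX).1
    refine ⟨u, ?_, ?_⟩
    · rw [e1]
      have h2 := h1
      rw [hu, map_add, map_smul, heu, smul_zero, add_zero] at h2
      exact h2
    · have h2 : fderiv ℝ (fun y => B1 p (em p y) n) z u =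
          B1 p (2 * inner ℝ (p z) u, u + p u) n := by
        rw [hB, ((ContinuousLinearMap.hasFDerivAt _).comp z hem).fderiv, hBL]
        rfl
      have h3 : B1 p (2 * (em p z).1, (em p z).2 + p (em p z).2) n = 0 := by
        have h4 : B1 p (2 * (em p z).1, (em p z).2 + p (em p z).2) n =
            2 * B1 p (em p z) n := by
          unfold B1
          simp only [map_add, hp.idem, inner_add_left]
          ring
        rw [h4, h0, mul_zero]
      have h4 : B1 p n n = B1 p (2 * inner ℝ (p z) u, u + p u) n := by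
        conv_lhs => rw [show B1 p n n = B1 p ((2 * inner ℝ (p z) u, u + p u) +
          κ • (2 * (em p z).1, (em p z).2 + p (em p z).2)) n from by rw [← hu]]
        rw [B1_add_left, B1_smul_left, h3, mul_zero, add_zero]
      rw [h2, ← h4, hn.one]
      exact one_ne_zero

/-- piece `ROT-D5`: monotonicity in the direction `n`.
Proof. `(Y, m) ↦ Φ'(Y) m` is continuous at `(X, n)` and `Cn p` is open: there is `δ` with `B (X, δ) ⊆ Cn p` and
`Φ'(Y) m > 0` for `Y ∈ B (X, δ)`, `m ∈ B (n, δ)`. The segment from `Y` to `Y + s m` lies in the (convex) ball,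
`s' ↦ Φ (Y + s' m)` has positive derivative. -/
theorem dir_mono {p : E →L[ℝ] E} {Φ : ℝ × E → ℝ} (sm : ContDiffOn ℝ 3 Φ (Cn p)) {X n : ℝ × E}
    (hX : X ∈ Cn p) (h : 0 < fderiv ℝ Φ X n) :
    ∃ δ : ℝ, 0 < δ ∧ ∀ m ∈ Metric.ball n δ, ∀ Y ∈ Metric.ball X δ, ∀ s : ℝ, 0 < s →
      Y + s • m ∈ Metric.ball X δ → Φ Y < Φ (Y + s • m) := by
  have hopen := Cn_open p
  have hdiff : ∀ Y ∈ Cn p, DifferentiableAt ℝ Φ Y := fun Y hY =>
    (sm.contDiffAt (hopen.mem_nhds hY)).differentiableAt (by norm_num)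
  have hc : ContinuousAt (fun Y => fderiv ℝ Φ Y) X :=
    (sm.continuousOn_fderiv_of_isOpen hopen (by norm_num)).continuousAt (hopen.mem_nhds hX)
  have hc2 : ContinuousAt (fun x : (ℝ × E) × (ℝ × E) => fderiv ℝ Φ x.1 x.2) (X, n) :=
    ContinuousAt.clm_apply (ContinuousAt.comp (f := Prod.fst) (x := (X, n)) hc continuousAt_fst)
      continuousAt_snd
  have hev : ∀ᶠ x : (ℝ × E) × (ℝ × E) in 𝓝 (X, n), 0 < fderiv ℝ Φ x.1 x.2 :=
    hc2.eventually (lt_mem_nhds h)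
  obtain ⟨δ₁, hδ₁, h1⟩ := Metric.eventually_nhds_iff_ball.1 hev
  obtain ⟨δ₂, hδ₂, h2⟩ := Metric.isOpen_iff.1 hopen X hX
  refine ⟨min δ₁ δ₂, lt_min hδ₁ hδ₂, fun m hm Y hY s hs hYs => ?_⟩
  have hseg : ∀ t ∈ Set.Icc (0 : ℝ) s, Y + t • m ∈ Metric.ball X (min δ₁ δ₂) := by
    intro t ht
    have h3 := (convex_ball X (min δ₁ δ₂)).add_smul_sub_mem hY hYs
      (t := t / s) ⟨div_nonneg ht.1 hs.le, (div_le_one hs).2 ht.2⟩
    rwa [add_sub_cancel_left, smul_smul, div_mul_cancel₀ _ hs.ne'] at h3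
  have hder : ∀ t ∈ Set.Icc (0 : ℝ) s,
      HasDerivAt (fun t : ℝ => Φ (Y + t • m)) (fderiv ℝ Φ (Y + t • m) m) t := by
    intro t ht
    have h3 : Y + t • m ∈ Cn p :=
      h2 (Metric.ball_subset_ball (min_le_right _ _) (hseg t ht))
    have h4 : HasDerivAt (fun t : ℝ => Y + t • m) m t := by
      have h5 := ((hasDerivAt_id t).smul_const m).const_add Y
      rw [one_smul] at h5
      exact h5
    exact (hdiff _ h3).hasFDerivAt.comp_hasDerivAt t h4
  have hmono : StrictMonoOn (fun t : ℝ => Φ (Y + t • m)) (Set.Icc 0 s) := by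
    refine strictMonoOn_of_deriv_pos (convex_Icc 0 s)
      (fun t ht => (hder t ht).continuousAt.continuousWithinAt) fun t ht => ?_
    have ht' := interior_subset ht
    rw [(hder t ht').deriv]
    refine h1 (Y + t • m, m) ?_
    rw [← ball_prod_same]
    exact ⟨Metric.ball_subset_ball (min_le_left _ _) (hseg t ht'),
      Metric.ball_subset_ball (min_le_left _ _) hm⟩
  have h5 := hmono (Set.left_mem_Icc.2 hs.le) (Set.right_mem_Icc.2 hs.le) hs
  simpa using h5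

/-- piece `ROT-D5`: a regular zero of `Φ` is not a local maximum.
Proof. Otherwise `Φ'(X) = 0` (`IsLocalMax.fderiv_eq_zero`). -/
theorem no_max {H : ℝ} {p : E →L[ℝ] E} {Φ : ℝ × E → ℝ} (hD : Dm H p Φ) {X : ℝ × E}
    (hX : X ∈ Cn p) (h0 : Φ X = 0) : ∃ᶠ Y in 𝓝 X, 0 < Φ Y := by
  intro hcon
  have h1 : IsLocalMax Φ X := by
    filter_upwards [hcon] with Y hY
    rw [h0]
    exact not_lt.1 hY
  exact hD.reg X hX h0 h1.fderiv_eq_zero

end Pool.Agent.Helper75.ROT
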