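import Pool.Agent.Helper75.ROT.Mp
import Pool.Agent.Helper75.ROT.Cc

/-! # ROT: the symmetric hypersurface is a sphere -/

set_option autoImplicit false
set_option linter.unusedSectionVars false
set_option linter.unusedVariables false

namespace Pool.Agent.Helper75.ROT

open Filter Topology
open scoped ContDiff
open Pool.Agent.Helper41.ALX (S2 Eball)

variable {E : Type*} [NormedAddCommGroup E] [InnerProductSpace ℝ E] [FiniteDimensional ℝ E]

private theorem rotF1_em {p : E →L[ℝ] E} (hp : Pj p) {n : E} (h1 : p n = n) (h2 : ‖n‖ = 1)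
    (z : E) : rf p ((0 : ℝ), n) (em p z) = em p (z - (2 * inner ℝ n z) • n) := by
  have hpn : inner ℝ (p z) n = inner ℝ n z := by
    rw [hp.symm, h1, real_inner_comm]
  have hB : B1 p (em p z) ((0 : ℝ), n) = 2 * inner ℝ n z := by
    simp only [B1, em, map_add, hp.idem, h1, mul_zero, sub_zero, inner_add_left, hpn]
    ring
  have hN : ‖p z - (2 * inner ℝ n z) • n‖ ^ 2 = ‖p z‖ ^ 2 := by
    rw [norm_sub_sq_real, inner_smul_right, hpn, norm_smul, h2, mul_one, Real.norm_eq_abs, sq_abs]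
    ring
  unfold rf
  rw [hB]
  ext1
  · simp only [em, map_sub, map_smul, h1, hN, Prod.fst_sub, Prod.smul_fst, smul_zero, sub_zero]
  · simp only [em, map_sub, map_smul, h1, Prod.snd_sub, Prod.smul_snd]
    module

/-- piece `ROT-F1`: the domain is symmetric.
Proof. `rf p (0, n) (em z) = em (z - 2 ⟪n, z⟫ n)` (`p n = n`), `B1 (em z) (0, n) = 2 ⟪n, z⟫`. If `⟪n, z⟫ > 0` use
`WW (0, n)`, if `< 0` use `WW (0, -n)` (`rf_neg`), if `= 0` nothing is to prove. -/
theorem dom_symm {p : E →L[ℝ] E} (hp : Pj p) {Φ : ℝ × E → ℝ}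
    (h : ∀ n, p n = n → ‖n‖ = 1 → WW p Φ ((0 : ℝ), n)) {n : E} (h1 : p n = n) (h2 : ‖n‖ = 1)
    {z : E} (hz : z ∈ Metric.ball (0 : E) 1) (h0 : Φ (em p z) ≤ 0) :
    Φ (em p (z - (2 * inner ℝ n z) • n)) ≤ 0 := by
  have hpn : inner ℝ (p z) n = inner ℝ n z := by
    rw [hp.symm, h1, real_inner_comm]
  have hB : ∀ m : E, p m = m → B1 p (em p z) ((0 : ℝ), m) = 2 * inner ℝ m z := by
    intro m hm
    have hpm : inner ℝ (p z) m = inner ℝ m z := by
      rw [hp.symm, hm, real_inner_comm]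
    simp only [B1, em, map_add, hp.idem, hm, mul_zero, sub_zero, inner_add_left, hpm]
    ring
  rcases lt_trichotomy (inner ℝ n z) 0 with hlt | heq | hgt
  · have hn1 : p (-n) = -n := by rw [map_neg, h1]
    have hn2 : ‖-n‖ = 1 := by rw [norm_neg, h2]
    have h3 := h (-n) hn1 hn2 z hz h0 (by
      rw [hB _ hn1, inner_neg_left]
      linarith)
    rw [rotF1_em hp hn1 hn2] at h3
    have e : z - (2 * inner ℝ (-n) z) • (-n) = z - (2 * inner ℝ n z) • n := by
      rw [inner_neg_left]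
      module
    rw [e] at h3
    exact h3
  · rw [heq, mul_zero, zero_smul, sub_zero]
    exact h0
  · have h3 := h n h1 h2 z hz h0 (by
      rw [hB _ h1]
      linarith)
    rw [rotF1_em hp h1 h2] at h3
    exact h3

/-- piece `ROT-F1`: the zero set is symmetric, and the gradient has no component `n` at fixed points.
Proof. `R y = y - 2 ⟪n, y⟫ n` is a linear isometric involution of the ball. Let `ρ z = 0`, so `ρ (R z) ≤ 0`; if `< 0`, then
`ρ (R y) < 0`, hence `ρ y = ρ (R (R y)) ≤ 0` for `y` near `z`: local maximum of `ρ` at `z`, against `hreg`. Let `⟪n, z⟫ = 0` and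
`ρ' n > 0` (or `< 0`, replace `n` by `- n`): for small `t > 0` `ρ (z - t n) < 0 < ρ (z + t n)`, but `z + t n = R (z - t n)`. -/
theorem zero_symm {p : E →L[ℝ] E} {ρ : E → ℝ} (hs : ContDiffOn ℝ 3 ρ (Metric.ball 0 1))
    (hreg : ∀ z ∈ Metric.ball (0 : E) 1, ρ z = 0 → fderiv ℝ ρ z ≠ 0)
    (hsym : ∀ n, p n = n → ‖n‖ = 1 → ∀ z ∈ Metric.ball (0 : E) 1, ρ z ≤ 0 →
      ρ (z - (2 * inner ℝ n z) • n) ≤ 0) {n : E} (h1 : p n = n) (h2 : ‖n‖ = 1) {z : E}
    (hz : z ∈ Metric.ball (0 : E) 1) (h0 : ρ z = 0) :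
    ρ (z - (2 * inner ℝ n z) • n) = 0 ∧ (inner ℝ n z = 0 → fderiv ℝ ρ z n = 0) := by
  have hnn : inner ℝ n n = (1 : ℝ) := by rw [real_inner_self_eq_norm_sq, h2, one_pow]
  have hRR : ∀ y : E, (y - (2 * inner ℝ n y) • n) -
      (2 * inner ℝ n (y - (2 * inner ℝ n y) • n)) • n = y := by
    intro y
    rw [inner_sub_right, inner_smul_right, hnn]
    module
  have hRn : ∀ y : E, ‖y - (2 * inner ℝ n y) • n‖ = ‖y‖ := by
    intro y
    have h3 : ‖y - (2 * inner ℝ n y) • n‖ ^ 2 = ‖y‖ ^ 2 := by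
      rw [norm_sub_sq_real, inner_smul_right, norm_smul, h2, mul_one, Real.norm_eq_abs, sq_abs,
        real_inner_comm n y]
      ring
    exact (pow_left_inj₀ (norm_nonneg _) (norm_nonneg _) two_ne_zero).1 h3
  have hRb : ∀ y ∈ Metric.ball (0 : E) 1, y - (2 * inner ℝ n y) • n ∈ Metric.ball (0 : E) 1 := by
    intro y hy
    rw [mem_ball_zero_iff] at hy ⊢
    rw [hRn]
    exact hy
  have hnb : Metric.ball (0 : E) 1 ∈ 𝓝 z := Metric.isOpen_ball.mem_nhds hz
  refine ⟨?_, fun hz0 => ?_⟩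
  · refine le_antisymm (hsym n h1 h2 z hz h0.le) ?_
    by_contra hlt
    have hlt' := not_le.1 hlt
    have hc : ContinuousAt (fun y => ρ (y - (2 * inner ℝ n y) • n)) z := by
      have h4 : ContinuousAt ρ (z - (2 * inner ℝ n z) • n) :=
        (hs.continuousOn).continuousAt (Metric.isOpen_ball.mem_nhds (hRb z hz))
      have h5 : ContinuousAt (fun y : E => y - (2 * inner ℝ n y) • n) z := by fun_prop
      exact ContinuousAt.comp (f := fun y : E => y - (2 * inner ℝ n y) • n) h4 h5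
    have hmax : IsLocalMax ρ z := by
      filter_upwards [hc.eventually (gt_mem_nhds hlt'), hnb] with y hy hyb
      have h6 := hsym n h1 h2 _ (hRb y hyb) (le_of_lt hy)
      rw [hRR] at h6
      rw [h0]
      exact h6
    exact hreg z hz h0 hmax.fderiv_eq_zero
  · by_contra hne
    have hdiff : HasFDerivAt ρ (fderiv ℝ ρ z) z :=
      ((hs.contDiffAt hnb).differentiableAt (by norm_num)).hasFDerivAt
    have hline : HasDerivAt (fun t : ℝ => z + t • n) n 0 := by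
      simpa using ((hasDerivAt_id (0 : ℝ)).smul_const n).const_add z
    have hf : HasDerivAt (fun t : ℝ => ρ (z + t • n)) (fderiv ℝ ρ z n) 0 := by
      have h4 : HasFDerivAt ρ (fderiv ℝ ρ z) (z + (0 : ℝ) • n) := by
        rw [zero_smul, add_zero]
        exact hdiff
      exact h4.comp_hasDerivAt (0 : ℝ) hline
    have hb : ∀ᶠ t in 𝓝 (0 : ℝ), z + t • n ∈ Metric.ball (0 : E) 1 := by
      have h5 : ContinuousAt (fun t : ℝ => z + t • n) 0 := by fun_prop
      apply h5.eventually_mem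
      simpa using hnb
    have hrefl : ∀ᶠ t in 𝓝 (0 : ℝ), ρ (z + t • n) ≤ 0 → ρ (z + (-t) • n) ≤ 0 := by
      filter_upwards [hb] with t ht h6
      have h7 := hsym n h1 h2 _ ht h6
      have e : z + t • n - (2 * inner ℝ n (z + t • n)) • n = z + (-t) • n := by
        rw [inner_add_right, inner_smul_right, hnn, hz0]
        module
      rw [e] at h7
      exact h7
    have hneg : Tendsto (fun t : ℝ => -t) (𝓝 0) (𝓝 0) := by
      simpa using (continuous_neg (G := ℝ)).tendsto 0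
    have hrefl' := hneg.eventually hrefl
    have hs0 := hasDerivAt_iff_tendsto_slope.1 hf
    have key : ∀ᶠ t in 𝓝[≠] (0 : ℝ), 0 < fderiv ℝ ρ z n * slope (fun t : ℝ => ρ (z + t • n)) 0 t := by
      have h8 : Tendsto (fun t => fderiv ℝ ρ z n * slope (fun t : ℝ => ρ (z + t • n)) 0 t)
          (𝓝[≠] (0 : ℝ)) (𝓝 (fderiv ℝ ρ z n * fderiv ℝ ρ z n)) := hs0.const_mul _
      exact h8.eventually (lt_mem_nhds (mul_self_pos.2 hne))
    have key' : ∀ᶠ t in 𝓝 (0 : ℝ), t ≠ 0 →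
        0 < fderiv ℝ ρ z n * slope (fun t : ℝ => ρ (z + t • n)) 0 t :=
      eventually_nhdsWithin_iff.1 key
    have key'' := hneg.eventually key'
    have hall := (((hrefl.and hrefl').and (key'.and key'')).filter_mono
      (nhdsWithin_le_nhds (s := Set.Ioi (0 : ℝ)))).and self_mem_nhdsWithin
    obtain ⟨t, ⟨⟨ha, hb'⟩, hc1, hc2⟩, ht⟩ := hall.exists
    have ht0 : (0 : ℝ) < t := ht
    have hc1' := hc1 ht0.ne'
    have hc2' := hc2 (neg_ne_zero.2 ht0.ne')
    rw [slope_def_field, zero_smul, add_zero, h0, sub_zero, sub_zero] at hc1' hc2'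
    rw [neg_neg] at hb'
    set L := fderiv ℝ ρ z n with hL
    have e1 : 0 < L * ρ (z + t • n) := by
      have h9 := mul_pos hc1' ht0
      have e : L * (ρ (z + t • n) / t) * t = L * ρ (z + t • n) := by field_simp
      rw [e] at h9
      exact h9
    have e2 : L * ρ (z + (-t) • n) < 0 := by
      have h9 := mul_pos hc2' ht0
      have e : L * (ρ (z + (-t) • n) / -t) * t = -(L * ρ (z + (-t) • n)) := by field_simp
      rw [e] at h9
      linarith
    rcases lt_or_gt_of_ne hne with hneg1 | hpos1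
    · have e3 : ρ (z + t • n) < 0 := by
        by_contra h10
        have := mul_nonpos_of_nonpos_of_nonneg hneg1.le (not_lt.1 h10)
        linarith
      have e4 : 0 < ρ (z + (-t) • n) := by
        by_contra h10
        have := mul_nonneg_of_nonpos_of_nonpos hneg1.le (not_lt.1 h10)
        linarith
      exact absurd (ha e3.le) (not_le.2 e4)
    · have e3 : 0 < ρ (z + t • n) := by
        by_contra h10
        have := mul_nonpos_of_nonneg_of_nonpos hpos1.le (not_lt.1 h10)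
        linarith
      have e4 : ρ (z + (-t) • n) < 0 := by
        by_contra h10
        have := mul_nonneg hpos1.le (not_lt.1 h10)
        linarith
      exact absurd (hb' e4.le) (not_le.2 e3)

/-- piece `ROT-F2`: second order.
Proof. Let `x = ‖p z‖ > 0`, `ẑ = p z / x` (unit, orthogonal to `v`; `⟪v, p z⟫ = ⟪v, z⟫ = 0`), `n θ = cos θ v + sin θ ẑ`, a unit vector
in the range of `p`, `⟪n θ, z⟫ = x sin θ`. By `zero_symm` `ρ (c θ) = 0`, `c θ = z - 2 x sin θ (cos θ v + sin θ ẑ) =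
z - x sin (2 θ) v - (1 - cos (2 θ)) p z`, which stays in the ball (`‖c θ‖ = ‖z‖`). `c' 0 = - 2 x v`, `c'' 0 = - 4 p z`. Second
derivative of `ρ ∘ c` at `0`: `4 x² S2 ρ z v v - 4 ρ'(z) (p z) = 0`. -/
theorem second {p : E →L[ℝ] E} (hp : Pj p) {ρ : E → ℝ} (hs : ContDiffOn ℝ 3 ρ (Metric.ball 0 1))
    (hreg : ∀ z ∈ Metric.ball (0 : E) 1, ρ z = 0 → fderiv ℝ ρ z ≠ 0)
    (hsym : ∀ n, p n = n → ‖n‖ = 1 → ∀ z ∈ Metric.ball (0 : E) 1, ρ z ≤ 0 →
      ρ (z - (2 * inner ℝ n z) • n) ≤ 0) {z : E} (hz : z ∈ Metric.ball (0 : E) 1) (h0 : ρ z = 0)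
    (hz1 : p z ≠ 0) {v : E} (h1 : p v = v) (h2 : ‖v‖ = 1) (h3 : inner ℝ v z = 0) :
    ‖p z‖ ^ 2 * S2 ρ z v v = fderiv ℝ ρ z (p z) := by
  set x : ℝ := ‖p z‖ with hx
  have hx0 : 0 < x := norm_pos_iff.mpr hz1
  have hpz : inner ℝ (p z) z = x ^ 2 := by
    rw [hx, ← real_inner_self_eq_norm_sq, ← hp.symm (p z) z, hp.idem]
  have hvp : inner ℝ v (p z) = 0 := by
    rw [← hp.symm, h1, h3]
  have hpp : inner ℝ (p z) (p z) = x ^ 2 := real_inner_self_eq_norm_sq _
  -- the unit vectors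
  have hn1 : ∀ θ : ℝ, p (Real.cos θ • v + (Real.sin θ / x) • p z) =
      Real.cos θ • v + (Real.sin θ / x) • p z := by
    intro θ
    rw [map_add, map_smul, map_smul, h1, hp.idem]
  have hn2 : ∀ θ : ℝ, inner ℝ (Real.cos θ • v + (Real.sin θ / x) • p z)
      (Real.cos θ • v + (Real.sin θ / x) • p z) = 1 := by
    intro θ
    rw [inner_add_left, inner_add_right, inner_add_right, inner_smul_left, inner_smul_left,
      inner_smul_right, inner_smul_right, inner_smul_left, inner_smul_right, inner_smul_left,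
      inner_smul_right, real_inner_comm v (p z), hvp, hpp, real_inner_self_eq_norm_sq, h2]
    simp only [conj_trivial]
    have := Real.cos_sq_add_sin_sq θ
    field_simp
    nlinarith [this]
  have hn3 : ∀ θ : ℝ, inner ℝ (Real.cos θ • v + (Real.sin θ / x) • p z) z = x * Real.sin θ := by
    intro θ
    rw [inner_add_left, inner_smul_left, inner_smul_left, h3, hpz]
    simp only [conj_trivial]
    field_simp
    ring
  -- the curve
  have hc : ∀ θ : ℝ, z - (2 * inner ℝ (Real.cos θ • v + (Real.sin θ / x) • p z) z) •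
      (Real.cos θ • v + (Real.sin θ / x) • p z) =
      z - (x * Real.sin (2 * θ)) • v - (1 - Real.cos (2 * θ)) • p z := by
    intro θ
    rw [hn3, smul_add, smul_smul, smul_smul, Real.sin_two_mul, Real.cos_two_mul', ← sub_sub]
    congr 2
    · congr 1; ring
    · have := Real.cos_sq_add_sin_sq θ
      congr 1
      field_simp
      nlinarith [this]
  have hball : ∀ θ : ℝ, z - (x * Real.sin (2 * θ)) • v - (1 - Real.cos (2 * θ)) • p z ∈
      Metric.ball (0 : E) 1 := by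
    intro θ
    rw [← hc θ]
    have h4 : ‖z - (2 * inner ℝ (Real.cos θ • v + (Real.sin θ / x) • p z) z) •
      (Real.cos θ • v + (Real.sin θ / x) • p z)‖ ^ 2 = ‖z‖ ^ 2 := by
      rw [norm_sub_sq_real, norm_smul, mul_pow, ← real_inner_self_eq_norm_sq (Real.cos θ • v + (Real.sin θ / x) • p z),
        hn2, inner_smul_right, real_inner_comm]
      rw [Real.norm_eq_abs, sq_abs]
      ring
    have h5 : ‖z‖ < 1 := by simpa using hz
    rw [mem_ball_zero_iff]
    exact lt_of_pow_lt_pow_left₀ 2 zero_le_one (by rw [h4]; nlinarith [norm_nonneg z])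
  have hzero : ∀ θ : ℝ, ρ (z - (x * Real.sin (2 * θ)) • v - (1 - Real.cos (2 * θ)) • p z) = 0 := by
    intro θ
    rw [← hc θ]
    refine (zero_symm hs hreg hsym (hn1 θ) ?_ hz h0).1
    have h6 := hn2 θ
    rw [real_inner_self_eq_norm_sq] at h6
    nlinarith [norm_nonneg (Real.cos θ • v + (Real.sin θ / x) • p z)]
  have hcd : ∀ θ : ℝ, HasDerivAt
      (fun θ : ℝ => z - (x * Real.sin (2 * θ)) • v - (1 - Real.cos (2 * θ)) • p z)
      (-((2 * x * Real.cos (2 * θ)) • v) - (2 * Real.sin (2 * θ)) • p z) θ := by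
    intro θ
    have h2θ : HasDerivAt (fun θ : ℝ => 2 * θ) 2 θ := by
      simpa using (hasDerivAt_id θ).const_mul 2
    have h4 : HasDerivAt (fun θ : ℝ => x * Real.sin (2 * θ)) (x * (Real.cos (2 * θ) * 2)) θ :=
      (h2θ.sin).const_mul x
    have h5 : HasDerivAt (fun θ : ℝ => 1 - Real.cos (2 * θ)) (-(-Real.sin (2 * θ) * 2)) θ :=
      (h2θ.cos).const_sub 1
    have h6 := ((h4.smul_const v).const_sub z).sub (h5.smul_const (p z))
    have h7 : -((2 * x * Real.cos (2 * θ)) • v) - (2 * Real.sin (2 * θ)) • p z =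
        -((x * (Real.cos (2 * θ) * 2)) • v) - -(-Real.sin (2 * θ) * 2) • p z := by
      rw [show -(-Real.sin (2 * θ) * 2) = 2 * Real.sin (2 * θ) by ring,
        show x * (Real.cos (2 * θ) * 2) = 2 * x * Real.cos (2 * θ) by ring]
    rw [h7]
    exact h6
  have hcd2 : HasDerivAt
      (fun θ : ℝ => -((2 * x * Real.cos (2 * θ)) • v) - (2 * Real.sin (2 * θ)) • p z)
      (-((4 : ℝ) • p z)) 0 := by
    have h2θ : HasDerivAt (fun θ : ℝ => 2 * θ) 2 0 := by
      simpa using (hasDerivAt_id (0 : ℝ)).const_mul 2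
    have h4 : HasDerivAt (fun θ : ℝ => 2 * x * Real.cos (2 * θ)) (2 * x * (-Real.sin (2 * 0) * 2)) 0 :=
      (h2θ.cos).const_mul (2 * x)
    have h5 : HasDerivAt (fun θ : ℝ => 2 * Real.sin (2 * θ)) (2 * (Real.cos (2 * 0) * 2)) 0 :=
      (h2θ.sin).const_mul 2
    have h6 := ((h4.smul_const v).neg).sub (h5.smul_const (p z))
    have h7 : -((4 : ℝ) • p z) = -((2 * x * (-Real.sin (2 * 0) * 2)) • v) -
        (2 * (Real.cos (2 * 0) * 2)) • p z := by
      rw [mul_zero, Real.sin_zero, Real.cos_zero, neg_zero, zero_mul, mul_zero, zero_smul, neg_zero,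
        zero_sub]
      norm_num
    rw [h7]
    exact h6
  have hfirst : ∀ θ : ℝ, fderiv ℝ ρ (z - (x * Real.sin (2 * θ)) • v - (1 - Real.cos (2 * θ)) • p z)
      (-((2 * x * Real.cos (2 * θ)) • v) - (2 * Real.sin (2 * θ)) • p z) = 0 := by
    intro θ
    have h4 : DifferentiableAt ℝ ρ (z - (x * Real.sin (2 * θ)) • v - (1 - Real.cos (2 * θ)) • p z) :=
      (hs.contDiffAt (Metric.isOpen_ball.mem_nhds (hball θ))).differentiableAt (by norm_num)
    have h5 := h4.hasFDerivAt.comp_hasDerivAt θ (hcd θ)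
    have h6 : (ρ ∘ fun θ : ℝ => z - (x * Real.sin (2 * θ)) • v - (1 - Real.cos (2 * θ)) • p z) =
        fun _ => (0 : ℝ) := by
      funext θ
      exact hzero θ
    rw [h6] at h5
    exact h5.unique (hasDerivAt_const θ 0)
  have hz0 : z - (x * Real.sin (2 * (0 : ℝ))) • v - (1 - Real.cos (2 * (0 : ℝ))) • p z = z := by
    simp
  have hC : ContDiffAt ℝ 3 ρ z := hs.contDiffAt (Metric.isOpen_ball.mem_nhds hz)
  have hF : HasFDerivAt (fun y => fderiv ℝ ρ y) (fderiv ℝ (fun y => fderiv ℝ ρ y) z)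
      (z - (x * Real.sin (2 * (0 : ℝ))) • v - (1 - Real.cos (2 * (0 : ℝ))) • p z) := by
    rw [hz0]
    exact ((hC.fderiv_right (m := 2) (by norm_num)).differentiableAt (by norm_num)).hasFDerivAt
  have hG := (hF.comp_hasDerivAt (0 : ℝ) (hcd 0)).clm_apply hcd2
  have hG0 : (fun θ : ℝ => ((fun y => fderiv ℝ ρ y) ∘
      fun θ : ℝ => z - (x * Real.sin (2 * θ)) • v - (1 - Real.cos (2 * θ)) • p z) θ
      (-((2 * x * Real.cos (2 * θ)) • v) - (2 * Real.sin (2 * θ)) • p z)) = fun _ => (0 : ℝ) := by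
    funext θ
    exact hfirst θ
  rw [hG0] at hG
  have hfin := hG.unique (hasDerivAt_const (0 : ℝ) (0 : ℝ))
  simp only [mul_zero, Real.sin_zero, Real.cos_zero, zero_smul, sub_zero, sub_self, mul_one,
    Function.comp_apply, map_neg, map_smul, neg_apply,
    smul_apply, smul_eq_mul] at hfin
  have h7 : S2 ρ z v v = fderiv ℝ (fun y => fderiv ℝ ρ y) z v v := rfl
  rw [h7]
  nlinarith [hfin]

private theorem rotF3_k (k : E →L[ℝ] ℝ) (x : E) :
    ∑ i, inner ℝ (stdOrthonormalBasis ℝ E i) x * k (stdOrthonormalBasis ℝ E i) = k x := by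
  conv_rhs => rw [← OrthonormalBasis.sum_repr' (stdOrthonormalBasis ℝ E) x]
  simp only [map_sum, map_smul, smul_eq_mul]

private theorem rotF3_pe {p : E →L[ℝ] E} (hp : Pj p) (Q : E →L[ℝ] E →L[ℝ] ℝ) :
    ∑ i, Q (p (stdOrthonormalBasis ℝ E i)) (stdOrthonormalBasis ℝ E i) =
      ∑ i, Q (p (stdOrthonormalBasis ℝ E i)) (p (stdOrthonormalBasis ℝ E i)) := by
  have h1 : ∀ i, Q (p (stdOrthonormalBasis ℝ E i)) (stdOrthonormalBasis ℝ E i) =
      ∑ j, inner ℝ (stdOrthonormalBasis ℝ E j) (p (stdOrthonormalBasis ℝ E i)) *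
        Q (p (stdOrthonormalBasis ℝ E j)) (stdOrthonormalBasis ℝ E i) := by
    intro i
    have h2 := rotF3_k ((Q.flip (stdOrthonormalBasis ℝ E i)).comp p)
      (p (stdOrthonormalBasis ℝ E i))
    simp only [ContinuousLinearMap.comp_apply, ContinuousLinearMap.flip_apply] at h2
    rw [h2, hp.idem]
  rw [Finset.sum_congr rfl fun i _ => h1 i, Finset.sum_comm]
  refine Finset.sum_congr rfl fun j _ => ?_
  have h2 := rotF3_k (Q (p (stdOrthonormalBasis ℝ E j))) (p (stdOrthonormalBasis ℝ E j))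
  rw [← h2]
  refine Finset.sum_congr rfl fun i _ => ?_
  rw [← hp.symm, real_inner_comm]

private theorem rotF3_tr {a : ℕ} {p : E →L[ℝ] E} (hp : Pj p)
    (hr : Module.finrank ℝ (LinearMap.range (p : E →ₗ[ℝ] E)) = a + 1) :
    ∑ i, ‖p (stdOrthonormalBasis ℝ E i)‖ ^ 2 = (a : ℝ) + 1 := by
  have he : IsIdempotentElem (p : E →ₗ[ℝ] E) := by
    apply LinearMap.ext
    intro x
    exact hp.idem x
  have h1 := (LinearMap.IsIdempotentElem.isProj_range _ he).trace
  rw [hr, LinearMap.trace_eq_sum_inner _ (stdOrthonormalBasis ℝ E)] at h1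
  push_cast at h1
  rw [← h1]
  refine Finset.sum_congr rfl fun i _ => ?_
  rw [← real_inner_self_eq_norm_sq, hp.symm, hp.idem]

/-- piece `ROT-F3`: the operators agree on the symmetric hypersurface.
Proof. Put `l = fderiv ρ z`, `Q = S2 ρ z`, `v = vg l = gradient ρ z`, `e_i` = standard basis, `r = ‖p z‖²`. By `zero_symm` `l n = 0` for
`p n = n`, `⟪n, z⟫ = 0` (scale to unit vectors). Case `p z = 0`: `p v = 0` (`⟪p v, n⟫ = l (p n)`), so `Df = 0`, `Yf = v - ⟪z, v⟫ z = mb`,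
`qf = qb`, `Tf = ∑ Q e_i e_i - Q z z`, `l (p z) = 0`. Case `p z ≠ 0`: `p v = μ p z`, `μ = l (p z) / r` (`p v - μ p z` is in the
range of `p`, orthogonal to `p z`, hence to `z`, and `l` vanishes on it), so `Df = r μ² r - (μ r)² = 0`, `Yf = v - ⟪z, v⟫ z - r μ p z +
μ r p z = mb`, `qf = qb`. `Tf = ∑ Q e_i e_i - Q z z - r ∑ Q (p e_i) e_i + Q (p z) (p z)`, `∑ Q (p e_i) e_i = ∑ Q (p e_i) (p e_i)`. With
`w_i = p e_i - (⟪p e_i, p z⟫ / r) p z` (in the range of `p`, orthogonal to `z`) `second` gives `r Q w_i w_i = l (p z) ‖w_i‖²`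
(`Q` symmetric bilinear, scaling); sum over `i`: `∑ Q w_i w_i = ∑ Q (p e_i) (p e_i) - Q (p z) (p z) / r`,
`∑ ‖w_i‖² = ∑ ⟪p e_i, e_i⟫ - 1 = a` (trace of `p` = rank = `a + 1`), so
`r ∑ Q (p e_i) (p e_i) - Q (p z) (p z) = a l (p z)`: `Tf + a (l z + l (p z)) = ∑ Q e_i e_i - Q z z + a l z`. -/
theorem Mb_eq_Eball {a : ℕ} {p : E →L[ℝ] E} (hp : Pj p)
    (hr : Module.finrank ℝ (LinearMap.range (p : E →ₗ[ℝ] E)) = a + 1) {ρ : E → ℝ}
    (hs : ContDiffOn ℝ 3 ρ (Metric.ball 0 1))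
    (hreg : ∀ z ∈ Metric.ball (0 : E) 1, ρ z = 0 → fderiv ℝ ρ z ≠ 0)
    (hsym : ∀ n, p n = n → ‖n‖ = 1 → ∀ z ∈ Metric.ball (0 : E) 1, ρ z ≤ 0 →
      ρ (z - (2 * inner ℝ n z) • n) ≤ 0) {z : E} (hz : z ∈ Metric.ball (0 : E) 1)
    (h0 : ρ z = 0) : Mb a p ρ z = Eball a ρ z := by
  set l := fderiv ℝ ρ z with hl
  set Q := S2 ρ z with hQ
  set v := vg l with hv
  have hin : ∀ u, inner ℝ v u = l u := fun u => InnerProductSpace.toDual_symm_apply
  -- `l` vanishes on the vectors of the line orthogonal to `z`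
  have hA : ∀ n, p n = n → inner ℝ n z = 0 → l n = 0 := by
    intro n hn hnz
    by_cases h : n = 0
    · rw [h, map_zero]
    · have hn0 : ‖n‖ ≠ 0 := norm_ne_zero_iff.2 h
      have h2 := (zero_symm hs hreg hsym (n := ‖n‖⁻¹ • n) (by rw [map_smul, hn])
        (by rw [norm_smul, norm_inv, norm_norm, inv_mul_cancel₀ hn0]) hz h0).2
        (by rw [inner_smul_left, hnz, mul_zero])
      rw [map_smul, smul_eq_mul] at h2
      exact (mul_eq_zero.1 h2).resolve_left (inv_ne_zero hn0)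
  have hzz : inner ℝ (p z) z = ‖p z‖ ^ 2 := by
    rw [← real_inner_self_eq_norm_sq, hp.symm, hp.symm, hp.idem]
  have hvz : inner ℝ (p v) z = l (p z) := by rw [hp.symm, hin]
  -- the component of the gradient
  have hC : ‖p z‖ ^ 2 • p v = l (p z) • p z := by
    set w := ‖p z‖ ^ 2 • p v - l (p z) • p z with hw
    have h1 : p w = w := by
      rw [hw, map_sub, map_smul, map_smul, hp.idem, hp.idem]
    have h2 : inner ℝ w z = 0 := by
      rw [hw, inner_sub_left, inner_smul_left, inner_smul_left, hzz, hvz]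
      simp only [conj_trivial]
      ring
    have h3 := hA w h1 h2
    have h4 : inner ℝ (p v) w = 0 := by rw [hp.symm, h1, hin, h3]
    have h5 : inner ℝ (p z) w = 0 := by rw [hp.symm, h1, real_inner_comm, h2]
    have h6 : inner ℝ w w = 0 := by
      nth_rewrite 1 [hw]
      rw [inner_sub_left, inner_smul_left, inner_smul_left, h4, h5, mul_zero, mul_zero, sub_zero]
    exact sub_eq_zero.1 (inner_self_eq_zero.1 h6)
  have hD : Df p z l = 0 := by
    unfold Df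
    have h1 : inner ℝ (‖p z‖ ^ 2 • p v) v = inner ℝ (l (p z) • p z) v := by rw [hC]
    have h2 : inner ℝ (p v) v = ‖p v‖ ^ 2 := by
      rw [← real_inner_self_eq_norm_sq, hp.symm, hp.symm, hp.idem]
    rw [inner_smul_left, inner_smul_left, h2, real_inner_comm, hin] at h1
    simp only [conj_trivial] at h1
    rw [← hv, h1]
    ring
  have hY : Yf p z l = Pool.Agent.Helper41.ALX.mb ρ z := by
    unfold Yf Gop Pool.Agent.Helper41.ALX.mb
    change (ContinuousLinearMap.id ℝ E - (innerSL ℝ z).smulRight z - ‖p z‖ ^ 2 • p +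
      (innerSL ℝ (p z)).smulRight (p z)) v = v - l z • z
    simp only [add_apply, sub_apply,
      ContinuousLinearMap.smulRight_apply, ContinuousLinearMap.id_apply,
      smul_apply, innerSL_apply_apply]
    rw [hC, real_inner_comm, hin, real_inner_comm v (p z), hin]
    abel
  have hq : qf p z l = Pool.Agent.Helper41.ALX.qb ρ z := by
    unfold qf Pool.Agent.Helper41.ALX.qb
    rw [hY]
    unfold Pool.Agent.Helper41.ALX.mb
    change l (v - l z • z) = ‖v‖ ^ 2 - l z ^ 2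
    rw [map_sub, map_smul, smul_eq_mul, ← hin v, real_inner_self_eq_norm_sq]
    ring
  -- the second order relation
  have hS : ‖p z‖ ^ 2 * (∑ i, Q (p (stdOrthonormalBasis ℝ E i)) (p (stdOrthonormalBasis ℝ E i))) -
      Q (p z) (p z) = a * l (p z) := by
    by_cases hz1 : p z = 0
    · rw [hz1]
      simp
    · have hr0 : ‖p z‖ ^ 2 ≠ 0 := pow_ne_zero 2 (norm_ne_zero_iff.2 hz1)
      have hsec : ∀ w, p w = w → inner ℝ w z = 0 → ‖p z‖ ^ 2 * Q w w = l (p z) * ‖w‖ ^ 2 := by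
        intro w hw hwz
        by_cases h : w = 0
        · rw [h]
          simp
        · have hn0 : ‖w‖ ≠ 0 := norm_ne_zero_iff.2 h
          have h2 := second hp hs hreg hsym hz h0 hz1 (v := ‖w‖⁻¹ • w) (by rw [map_smul, hw])
            (by rw [norm_smul, norm_inv, norm_norm, inv_mul_cancel₀ hn0])
            (by rw [inner_smul_left, hwz, mul_zero])
          rw [map_smul, map_smul, smul_apply, smul_eq_mul, smul_eq_mul] at h2
          have h3 : ‖w‖⁻¹ * ‖w‖ = 1 := inv_mul_cancel₀ hn0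
          change ‖p z‖ ^ 2 * (‖w‖⁻¹ * (‖w‖⁻¹ * Q w w)) = l (p z) at h2
          rw [← h2]
          linear_combination (-(‖p z‖ ^ 2 * Q w w) * (‖w‖⁻¹ * ‖w‖ + 1)) * h3
      have hterm : ∀ i, ‖p z‖ ^ 2 * (Q (p (stdOrthonormalBasis ℝ E i))
          (p (stdOrthonormalBasis ℝ E i))
          - (‖p z‖ ^ 2)⁻¹ * (inner ℝ (stdOrthonormalBasis ℝ E i) (p z) *
              Q (p (stdOrthonormalBasis ℝ E i)) (p z))
          - (‖p z‖ ^ 2)⁻¹ * (inner ℝ (stdOrthonormalBasis ℝ E i) (p z) *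
              Q (p z) (p (stdOrthonormalBasis ℝ E i)))
          + (‖p z‖ ^ 2)⁻¹ ^ 2 * (inner ℝ (stdOrthonormalBasis ℝ E i) (p z) *
              inner ℝ (p z) (stdOrthonormalBasis ℝ E i)) * Q (p z) (p z)) =
          l (p z) * (‖p (stdOrthonormalBasis ℝ E i)‖ ^ 2
          - (‖p z‖ ^ 2)⁻¹ * (inner ℝ (stdOrthonormalBasis ℝ E i) (p z) *
              inner ℝ (p z) (stdOrthonormalBasis ℝ E i))) := by
        intro i
        set e := stdOrthonormalBasis ℝ E i with he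
        set c := inner ℝ e (p z) with hc
        have hc' : inner ℝ (p z) e = c := real_inner_comm _ _
        have h1 := hsec (p e - ((‖p z‖ ^ 2)⁻¹ * c) • p z)
          (by rw [map_sub, map_smul, hp.idem, hp.idem])
          (by
            rw [inner_sub_left, inner_smul_left, hzz, hp.symm, ← hc]
            simp only [conj_trivial]
            field_simp
            ring)
        have h2 : ‖p e - ((‖p z‖ ^ 2)⁻¹ * c) • p z‖ ^ 2 = ‖p e‖ ^ 2 - (‖p z‖ ^ 2)⁻¹ * (c * c) := by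
          have h3 : inner ℝ (p e) (p z) = c := by rw [hp.symm, hp.idem]
          rw [norm_sub_sq_real, inner_smul_right, h3, norm_smul, mul_pow, Real.norm_eq_abs, sq_abs]
          field_simp
          ring
        rw [h2] at h1
        rw [hc', ← h1]
        simp only [map_sub, map_smul, sub_apply, smul_apply, smul_eq_mul]
        ring
      have hsum := Finset.sum_congr (rfl : (Finset.univ : Finset (Fin (Module.finrank ℝ E))) = _)
        fun i _ => hterm i
      rw [← Finset.mul_sum, ← Finset.mul_sum, Finset.sum_add_distrib, Finset.sum_sub_distrib,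
        Finset.sum_sub_distrib, Finset.sum_sub_distrib, ← Finset.sum_mul, ← Finset.mul_sum,
        ← Finset.mul_sum, ← Finset.mul_sum, rotF3_tr hp hr] at hsum
      have k1 := rotF3_k ((Q.flip (p z)).comp p) (p z)
      simp only [ContinuousLinearMap.comp_apply, ContinuousLinearMap.flip_apply, hp.idem] at k1
      have k2 := rotF3_k ((Q (p z)).comp p) (p z)
      simp only [ContinuousLinearMap.comp_apply, hp.idem] at k2
      have k3 := rotF3_k (innerSL ℝ (p z)) (p z)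
      simp only [innerSL_apply_apply, real_inner_self_eq_norm_sq] at k3
      rw [k1, k2, ← Finset.mul_sum, k3] at hsum
      field_simp at hsum
      linear_combination hsum
  have hT : Tf p z Q + a * (l z + l (p z)) =
      (∑ i, Q (stdOrthonormalBasis ℝ E i) (stdOrthonormalBasis ℝ E i)) - Q z z + a * l z := by
    have h1 : Tf p z Q = (∑ i, Q (stdOrthonormalBasis ℝ E i) (stdOrthonormalBasis ℝ E i)) -
        Q z z - ‖p z‖ ^ 2 * (∑ i, Q (p (stdOrthonormalBasis ℝ E i)) (stdOrthonormalBasis ℝ E i)) +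
        Q (p z) (p z) := by
      have k1 := rotF3_k (Q z) z
      have k2 := rotF3_k (Q (p z)) (p z)
      rw [← k1, ← k2, Finset.mul_sum, ← Finset.sum_sub_distrib, ← Finset.sum_sub_distrib,
        ← Finset.sum_add_distrib]
      unfold Tf Gop
      refine Finset.sum_congr rfl fun i _ => ?_
      simp only [add_apply, sub_apply, map_add, map_sub, map_smul,
        ContinuousLinearMap.smulRight_apply, ContinuousLinearMap.id_apply,
        smul_apply, innerSL_apply_apply, smul_eq_mul]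
      rw [real_inner_comm z, real_inner_comm (p z)]
    rw [h1, rotF3_pe hp Q]
    linear_combination (-1 : ℝ) * hS
  unfold Mb MM Eball
  rw [← hl, ← hQ, hT, hD, hY, hq]
  ring

/-- piece `ROT-F4`: the centred hypersurface is a sphere.
Proof. `planes`, `dom_symm`, `Dm.chart`, `Mb_eq_Eball` and `Pool.Agent.Helper41.ALX.round_ball`. -/
theorem round_centred {a : ℕ} (ha : 0 < a) {p : E →L[ℝ] E} (hp : Pj p)
    (hr : Module.finrank ℝ (LinearMap.range (p : E →ₗ[ℝ] E)) = a + 1) {H : ℝ} {Φ : ℝ × E → ℝ}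
    (hD : Dm H p Φ) (hS : ∀ n, Un p n → Sy p Φ n → n.1 = 0) :
    ∃ R : ℝ, 0 < R ∧ R < 1 ∧ ∀ z ∈ Metric.ball (0 : E) 1,
      (Φ (em p z) < 0 ↔ ‖z‖ < R) ∧ (Φ (em p z) = 0 ↔ ‖z‖ = R) := by
  have hnt : Nontrivial E := by
    by_contra hcon
    rw [not_nontrivial_iff_subsingleton] at hcon
    have h1 : Module.finrank ℝ (LinearMap.range (p : E →ₗ[ℝ] E)) = 0 :=
      Module.finrank_zero_of_subsingleton
    omega
  have hWW : ∀ n, p n = n → ‖n‖ = 1 → WW p Φ ((0 : ℝ), n) := fun n h1 h2 =>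
    planes hp hr hD hS n h1 h2
  obtain ⟨c1, c2, c3⟩ := hD.chart hp hr
  have hsym : ∀ n, p n = n → ‖n‖ = 1 → ∀ z ∈ Metric.ball (0 : E) 1,
      (fun z => Φ (em p z)) z ≤ 0 →
      (fun z => Φ (em p z)) (z - (2 * inner ℝ n z) • n) ≤ 0 := fun n h1 h2 z hz h0 =>
    dom_symm hp hWW h1 h2 hz h0
  exact Pool.Agent.Helper41.ALX.round_ball (a := (a : ℝ)) (H := H) (by exact_mod_cast ha)
    c1 hD.bd hD.ne c2 fun z hz h0 => by
      rw [← Mb_eq_Eball hp hr c1 c2 hsym hz h0]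
      exact c3 z hz h0

private theorem rotF4_real {A q D N y R : ℝ} (hA : 0 < A) (hq : q < 1)
    (hAD : A * (1 - q) = 2 * D) (hy : 0 ≤ y) (hR0 : 0 < R) (hR1 : R < 1)
    (hyy : y ^ 2 = 1 - 2 * N / A) :
    (y < R ↔ D < (1 - R ^ 2)⁻¹ * N * (1 - q)) ∧ (y = R ↔ D = (1 - R ^ 2)⁻¹ * N * (1 - q)) := by
  have hS : 0 < 1 - R ^ 2 := by nlinarith
  have hD : 0 < D := by nlinarith [mul_pos hA (sub_pos.2 hq)]
  have hN : N = (1 - y ^ 2) * A / 2 := by
    rw [hyy]
    field_simp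
    ring
  have e1 : (1 - R ^ 2)⁻¹ * N * (1 - q) = (1 - y ^ 2) * D / (1 - R ^ 2) := by
    rw [hN]
    have : (1 - R ^ 2)⁻¹ * ((1 - y ^ 2) * A / 2) * (1 - q) =
        (1 - R ^ 2)⁻¹ * (1 - y ^ 2) * (A * (1 - q)) / 2 := by ring
    rw [this, hAD]
    field_simp
  rw [e1]
  constructor
  · rw [lt_div_iff₀ hS, mul_comm D, mul_lt_mul_iff_left₀ hD, ← sq_lt_sq₀ hy hR0.le]
    constructor <;> intro h <;> linarith
  · rw [eq_div_iff hS.ne', mul_comm D, mul_left_inj' hD.ne', ← sq_eq_sq₀ hy hR0.le]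
    constructor <;> intro h <;> linarith

/-- piece `ROT-F4`: the sphere in the original position.
Proof. `centred` and `round_centred` for `Ψ = Φ ∘ rf m`. For `z` in the ball let `y = rr m z`: `Ψ (em y) = Ψ (rf m (em z)) = Φ (em z)`
(`phi_rr` for `Ψ`, `rf_rf`), so `Φ (em z) < 0 ↔ ‖y‖ < R`, `= 0 ↔ ‖y‖ = R`. `y = pr X`, `X = rf m (em z)`, `tt X = t = 1 - ‖p z‖²`,
`X.1 = - B1 X (1, 0) = - B1 X (rf m o) = - B1 (em z) o = ((1 + ‖p z‖²) (1 + ‖c‖²) - 4 ⟪z, c⟫) / (1 - ‖c‖²)` (`o` of `centred`,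
`p c = c`), so `(X.1 + t) (1 - ‖c‖²) = 2 (1 - 2 ⟪z, c⟫ + ‖p z‖² ‖c‖²)`, and `norm_pr`:
`1 - ‖y‖² = 2 (1 - ‖z‖²) / (X.1 + t)`. Hence `‖y‖ < R ↔ 1 - 2 ⟪z, c⟫ + ‖p z‖² ‖c‖² < (1 - R²)⁻¹ (1 - ‖z‖²) (1 - ‖c‖²)`. -/
theorem rot_round {a : ℕ} (ha : 0 < a) {p : E →L[ℝ] E} (hp : Pj p)
    (hr : Module.finrank ℝ (LinearMap.range (p : E →ₗ[ℝ] E)) = a + 1) {H : ℝ} {Φ : ℝ × E → ℝ}
    (hD : Dm H p Φ) :
    ∃ (c : E) (R : ℝ), p c = c ∧ ‖c‖ < 1 ∧ 1 < R ∧ ∀ z ∈ Metric.ball (0 : E) 1,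
      (Φ (em p z) < 0 ↔ 1 - 2 * inner ℝ z c + ‖p z‖ ^ 2 * ‖c‖ ^ 2 <
        R * (1 - ‖z‖ ^ 2) * (1 - ‖c‖ ^ 2)) ∧
      (Φ (em p z) = 0 ↔ 1 - 2 * inner ℝ z c + ‖p z‖ ^ 2 * ‖c‖ ^ 2 =
        R * (1 - ‖z‖ ^ 2) * (1 - ‖c‖ ^ 2)) := by
  obtain ⟨c, m, hc, hc1, hm, hmo, hD', hS'⟩ := centred hp hr hD
  obtain ⟨R, hR0, hR1, hR⟩ := round_centred ha hp hr hD' hS'
  have hq0 : 0 ≤ ‖c‖ ^ 2 := sq_nonneg _
  have hq1 : ‖c‖ ^ 2 < 1 := by nlinarith [norm_nonneg c]
  have hs : 0 < 1 - ‖c‖ ^ 2 := by linarith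
  have hSR : 0 < 1 - R ^ 2 := by nlinarith
  refine ⟨c, (1 - R ^ 2)⁻¹, hc, hc1, ?_, fun z hz => ?_⟩
  · rw [one_lt_inv₀ hSR]
    nlinarith
  have hz1 : ‖z‖ < 1 := by simpa using hz
  have hy := rr_ball hp hm hz
  obtain ⟨-, e2⟩ := phi_rr hp hm hD.hom hz
  have h3 := hR _ hy
  rw [e2] at h3
  have hpz : ‖p z‖ ≤ 1 := by
    have := pyth hp z
    nlinarith [norm_nonneg (p z), norm_nonneg z, sq_nonneg ‖z - p z‖]
  have hX : rf p m (em p z) ∈ Cn p := rf_Cn hp hm (em_Cn hp hz)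
  have ht : tt p (rf p m (em p z)) = 1 - ‖p z‖ ^ 2 := by rw [tt_rf hm, tt_em hp hpz]
  have hW : (rf p m (em p z)).2 - p (rf p m (em p z)).2 = z - p z := by
    rw [rf_W hm, (em_W hp z).2]
  have hA : 0 < (rf p m (em p z)).1 + tt p (rf p m (em p z)) := add_pos hX.1 (tt_pos hX)
  have hyy : ‖rr p m z‖ ^ 2 =
      1 - 2 * (1 - ‖z‖ ^ 2) / ((rf p m (em p z)).1 + tt p (rf p m (em p z))) := by
    rw [rr, norm_pr hp hX, ht, hW, pyth hp z]
    congr 2
    ring
  have ho : rf p m ((1 : ℝ), (0 : E)) = (1 - ‖c‖ ^ 2)⁻¹ • em p c := by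
    rw [← hmo, rf_rf hm]
  have hB0 : B1 p (rf p m (em p z)) ((1 : ℝ), (0 : E)) = -(rf p m (em p z)).1 := by simp [B1]
  have hB1 : B1 p (rf p m (em p z)) ((1 : ℝ), (0 : E)) =
      (1 - ‖c‖ ^ 2)⁻¹ * (4 * inner ℝ z c - (1 + ‖p z‖ ^ 2) * (1 + ‖c‖ ^ 2)) := by
    rw [B1_rf_left, ho, B1_comm, B1_smul_left, B1_comm]
    congr 1
    unfold B1
    rw [(em_W hp z).1, (em_W hp c).1, hc]
    change inner ℝ ((2 : ℝ) • p z) ((2 : ℝ) • c) - (1 + ‖p z‖ ^ 2) * (1 + ‖p c‖ ^ 2) = _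
    rw [hc, real_inner_smul_left, real_inner_smul_right, hp.symm, hc]
    ring
  have hX1 : (rf p m (em p z)).1 * (1 - ‖c‖ ^ 2) =
      (1 + ‖p z‖ ^ 2) * (1 + ‖c‖ ^ 2) - 4 * inner ℝ z c := by
    have h5 : (rf p m (em p z)).1 =
        -((1 - ‖c‖ ^ 2)⁻¹ * (4 * inner ℝ z c - (1 + ‖p z‖ ^ 2) * (1 + ‖c‖ ^ 2))) := by
      rw [← hB1, hB0, neg_neg]
    rw [h5]
    field_simp
    ring
  have hAD : ((rf p m (em p z)).1 + tt p (rf p m (em p z))) * (1 - ‖c‖ ^ 2) =
      2 * (1 - 2 * inner ℝ z c + ‖p z‖ ^ 2 * ‖c‖ ^ 2) := by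
    rw [add_mul, hX1, ht]
    ring
  obtain ⟨f1, f2⟩ := rotF4_real hA hq1 hAD (norm_nonneg _) hR0 hR1 hyy
  exact ⟨h3.1.trans f1, h3.2.trans f2⟩

end Pool.Agent.Helper75.ROT
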