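import Pool.Agent.Helper75.ROT.Cv

/-! # ROT: barrier and boundary point lemma of E. Hopf for level sets -/

set_option autoImplicit false
set_option linter.unusedSectionVars false
set_option linter.unusedVariables false

namespace Pool.Agent.Helper75.ROT

open Filter Topology
open scoped ContDiff
open Pool.Agent.Helper41.ALX (S2)

variable {E : Type*} [NormedAddCommGroup E] [InnerProductSpace ℝ E] [FiniteDimensional ℝ E]

private theorem rotH1_sum {f h : E → ℝ} {y : E} (hf : ContDiffAt ℝ 3 f y) (hh : ContDiffAt ℝ 3 h y) :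
    ∀ᶠ z in 𝓝 y, ∀ ε : ℝ, fderiv ℝ (fun x => f x + ε * h x) z = fderiv ℝ f z + ε • fderiv ℝ h z ∧
      S2 (fun x => f x + ε * h x) z = S2 f z + ε • S2 h z := by
  have h1 : ∀ᶠ z in 𝓝 y, ContDiffAt ℝ 3 f z ∧ ContDiffAt ℝ 3 h z :=
    (hf.eventually (by simp)).and (hh.eventually (by simp))
  have key : ∀ z, ContDiffAt ℝ 3 f z → ContDiffAt ℝ 3 h z → ∀ ε : ℝ,
      fderiv ℝ (fun x => f x + ε * h x) z = fderiv ℝ f z + ε • fderiv ℝ h z := by
    intro z hfz hhz ε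
    have d1 := (hfz.differentiableAt (by norm_num)).hasFDerivAt
    have d2 := (hhz.differentiableAt (by norm_num)).hasFDerivAt
    exact (d1.add (d2.const_mul ε)).fderiv
  filter_upwards [h1.eventually_nhds] with z hz ε
  have hz0 := hz.self_of_nhds
  refine ⟨key z hz0.1 hz0.2 ε, ?_⟩
  have h2 : (fun x => fderiv ℝ (fun x => f x + ε * h x) x) =ᶠ[𝓝 z]
      fun x => fderiv ℝ f x + ε • fderiv ℝ h x := by
    filter_upwards [hz] with x hx
    exact key x hx.1 hx.2 ε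
  have d1 : DifferentiableAt ℝ (fderiv ℝ f) z :=
    (hz0.1.fderiv_right (m := 2) (by norm_num)).differentiableAt (by norm_num)
  have d2 : DifferentiableAt ℝ (fderiv ℝ h) z :=
    (hz0.2.fderiv_right (m := 2) (by norm_num)).differentiableAt (by norm_num)
  show fderiv ℝ (fun x => fderiv ℝ (fun x => f x + ε * h x) x) z = _
  rw [h2.fderiv_eq]
  exact (d1.hasFDerivAt.add (d2.hasFDerivAt.const_smul ε)).fderiv

private theorem rotH1_sq {w : E → ℝ} {y : E} (hw : ContDiffAt ℝ 3 w y) (hw0 : w y = 0) (α : ℝ) :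
    fderiv ℝ (fun x => w x + α * w x ^ 2) y = fderiv ℝ w y ∧
      S2 (fun x => w x + α * w x ^ 2) y =
        S2 w y + (2 * α) • (fderiv ℝ w y).smulRight (fderiv ℝ w y) := by
  have key : ∀ z, ContDiffAt ℝ 3 w z →
      fderiv ℝ (fun x => w x + α * w x ^ 2) z = fderiv ℝ w z + (2 * α * w z) • fderiv ℝ w z := by
    intro z hz
    have d1 := (hz.differentiableAt (by norm_num)).hasFDerivAt
    have d2 := d1.add ((d1.pow 2).const_mul α)
    refine d2.fderiv.trans ?_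
    ext u
    simp
    ring
  refine ⟨?_, ?_⟩
  · rw [key y hw, hw0, mul_zero, zero_smul, add_zero]
  · have h2 : (fun x => fderiv ℝ (fun x => w x + α * w x ^ 2) x) =ᶠ[𝓝 y]
        fun x => fderiv ℝ w x + (2 * α * w x) • fderiv ℝ w x := by
      filter_upwards [hw.eventually (by simp)] with x hx
      exact key x hx
    show fderiv ℝ (fun x => fderiv ℝ (fun x => w x + α * w x ^ 2) x) y = _
    rw [h2.fderiv_eq]
    have d1 : HasFDerivAt (fderiv ℝ w) (S2 w y) y :=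
      ((hw.fderiv_right (m := 2) (by norm_num)).differentiableAt (by norm_num)).hasFDerivAt
    have d2 : HasFDerivAt (fun x => 2 * α * w x) ((2 * α) • fderiv ℝ w y) y :=
      ((hw.differentiableAt (by norm_num)).hasFDerivAt).const_mul (2 * α)
    have d3 := d1.add (d2.smul d1)
    have e1 := d3.fderiv
    refine e1.trans ?_
    rw [hw0, mul_zero, zero_smul, zero_add]
    congr 1
    ext u v
    simp [mul_assoc]

private theorem rotH1_c3 {f : E → ℝ} {y : E} (hg : ContDiffAt ℝ 3 f y) :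
    ContinuousAt (fun z => fderiv ℝ f z) y :=
  (hg.fderiv_right (m := 2) (by norm_num)).continuousAt

private theorem rotH1_c4 {f : E → ℝ} {y : E} (hg : ContDiffAt ℝ 3 f y) :
    ContinuousAt (fun z => S2 f z) y :=
  ((hg.fderiv_right (m := 2) (by norm_num)).fderiv_right (m := 1) (by norm_num)).continuousAt

private theorem rotH1_lin {X : Type*} [NormedAddCommGroup X] [NormedSpace ℝ X] {Y Z : Type*}
    [NormedAddCommGroup Y] [NormedSpace ℝ Y] [NormedAddCommGroup Z] [NormedSpace ℝ Z]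
    (D : X × Y × Z →L[ℝ] ℝ) (l : Y) (Q R : Z) (c : ℝ) :
    D (0, l, Q + c • R) = D (0, l, Q) + c * D (0, 0, R) := by
  have : ((0, l, Q + c • R) : X × Y × Z) = (0, l, Q) + c • ((0, 0, R) : X × Y × Z) := by
    ext <;> simp
  rw [this, map_add, map_smul, smul_eq_mul]

private theorem rotH1_core {X Y Z : Type*} [NormedAddCommGroup X] [NormedSpace ℝ X]
    [NormedAddCommGroup Y] [NormedSpace ℝ Y] [NormedAddCommGroup Z] [NormedSpace ℝ Z]
    {U : Set X} (hU : IsOpen U) {Fh : X × Y × Z → ℝ}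
    (hsm : ContDiffOn ℝ 1 Fh {x : X × Y × Z | x.1 ∈ U ∧ x.2.1 ≠ 0}) {y : X} {fl : X → Y} {fq : X → Z}
    (cf : ContinuousAt fl y) (cf2 : ContinuousAt fq y) (hy : y ∈ U) (hl0 : fl y ≠ 0)
    {kk : Z} {a b : ℝ} (hb : 0 < b) (haff : ∀ s : ℝ, Fh (y, fl y, fq y + s • kk) = a + s * b)
    (wl : Y) (wq : Z) :
    ∃ α : ℝ, 0 < α ∧ ∀ (hl : X → Y) (hq : X → Z), ContinuousAt hl y → ContinuousAt hq y →
      hl y = wl → hq y = wq + (2 * α) • kk →
      ∃ μ ε₀ : ℝ, 0 < μ ∧ 0 < ε₀ ∧ ∀ᶠ z in 𝓝 y, ∀ ε, 0 < ε → ε < ε₀ →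
        Fh (z, fl z, fq z) + ε * μ ≤ Fh (z, fl z + ε • hl z, fq z + ε • hq z) := by
  set S : Set (X × Y × Z) := {x : X × Y × Z | x.1 ∈ U ∧ x.2.1 ≠ 0} with hS
  have hSo : IsOpen S :=
    (hU.preimage continuous_fst).inter (isOpen_ne.preimage (continuous_fst.comp continuous_snd))
  have hSd : ∀ x ∈ S, ContDiffAt ℝ 1 Fh x := fun x hx => (hsm x hx).contDiffAt (hSo.mem_nhds hx)
  have hx₀ : (y, fl y, fq y) ∈ S := ⟨hy, hl0⟩
  have hD := hSd _ hx₀
  set D := fderiv ℝ Fh (y, fl y, fq y) with hDdef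
  have hA : D (0, 0, kk) = b := by
    have hcurve : HasDerivAt (fun s : ℝ => ((y, fl y, fq y + s • kk) : X × Y × Z)) (0, 0, kk) 0 := by
      have e1 : HasDerivAt (fun s : ℝ => fq y + s • kk) kk 0 := by
        have := ((hasDerivAt_id (0 : ℝ)).smul_const kk).const_add (fq y)
        simpa using this
      exact (hasDerivAt_const (0 : ℝ) y).prodMk ((hasDerivAt_const (0 : ℝ) (fl y)).prodMk e1)
    have e2 : HasDerivAt (fun s : ℝ => Fh (y, fl y, fq y + s • kk)) (D (0, 0, kk)) 0 := by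
      have e3 : HasFDerivAt Fh D (y, fl y, fq y + (0 : ℝ) • kk) := by
        rw [zero_smul, add_zero]
        exact (hD.differentiableAt (by norm_num)).hasFDerivAt
      exact e3.comp_hasDerivAt (0 : ℝ) hcurve
    have e4 : (fun s : ℝ => Fh (y, fl y, fq y + s • kk)) = fun s : ℝ => a + s * b := by
      funext s
      exact haff s
    have e5 : HasDerivAt (fun s : ℝ => a + s * b) b 0 := by
      have := ((hasDerivAt_id (0 : ℝ)).mul_const b).const_add a
      simpa using this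
    rw [e4] at e2
    exact e2.unique e5
  obtain ⟨α, hα, hP⟩ : ∃ α : ℝ, 0 < α ∧ 0 < D (0, wl, wq) + 2 * α * D (0, 0, kk) := by
    refine ⟨(|D (0, wl, wq)| + 1) / (2 * b), by positivity, ?_⟩
    rw [hA]
    have e1 : 2 * ((|D (0, wl, wq)| + 1) / (2 * b)) * b = |D (0, wl, wq)| + 1 := by
      field_simp
    rw [e1]
    have := neg_abs_le (D (0, wl, wq))
    linarith
  refine ⟨α, hα, fun hl hq ch ch2 hl0 hq0 => ?_⟩
  have hPh : 0 < D (0, hl y, hq y) := by
    rw [hl0, hq0, rotH1_lin]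
    exact hP
  have cfst : ContinuousAt (fun q : X × ℝ => q.1) (y, (0 : ℝ)) := continuousAt_fst
  have csnd : ContinuousAt (fun q : X × ℝ => q.2) (y, (0 : ℝ)) := continuousAt_snd
  have cf' : ContinuousAt (fun q : X × ℝ => fl q.1) (y, (0 : ℝ)) :=
    ContinuousAt.comp (f := fun q : X × ℝ => q.1) (g := fl) cf cfst
  have cf2' : ContinuousAt (fun q : X × ℝ => fq q.1) (y, (0 : ℝ)) :=
    ContinuousAt.comp (f := fun q : X × ℝ => q.1) (g := fq) cf2 cfst
  have ch' : ContinuousAt (fun q : X × ℝ => hl q.1) (y, (0 : ℝ)) :=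
    ContinuousAt.comp (f := fun q : X × ℝ => q.1) (g := hl) ch cfst
  have ch2' : ContinuousAt (fun q : X × ℝ => hq q.1) (y, (0 : ℝ)) :=
    ContinuousAt.comp (f := fun q : X × ℝ => q.1) (g := hq) ch2 cfst
  set pt : X × ℝ → X × Y × Z :=
    fun q => (q.1, fl q.1 + q.2 • hl q.1, fq q.1 + q.2 • hq q.1) with hpt
  have cpt : ContinuousAt pt (y, (0 : ℝ)) :=
    cfst.prodMk ((cf'.add (csnd.smul ch')).prodMk (cf2'.add (csnd.smul ch2')))
  have hpt0 : pt (y, (0 : ℝ)) = (y, fl y, fq y) := by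
    simp [hpt]
  have cDF : ContinuousAt (fderiv ℝ Fh) (pt (y, (0 : ℝ))) := by
    rw [hpt0]
    exact (hD.fderiv_right (m := 0) (by norm_num)).continuousAt
  have cΘ : ContinuousAt (fun q : X × ℝ => fderiv ℝ Fh (pt q) (0, hl q.1, hq q.1))
      (y, (0 : ℝ)) := by
    have c1 : ContinuousAt (fun q : X × ℝ => fderiv ℝ Fh (pt q)) (y, (0 : ℝ)) :=
      ContinuousAt.comp (f := pt) (g := fderiv ℝ Fh) cDF cpt
    exact c1.clm_apply (continuousAt_const.prodMk (ch'.prodMk ch2'))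
  have hev1 : ∀ᶠ q : X × ℝ in 𝓝 (y, (0 : ℝ)),
      D (0, hl y, hq y) / 2 < fderiv ℝ Fh (pt q) (0, hl q.1, hq q.1) := by
    refine cΘ.eventually_const_lt ?_
    show D (0, hl y, hq y) / 2 < fderiv ℝ Fh (pt (y, (0 : ℝ))) (0, hl y, hq y)
    rw [hpt0]
    linarith
  have hev2 : ∀ᶠ q : X × ℝ in 𝓝 (y, (0 : ℝ)), pt q ∈ S := by
    refine cpt.eventually_mem (hSo.mem_nhds ?_)
    rw [hpt0]
    exact hx₀
  have hev := hev1.and hev2
  rw [nhds_prod_eq] at hev
  obtain ⟨pa, hpa, pb, hpb, hab⟩ := Filter.eventually_prod_iff.1 hev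
  obtain ⟨ε₀, hε₀, hball⟩ := Metric.eventually_nhds_iff.1 hpb
  refine ⟨D (0, hl y, hq y) / 2, ε₀, by linarith, hε₀, ?_⟩
  filter_upwards [hpa] with z hz ε hε hεε
  have hder : ∀ s : ℝ, |s| < ε₀ → HasDerivAt (fun s : ℝ => Fh (pt (z, s)))
      (fderiv ℝ Fh (pt (z, s)) (0, hl z, hq z)) s := by
    intro s hs
    have g1 := hab hz (hball (by rwa [Real.dist_eq, sub_zero]))
    have g2 : HasDerivAt (fun s : ℝ => pt (z, s)) (0, hl z, hq z) s := by
      have k1 : HasDerivAt (fun s : ℝ => fl z + s • hl z) (hl z) s := by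
        have := ((hasDerivAt_id s).smul_const (hl z)).const_add (fl z)
        simpa using this
      have k2 : HasDerivAt (fun s : ℝ => fq z + s • hq z) (hq z) s := by
        have := ((hasDerivAt_id s).smul_const (hq z)).const_add (fq z)
        simpa using this
      exact (hasDerivAt_const s z).prodMk (k1.prodMk k2)
    have g3 : HasFDerivAt Fh (fderiv ℝ Fh (pt (z, s))) (pt (z, s)) :=
      ((hSd _ g1.2).differentiableAt (by norm_num)).hasFDerivAt
    exact g3.comp_hasDerivAt s g2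
  obtain ⟨c, hc, hceq⟩ := exists_hasDerivAt_eq_slope (fun s : ℝ => Fh (pt (z, s)))
    (fun s => fderiv ℝ Fh (pt (z, s)) (0, hl z, hq z)) hε
    (fun s hs => (hder s (by rw [abs_of_nonneg hs.1]; exact lt_of_le_of_lt hs.2 hεε)).continuousAt.continuousWithinAt)
    (fun s hs => hder s (by rw [abs_of_pos hs.1]; exact hs.2.trans hεε))
  have g4 := (hab hz (hball (y := c) (by
    rw [Real.dist_eq, sub_zero, abs_of_pos hc.1]; exact hc.2.trans hεε))).1
  have g5 : D (0, hl y, hq y) / 2 < (Fh (pt (z, ε)) - Fh (pt (z, 0))) / (ε - 0) := by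
    rw [← hceq]
    exact g4
  rw [sub_zero, lt_div_iff₀ hε] at g5
  have g6 : Fh (pt (z, 0)) = Fh (z, fl z, fq z) := by
    simp [hpt]
  have g7 : Fh (pt (z, ε)) = Fh (z, fl z + ε • hl z, fq z + ε • hq z) := rfl
  rw [g6, g7] at g5
  linarith

/-- piece `ROT-H1`: the barrier `h = w + α w²`.
Proof. Let `F̂ (z, l, Q) = F z l Q`; it is `C¹` near `x₀ = (y, f'(y), S2 f y)` (the set in `hF.smooth` is open, `hF.opn`).
`P(h) := D F̂ x₀ (0, h'(y), S2 h y)`. As `w y = 0`, `h'(y) = w'(y)` and `S2 h y = S2 w y + 2 α w'(y) ⊗ w'(y)`, so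
`P(h) = P(w) + 2 α D F̂ x₀ (0, 0, k ⊗ k)`, `k = w'(y)`. By `hF.aff` `Q ↦ F y l Q` is affine with linear part `A`, so
`D F̂ x₀ (0, 0, k ⊗ k) = A (k ⊗ k) = F y l (Q + k ⊗ k) - F y l Q > 0` by `hF.pos` and `h2` (`l = f'(y)`). Choose `α` with
`P(h) > 0`, `μ := P(h) / 2`. The function `(z, s) ↦ D F̂ (z, f'(z) + s h'(z), S2 f z + s S2 h z) (0, h'(z), S2 h z)` is
continuous at `(y, 0)` (all data are `C¹` near `y`, `f` and `w` being `C³`), so it is `≥ μ` for `z` near `y`, `0 ≤ s ≤ ε₀`.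
It is the derivative of `s ↦ F̂ (z, f'(z) + s h'(z), S2 f z + s S2 h z)`: mean value theorem on `[0, ε]`
(`l ≠ 0` persists near `(y, 0)`). Finally, for `z` near `y`, `fderiv (f + ε h) z = f'(z) + ε h'(z)` and
`S2 (f + ε h) z = S2 f z + ε S2 h z` for all `ε` (the first formula holds in a neighbourhood of `z`). -/
theorem barrier {U : Set E} {F : E → (E →L[ℝ] ℝ) → (E →L[ℝ] E →L[ℝ] ℝ) → ℝ} (hF : Ell U F)
    {f w : E → ℝ} {y : E} (hy : y ∈ U) (hf : ContDiffAt ℝ 3 f y) (hw : ContDiffAt ℝ 3 w y)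
    (hw0 : w y = 0) (h1 : fderiv ℝ f y ≠ 0) (h2 : ∀ c : ℝ, fderiv ℝ w y ≠ c • fderiv ℝ f y) :
    ∃ α μ ε₀ : ℝ, 0 < α ∧ 0 < μ ∧ 0 < ε₀ ∧ ∀ᶠ z in 𝓝 y, ∀ ε, 0 < ε → ε < ε₀ →
      F z (fderiv ℝ f z) (S2 f z) + ε * μ ≤
        F z (fderiv ℝ (fun x => f x + ε * (w x + α * w x ^ 2)) z)
          (S2 (fun x => f x + ε * (w x + α * w x ^ 2)) z) := by
  obtain ⟨A, hA⟩ := hF.aff y hy _ h1
  have hb : 0 < A ((fderiv ℝ w y).smulRight (fderiv ℝ w y)) := by
    have e6 := hF.pos y hy _ h1 _ h2 (S2 f y)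
    rw [hA, hA (S2 f y + _), map_add] at e6
    linarith
  have haff : ∀ s : ℝ, F y (fderiv ℝ f y) (S2 f y + s • (fderiv ℝ w y).smulRight (fderiv ℝ w y)) =
      (A (S2 f y) + F y (fderiv ℝ f y) 0) +
        s * A ((fderiv ℝ w y).smulRight (fderiv ℝ w y)) := by
    intro s
    rw [hA, map_add, map_smul, smul_eq_mul]
    ring
  obtain ⟨α, hα, hcore⟩ := rotH1_core (X := E) (Y := E →L[ℝ] ℝ) (Z := E →L[ℝ] E →L[ℝ] ℝ) hF.opn
    (Fh := fun x => F x.1 x.2.1 x.2.2) hF.smooth (fl := fun z => fderiv ℝ f z)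
    (fq := fun z => S2 f z) (rotH1_c3 hf) (rotH1_c4 hf) hy h1 hb haff (fderiv ℝ w y) (S2 w y)
  have hhc : ContDiffAt ℝ 3 (fun x => w x + α * w x ^ 2) y :=
    hw.add (contDiffAt_const.mul (hw.pow 2))
  obtain ⟨hh1, hh2⟩ := rotH1_sq hw hw0 α
  obtain ⟨μ, ε₀, hμ, hε₀, hev⟩ := hcore _ _ (rotH1_c3 hhc) (rotH1_c4 hhc) hh1 hh2
  refine ⟨α, μ, ε₀, hα, hμ, hε₀, ?_⟩
  filter_upwards [hev, rotH1_sum hf hhc] with z hz hsum ε hε hεε
  obtain ⟨s1, s2⟩ := hsum ε
  have s1' : fderiv ℝ (fun x => f x + ε * (w x + α * w x ^ 2)) z =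
    fderiv ℝ f z + ε • fderiv ℝ (fun x => w x + α * w x ^ 2) z := s1
  have s2' : S2 (fun x => f x + ε * (w x + α * w x ^ 2)) z =
    S2 f z + ε • S2 (fun x => w x + α * w x ^ 2) z := s2
  rw [s1', s2']
  exact hz ε hε hεε

/-- piece `ROT-H2`: the function of the barrier. All parts are direct: `inner e ν = 0`, `‖ν‖ = 1`.
`wf y ν e R y = 0`; its derivative at `y` is `R ⟪e, ·⟫`; smooth; `wf y ν e (R/2) z ≥ 0` and `z - y` not a multiple of
`ν` imply `0 < wf y ν e R z` (`wf y ν e R z = wf y ν e (R/2) z + (R/2) ⟪e, z - y⟫` and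
`(R/2) ⟪e, z - y⟫ ≥ ‖z - y‖² - ⟪ν, z - y⟫² = ‖z - y - ⟪ν, z - y⟫ ν‖² > 0`); the value at
`y + τ • u + σ • ν` with `u = e - b • ν` is `(R * τ - τ ^ 2)`. -/
theorem wf_facts {y ν e : E} {R : ℝ} (hν : ‖ν‖ = 1) (he : ‖e‖ = 1) (hνe : inner ℝ ν e = 0)
    (hR : 0 < R) :
    wf y ν e R y = 0 ∧ ContDiff ℝ 3 (wf y ν e R) ∧ fderiv ℝ (wf y ν e R) y = R • innerSL ℝ e ∧
    (∀ z, 0 ≤ wf y ν e (R / 2) z → z - y - inner ℝ ν (z - y) • ν ≠ 0 → 0 < wf y ν e R z) ∧
    (∀ b τ σ : ℝ, wf y ν e R (y + τ • (e - b • ν) + σ • ν) = R * τ - τ ^ 2) := by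
  have hνν : inner ℝ ν ν = (1 : ℝ) := by
    rw [real_inner_self_eq_norm_sq, hν]
    norm_num
  have hee : inner ℝ e e = (1 : ℝ) := by
    rw [real_inner_self_eq_norm_sq, he]
    norm_num
  have heν : inner ℝ e ν = (0 : ℝ) := by
    rw [real_inner_comm]
    exact hνe
  refine ⟨?_, ?_, ?_, ?_, ?_⟩
  · simp [wf]
  · unfold wf
    exact ((contDiff_const.mul (contDiff_const.inner ℝ (contDiff_id.sub contDiff_const))).sub
      ((contDiff_id.sub contDiff_const).norm_sq ℝ)).add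
      ((contDiff_const.inner ℝ (contDiff_id.sub contDiff_const)).pow 2)
  · have hin : ∀ v : E, HasFDerivAt (fun z : E => inner ℝ v (z - y)) (innerSL ℝ v) y := by
      intro v
      have h0 : HasFDerivAt (fun z : E => z - y) (ContinuousLinearMap.id ℝ E) y :=
        (hasFDerivAt_id y).sub_const y
      have h1 := HasFDerivAt.comp (g := fun z : E => innerSL ℝ v z)
        (f := fun z : E => z - y) y ((innerSL ℝ v).hasFDerivAt (x := y - y)) h0
      rw [ContinuousLinearMap.comp_id] at h1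
      exact h1
    have h2 : HasFDerivAt (fun z : E => ‖z - y‖ ^ 2) (0 : E →L[ℝ] ℝ) y := by
      have h0 : HasFDerivAt (fun z : E => z - y) (ContinuousLinearMap.id ℝ E) y :=
        (hasFDerivAt_id y).sub_const y
      have h3 := h0.norm_sq
      refine h3.congr_fderiv ?_
      ext v
      simp
    have h3 : HasFDerivAt (fun z : E => (inner ℝ ν (z - y)) ^ 2) (0 : E →L[ℝ] ℝ) y := by
      have h4 := (hin ν).pow 2
      refine h4.congr_fderiv ?_
      ext v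
      simp
    have h5 := (((hin e).const_mul R).sub h2).add h3
    rw [sub_zero, add_zero] at h5
    exact h5.fderiv
  · intro z hz hne
    obtain ⟨x, hx⟩ : ∃ x, x = z - y := ⟨_, rfl⟩
    unfold wf at hz ⊢
    rw [← hx] at hz hne ⊢
    have h1 : 0 < ‖x - inner ℝ ν x • ν‖ ^ 2 := by
      have h2 : 0 < ‖x - inner ℝ ν x • ν‖ := norm_pos_iff.2 hne
      positivity
    have h2 : ‖x - inner ℝ ν x • ν‖ ^ 2 = ‖x‖ ^ 2 - (inner ℝ ν x) ^ 2 := by
      rw [← real_inner_self_eq_norm_sq, ← real_inner_self_eq_norm_sq, inner_sub_left,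
        inner_sub_right, inner_sub_right, real_inner_smul_left, real_inner_smul_left,
        real_inner_smul_right, real_inner_smul_right, hνν, real_inner_comm ν x]
      ring
    nlinarith [h1, h2, hz]
  · intro b τ σ
    have h0 : y + τ • (e - b • ν) + σ • ν - y = τ • e + (σ - τ * b) • ν := by
      rw [smul_sub, smul_smul, sub_smul]
      abel
    unfold wf
    rw [h0, ← real_inner_self_eq_norm_sq]
    simp only [inner_add_left, inner_add_right, real_inner_smul_left, real_inner_smul_right,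
      hνν, hee, heν, hνe]
    ring

private theorem rotH3_psi {U : Set E} {F : E → (E →L[ℝ] ℝ) → (E →L[ℝ] E →L[ℝ] ℝ) → ℝ}
    (hF : Ell U F) {f : E → ℝ} {y : E} {H : ℝ} (hy : y ∈ U) (hf : ContDiffAt ℝ 3 f y)
    (h1 : fderiv ℝ f y ≠ 0) :
    ContDiffAt ℝ 1 (fun z => F z (fderiv ℝ f z) (S2 f z) - H) y := by
  have hd : ContDiffAt ℝ 2 (fun z => fderiv ℝ f z) y := hf.fderiv_right (by norm_num)
  have hd2 : ContDiffAt ℝ 1 (fun z => S2 f z) y := hd.fderiv_right (by norm_num)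
  have hop : IsOpen {x : E × (E →L[ℝ] ℝ) × (E →L[ℝ] E →L[ℝ] ℝ) | x.1 ∈ U ∧ x.2.1 ≠ 0} := by
    refine (hF.opn.preimage continuous_fst).inter ?_
    exact (isOpen_compl_singleton (x := (0 : E →L[ℝ] ℝ))).preimage
      (continuous_fst.comp continuous_snd)
  have h2 : ContDiffAt ℝ 1 (fun x : E × (E →L[ℝ] ℝ) × (E →L[ℝ] E →L[ℝ] ℝ) =>
      F x.1 x.2.1 x.2.2) (y, fderiv ℝ f y, S2 f y) :=
    hF.smooth.contDiffAt (hop.mem_nhds ⟨hy, h1⟩)
  have h3 : ContDiffAt ℝ 1 (fun z => (z, fderiv ℝ f z, S2 f z)) y :=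
    contDiffAt_id.prodMk ((hd.of_le (by norm_num)).prodMk hd2)
  exact (h2.comp y h3).sub contDiffAt_const

/-- on the sphere -/
private theorem rotH3_eps {N : Set E} (hN : IsCompact N) {f h : E → ℝ} (hf : ContinuousOn f N)
    (hh : ContinuousOn h N) (hneg : ∀ z ∈ N, f z < 0) :
    ∃ ε₂ : ℝ, 0 < ε₂ ∧ ∀ ε, 0 < ε → ε < ε₂ → ∀ z ∈ N, f z + ε * h z < 0 := by
  rcases N.eq_empty_or_nonempty with rfl | hne
  · exact ⟨1, one_pos, fun ε _ _ z hz => absurd hz (Set.notMem_empty z)⟩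
  obtain ⟨z₀, hz₀, hmax⟩ := hN.exists_isMaxOn hne hf
  obtain ⟨B, hB⟩ := hN.exists_bound_of_continuousOn hh
  have hB0 : 0 ≤ B := (norm_nonneg _).trans (hB z₀ hz₀)
  have hm : 0 < -f z₀ := by linarith [hneg z₀ hz₀]
  refine ⟨-f z₀ / (B + 1), by positivity, fun ε hε hε2 z hz => ?_⟩
  have h1 : f z ≤ f z₀ := hmax hz
  have h2 : h z ≤ B := (le_abs_self _).trans (hB z hz)
  have h3 : ε * (B + 1) < -f z₀ := by
    rwa [lt_div_iff₀ (by positivity)] at hε2
  nlinarith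

private theorem rotH3_claim {U : Set E} {F : E → (E →L[ℝ] ℝ) → (E →L[ℝ] E →L[ℝ] ℝ) → ℝ}
    (hF : Ell U F) {f g w : E → ℝ} {y ν : E} {H C α μ ε δ : ℝ} (hδ : 0 < δ) (hε : 0 < ε)
    (hC : 0 < C)
    (hU : ∀ z ∈ Metric.closedBall y δ, z ∈ U)
    (hf : ∀ z ∈ Metric.closedBall y δ, ContDiffAt ℝ 3 f z)
    (hg : ∀ z ∈ Metric.closedBall y δ, ContDiffAt ℝ 3 g z)
    (hw : ContDiff ℝ 3 w)
    (hbar : ∀ z ∈ Metric.closedBall y δ, F z (fderiv ℝ f z) (S2 f z) + ε * μ ≤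
        F z (fderiv ℝ (fun x => f x + ε * (w x + α * w x ^ 2)) z)
          (S2 (fun x => f x + ε * (w x + α * w x ^ 2)) z))
    (hCf : ∀ z ∈ Metric.closedBall y δ, |F z (fderiv ℝ f z) (S2 f z) - H| ≤ C * |f z|)
    (hmu : ∀ z ∈ Metric.closedBall y δ, C * (w z + α * w z ^ 2) < μ)
    (hge : ∀ z ∈ Metric.closedBall y δ, g z = 0 → F z (fderiv ℝ g z) (S2 g z) = H)
    (hgν : ∀ z ∈ Metric.closedBall y δ, 0 < fderiv ℝ g z ν)
    (hfν : ∀ z ∈ Metric.closedBall y δ,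
      0 < fderiv ℝ (fun x => f x + ε * (w x + α * w x ^ 2)) z ν)
    (hfN : ∀ z ∈ Metric.closedBall y δ, g z = 0 → 0 ≤ w z → f z ≤ 0)
    (hsph : ∀ z ∈ Metric.sphere y δ, g z = 0 → 0 ≤ w z → f z + ε * (w z + α * w z ^ 2) < 0) :
    ∀ z ∈ Metric.closedBall y δ, g z = 0 → 0 ≤ w z → f z + ε * (w z + α * w z ^ 2) ≤ 0 := by
  intro z hz hgz hwz
  by_contra hcon
  push Not at hcon
  have hfc : ContinuousOn f (Metric.closedBall y δ) := fun x hx => (hf x hx).continuousAt.continuousWithinAt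
  have hgc : ContinuousOn g (Metric.closedBall y δ) := fun x hx => (hg x hx).continuousAt.continuousWithinAt
  have hwc : Continuous w := hw.continuous
  set N : Set E := (Metric.closedBall y δ ∩ g ⁻¹' {0}) ∩ {x | 0 ≤ w x} with hN
  have hNc : IsCompact N := by
    refine (isCompact_closedBall y δ).of_isClosed_subset ?_ fun x hx => hx.1.1
    exact (hgc.preimage_isClosed_of_isClosed Metric.isClosed_closedBall isClosed_singleton).inter
      (isClosed_le continuous_const hwc)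
  have hzN : z ∈ N := ⟨⟨hz, hgz⟩, hwz⟩
  have hφc : ContinuousOn (fun x => f x + ε * (w x + α * w x ^ 2)) N := by
    refine (hfc.mono fun x hx => hx.1.1).add ?_
    exact (continuous_const.mul (hwc.add (continuous_const.mul (hwc.pow 2)))).continuousOn
  obtain ⟨x, hx, hmax⟩ := hNc.exists_isMaxOn ⟨z, hzN⟩ hφc
  have hpos : 0 < f x + ε * (w x + α * w x ^ 2) := lt_of_lt_of_le hcon (hmax hzN)
  have hxb : x ∈ Metric.closedBall y δ := hx.1.1
  have hgx : g x = 0 := hx.1.2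
  have hwx : 0 ≤ w x := hx.2
  have hxb' : x ∈ Metric.ball y δ := by
    rcases (Metric.mem_closedBall.1 hxb).lt_or_eq with h | h
    · exact h
    · exact absurd (hsph x h hgx hwx) (not_lt.2 hpos.le)
  have hfx : f x ≤ 0 := hfN x hxb hgx hwx
  have hwx' : 0 < w x := by
    rcases hwx.lt_or_eq with h | h
    · exact h
    · rw [← h] at hpos
      simp at hpos
      exact absurd hfx (not_le.2 hpos)
  have hloc : ∀ᶠ v in 𝓝 x, g v = 0 → f v + ε * (w v + α * w v ^ 2) ≤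
      f x + ε * (w x + α * w x ^ 2) := by
    have h1 : ∀ᶠ v in 𝓝 x, v ∈ Metric.ball y δ := Metric.isOpen_ball.mem_nhds hxb'
    have h2 : ∀ᶠ v in 𝓝 x, 0 < w v := hwc.continuousAt.eventually (lt_mem_nhds hwx')
    filter_upwards [h1, h2] with v hv1 hv2 hv3
    exact hmax (show v ∈ N from ⟨⟨Metric.ball_subset_closedBall hv1, hv3⟩, hv2.le⟩)
  have hφ3 : ContDiffAt ℝ 3 (fun v => f v + ε * (w v + α * w v ^ 2)) x := by
    refine (hf x hxb).add ?_
    exact (contDiffAt_const.mul (hw.contDiffAt.add (contDiffAt_const.mul (hw.contDiffAt.pow 2))))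
  have hgx1 : fderiv ℝ g x ≠ 0 := by
    intro h0
    have := hgν x hxb
    rw [h0] at this
    simp at this
  obtain ⟨c', hc1, hc2⟩ := lag (hφ3.of_le (by norm_num)) ((hg x hxb).of_le (by norm_num)) hgx hgx1
    hloc
  have hν1 := hfν x hxb
  have hν2 := hgν x hxb
  have hc0 : 0 < c' := by
    rw [hc1] at hν1
    have h1 : 0 < c' * fderiv ℝ g x ν := hν1
    exact (pos_iff_pos_of_mul_pos h1).2 hν2
  have hl : fderiv ℝ (fun v => f v + ε * (w v + α * w v ^ 2)) x ≠ 0 := by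
    intro h0
    rw [h0] at hν1
    simp at hν1
  have hm1 : F x (fderiv ℝ (fun v => f v + ε * (w v + α * w v ^ 2)) x)
      (S2 (fun v => f v + ε * (w v + α * w v ^ 2)) x) ≤
      F x (fderiv ℝ (fun v => f v + ε * (w v + α * w v ^ 2)) x) (c' • S2 g x) := by
    refine hF.mono x (hU x hxb) _ hl _ _ fun u hu => ?_
    rw [hc1] at hu
    have h1 : c' * fderiv ℝ g x u = 0 := hu
    have h2 : fderiv ℝ g x u = 0 := (mul_eq_zero.1 h1).resolve_left hc0.ne'
    exact hc2 u h2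
  have hm2 : F x (fderiv ℝ (fun v => f v + ε * (w v + α * w v ^ 2)) x) (c' • S2 g x) = H := by
    rw [hc1, hF.scal x (hU x hxb) _ hgx1 _ _ hc0]
    exact hge x hxb hgx
  have hb := hbar x hxb
  have hcf := hCf x hxb
  have hmu' := hmu x hxb
  rw [abs_of_nonpos hfx] at hcf
  have h3 := (abs_le.1 hcf).1
  have h4 : C * (-f x) ≤ C * (ε * (w x + α * w x ^ 2)) := by
    apply mul_le_mul_of_nonneg_left _ hC.le
    linarith
  have h5 : C * (ε * (w x + α * w x ^ 2)) = ε * (C * (w x + α * w x ^ 2)) := by ring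
  have h6 : ε * (C * (w x + α * w x ^ 2)) < ε * μ := mul_lt_mul_of_pos_left hmu' hε
  linarith

private theorem rotH3_end {f g h : E → ℝ} {y ν e : E} {c R ε : ℝ} (hε : 0 < ε) (hR : 0 < R)
    (hc : 0 < c) (hf : ContDiffAt ℝ 3 f y) (hg : ContDiffAt ℝ 3 g y) (hf0 : f y = 0)
    (hg0 : g y = 0) (hν : ‖ν‖ = 1) (hgν : 0 < fderiv ℝ g y ν)
    (hfg : fderiv ℝ f y = c • fderiv ℝ g y)
    (hh : ∀ b τ σ : ℝ, R * τ - τ ^ 2 ≤ h (y + τ • (e - b • ν) + σ • ν))
    (hcl : ∀ᶠ z in 𝓝 y, g z = 0 → (∃ b τ σ : ℝ, 0 < τ ∧ τ < R ∧ z = y + τ • (e - b • ν) + σ • ν) →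
      f z + ε * h z ≤ 0) : False := by
  set b : ℝ := fderiv ℝ g y e / fderiv ℝ g y ν with hb
  set u : E := e - b • ν with hu
  have hgu : fderiv ℝ g y u = 0 := by
    rw [hu, map_sub, map_smul, smul_eq_mul, hb, div_mul_cancel₀ _ hgν.ne', sub_self]
  set d : ℝ := c * fderiv ℝ g y ν with hd
  have hd0 : 0 < d := mul_pos hc hgν
  have hfu : fderiv ℝ f y u = 0 := by
    rw [hfg]
    show c * fderiv ℝ g y u = 0
    rw [hgu, mul_zero]
  have hfν : fderiv ℝ f y ν = d := by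
    rw [hfg]
    rfl
  set η : ℝ := ε * R / (8 * d) with hη
  have hη0 : 0 < η := by positivity
  have hcv := curve (hg.of_le (by norm_num)) hg0 hgu hgν hη0
  have hfd : HasFDerivAt f (fderiv ℝ f y) y := (hf.differentiableAt (by norm_num)).hasFDerivAt
  rw [hasFDerivAt_iff_isLittleO_nhds_zero] at hfd
  set κ : ℝ := ε * R / (8 * (‖u‖ + η)) with hκ
  have hun : 0 < ‖u‖ + η := by positivity
  have hκ0 : 0 < κ := by positivity
  have h1 := hfd.def hκ0
  obtain ⟨r₁, hr₁, h1'⟩ := Metric.eventually_nhds_iff.1 h1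
  obtain ⟨r₂, hr₂, h2'⟩ := Metric.eventually_nhds_iff.1 hcl
  obtain ⟨r, hr⟩ : ∃ r, r = min r₁ r₂ := ⟨_, rfl⟩
  have hr0 : 0 < r := by
    rw [hr]
    exact lt_min hr₁ hr₂
  have h3 : ∀ᶠ τ in 𝓝[>] (0 : ℝ), τ < min (R / 4) (r / (‖u‖ + η)) :=
    (nhdsWithin_le_nhds) (Iio_mem_nhds (lt_min (by positivity) (by positivity)))
  have h4 : ∀ᶠ τ in 𝓝[>] (0 : ℝ), 0 < τ := self_mem_nhdsWithin
  obtain ⟨τ, ⟨σ, hσ, hgz⟩, hτ, hτ0⟩ := (hcv.and (h3.and h4)).exists
  have hτR : τ < R / 4 := lt_of_lt_of_le hτ (min_le_left _ _)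
  have hτr : τ * (‖u‖ + η) < r := by
    have := lt_of_lt_of_le hτ (min_le_right _ _)
    rwa [lt_div_iff₀ hun] at this
  have hnorm : ‖τ • u + σ • ν‖ ≤ τ * (‖u‖ + η) := by
    calc ‖τ • u + σ • ν‖ ≤ ‖τ • u‖ + ‖σ • ν‖ := norm_add_le _ _
      _ = τ * ‖u‖ + |σ| := by
        rw [norm_smul, norm_smul, hν, mul_one, Real.norm_eq_abs, Real.norm_eq_abs,
          abs_of_pos hτ0]
      _ ≤ τ * (‖u‖ + η) := by linarith
  have h5 := h1' (y := τ • u + σ • ν) (by
    rw [dist_zero_right]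
    exact lt_of_le_of_lt hnorm (hτr.trans_le (by rw [hr]; exact min_le_left _ _)))
  rw [← add_assoc] at h5
  have h6 := h2' (y := y + τ • u + σ • ν) (by
    rw [dist_eq_norm, add_assoc, add_sub_cancel_left]
    exact lt_of_le_of_lt hnorm (hτr.trans_le (by rw [hr]; exact min_le_right _ _))) hgz
    ⟨b, τ, σ, hτ0, by linarith, rfl⟩
  rw [hf0, sub_zero, map_add, map_smul, map_smul, hfu, hfν, smul_zero, zero_add, smul_eq_mul,
    Real.norm_eq_abs] at h5
  have h7 := (abs_le.1 h5).1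
  have h8 : κ * ‖τ • u + σ • ν‖ ≤ ε * R / 8 * τ := by
    calc κ * ‖τ • u + σ • ν‖ ≤ κ * (τ * (‖u‖ + η)) := mul_le_mul_of_nonneg_left hnorm hκ0.le
      _ = ε * R / 8 * τ := by
        rw [hκ]
        field_simp
  have h9 : -(ε * R / 8 * τ) ≤ σ * d := by
    have h10 : |σ * d| ≤ ε * R / 8 * τ := by
      rw [abs_mul, abs_of_pos hd0]
      calc |σ| * d ≤ η * τ * d := mul_le_mul_of_nonneg_right hσ hd0.le
        _ = ε * R / 8 * τ := by
          rw [hη]
          field_simp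
    exact (abs_le.1 h10).1
  have h11 := hh b τ σ
  have h12 : R * τ - τ ^ 2 ≥ 3 / 4 * (R * τ) := by nlinarith
  have h13 : ε * (3 / 4 * (R * τ)) ≤ ε * h (y + τ • u + σ • ν) :=
    mul_le_mul_of_nonneg_left (h12.le.trans h11) hε.le
  have h14 : 0 < ε * R * τ := by positivity
  nlinarith

/-- piece `ROT-H3`: the boundary point lemma.
Proof. Put `w = wf y ν e (R / 2)`, and `α, μ, ε₀` from `barrier` (`w'(y) = (R/2) ⟪e, ·⟫` is not a multiple of `f'(y)`:
evaluate at `ν`, `f'(y) ν = c g'(y) ν > 0`, then at `e`), `h = w + α w²`. `lip0` for `Ψ z = F z (f' z) (S2 f z) - H`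
(`C¹` at `y` by `hF.smooth`) gives `C` with `|Ψ z| ≤ C |f z|` near `y`. Choose `δ > 0` such that on the closed ball
`B̄ (y, δ)`: `f, g` are `C³`; the barrier estimate holds; `|Ψ| ≤ C |f|`; `C h < μ` (`h y = 0`); `hge`; `h` (the
hypothesis); `g'(z) ν > 0`, and `f'(z) ν + ε h'(z) ν > 0` for `0 < ε < ε₁`; `g z = 0` and `z - y ∈ ℝ ν` only for `z = y`
(`gl` with `x = y`). `N := {z ∈ B̄ (y, δ) | g z = 0 ∧ 0 ≤ w z}` is compact, contains `y`, and `f < 0` on `N ∖ {y}` by `h` and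
`wf_facts`. Fix `ε < ε₀, ε₁` so small that `f + ε h < 0` on the compact set `N ∩ {‖z - y‖ = δ}` (`f ≤ - m < 0` there
and `h` is bounded). Claim: `f̃ := f + ε h ≤ 0` on `N`. Otherwise the maximum of `f̃` over `N` is positive, at a point
`z*`; `‖z* - y‖ < δ`; `w z* > 0` (if `w z* = 0`, `h z* = 0` and `f̃ z* = f z* ≤ 0`). So `z*` is a local maximum of `f̃` on
`{g = 0}` and `lag` gives `c'` with `f̃' = c' g'`, `S2 f̃ u u ≤ c' S2 g u u` on `ker g'`; `c' > 0` (evaluate at `ν`). By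
`hF.mono` (kernel of `f̃'` = kernel of `g'`) and `hF.scal`:
`F z* f̃' (S2 f̃) ≤ F z* (c' g') (c' S2 g) = F z* g' (S2 g) = H`. On the other hand `f z* ≤ 0 < f̃ z*` gives
`|f z*| < ε h z*`, and `F z* f̃' (S2 f̃) ≥ F z* f' (S2 f) + ε μ ≥ H - C |f z*| + ε μ > H`, contradiction.
Now let `b = g'(y) e / g'(y) ν`, `u = e - b ν`, `g'(y) u = 0`, and for any `η > 0` take `z = y + τ u + σ ν`, `g z = 0`,
`|σ| ≤ η τ` from `curve` (`τ → 0+`). `w z = (R/2) τ - τ² ≥ (R/4) τ ≥ 0`, so `z ∈ N` and `0 ≥ f z + ε h z ≥ f z + ε (R/4) τ`. But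
`f'(y) (z - y) = c σ g'(y) ν`, so `f z ≥ - c η τ g'(y) ν - o(τ)`. For small `η` this is a contradiction as `τ → 0`. -/
theorem hopf {U : Set E} {F : E → (E →L[ℝ] ℝ) → (E →L[ℝ] E →L[ℝ] ℝ) → ℝ} (hF : Ell U F)
    {f g : E → ℝ} {y ν e : E} {H c R : ℝ} (hy : y ∈ U)
    (hf : ContDiffAt ℝ 3 f y) (hg : ContDiffAt ℝ 3 g y) (hf0 : f y = 0) (hg0 : g y = 0)
    (hfe : ∀ᶠ z in 𝓝 y, f z = 0 → F z (fderiv ℝ f z) (S2 f z) = H)
    (hge : ∀ᶠ z in 𝓝 y, g z = 0 → F z (fderiv ℝ g z) (S2 g z) = H)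
    (hν : ‖ν‖ = 1) (he : ‖e‖ = 1) (hνe : inner ℝ ν e = 0) (hgν : 0 < fderiv ℝ g y ν)
    (hc : 0 < c) (hfg : fderiv ℝ f y = c • fderiv ℝ g y) (hR : 0 < R)
    (h : ∀ᶠ z in 𝓝 y, g z = 0 → 0 < wf y ν e R z → f z < 0) : False := by
  have hR2 : 0 < R / 2 := half_pos hR
  obtain ⟨-, -, -, hwR, -⟩ := wf_facts (y := y) hν he hνe hR
  obtain ⟨hw0, hws, hwd, -, hwv⟩ := wf_facts (y := y) hν he hνe hR2
  obtain ⟨w, hwdef⟩ : ∃ w, w = wf y ν e (R / 2) := ⟨_, rfl⟩
  rw [← hwdef] at hw0 hws hwd hwR hwv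
  have hfν : 0 < fderiv ℝ f y ν := by
    rw [hfg]
    exact mul_pos hc hgν
  have h1 : fderiv ℝ f y ≠ 0 := by
    intro h0
    rw [h0] at hfν
    simp at hfν
  have h2 : ∀ c : ℝ, fderiv ℝ w y ≠ c • fderiv ℝ f y := by
    intro c' hc'
    rw [hwd] at hc'
    have e1 := DFunLike.congr_fun hc' ν
    have e2 := DFunLike.congr_fun hc' e
    have e3 : R / 2 * inner ℝ e ν = c' * fderiv ℝ f y ν := e1
    have e4 : R / 2 * inner ℝ e e = c' * fderiv ℝ f y e := e2
    rw [real_inner_comm, hνe, mul_zero] at e3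
    have e5 : c' = 0 := (mul_eq_zero.1 e3.symm).resolve_right hfν.ne'
    rw [e5, zero_mul, real_inner_self_eq_norm_sq, he] at e4
    linarith
  obtain ⟨α, μ, ε₀, hα, hμ, hε₀, hbar⟩ := barrier hF hy hf hws.contDiffAt hw0 h1 h2
  obtain ⟨C, hC, hCf⟩ := lip0 (hf.of_le (by norm_num)) (rotH3_psi hF hy hf h1 (H := H)) hf0 h1
    (hfe.mono fun z hz h0 => by rw [hz h0, sub_self])
  obtain ⟨K, δ₁, hK, hδ₁, hgl⟩ := gl (hg.of_le (by norm_num)) hν hgν
  have hhs : ContDiff ℝ 3 (fun x => w x + α * w x ^ 2) :=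
    hws.add (contDiff_const.mul (hws.pow 2))
  have hhc : Continuous (fun x => w x + α * w x ^ 2) := hhs.continuous
  have c1 : ∀ᶠ z in 𝓝 y, C * (w z + α * w z ^ 2) < μ := by
    have : ContinuousAt (fun z => C * (w z + α * w z ^ 2)) y :=
      (continuous_const.mul hhc).continuousAt
    refine this.eventually (gt_mem_nhds ?_)
    show C * (w y + α * w y ^ 2) < μ
    rw [hw0]
    simpa using hμ
  have c2 : ∀ᶠ z in 𝓝 y, 0 < fderiv ℝ g z ν := by
    have : ContinuousAt (fun z => fderiv ℝ g z ν) y :=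
      ((hg.fderiv_right (m := 0) (by norm_num)).continuousAt).clm_apply continuousAt_const
    exact this.eventually (lt_mem_nhds hgν)
  have c3 : ∀ᶠ z in 𝓝 y, fderiv ℝ f y ν / 2 < fderiv ℝ f z ν := by
    have : ContinuousAt (fun z => fderiv ℝ f z ν) y :=
      ((hf.fderiv_right (m := 0) (by norm_num)).continuousAt).clm_apply continuousAt_const
    exact this.eventually (lt_mem_nhds (half_lt_self hfν))
  obtain ⟨B, hB⟩ : ∃ B, B = |fderiv ℝ (fun x => w x + α * w x ^ 2) y ν| + 1 := ⟨_, rfl⟩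
  have hB0 : 0 < B := by
    rw [hB]
    positivity
  have c4 : ∀ᶠ z in 𝓝 y, |fderiv ℝ (fun x => w x + α * w x ^ 2) z ν| < B := by
    have : ContinuousAt (fun z => |fderiv ℝ (fun x => w x + α * w x ^ 2) z ν|) y :=
      (((hhs.contDiffAt.fderiv_right (m := 0) (by norm_num)).continuousAt).clm_apply
        continuousAt_const).abs
    refine this.eventually (gt_mem_nhds ?_)
    show |fderiv ℝ (fun x => w x + α * w x ^ 2) y ν| < B
    rw [hB]
    exact lt_add_one _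
  have c5 : ∀ᶠ z in 𝓝 y, z ∈ Metric.ball y δ₁ := Metric.ball_mem_nhds y hδ₁
  have c6 : ∀ᶠ z in 𝓝 y, z ∈ U := hF.opn.mem_nhds hy
  have c7 : ∀ᶠ z in 𝓝 y, ContDiffAt ℝ 3 f z := hf.eventually (by simp)
  have c8 : ∀ᶠ z in 𝓝 y, ContDiffAt ℝ 3 g z := hg.eventually (by simp)
  have hall := (((c1.and c2).and (c3.and c4)).and ((c5.and c6).and (c7.and c8))).and
    ((hbar.and hCf).and (hge.and h))
  obtain ⟨δ, hδ, hball⟩ := Metric.nhds_basis_closedBall.eventually_iff.1 hall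
  have hneg : ∀ z ∈ Metric.closedBall y δ, g z = 0 → 0 ≤ w z → z ≠ y → f z < 0 := by
    intro z hz hgz hwz hzy
    obtain ⟨⟨-, ⟨hz1, -⟩, -⟩, -, -, hz2⟩ := hball hz
    refine hz2 hgz (hwR z hwz fun h0 => hzy ?_)
    have h3 := hgl y (Metric.mem_ball_self hδ₁) z hz1 (by rw [hgz, hg0])
    rw [h0, norm_zero, mul_zero] at h3
    exact sub_eq_zero.1 (norm_le_zero_iff.1 h3)
  have hfc : ContinuousOn f (Metric.closedBall y δ) := fun x hx =>
    (hball hx).1.2.2.1.continuousAt.continuousWithinAt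
  have hgc : ContinuousOn g (Metric.closedBall y δ) := fun x hx =>
    (hball hx).1.2.2.2.continuousAt.continuousWithinAt
  have hsub : Metric.sphere y δ ⊆ Metric.closedBall y δ := Metric.sphere_subset_closedBall
  have hScomp : IsCompact ((Metric.sphere y δ ∩ g ⁻¹' {0}) ∩ {x | 0 ≤ w x}) := by
    refine (isCompact_sphere y δ).of_isClosed_subset ?_ fun x hx => hx.1.1
    exact ((hgc.mono hsub).preimage_isClosed_of_isClosed Metric.isClosed_sphere
      isClosed_singleton).inter (isClosed_le continuous_const hws.continuous)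
  obtain ⟨ε₂, hε₂, hsph⟩ := rotH3_eps hScomp (hfc.mono fun x hx => hsub hx.1.1)
    hhc.continuousOn (fun z hz => hneg z (hsub hz.1.1) hz.1.2 hz.2 fun h0 => by
      have := hz.1.1
      rw [h0] at this
      simp at this
      exact hδ.ne this)
  obtain ⟨ε, hε, hεm⟩ := exists_between (show 0 < min (min ε₀ ε₂) (fderiv ℝ f y ν / (2 * B)) from
    lt_min (lt_min hε₀ hε₂) (by positivity))
  have hεε₀ : ε < ε₀ := hεm.trans_le ((min_le_left _ _).trans (min_le_left _ _))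
  have hεε₂ : ε < ε₂ := hεm.trans_le ((min_le_left _ _).trans (min_le_right _ _))
  have hεB : ε * B < fderiv ℝ f y ν / 2 := by
    have := hεm.trans_le (min_le_right _ _)
    rw [lt_div_iff₀ (by positivity)] at this
    linarith
  have hclaim := rotH3_claim hF (f := f) (g := g) (w := w) (y := y) (ν := ν) (H := H) (C := C)
    (α := α) (μ := μ) (ε := ε) (δ := δ) hδ hε hC (fun z hz => (hball hz).1.2.1.2)
    (fun z hz => (hball hz).1.2.2.1) (fun z hz => (hball hz).1.2.2.2) hws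
    (fun z hz => (hball hz).2.1.1 ε hε hεε₀) (fun z hz => (hball hz).2.1.2)
    (fun z hz => (hball hz).1.1.1.1) (fun z hz => (hball hz).2.2.1)
    (fun z hz => (hball hz).1.1.1.2) (fun z hz => by
      have d1 : DifferentiableAt ℝ f z := (hball hz).1.2.2.1.differentiableAt (by norm_num)
      have d2 : DifferentiableAt ℝ (fun x => w x + α * w x ^ 2) z :=
        hhs.contDiffAt.differentiableAt (by norm_num)
      have d3 : fderiv ℝ (fun x => f x + ε * (w x + α * w x ^ 2)) z =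
          fderiv ℝ f z + ε • fderiv ℝ (fun x => w x + α * w x ^ 2) z := by
        have := (d1.hasFDerivAt.add (d2.hasFDerivAt.const_mul ε)).fderiv
        exact this
      rw [d3]
      have d4 := (hball hz).1.1.2.1
      have d5 := (hball hz).1.1.2.2
      have d6 := (abs_lt.1 d5).1
      have d7 : 0 < fderiv ℝ f z ν + ε * fderiv ℝ (fun x => w x + α * w x ^ 2) z ν := by
        nlinarith
      exact d7)
    (fun z hz hgz hwz => by
      by_cases hzy : z = y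
      · rw [hzy, hf0]
      · exact (hneg z hz hgz hwz hzy).le)
    (fun z hz hgz hwz => hsph ε hε hεε₂ z ⟨⟨hz, hgz⟩, hwz⟩)
  refine rotH3_end (h := fun x => w x + α * w x ^ 2) hε hR2 hc hf hg hf0 hg0 hν hgν hfg
    (e := e) ?_ ?_
  · intro b τ σ
    rw [← hwv b τ σ]
    have : 0 ≤ α * w (y + τ • (e - b • ν) + σ • ν) ^ 2 := by positivity
    linarith
  · have c9 : ∀ᶠ z in 𝓝 y, z ∈ Metric.closedBall y δ := Metric.closedBall_mem_nhds y hδ
    filter_upwards [c9] with z hz hgz hex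
    obtain ⟨b, τ, σ, hτ, hτR, hzz⟩ := hex
    refine hclaim z hz hgz ?_
    rw [hzz, hwv]
    nlinarith

end Pool.Agent.Helper75.ROT
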