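import Pool.Agent.Helper75.ROT.Defs

/-! # ROT: the operator `MM a p` is elliptic -/

set_option autoImplicit false
set_option linter.unusedSectionVars false
set_option linter.unusedVariables false

namespace Pool.Agent.Helper75.ROT

open Filter Topology
open scoped ContDiff
open Pool.Agent.Helper41.ALX (S2)

variable {E : Type*} [NormedAddCommGroup E] [InnerProductSpace ℝ E] [FiniteDimensional ℝ E]

private theorem rotO1_norm {p : E →L[ℝ] E} (hp : Pj p) (z : E) :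
    ‖z‖ ^ 2 = ‖p z‖ ^ 2 + ‖z - p z‖ ^ 2 := by
  rw [← real_inner_self_eq_norm_sq, ← real_inner_self_eq_norm_sq, ← real_inner_self_eq_norm_sq,
    inner_sub_left, inner_sub_right, inner_sub_right, hp.symm z z, hp.symm z (p z), hp.idem]
  ring

private theorem rotO1_real {x y A B c e : ℝ} (hx : 0 ≤ x) (hy : 0 ≤ y) (ha : 0 ≤ A) (hb : 0 ≤ B)
    (h : A ^ 2 + B ^ 2 < 1) (h4 : |c| ≤ A * x) (h5 : |e| ≤ B * y) (h8 : y = 0 → 0 < x) :
    0 < x ^ 2 + y ^ 2 - (c + e) * (c + e) - A ^ 2 * x ^ 2 + c * c := by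
  have ht : 0 < 1 - A ^ 2 := by nlinarith [sq_nonneg B]
  have h1 : c * e ≤ A * x * |e| := by
    calc c * e ≤ |c * e| := le_abs_self _
      _ = |c| * |e| := abs_mul c e
      _ ≤ A * x * |e| := mul_le_mul_of_nonneg_right h4 (abs_nonneg e)
  have h2 : e ^ 2 = |e| ^ 2 := (sq_abs e).symm
  have h3 : |e| ^ 2 ≤ B ^ 2 * y ^ 2 := by
    rw [← mul_pow]
    exact pow_le_pow_left₀ (abs_nonneg e) h5 2
  have he := abs_nonneg e
  generalize |e| = β at *
  have key : 0 < (1 - A ^ 2) * (x ^ 2 + y ^ 2 - (c + e) * (c + e) - A ^ 2 * x ^ 2 + c * c) := by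
    have h6 : (1 - A ^ 2) * ((1 - A ^ 2) * x ^ 2 + y ^ 2 - β ^ 2 - 2 * (A * x * β)) =
        ((1 - A ^ 2) * x - A * β) ^ 2 + ((1 - A ^ 2) * y ^ 2 - β ^ 2) := by ring
    have h7 : (1 - A ^ 2) * ((1 - A ^ 2) * x ^ 2 + y ^ 2 - β ^ 2 - 2 * (A * x * β)) ≤
        (1 - A ^ 2) * (x ^ 2 + y ^ 2 - (c + e) * (c + e) - A ^ 2 * x ^ 2 + c * c) := by
      refine mul_le_mul_of_nonneg_left ?_ ht.le
      nlinarith
    refine lt_of_lt_of_le ?_ h7
    rw [h6]
    rcases hy.lt_or_eq with hy0 | hy0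
    · have h9 : 0 < (1 - A ^ 2) * y ^ 2 - β ^ 2 := by
        have : 0 < (1 - A ^ 2 - B ^ 2) * y ^ 2 := mul_pos (by linarith) (pow_pos hy0 2)
        nlinarith
      have := sq_nonneg ((1 - A ^ 2) * x - A * β)
      linarith
    · have hx0 := h8 hy0.symm
      have hβ : β = 0 := by
        rw [← hy0] at h3
        have : β ^ 2 ≤ 0 := by simpa using h3
        exact pow_eq_zero_iff (two_ne_zero) |>.1 (le_antisymm this (sq_nonneg β))
      rw [hβ, ← hy0]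
      have : 0 < (1 - A ^ 2) * x := mul_pos ht hx0
      have h10 : 0 < ((1 - A ^ 2) * x) ^ 2 := pow_pos this 2
      simpa using h10
  exact pos_of_mul_pos_right key ht.le

/-- piece `ROT-O1`: `Gop p z` is symmetric and positive definite for `‖z‖ < 1`.
Proof. Write `t = 1 - ‖p z‖² > 0`, `v = v₁ + v₂`, `v₁ = p v`, `w = z - p z`, `‖w‖² < t`. Then
`⟪Gop p z v, v⟫ = t ‖v₁‖² + ‖v₂‖² - ⟪w, v₂⟫² - 2 ⟪p z, v₁⟫ ⟪w, v₂⟫`. With `x = ‖v₁‖`, `β = |⟪w, v₂⟫|`:
`β² ≤ ‖w‖² ‖v₂‖²` so `‖v₂‖² ≥ β² / t`, with `>` if `v₂ ≠ 0` (`‖v₂‖² t ≥ ‖v₂‖² ‖w‖²`, and `‖w‖² < t`), so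
`t ⟪G v, v⟫ ≥ t² x² + (t ‖v₂‖² - β²) + (1 - t) β² - 2 t ‖p z‖ x β = (t x - ‖p z‖ β)² + (t ‖v₂‖² - β²)`
(`1 - t = ‖p z‖²`). It is `> 0` if `v₂ ≠ 0`; if `v₂ = 0` then it is `t² x² > 0` for `v ≠ 0`. -/
theorem Gop_spd {p : E →L[ℝ] E} (hp : Pj p) {z : E} (hz : ‖z‖ < 1) :
    (∀ u v, inner ℝ (Gop p z u) v = inner ℝ u (Gop p z v)) ∧
    ∀ v, v ≠ 0 → 0 < inner ℝ (Gop p z v) v := by
  have hG : ∀ u v : E, (inner ℝ (Gop p z u) v : ℝ) = inner ℝ u v - inner ℝ z u * inner ℝ z v -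
      ‖p z‖ ^ 2 * inner ℝ (p u) v + inner ℝ (p z) u * inner ℝ (p z) v := by
    intro u v
    have h : Gop p z u = u - (inner ℝ z u : ℝ) • z - ‖p z‖ ^ 2 • p u +
        (inner ℝ (p z) u : ℝ) • p z := rfl
    rw [h, inner_add_left, inner_sub_left, inner_sub_left, real_inner_smul_left,
      real_inner_smul_left, real_inner_smul_left]
  refine ⟨fun u v => ?_, fun v hv => ?_⟩
  · rw [real_inner_comm (Gop p z v) u, hG, hG, real_inner_comm u v, hp.symm u v,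
      real_inner_comm u (p v)]
    ring
  · have hzz : ‖z‖ ^ 2 = ‖p z‖ ^ 2 + ‖z - p z‖ ^ 2 := rotO1_norm hp z
    have hvv : ‖v‖ ^ 2 = ‖p v‖ ^ 2 + ‖v - p v‖ ^ 2 := rotO1_norm hp v
    have h1 : (inner ℝ z v : ℝ) = inner ℝ (p z) (p v) + inner ℝ (z - p z) (v - p v) := by
      rw [inner_sub_left, inner_sub_right, inner_sub_right, hp.symm z v, hp.symm z (p v), hp.idem]
      ring
    have h2 : (inner ℝ (p z) v : ℝ) = inner ℝ (p z) (p v) := by
      rw [hp.symm z v, hp.symm z (p v), hp.idem]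
    have h3 : (inner ℝ (p v) v : ℝ) = ‖p v‖ ^ 2 := by
      rw [← real_inner_self_eq_norm_sq, hp.symm v v, hp.symm v (p v), hp.idem]
    rw [hG, h1, h2, h3, real_inner_self_eq_norm_sq, hvv]
    have h4 : |(inner ℝ (p z) (p v) : ℝ)| ≤ ‖p z‖ * ‖p v‖ := abs_real_inner_le_norm _ _
    have h5 : |(inner ℝ (z - p z) (v - p v) : ℝ)| ≤ ‖z - p z‖ * ‖v - p v‖ :=
      abs_real_inner_le_norm _ _
    have h6 : ‖z‖ ^ 2 < 1 := by nlinarith [norm_nonneg z]
    have h7 : v - p v = 0 → p v ≠ 0 := by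
      intro h8 h9
      rw [h9, sub_zero] at h8
      exact hv h8
    have h8 : ‖v - p v‖ = 0 → 0 < ‖p v‖ := fun h => norm_pos_iff.2 (h7 (norm_eq_zero.1 h))
    have hx := norm_nonneg (p v)
    have hy := norm_nonneg (v - p v)
    have ha := norm_nonneg (p z)
    have hb := norm_nonneg (z - p z)
    rw [hzz] at h6
    generalize ‖p v‖ = x at *
    generalize ‖v - p v‖ = y at *
    generalize ‖p z‖ = A at *
    generalize ‖z - p z‖ = B at *
    generalize (inner ℝ (p z) (p v) : ℝ) = c at *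
    generalize (inner ℝ (z - p z) (v - p v) : ℝ) = e at *
    exact rotO1_real hx hy ha hb h6 h4 h5 h8

/-- piece `ROT-O1`, second part: square root of `Gop`.
Proof. Eigenvector basis `b` of the symmetric operator `Gop p z` (`LinearMap.IsSymmetric.eigenvectorBasis`), eigenvalues
`λ i > 0` by `Gop_spd`; `u i = √(λ i) • b i`. -/
theorem spec {p : E →L[ℝ] E} (hp : Pj p) {z : E} (hz : ‖z‖ < 1) :
    ∃ u : Fin (Module.finrank ℝ E) → E, (∀ v, Gop p z v = ∑ i, inner ℝ (u i) v • u i) ∧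
      ∀ v, (∀ i, inner ℝ (u i) v = 0) → v = 0 := by
  obtain ⟨hs, hpos⟩ := Gop_spd hp hz
  have hT : (Gop p z : E →ₗ[ℝ] E).IsSymmetric := fun u v => hs u v
  obtain ⟨b, hb⟩ : ∃ b : OrthonormalBasis (Fin (Module.finrank ℝ E)) ℝ E,
      b = hT.eigenvectorBasis rfl := ⟨_, rfl⟩
  obtain ⟨c, hc⟩ : ∃ c : Fin (Module.finrank ℝ E) → ℝ, c = hT.eigenvalues rfl := ⟨_, rfl⟩
  have hbc : ∀ i, Gop p z (b i) = c i • b i := by
    intro i
    have h := hT.apply_eigenvectorBasis rfl i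
    rw [← hb, ← hc] at h
    exact h
  have hcp : ∀ i, 0 < c i := by
    intro i
    have hb0 : b i ≠ 0 := b.orthonormal.ne_zero i
    have h := hpos (b i) hb0
    rw [hbc, real_inner_smul_left, real_inner_self_eq_norm_sq, b.orthonormal.1 i] at h
    simpa using h
  refine ⟨fun i => √(c i) • b i, fun v => ?_, fun v hv => ?_⟩
  · conv_lhs => rw [← b.sum_repr' v, map_sum]
    refine Finset.sum_congr rfl fun i _ => ?_
    rw [map_smul, hbc, real_inner_smul_left, smul_smul, smul_smul]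
    congr 1
    have h := Real.mul_self_sqrt (hcp i).le
    calc inner ℝ (b i) v * c i = inner ℝ (b i) v * (√(c i) * √(c i)) := by rw [h]
      _ = √(c i) * inner ℝ (b i) v * √(c i) := by ring
  · rw [← b.sum_repr' v]
    refine Finset.sum_eq_zero fun i _ => ?_
    have h := hv i
    rw [real_inner_smul_left] at h
    rcases mul_eq_zero.1 h with h1 | h1
    · exact absurd h1 (Real.sqrt_pos.2 (hcp i)).ne'
    · rw [h1, zero_smul]

private theorem rotO2_vg (l : E →L[ℝ] ℝ) (v : E) : (inner ℝ (vg l) v : ℝ) = l v := by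
  unfold vg
  exact InnerProductSpace.toDual_symm_apply

/-- piece `ROT-O2`: `Tf` is the trace over the vectors of `spec`.
Proof. With `b = stdOrthonormalBasis ℝ E`: `∑ j, Q (G b_j) b_j = ∑ j ∑ i, ⟪u i, b_j⟫ Q (u i) b_j =
∑ i, Q (u i) (∑ j, ⟪b_j, u i⟫ b_j) = ∑ i, Q (u i) (u i)`. -/
theorem Tf_spec {p : E →L[ℝ] E} {z : E} {ι : Type*} [Fintype ι] {u : ι → E}
    (hu : ∀ v, Gop p z v = ∑ i, inner ℝ (u i) v • u i) (Q : E →L[ℝ] E →L[ℝ] ℝ) :
    Tf p z Q = ∑ i, Q (u i) (u i) := by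
  unfold Tf
  have h1 : ∀ j, Q (Gop p z (stdOrthonormalBasis ℝ E j)) (stdOrthonormalBasis ℝ E j) =
      ∑ i, Q (u i) ((inner ℝ (u i) (stdOrthonormalBasis ℝ E j) : ℝ) •
        stdOrthonormalBasis ℝ E j) := by
    intro j
    rw [hu]
    simp only [map_sum, map_smul, ContinuousLinearMap.sum_apply, ContinuousLinearMap.smul_apply]
  simp only [h1]
  rw [Finset.sum_comm]
  refine Finset.sum_congr rfl fun i _ => ?_
  rw [← map_sum]
  congr 1
  have h2 := (stdOrthonormalBasis ℝ E).sum_repr' (u i)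
  refine Eq.trans ?_ h2
  refine Finset.sum_congr rfl fun j _ => ?_
  rw [real_inner_comm]

/-- piece `ROT-O2`, second part. `⟪vg l, v⟫ = l v`, so `Yf p z l = ∑ i, l (u i) • u i`, `qf p z l = ∑ i, l (u i) ^ 2`, and
`w i = u i - (l (u i) / q) • Y` satisfy `l (w i) = 0` and `∑ i, K (w i) (w i) = Tf p z K - K Y Y / q` for every `K`
(`∑ i, l (u i) K (u i) Y = K Y Y` etc.). -/
theorem tangent_spec {p : E →L[ℝ] E} {z : E} {ι : Type*} [Fintype ι] {u : ι → E}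
    (hu : ∀ v, Gop p z v = ∑ i, inner ℝ (u i) v • u i) {l : E →L[ℝ] ℝ} (hq : qf p z l ≠ 0) :
    Yf p z l = ∑ i, l (u i) • u i ∧ qf p z l = ∑ i, l (u i) ^ 2 ∧
    (∀ i, l (u i - (l (u i) / qf p z l) • Yf p z l) = 0) ∧
    ∀ K : E →L[ℝ] E →L[ℝ] ℝ, Tf p z K - K (Yf p z l) (Yf p z l) / qf p z l =
      ∑ i, K (u i - (l (u i) / qf p z l) • Yf p z l) (u i - (l (u i) / qf p z l) • Yf p z l) := by
  have h0 : ∀ v, (inner ℝ (vg l) v : ℝ) = l v := rotO2_vg l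
  have h1 : Yf p z l = ∑ i, l (u i) • u i := by
    unfold Yf
    rw [hu]
    refine Finset.sum_congr rfl fun i _ => ?_
    rw [real_inner_comm, h0]
  have h2 : qf p z l = ∑ i, l (u i) ^ 2 := by
    unfold qf
    rw [h1, map_sum]
    refine Finset.sum_congr rfl fun i _ => ?_
    rw [map_smul, smul_eq_mul, sq]
  refine ⟨h1, h2, fun i => ?_, fun K => ?_⟩
  · rw [map_sub, map_smul, smul_eq_mul]
    change l (u i) - l (u i) / qf p z l * qf p z l = 0
    rw [div_mul_cancel₀ _ hq, sub_self]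
  · rw [Tf_spec hu]
    have e1 : ∑ i, l (u i) * K (Yf p z l) (u i) = K (Yf p z l) (Yf p z l) := by
      have e0 : ∀ k : E →L[ℝ] ℝ, ∑ i, l (u i) * k (u i) = k (Yf p z l) := by
        intro k
        rw [h1, map_sum]
        exact Finset.sum_congr rfl fun i _ => by rw [map_smul, smul_eq_mul]
      exact e0 _
    have e2 : ∑ i, l (u i) * K (u i) (Yf p z l) = K (Yf p z l) (Yf p z l) := by
      have e3 : K (Yf p z l) = ∑ i, l (u i) • K (u i) := by
        conv_lhs => rw [h1]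
        rw [map_sum]
        exact Finset.sum_congr rfl fun i _ => by rw [map_smul]
      rw [e3, ContinuousLinearMap.sum_apply]
      exact Finset.sum_congr rfl fun i _ => by
        rw [ContinuousLinearMap.smul_apply, smul_eq_mul]
    have e4 : ∀ i, K (u i - (l (u i) / qf p z l) • Yf p z l)
        (u i - (l (u i) / qf p z l) • Yf p z l) =
        K (u i) (u i) - (qf p z l)⁻¹ * (l (u i) * K (u i) (Yf p z l)) -
          (qf p z l)⁻¹ * (l (u i) * K (Yf p z l) (u i)) +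
          ((qf p z l)⁻¹ ^ 2 * K (Yf p z l) (Yf p z l)) * l (u i) ^ 2 := by
      intro i
      simp only [map_sub, map_smul, ContinuousLinearMap.sub_apply,
        ContinuousLinearMap.smul_apply, smul_eq_mul]
      ring
    simp only [e4]
    rw [Finset.sum_add_distrib, Finset.sum_sub_distrib, Finset.sum_sub_distrib,
      ← Finset.mul_sum, ← Finset.mul_sum, ← Finset.mul_sum, e1, e2, ← h2]
    field_simp
    ring

/-- piece `ROT-O2`, third part: positivity of `qf`. `qf p z l = ⟪Gop p z (vg l), vg l⟫`, `vg l ≠ 0`, `Gop_spd`. -/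
theorem qf_pos {p : E →L[ℝ] E} (hp : Pj p) {z : E} (hz : ‖z‖ < 1) {l : E →L[ℝ] ℝ} (hl : l ≠ 0) :
    0 < qf p z l := by
  have h0 : ∀ v, (inner ℝ (vg l) v : ℝ) = l v := rotO2_vg l
  have h1 : vg l ≠ 0 := by
    intro h
    apply hl
    ext v
    rw [← h0, h, inner_zero_left, ContinuousLinearMap.zero_apply]
  have h2 := (Gop_spd hp hz).2 (vg l) h1
  unfold qf Yf
  rw [← h0, real_inner_comm]
  exact h2

private theorem rotO3_vg (l : E →L[ℝ] ℝ) :
    vg l = ∑ i, l (stdOrthonormalBasis ℝ E i) • stdOrthonormalBasis ℝ E i := by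
  conv_lhs => rw [← (stdOrthonormalBasis ℝ E).sum_repr' (vg l)]
  refine Finset.sum_congr rfl fun i _ => ?_
  congr 1
  rw [real_inner_comm, vg, InnerProductSpace.toDual_symm_apply]

private theorem rotO3_vgs : ContDiff ℝ 1 (fun l : E →L[ℝ] ℝ => vg l) := by
  have h : (fun l : E →L[ℝ] ℝ => vg l) =
      fun l : E →L[ℝ] ℝ => ∑ i, l (stdOrthonormalBasis ℝ E i) • stdOrthonormalBasis ℝ E i :=
    funext rotO3_vg
  rw [h]
  exact ContDiff.sum fun i _ => (contDiff_id.clm_apply contDiff_const).smul contDiff_const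

private theorem rotO3_G (p : E →L[ℝ] E) (z v : E) :
    Gop p z v = v - (inner ℝ z v : ℝ) • z - ‖p z‖ ^ 2 • p v + (inner ℝ (p z) v : ℝ) • p z := rfl

private theorem rotO3_Gs {X : Type*} [NormedAddCommGroup X] [NormedSpace ℝ X] (p : E →L[ℝ] E)
    {f g : X → E} (hf : ContDiff ℝ 1 f) (hg : ContDiff ℝ 1 g) :
    ContDiff ℝ 1 (fun x => Gop p (f x) (g x)) := by
  have h : (fun x => Gop p (f x) (g x)) = fun x => g x - (inner ℝ (f x) (g x) : ℝ) • f x -
      ‖p (f x)‖ ^ 2 • p (g x) + (inner ℝ (p (f x)) (g x) : ℝ) • p (f x) :=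
    funext fun x => rotO3_G p (f x) (g x)
  rw [h]
  have hpf : ContDiff ℝ 1 (fun x => p (f x)) := p.contDiff.comp hf
  have hpg : ContDiff ℝ 1 (fun x => p (g x)) := p.contDiff.comp hg
  exact ((hg.sub ((hf.inner ℝ hg).smul hf)).sub ((hpf.norm_sq ℝ).smul hpg)).add
    ((hpf.inner ℝ hg).smul hpf)

/-- piece `ROT-O3`: smoothness of `MM`.
Proof. `vg` is linear and continuous in `l`; `Gop p z v = v - ⟪z, v⟫ z - ‖p z‖² p v + ⟪p z, v⟫ p z`, so `Yf`, `qf`,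
`Df`, `Tf`, `Q Y Y` are smooth functions of `(z, l, Q)` (`IsBoundedBilinearMap` / `ContDiff.clm_apply`, `contDiff_inner`,
`fun_prop`); `qf ≠ 0` on the set (`qf_pos`), `(1 - ‖z‖²) / qf > 0`, so `√` and `/` are smooth there. -/
theorem MM_smooth {a : ℝ} {p : E →L[ℝ] E} (hp : Pj p) :
    ContDiffOn ℝ 1 (fun x : E × (E →L[ℝ] ℝ) × (E →L[ℝ] E →L[ℝ] ℝ) => MM a p x.1 x.2.1 x.2.2)
      {x | x.1 ∈ Metric.ball (0 : E) 1 ∧ x.2.1 ≠ 0} := by
  have hz : ContDiff ℝ 1 (fun x : E × (E →L[ℝ] ℝ) × (E →L[ℝ] E →L[ℝ] ℝ) => x.1) := contDiff_fst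
  have hl : ContDiff ℝ 1 (fun x : E × (E →L[ℝ] ℝ) × (E →L[ℝ] E →L[ℝ] ℝ) => x.2.1) :=
    contDiff_fst.comp contDiff_snd
  have hQ : ContDiff ℝ 1 (fun x : E × (E →L[ℝ] ℝ) × (E →L[ℝ] E →L[ℝ] ℝ) => x.2.2) :=
    contDiff_snd.comp contDiff_snd
  have hv : ContDiff ℝ 1 (fun x : E × (E →L[ℝ] ℝ) × (E →L[ℝ] E →L[ℝ] ℝ) => vg x.2.1) :=
    rotO3_vgs.comp hl
  have hpz : ContDiff ℝ 1 (fun x : E × (E →L[ℝ] ℝ) × (E →L[ℝ] E →L[ℝ] ℝ) => p x.1) :=
    p.contDiff.comp hz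
  have hpv : ContDiff ℝ 1 (fun x : E × (E →L[ℝ] ℝ) × (E →L[ℝ] E →L[ℝ] ℝ) => p (vg x.2.1)) :=
    p.contDiff.comp hv
  have hY : ContDiff ℝ 1
      (fun x : E × (E →L[ℝ] ℝ) × (E →L[ℝ] E →L[ℝ] ℝ) => Yf p x.1 x.2.1) := rotO3_Gs p hz hv
  have hq : ContDiff ℝ 1
      (fun x : E × (E →L[ℝ] ℝ) × (E →L[ℝ] E →L[ℝ] ℝ) => qf p x.1 x.2.1) := hl.clm_apply hY
  have hD : ContDiff ℝ 1
      (fun x : E × (E →L[ℝ] ℝ) × (E →L[ℝ] E →L[ℝ] ℝ) => Df p x.1 x.2.1) :=
    ((hpz.norm_sq ℝ).mul (hpv.norm_sq ℝ)).sub ((hl.clm_apply hpz).pow 2)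
  have hT : ContDiff ℝ 1
      (fun x : E × (E →L[ℝ] ℝ) × (E →L[ℝ] E →L[ℝ] ℝ) => Tf p x.1 x.2.2) :=
    ContDiff.sum fun i _ => (hQ.clm_apply (rotO3_Gs p hz contDiff_const)).clm_apply contDiff_const
  have hq0 : ∀ x ∈ {x : E × (E →L[ℝ] ℝ) × (E →L[ℝ] E →L[ℝ] ℝ) |
      x.1 ∈ Metric.ball (0 : E) 1 ∧ x.2.1 ≠ 0}, 0 < qf p x.1 x.2.1 := by
    rintro x ⟨h1, h2⟩
    exact qf_pos hp (by simpa using h1) h2
  have hn : ContDiff ℝ 1 (fun x : E × (E →L[ℝ] ℝ) × (E →L[ℝ] E →L[ℝ] ℝ) => 1 - ‖x.1‖ ^ 2) :=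
    contDiff_const.sub (hz.norm_sq ℝ)
  have h1 : ContDiffOn ℝ 1 (fun x : E × (E →L[ℝ] ℝ) × (E →L[ℝ] E →L[ℝ] ℝ) =>
      √((1 - ‖x.1‖ ^ 2) / qf p x.1 x.2.1))
      {x | x.1 ∈ Metric.ball (0 : E) 1 ∧ x.2.1 ≠ 0} := by
    refine ContDiffOn.sqrt (hn.contDiffOn.div hq.contDiffOn fun x hx => (hq0 x hx).ne') ?_
    intro x hx
    have h2 : ‖x.1‖ < 1 := by simpa using hx.1
    have h3 : 0 < 1 - ‖x.1‖ ^ 2 := by nlinarith [norm_nonneg x.1]
    exact (div_pos h3 (hq0 x hx)).ne'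
  refine h1.mul (ContDiffOn.sub ?_ (ContDiffOn.div ?_ hq.contDiffOn fun x hx => (hq0 x hx).ne'))
  · exact (hT.add (contDiff_const.mul ((hl.clm_apply hz).add (hl.clm_apply hpz)))).contDiffOn
  · exact (((hQ.clm_apply hY).clm_apply hY).add ((hl.clm_apply (hz.sub hpz)).mul hD)).contDiffOn

private theorem rotO4_vg (l : E →L[ℝ] ℝ) (v : E) : inner ℝ v (vg l) = l v := by
  rw [real_inner_comm]
  exact InnerProductSpace.toDual_symm_apply

private theorem rotO4_vg_smul (c : ℝ) (l : E →L[ℝ] ℝ) : vg (c • l) = c • vg l := by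
  refine ext_inner_left ℝ fun v => ?_
  rw [rotO4_vg, inner_smul_right, rotO4_vg]
  rfl

private theorem rotO4_vg_inj {l k : E →L[ℝ] ℝ} (h : vg l = vg k) : l = k := by
  ext v
  rw [← rotO4_vg, h, rotO4_vg]

private theorem rotO4_Tf_add (p : E →L[ℝ] E) (z : E) (Q R : E →L[ℝ] E →L[ℝ] ℝ) :
    Tf p z (Q + R) = Tf p z Q + Tf p z R := by
  unfold Tf
  rw [← Finset.sum_add_distrib]
  rfl

private theorem rotO4_Tf_smul (p : E →L[ℝ] E) (z : E) (c : ℝ) (Q : E →L[ℝ] E →L[ℝ] ℝ) :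
    Tf p z (c • Q) = c * Tf p z Q := by
  unfold Tf
  rw [Finset.mul_sum]
  rfl

private theorem rotO4_Yf_smul (p : E →L[ℝ] E) (z : E) (c : ℝ) (l : E →L[ℝ] ℝ) :
    Yf p z (c • l) = c • Yf p z l := by
  unfold Yf
  rw [rotO4_vg_smul, map_smul]

private theorem rotO4_qf_smul (p : E →L[ℝ] E) (z : E) (c : ℝ) (l : E →L[ℝ] ℝ) :
    qf p z (c • l) = c ^ 2 * qf p z l := by
  unfold qf
  rw [rotO4_Yf_smul, ContinuousLinearMap.smul_apply, map_smul, smul_eq_mul, smul_eq_mul]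
  ring

private theorem rotO4_Df_smul (p : E →L[ℝ] E) (z : E) (c : ℝ) (l : E →L[ℝ] ℝ) :
    Df p z (c • l) = c ^ 2 * Df p z l := by
  unfold Df
  rw [rotO4_vg_smul, map_smul, norm_smul, mul_pow, Real.norm_eq_abs, sq_abs,
    ContinuousLinearMap.smul_apply, smul_eq_mul]
  ring

private theorem rotO4_MM (a : ℝ) (p : E →L[ℝ] E) (z : E) (l : E →L[ℝ] ℝ)
    (Q : E →L[ℝ] E →L[ℝ] ℝ) : MM a p z l Q = √((1 - ‖z‖ ^ 2) / qf p z l) *
      (Tf p z Q - Q (Yf p z l) (Yf p z l) / qf p z l) + √((1 - ‖z‖ ^ 2) / qf p z l) *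
      (a * (l z + l (p z)) - l (z - p z) * Df p z l / qf p z l) := by
  unfold MM
  rw [add_div]
  ring

/-- piece `ROT-O4`: `MM a p` is elliptic.
Proof. `smooth`: `MM_smooth`. `scal`: `vg (c • l) = c • vg l`, so `Yf`, `qf`, `Df` scale with `c`, `c²`, `c²`, `Tf` with `c`,
`√((1 - ‖z‖²) / (c² q)) = c⁻¹ √(..)`; the bracket is homogeneous of degree one (`Q Y Y / q ↦ c³ / c²`,
`l (z - p z) * Df / qf ↦ c³ / c²`). `aff`: `A Q = √(..) * (Tf p z Q - Q Y Y / q)` is linear in `Q`. `mono`: the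
difference of the two sides is `√(..) * ∑ i, (R - Q) (w i) (w i)` by `spec` and `tangent_spec`, with `l (w i) = 0`. `pos`: the
difference is `√(..) * ∑ i, k (w i) ^ 2`, `√(..) > 0` (`qf_pos`, `‖z‖ < 1`). If it were `0`, `k (w i) = 0`, so
`k (u i) = (k Y / q) * l (u i)` for all `i`, i.e. `⟪u i, vg k - (k Y / q) • vg l⟫ = 0`, so by `spec` `k = (k Y / q) • l`,
contradiction. -/
theorem ell {a : ℝ} {p : E →L[ℝ] E} (hp : Pj p) : Ell (Metric.ball (0 : E) 1) (MM a p) := by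
  have hball : ∀ z ∈ Metric.ball (0 : E) 1, ‖z‖ < 1 := fun z hz => by simpa using hz
  refine ⟨Metric.isOpen_ball, MM_smooth hp, ?_, ?_, ?_, ?_⟩
  · intro z hz l hl Q c hc
    have hq := qf_pos hp (hball z hz) hl
    have hs : √((1 - ‖z‖ ^ 2) / qf p z (c • l)) = c⁻¹ * √((1 - ‖z‖ ^ 2) / qf p z l) := by
      rw [rotO4_qf_smul]
      have h1 : (1 - ‖z‖ ^ 2) / (c ^ 2 * qf p z l) =
          (c⁻¹ * c⁻¹) * ((1 - ‖z‖ ^ 2) / qf p z l) := by
        field_simp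
      rw [h1, Real.sqrt_mul (by positivity), Real.sqrt_mul_self (by positivity)]
    have hb : Tf p z (c • Q) + a * ((c • l) z + (c • l) (p z)) -
        ((c • Q) (Yf p z (c • l)) (Yf p z (c • l)) + (c • l) (z - p z) * Df p z (c • l)) /
          qf p z (c • l) = c * (Tf p z Q + a * (l z + l (p z)) -
        (Q (Yf p z l) (Yf p z l) + l (z - p z) * Df p z l) / qf p z l) := by
      rw [rotO4_Tf_smul, rotO4_qf_smul, rotO4_Df_smul, rotO4_Yf_smul]
      have h1 : (c • Q) (c • Yf p z l) (c • Yf p z l) = c ^ 3 * Q (Yf p z l) (Yf p z l) := by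
        simp only [map_smul, ContinuousLinearMap.smul_apply, smul_eq_mul]
        ring
      have h2 : ∀ v, (c • l) v = c * l v := fun v => rfl
      rw [h1, h2, h2, h2]
      field_simp
    unfold MM
    rw [hs, hb]
    field_simp
  · intro z hz l hl
    refine ⟨{ toFun := fun Q => √((1 - ‖z‖ ^ 2) / qf p z l) *
                (Tf p z Q - Q (Yf p z l) (Yf p z l) / qf p z l)
              map_add' := ?_
              map_smul' := ?_ }, ?_⟩
    · intro Q R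
      rw [rotO4_Tf_add, ContinuousLinearMap.add_apply, ContinuousLinearMap.add_apply]
      ring
    · intro c Q
      rw [rotO4_Tf_smul, ContinuousLinearMap.smul_apply, ContinuousLinearMap.smul_apply,
        smul_eq_mul, RingHom.id_apply, smul_eq_mul]
      ring
    · intro Q
      have h0 : Tf p z (0 : E →L[ℝ] E →L[ℝ] ℝ) = 0 := by
        unfold Tf
        simp
      rw [rotO4_MM a p z l Q, rotO4_MM a p z l 0, h0]
      simp
  · intro z hz l hl Q R h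
    obtain ⟨u, hu, -⟩ := spec hp (hball z hz)
    have hq := qf_pos hp (hball z hz) hl
    obtain ⟨-, -, h1, h2⟩ := tangent_spec hu hq.ne'
    rw [rotO4_MM, rotO4_MM a p z l R, h2 Q, h2 R]
    gcongr with i
    exact h _ (h1 i)
  · intro z hz l hl k hk Q
    obtain ⟨u, hu, hu0⟩ := spec hp (hball z hz)
    have hq := qf_pos hp (hball z hz) hl
    obtain ⟨-, -, h1, h2⟩ := tangent_spec hu hq.ne'
    have hs : 0 < √((1 - ‖z‖ ^ 2) / qf p z l) := by
      apply Real.sqrt_pos.2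
      have h3 := hball z hz
      have h4 : 0 < 1 - ‖z‖ ^ 2 := by nlinarith [norm_nonneg z]
      exact div_pos h4 hq
    rw [rotO4_MM, rotO4_MM a p z l (Q + k.smulRight k), h2 Q, h2 (Q + k.smulRight k)]
    refine add_lt_add_of_lt_of_le (mul_lt_mul_of_pos_left ?_ hs) le_rfl
    have h3 : ∀ v, (Q + k.smulRight k) v v = Q v v + k v ^ 2 := by
      intro v
      rw [ContinuousLinearMap.add_apply, ContinuousLinearMap.add_apply,
        ContinuousLinearMap.smulRight_apply, ContinuousLinearMap.smul_apply, smul_eq_mul]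
      ring
    simp only [h3]
    rw [Finset.sum_add_distrib]
    refine lt_add_of_pos_right _ ?_
    by_contra hcon
    have h4 : ∑ i, k (u i - (l (u i) / qf p z l) • Yf p z l) ^ 2 = 0 :=
      le_antisymm (not_lt.1 hcon) (Finset.sum_nonneg fun i _ => sq_nonneg _)
    rw [Finset.sum_eq_zero_iff_of_nonneg fun i _ => sq_nonneg _] at h4
    refine hk (k (Yf p z l) / qf p z l) (rotO4_vg_inj ?_)
    rw [rotO4_vg_smul, ← sub_eq_zero]
    refine hu0 _ fun i => ?_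
    have h5 := pow_eq_zero_iff (two_ne_zero) |>.1 (h4 i (Finset.mem_univ i))
    rw [map_sub, map_smul, smul_eq_mul] at h5
    rw [inner_sub_right, inner_smul_right, rotO4_vg, rotO4_vg]
    linarith [show k (Yf p z l) / qf p z l * l (u i) = l (u i) / qf p z l * k (Yf p z l) by ring]

end Pool.Agent.Helper75.ROT
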