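import Pool.Agent.Helper75.ROT.Cov
import Pool.Agent.Helper75.ROT.Op

/-! # ROT: the operators in the chart and in the model agree

NOTATION in the proofs: `z₁ = p z`, `z₂ = z - p z`, `r = ‖z₁‖²`, `t = 1 - r = tt p (em p z)`, `X = em p z`,
`DX u = (2 ⟪z₁, u⟫, u + p u)` (derivative of `em`), `ξ = (2 X.1, X.2 + p X.2) = (2 (1 + r), 4 z₁ + z₂)` (Euler field),
`k₀ = k (1, 0)`, `κ = vg (k ∘ inr)`, `κ₁ = p κ`, `κ₂ = κ - p κ`, `k (ξ) = 0`, `l u = k (DX u)`, so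
`v := vg l = 2 k₀ z₁ + 2 κ₁ + κ₂`, `v₁ = 2 k₀ z₁ + 2 κ₁`, `v₂ = κ₂`; `b = ⟪z₂, κ₂⟫ = l z₂ = k (0, z₂)`,
`c = ⟪z₁, v₁⟫ = l z₁`, `V = ‖v₁‖²`. `k ξ = 0` reads `2 k₀ (1 + r) + 4 ⟪κ₁, z₁⟫ + b = 0`, hence
(R1) `b + 2 c = - 2 k₀ t`, and (R4) `4 bV = V + 2 k₀ b`. -/

set_option autoImplicit false
set_option linter.unusedSectionVars false
set_option linter.unusedVariables false

namespace Pool.Agent.Helper75.ROT

open Filter Topology
open scoped ContDiff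
open Pool.Agent.Helper41.ALX (S2)

variable {E : Type*} [NormedAddCommGroup E] [InnerProductSpace ℝ E] [FiniteDimensional ℝ E]

/-- data at one point -/
structure Jt (p : E →L[ℝ] E) (z : E) (k : (ℝ × E) →L[ℝ] ℝ)
    (K : (ℝ × E) →L[ℝ] (ℝ × E) →L[ℝ] ℝ) (l : E →L[ℝ] ℝ) (Q : E →L[ℝ] E →L[ℝ] ℝ) : Prop where
  proj : Pj p
  ball : ‖z‖ < 1
  e1 : k (2 * (em p z).1, (em p z).2 + p (em p z).2) = 0
  sy : ∀ u v, K u v = K v u
  e2 : ∀ v, K (2 * (em p z).1, (em p z).2 + p (em p z).2) v = -k (2 * v.1, v.2 + p v.2)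
  hl : ∀ u, l u = k (2 * inner ℝ (p z) u, u + p u)
  hQ : ∀ u u', Q u u' = K (2 * inner ℝ (p z) u, u + p u) (2 * inner ℝ (p z) u', u' + p u') +
    2 * inner ℝ (p u) u' * k (1, 0)

private theorem rotL1_perp {p : E →L[ℝ] E} (hp : Pj p) (u v : E) :
    inner ℝ (p u) (v - p v) = 0 := by
  rw [inner_sub_right, hp.symm u v, hp.symm u (p v), hp.idem, sub_self]

private theorem rotL1_zero {p : E →L[ℝ] E} (hp : Pj p) (v : E) : p (v - p v) = 0 := by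
  rw [map_sub, hp.idem, sub_self]

/-- the Euler relation in terms of inner products -/
private theorem rotL1_e1 {p : E →L[ℝ] E} {z : E} {k : (ℝ × E) →L[ℝ] ℝ}
    {K : (ℝ × E) →L[ℝ] (ℝ × E) →L[ℝ] ℝ} {l : E →L[ℝ] ℝ} {Q : E →L[ℝ] E →L[ℝ] ℝ}
    (h : Jt p z k K l Q) :
    2 * (1 + ‖p z‖ ^ 2) * k (1, 0) +
      4 * inner ℝ (p z) (p (vg (k.comp (ContinuousLinearMap.inr ℝ ℝ E)))) +
      inner ℝ (vg (k.comp (ContinuousLinearMap.inr ℝ ℝ E))) (z - p z) = 0 := by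
  have h1 := h.e1
  rw [lin_dec k] at h1
  obtain ⟨κ, hκ⟩ : ∃ κ : E, vg (k.comp (ContinuousLinearMap.inr ℝ ℝ E)) = κ := ⟨_, rfl⟩
  rw [hκ] at h1 ⊢
  have h2 : (em p z).2 + p (em p z).2 = (4 : ℝ) • p z + (z - p z) := by
    change z + p z + p (z + p z) = _
    rw [map_add, h.proj.idem]
    module
  have h3 : (em p z).1 = 1 + ‖p z‖ ^ 2 := rfl
  simp only at h1
  rw [h2, h3, inner_add_right, inner_smul_right] at h1
  have h4 : inner ℝ (p z) (p κ) = inner ℝ κ (p z) := by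
    rw [h.proj.symm, h.proj.idem, ← h.proj.symm, real_inner_comm]
  rw [h4]
  linarith

/-- piece `ROT-L1`: first order identities: `v = vg l`, (R1), (R4). -/
theorem Jt.first {p : E →L[ℝ] E} {z : E} {k : (ℝ × E) →L[ℝ] ℝ}
    {K : (ℝ × E) →L[ℝ] (ℝ × E) →L[ℝ] ℝ} {l : E →L[ℝ] ℝ} {Q : E →L[ℝ] E →L[ℝ] ℝ}
    (h : Jt p z k K l Q) :
    p (vg l) = (2 * k (1, 0)) • p z + (2 : ℝ) • p (vg (k.comp (ContinuousLinearMap.inr ℝ ℝ E))) ∧
    vg l - p (vg l) = vg (k.comp (ContinuousLinearMap.inr ℝ ℝ E)) -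
      p (vg (k.comp (ContinuousLinearMap.inr ℝ ℝ E))) ∧
    l (z - p z) = k (0, z - p z) ∧
    l (z - p z) + 2 * l (p z) = -(2 * k (1, 0) * (1 - ‖p z‖ ^ 2)) ∧
    4 * bV p k = ‖p (vg l)‖ ^ 2 + 2 * k (1, 0) * l (z - p z) := by
  have he := rotL1_e1 h
  have hp := h.proj
  have hk0 : ∀ u : E, k (0, u) = inner ℝ (vg (k.comp (ContinuousLinearMap.inr ℝ ℝ E))) u := by
    intro u
    rw [lin_dec k]
    simp
  have hbV : bV p k = ‖p (vg (k.comp (ContinuousLinearMap.inr ℝ ℝ E)))‖ ^ 2 - (k (1, 0)) ^ 2 := rfl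
  have hl : ∀ u : E, l u = 2 * inner ℝ (p z) u * k (1, 0) +
      inner ℝ (vg (k.comp (ContinuousLinearMap.inr ℝ ℝ E))) (u + p u) := by
    intro u
    rw [h.hl u, lin_dec k]
  obtain ⟨κ, hκ⟩ : ∃ κ : E, vg (k.comp (ContinuousLinearMap.inr ℝ ℝ E)) = κ := ⟨_, rfl⟩
  obtain ⟨k₀, hk₀⟩ : ∃ k₀ : ℝ, k (1, 0) = k₀ := ⟨_, rfl⟩
  rw [hκ, hk₀] at he hbV ⊢
  simp only [hκ, hk₀] at hk0 hl
  have hvg : vg l = (2 * k₀) • p z + κ + p κ := by
    refine ext_inner_right ℝ fun u => ?_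
    rw [vg_inner, hl u, inner_add_left, inner_add_left, inner_smul_left, inner_add_right,
      ← hp.symm κ u]
    simp only [conj_trivial]
    ring
  have h1 : p (vg l) = (2 * k₀) • p z + (2 : ℝ) • p κ := by
    rw [hvg, map_add, map_add, map_smul, hp.idem, hp.idem]
    module
  have h2 : vg l - p (vg l) = κ - p κ := by
    rw [h1, hvg]
    module
  have hz2 : l (z - p z) = inner ℝ κ (z - p z) := by
    rw [hl, rotL1_perp hp, rotL1_zero hp, add_zero]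
    ring
  have hz1 : l (p z) = 2 * ‖p z‖ ^ 2 * k₀ + 2 * inner ℝ (p z) (p κ) := by
    rw [hl, hp.idem, inner_add_right, real_inner_self_eq_norm_sq, hp.symm z (p κ), hp.idem,
      ← hp.symm z κ, real_inner_comm κ (p z)]
    ring
  refine ⟨h1, h2, ?_, ?_, ?_⟩
  · rw [hz2, hk0]
  · rw [hz2, hz1]
    linarith
  · have hV : ‖p (vg l)‖ ^ 2 = 4 * k₀ ^ 2 * ‖p z‖ ^ 2 + 8 * k₀ * inner ℝ (p z) (p κ) +
        4 * ‖p κ‖ ^ 2 := by
      rw [h1, ← real_inner_self_eq_norm_sq, inner_add_left, inner_add_right, inner_add_right,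
        inner_smul_left, inner_smul_left, inner_smul_right, inner_smul_right, inner_smul_left,
        inner_smul_left, inner_smul_right, inner_smul_right, real_inner_self_eq_norm_sq,
        real_inner_self_eq_norm_sq, real_inner_comm (p z) (p κ)]
      simp only [conj_trivial]
      ring
    rw [hbV, hV, hz2]
    linear_combination (-2 * k₀) * he

/-- piece `ROT-L1`, second part: `qf p z l = k (GV)` and `GV = DX Y + κ ξ`, `κ = l z`.
Proof. `Y = v - ⟪z, v⟫ z - r v₁ + ⟪z₁, v₁⟫ z₁`, so `Y₁ = t v₁ - b z₁`, `Y₂ = v₂ - (l z) z₂`.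
`qf = t V + ‖v₂‖² - b² - 2 b c = t V + ‖κ₂‖² + 2 k₀ t b` (R1) `= 4 t bV + ‖κ₂‖²` (R4) `= k (GV)` (`l_GV`).
`GV = (- 4 t k₀, 4 t κ₁ + κ₂)`; component orthogonal to the line: `κ₂ = Y₂ + (l z) z₂`; component in the line:
`2 Y₁ + 4 (c + b) z₁ = 2 t v₁ + 2 (b + 2 c) z₁ = 2 t v₁ - 4 k₀ t z₁ = 4 t κ₁`; first component:
`2 ⟪z₁, Y₁⟫ + 2 (1 + r) (c + b) = 2 t c - 2 b r + 2 (1 + r) (c + b) = 4 c + 2 b = - 4 k₀ t`. -/
theorem Jt.gv {p : E →L[ℝ] E} {z : E} {k : (ℝ × E) →L[ℝ] ℝ}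
    {K : (ℝ × E) →L[ℝ] (ℝ × E) →L[ℝ] ℝ} {l : E →L[ℝ] ℝ} {Q : E →L[ℝ] E →L[ℝ] ℝ}
    (h : Jt p z k K l Q) :
    p (Yf p z l) = (1 - ‖p z‖ ^ 2) • p (vg l) - l (z - p z) • p z ∧
    qf p z l = k (GV p (em p z) k) ∧
    qf p z l = (1 - ‖p z‖ ^ 2) * ‖p (vg l)‖ ^ 2 + ‖vg l - p (vg l)‖ ^ 2 - l (z - p z) ^ 2 -
      2 * l (z - p z) * l (p z) ∧
    GV p (em p z) k = (2 * inner ℝ (p z) (Yf p z l), Yf p z l + p (Yf p z l)) +
      l z • (2 * (em p z).1, (em p z).2 + p (em p z).2) := by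
  obtain ⟨f1, f2, f3, f4, f5⟩ := h.first
  have hp := h.proj
  have hpz : ‖p z‖ ≤ 1 := by
    have h1 := pyth hp z
    have h2 := h.ball
    have h3 : 0 ≤ ‖z - p z‖ ^ 2 := by positivity
    have h4 : ‖z‖ ^ 2 < 1 := by
      have := norm_nonneg z
      nlinarith
    nlinarith [norm_nonneg (p z)]
  have htt : tt p (em p z) = 1 - ‖p z‖ ^ 2 := tt_em hp hpz
  have hin : ∀ u : E, inner ℝ (vg l) u = l u := vg_inner l
  have hY : Yf p z l = vg l - l z • z - ‖p z‖ ^ 2 • p (vg l) + l (p z) • p z := by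
    change Gop p z (vg l) = _
    simp only [Gop, add_apply, sub_apply, ContinuousLinearMap.id_apply,
      ContinuousLinearMap.smulRight_apply, innerSL_apply_apply, smul_apply]
    rw [real_inner_comm, hin, real_inner_comm (vg l) (p z), hin]
  have hlz : l z = l (z - p z) + l (p z) := by
    rw [map_sub]
    ring
  have hpY : p (Yf p z l) = (1 - ‖p z‖ ^ 2) • p (vg l) - l (z - p z) • p z := by
    rw [hY, map_add, map_sub, map_sub, map_smul, map_smul, map_smul, hp.idem, hp.idem, hlz]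
    module
  have hlv : l (vg l) = ‖p (vg l)‖ ^ 2 + ‖vg l - p (vg l)‖ ^ 2 := by
    rw [← hin, real_inner_self_eq_norm_sq]
    exact pyth hp (vg l)
  have hlpv : l (p (vg l)) = ‖p (vg l)‖ ^ 2 := by
    rw [← hin, ← real_inner_self_eq_norm_sq, hp.symm (vg l) (p (vg l)), hp.idem]
  have hq : qf p z l = (1 - ‖p z‖ ^ 2) * ‖p (vg l)‖ ^ 2 + ‖vg l - p (vg l)‖ ^ 2 -
      l (z - p z) ^ 2 - 2 * l (z - p z) * l (p z) := by
    change l (Yf p z l) = _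
    rw [hY, map_add, map_sub, map_sub, map_smul, map_smul, map_smul, hlv, hlpv, hlz]
    simp only [smul_eq_mul]
    ring
  have hGV : k (GV p (em p z) k) = 4 * (1 - ‖p z‖ ^ 2) * bV p k + ‖vg l - p (vg l)‖ ^ 2 := by
    rw [l_GV hp, htt, f2]
  refine ⟨hpY, ?_, hq, ?_⟩
  · rw [hq, hGV]
    linear_combination (-(1 - ‖p z‖ ^ 2)) * f5 - l (z - p z) * f4
  · have hzY : inner ℝ (p z) (Yf p z l) =
        (1 - ‖p z‖ ^ 2) * l (p z) - l (z - p z) * ‖p z‖ ^ 2 := by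
      have h1 : inner ℝ (p z) (Yf p z l) = inner ℝ (p z) (p (Yf p z l)) := by
        rw [← hp.symm (p z) (Yf p z l), hp.idem]
      have h2 : inner ℝ (p z) (p (vg l)) = l (p z) := by
        rw [← hp.symm (p z) (vg l), hp.idem, real_inner_comm, hin]
      rw [h1, hpY, inner_sub_right, inner_smul_right, inner_smul_right,
        real_inner_self_eq_norm_sq, h2]
    have hX2 : (em p z).2 + p (em p z).2 = (4 : ℝ) • p z + (z - p z) := by
      change z + p z + p (z + p z) = _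
      rw [map_add, hp.idem]
      module
    have hX1 : (em p z).1 = 1 + ‖p z‖ ^ 2 := rfl
    have hpk : p (vg (k.comp (ContinuousLinearMap.inr ℝ ℝ E))) =
        (1 / 2 : ℝ) • p (vg l) - k (1, 0) • p z := by
      rw [f1]
      module
    have hs : (4 * (1 - ‖p z‖ ^ 2)) • (k (1, 0) • p z) =
        (-(2 * l (z - p z) + 4 * l (p z))) • p z := by
      rw [smul_smul]
      congr 1
      linear_combination 2 * f4
    have hYY : Yf p z l = p (Yf p z l) + ((vg l - p (vg l)) - l z • (z - p z)) := by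
      rw [hpY, hY, hlz]
      module
    have hE : GV p (em p z) k = (-(4 * tt p (em p z) * k (1, 0)),
        (4 * tt p (em p z)) • p (vg (k.comp (ContinuousLinearMap.inr ℝ ℝ E))) +
          (vg (k.comp (ContinuousLinearMap.inr ℝ ℝ E)) -
            p (vg (k.comp (ContinuousLinearMap.inr ℝ ℝ E))))) := rfl
    rw [hE, htt, ← f2, hpk, hX2, hX1, hzY, Prod.smul_mk, Prod.mk_add_mk, Prod.mk.injEq]
    constructor
    · rw [smul_eq_mul, hlz]
      linear_combination (-2) * f4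
    · rw [smul_sub, hs]
      generalize hP : p (Yf p z l) = P at hYY hpY ⊢
      rw [hYY, hpY, hlz]
      module

private theorem rotL2_sum_inner (x : E) (f : E →L[ℝ] ℝ) :
    ∑ i, inner ℝ x (stdOrthonormalBasis ℝ E i) * f (stdOrthonormalBasis ℝ E i) = f x := by
  conv_rhs => rw [← (stdOrthonormalBasis ℝ E).sum_repr' x, map_sum]
  refine Finset.sum_congr rfl fun i _ => ?_
  rw [map_smul, smul_eq_mul, real_inner_comm]

private theorem rotL2_swap {p : E →L[ℝ] E} (hp : Pj p) (A : E →L[ℝ] E)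
    (B : E →L[ℝ] E →L[ℝ] ℝ) :
    ∑ i, B (A (stdOrthonormalBasis ℝ E i)) (p (stdOrthonormalBasis ℝ E i)) =
      ∑ i, B (A (p (stdOrthonormalBasis ℝ E i))) (stdOrthonormalBasis ℝ E i) := by
  have h1 : ∀ i, B (A (stdOrthonormalBasis ℝ E i)) (p (stdOrthonormalBasis ℝ E i)) =
      ∑ j, inner ℝ (p (stdOrthonormalBasis ℝ E i)) (stdOrthonormalBasis ℝ E j) *
        B (A (stdOrthonormalBasis ℝ E i)) (stdOrthonormalBasis ℝ E j) := fun i =>
    (rotL2_sum_inner _ _).symm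
  have h2 : ∀ j, B (A (p (stdOrthonormalBasis ℝ E j))) (stdOrthonormalBasis ℝ E j) =
      ∑ i, inner ℝ (p (stdOrthonormalBasis ℝ E j)) (stdOrthonormalBasis ℝ E i) *
        B (A (stdOrthonormalBasis ℝ E i)) (stdOrthonormalBasis ℝ E j) := fun j =>
    (rotL2_sum_inner _ ((B.flip (stdOrthonormalBasis ℝ E j)).comp A)).symm
  simp only [h1, h2]
  rw [Finset.sum_comm]
  refine Finset.sum_congr rfl fun j _ => Finset.sum_congr rfl fun i _ => ?_
  rw [hp.symm, real_inner_comm]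

private theorem rotL2_pp {p : E →L[ℝ] E} (hp : Pj p) (B : E →L[ℝ] E →L[ℝ] ℝ) :
    ∑ i, B (p (stdOrthonormalBasis ℝ E i)) (p (stdOrthonormalBasis ℝ E i)) =
      ∑ i, B (p (stdOrthonormalBasis ℝ E i)) (stdOrthonormalBasis ℝ E i) := by
  rw [rotL2_swap hp p B]
  simp only [hp.idem]

private theorem rotL2_ip {p : E →L[ℝ] E} (hp : Pj p) (B : E →L[ℝ] E →L[ℝ] ℝ) :
    ∑ i, B (stdOrthonormalBasis ℝ E i) (p (stdOrthonormalBasis ℝ E i)) =
      ∑ i, B (p (stdOrthonormalBasis ℝ E i)) (stdOrthonormalBasis ℝ E i) :=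
  rotL2_swap hp (ContinuousLinearMap.id ℝ E) B

private theorem rotL2_Gop (p : E →L[ℝ] E) (z e : E) :
    Gop p z e = e - inner ℝ z e • z - ‖p z‖ ^ 2 • p e + inner ℝ (p z) e • p z := rfl

private theorem rotL2_sum {p : E →L[ℝ] E} (hp : Pj p) (z : E) (F : E →L[ℝ] E →L[ℝ] ℝ) :
    ∑ i, F (Gop p z (stdOrthonormalBasis ℝ E i)) (stdOrthonormalBasis ℝ E i) =
      ∑ i, F (stdOrthonormalBasis ℝ E i) (stdOrthonormalBasis ℝ E i) - F z z -
        ‖p z‖ ^ 2 * ∑ i, F (p (stdOrthonormalBasis ℝ E i)) (p (stdOrthonormalBasis ℝ E i)) +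
        F (p z) (p z) := by
  have h1 := rotL2_sum_inner z (F z)
  have h2 := rotL2_sum_inner (p z) (F (p z))
  rw [rotL2_pp hp F, ← h1, ← h2, Finset.mul_sum, ← Finset.sum_sub_distrib,
    ← Finset.sum_sub_distrib, ← Finset.sum_add_distrib]
  refine Finset.sum_congr rfl fun i _ => ?_
  rw [rotL2_Gop]
  simp only [map_add, map_sub, map_smul, add_apply, sub_apply, smul_apply, smul_eq_mul]

private theorem rotL2_tr {a : ℕ} {p : E →L[ℝ] E} (hp : Pj p)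
    (hr : Module.finrank ℝ (LinearMap.range (p : E →ₗ[ℝ] E)) = a + 1) :
    ∑ i, inner ℝ (p (stdOrthonormalBasis ℝ E i)) (stdOrthonormalBasis ℝ E i) = (a : ℝ) + 1 := by
  have h1 : LinearMap.IsProj (LinearMap.range (p : E →ₗ[ℝ] E)) (p : E →ₗ[ℝ] E) := by
    refine ⟨fun x => ⟨x, rfl⟩, ?_⟩
    rintro _ ⟨y, rfl⟩
    exact hp.idem y
  have h2 := h1.trace
  rw [LinearMap.trace_eq_sum_inner _ (stdOrthonormalBasis ℝ E), hr] at h2
  push_cast at h2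
  rw [← h2]
  refine Finset.sum_congr rfl fun i _ => ?_
  exact real_inner_comm _ _

private noncomputable def rotL2_D (p : E →L[ℝ] E) (z : E) : E →L[ℝ] ℝ × E :=
  ((2 : ℝ) • innerSL ℝ (p z)).prod (ContinuousLinearMap.id ℝ E + p)

private theorem rotL2_D_apply (p : E →L[ℝ] E) (z u : E) :
    rotL2_D p z u = (2 * inner ℝ (p z) u, u + p u) := rfl

private theorem rotL2_expand {K : (ℝ × E) →L[ℝ] (ℝ × E) →L[ℝ] ℝ} (hs : ∀ u v, K u v = K v u)
    (s t : ℝ) (u v : E) : K (s, u) (t, v) = s * t * K (1, 0) (1, 0) + s * K (1, 0) (0, v) +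
      t * K (1, 0) (0, u) + K (0, u) (0, v) := by
  have e1 : ∀ (s : ℝ) (u : E), ((s, u) : ℝ × E) = s • (1, 0) + (0, u) := by
    intro s u
    simp
  rw [e1 s u, e1 t v]
  simp only [map_add, map_smul, add_apply, smul_apply, smul_eq_mul]
  rw [hs (0, u) (1, 0)]
  ring

/-- piece `ROT-L2`: the trace identity. `e_i` = `stdOrthonormalBasis`.
Proof. Put `K₀₀ = K (1,0) (1,0)`, `K₀ u = K (1,0) (0,u)`, `K₁ u v = K (0,u) (0,v)`. With `G = Gop p z`,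
`G z₁ = z₁ - r z`, `⟪z₁, G z₁⟫ = r t`, `G z₁ + p G z₁ = 2 t z₁ - r z₂`, and
`G e + p G e = (e + p e) - ⟪z, e⟫ (2 z₁ + z₂) - 2 r p e + 2 ⟪z₁, e⟫ z₁`:
`∑ K (DX (G e_i)) (DX e_i) = 4 K₀₀ ⟪z₁, G z₁⟫ + 4 K₀ (G z₁ + p G z₁) + ∑ K₁ (G e_i + p G e_i) (e_i + p e_i)`
(`∑ ⟪a, G e_i⟫ f e_i = f (G a)`), and the last sum is
`∑ K₁ (e_i - p e_i) (e_i - p e_i) + 4 t ∑ K₁ (p e_i) (p e_i) - K₁ (2 z₁ + z₂) (2 z₁ + z₂) + 4 K₁ z₁ z₁`
(`∑ K₁ (p e_i) e_i = ∑ K₁ (p e_i) (p e_i)`). Therefore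
`trV K - ∑ K (DX (G e_i)) (DX e_i) = - 4 t (1 + r) K₀₀ - 8 t K₀ z₁ + 4 r K₀ z₂ + 4 K₁ z₁ z₂ + K₁ z₂ z₂ = K ξ (- 2 t, z₂)`
`= - k (- 4 t, z₂) = 4 t k₀ - b` by `e2`. Finally `Tf Q = ∑ K (DX (G e_i)) (DX e_i) + 2 k₀ ∑ ⟪p G e_i, e_i⟫` and
`∑ ⟪p G e_i, e_i⟫ = t ∑ ⟪p e_i, e_i⟫ = t (a + 1)` (the trace of a projection is the rank of the range:
`LinearMap.IsProj.trace`, compare Helper41/ALX/Ball.lean). -/
theorem Jt.trace {a : ℕ} {p : E →L[ℝ] E} {z : E} {k : (ℝ × E) →L[ℝ] ℝ}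
    {K : (ℝ × E) →L[ℝ] (ℝ × E) →L[ℝ] ℝ} {l : E →L[ℝ] ℝ} {Q : E →L[ℝ] E →L[ℝ] ℝ}
    (h : Jt p z k K l Q)
    (hr : Module.finrank ℝ (LinearMap.range (p : E →ₗ[ℝ] E)) = a + 1) :
    trV p (em p z) K = Tf p z Q - 2 * k (1, 0) * (a + 1) * (1 - ‖p z‖ ^ 2) +
      4 * (1 - ‖p z‖ ^ 2) * k (1, 0) - l (z - p z) := by
  obtain ⟨r, hrd⟩ : ∃ r, r = ‖p z‖ ^ 2 := ⟨_, rfl⟩
  have hp := h.proj
  have hpp : p (p z) = p z := hp.idem z
  have hrz : inner ℝ (p z) (p z) = r := by rw [real_inner_self_eq_norm_sq, hrd]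
  have hrz' : inner ℝ (p z) z = r := by
    rw [← hrz, hp.symm z (p z), hpp, real_inner_comm]
  have hr1 : r < 1 := by
    have h1 : inner ℝ (p z) z ≤ ‖p z‖ * ‖z‖ := real_inner_le_norm _ _
    have h2 : 0 ≤ ‖p z‖ := norm_nonneg _
    have h3 := h.ball
    have h4 : 0 ≤ ‖z‖ := norm_nonneg _
    rw [hrz', hrd] at h1
    rw [hrd]
    nlinarith
  have htt : tt p (em p z) = 1 - r := by
    have h1 : -B1 p (em p z) (em p z) = (1 - r) ^ 2 := by
      have h2 : B1 p (em p z) (em p z) = inner ℝ (p (z + p z)) (p (z + p z)) -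
        (1 + ‖p z‖ ^ 2) * (1 + ‖p z‖ ^ 2) := rfl
      have h3 : p (z + p z) = (2 : ℝ) • p z := by rw [map_add, hpp, two_smul]
      rw [h2, h3, real_inner_smul_left, real_inner_smul_right, hrz, ← hrd]
      ring
    unfold tt
    rw [h1, Real.sqrt_sq (by linarith)]
  obtain ⟨K0, hK0⟩ : ∃ K0 : E →L[ℝ] ℝ, ∀ u, K (1, 0) (0, u) = K0 u :=
    ⟨(K (1, 0)).comp (ContinuousLinearMap.inr ℝ ℝ E), fun u => rfl⟩
  obtain ⟨K1, hK1⟩ : ∃ K1 : E →L[ℝ] E →L[ℝ] ℝ, ∀ u v, K (0, u) (0, v) = K1 u v :=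
    ⟨K.bilinearComp (ContinuousLinearMap.inr ℝ ℝ E) (ContinuousLinearMap.inr ℝ ℝ E),
      fun u v => rfl⟩
  obtain ⟨F, hF⟩ : ∃ F : E →L[ℝ] E →L[ℝ] ℝ, ∀ u v, F u v =
      K (2 * inner ℝ (p z) u, u + p u) (2 * inner ℝ (p z) v, v + p v) :=
    ⟨K.bilinearComp (rotL2_D p z) (rotL2_D p z), fun u v => rfl⟩
  obtain ⟨N, hN⟩ : ∃ N : E →L[ℝ] E →L[ℝ] ℝ, ∀ u v, N u v = inner ℝ (p u) v :=
    ⟨(innerSL ℝ).comp p, fun u v => rfl⟩
  obtain ⟨κ, hκ⟩ : ∃ κ, κ = K (1, 0) (1, 0) := ⟨_, rfl⟩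
  have hs1 : ∀ u v, K1 u v = K1 v u := fun u v => by rw [← hK1, ← hK1, h.sy]
  have hex : ∀ (s t : ℝ) (u v : E), K (s, u) (t, v) = s * t * κ + s * K0 v + t * K0 u + K1 u v := by
    intro s t u v
    rw [rotL2_expand h.sy, hK0, hK0, hK1, hκ]
  have hF' : ∀ u v, F u v = 4 * (inner ℝ (p z) u * inner ℝ (p z) v) * κ +
      2 * inner ℝ (p z) u * (K0 v + K0 (p v)) + 2 * inner ℝ (p z) v * (K0 u + K0 (p u)) +
      (K1 u v + K1 u (p v) + K1 (p u) v + K1 (p u) (p v)) := by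
    intro u v
    rw [hF, hex]
    simp only [map_add, add_apply]
    ring
  have hT : Tf p z Q = (∑ i, F (Gop p z (stdOrthonormalBasis ℝ E i)) (stdOrthonormalBasis ℝ E i)) +
      2 * k (1, 0) * ∑ i, N (Gop p z (stdOrthonormalBasis ℝ E i)) (stdOrthonormalBasis ℝ E i) := by
    unfold Tf
    rw [Finset.mul_sum, ← Finset.sum_add_distrib]
    refine Finset.sum_congr rfl fun i _ => ?_
    rw [h.hQ, hF, hN]
    ring
  have hNe : ∑ i, N (stdOrthonormalBasis ℝ E i) (stdOrthonormalBasis ℝ E i) = (a : ℝ) + 1 := by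
    simp only [hN]
    exact rotL2_tr hp hr
  have hNp : ∑ i, N (p (stdOrthonormalBasis ℝ E i)) (p (stdOrthonormalBasis ℝ E i)) =
      (a : ℝ) + 1 := by
    rw [rotL2_pp hp N]
    simp only [hN, hp.idem]
    exact rotL2_tr hp hr
  have hNs := rotL2_sum hp z N
  rw [hNe, hNp, hN, hN, hpp, hrz, hrz', ← hrd] at hNs
  have hFs := rotL2_sum hp z F
  have hpe : ∀ u, inner ℝ (p z) (p u) = inner ℝ (p z) u := by
    intro u
    rw [← hp.symm, hpp]
  have hsq : ∑ i, inner ℝ (p z) (stdOrthonormalBasis ℝ E i) *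
      inner ℝ (p z) (stdOrthonormalBasis ℝ E i) = r := by
    have h1 := rotL2_sum_inner (p z) (innerSL ℝ (p z))
    simp only [innerSL_apply_apply] at h1
    rw [h1, hrz]
  have hs0 : ∑ i, inner ℝ (p z) (stdOrthonormalBasis ℝ E i) * K0 (stdOrthonormalBasis ℝ E i) =
      K0 (p z) := rotL2_sum_inner (p z) K0
  have hs0' : ∑ i, inner ℝ (p z) (stdOrthonormalBasis ℝ E i) *
      K0 (p (stdOrthonormalBasis ℝ E i)) = K0 (p z) := by
    have h1 := rotL2_sum_inner (p z) (K0.comp p)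
    simp only [ContinuousLinearMap.comp_apply] at h1
    rw [h1, hpp]
  have hip := rotL2_ip hp K1
  have hpp1 := rotL2_pp hp K1
  have hR : ∑ i, K1 (stdOrthonormalBasis ℝ E i - p (stdOrthonormalBasis ℝ E i))
      (stdOrthonormalBasis ℝ E i - p (stdOrthonormalBasis ℝ E i)) =
      ∑ i, K1 (stdOrthonormalBasis ℝ E i) (stdOrthonormalBasis ℝ E i) -
        ∑ i, K1 (p (stdOrthonormalBasis ℝ E i)) (p (stdOrthonormalBasis ℝ E i)) := by
    have h1 : ∀ u, K1 (u - p u) (u - p u) = K1 u u - K1 u (p u) - K1 (p u) u + K1 (p u) (p u) := by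
      intro u
      simp only [map_sub, sub_apply]
      ring
    simp only [h1]
    rw [Finset.sum_add_distrib, Finset.sum_sub_distrib, Finset.sum_sub_distrib, hip, hpp1]
    ring
  have hFe : ∑ i, F (stdOrthonormalBasis ℝ E i) (stdOrthonormalBasis ℝ E i) =
      4 * r * κ + 8 * K0 (p z) +
        ∑ i, K1 (stdOrthonormalBasis ℝ E i) (stdOrthonormalBasis ℝ E i) +
        3 * ∑ i, K1 (p (stdOrthonormalBasis ℝ E i)) (p (stdOrthonormalBasis ℝ E i)) := by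
    have h1 : ∀ u, F u u = 4 * κ * (inner ℝ (p z) u * inner ℝ (p z) u) +
        4 * (inner ℝ (p z) u * K0 u) + 4 * (inner ℝ (p z) u * K0 (p u)) +
        K1 u u + K1 u (p u) + K1 (p u) u + K1 (p u) (p u) := by
      intro u
      rw [hF']
      ring
    simp only [h1]
    simp only [Finset.sum_add_distrib, ← Finset.mul_sum]
    rw [hsq, hs0, hs0', hip, hpp1]
    ring
  have hFp : ∑ i, F (p (stdOrthonormalBasis ℝ E i)) (p (stdOrthonormalBasis ℝ E i)) =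
      4 * r * κ + 8 * K0 (p z) +
        4 * ∑ i, K1 (p (stdOrthonormalBasis ℝ E i)) (p (stdOrthonormalBasis ℝ E i)) := by
    have h1 : ∀ u, F (p u) (p u) = 4 * κ * (inner ℝ (p z) u * inner ℝ (p z) u) +
        8 * (inner ℝ (p z) u * K0 (p u)) + 4 * K1 (p u) (p u) := by
      intro u
      rw [hF', hpe, hp.idem]
      ring
    simp only [h1]
    simp only [Finset.sum_add_distrib, ← Finset.mul_sum]
    rw [hsq, hs0']
    ring
  have hFz : F z z = 4 * r * r * κ + 4 * r * (K0 z + K0 (p z)) +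
      (K1 z z + 2 * K1 z (p z) + K1 (p z) (p z)) := by
    rw [hF', hrz', hs1 (p z) z]
    ring
  have hFz1 : F (p z) (p z) = 4 * r * r * κ + 8 * r * K0 (p z) + 4 * K1 (p z) (p z) := by
    rw [hF', hpp, hrz]
    ring
  have htr : trV p (em p z) K = 4 * (1 - r) *
      (∑ i, K1 (p (stdOrthonormalBasis ℝ E i)) (p (stdOrthonormalBasis ℝ E i)) - κ) +
      ∑ i, K1 (stdOrthonormalBasis ℝ E i - p (stdOrthonormalBasis ℝ E i))
        (stdOrthonormalBasis ℝ E i - p (stdOrthonormalBasis ℝ E i)) := by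
    unfold trV
    rw [htt]
    simp only [hK1, hκ]
  have he2 := h.e2 (-2 * (1 - r), z - p z)
  have hpz0 : p (z - p z) = 0 := by rw [map_sub, hpp, sub_self]
  have hem : (2 * (em p z).1, (em p z).2 + p (em p z).2) = (2 * (1 + r), z + (3 : ℝ) • p z) := by
    unfold em
    rw [← hrd]
    refine Prod.ext rfl ?_
    dsimp only
    rw [map_add, hpp]
    module
  have hk : ∀ (s : ℝ) (u : E), k (s, u) = s * k (1, 0) + k (0, u) := by
    intro s u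
    have e1 : ((s, u) : ℝ × E) = s • (1, 0) + (0, u) := by simp
    rw [e1, map_add, map_smul, smul_eq_mul]
  rw [hem, hex] at he2
  dsimp only at he2
  rw [hpz0, add_zero, hk] at he2
  simp only [map_add, map_sub, map_smul, add_apply, smul_apply, smul_eq_mul,
    hs1 (p z) z] at he2
  have hlz : l (z - p z) = k (0, z - p z) := by
    rw [h.hl, inner_sub_right, hrz, hrz', sub_self, mul_zero, hpz0, add_zero]
  rw [htr, hT, hFs, hNs, hFe, hFp, hFz, hFz1, hR, ← hrd, hlz]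
  linear_combination he2

/-- piece `ROT-L3`: the quadratic term. `‖Y₁‖² = t² V - 2 t b c + b² r`.
Proof. `GV = DX Y + κ ξ` (`Jt.gv`, `κ = l z`), `K (DX Y) (DX Y) = Q Y Y - 2 k₀ ‖Y₁‖²` (`hQ`), and by `e2`, with
`N u = (2 u.1, u.2 + p u.2)` (linear, `N u` as an argument of `k`),
`2 κ K ξ (DX Y) + κ² K ξ ξ = - κ (2 k (N (DX Y)) + k (N (κ ξ))) = - κ k (N (GV + DX Y))`. `k (N GV) = 8 t bV + ‖κ₂‖²`
(`GV = (- 4 t k₀, 4 t κ₁ + κ₂)`), `k (N (DX Y)) = 2 ⟪v₁, Y₁⟫ + ⟪v₂, Y₂⟫ = q + ⟪v₁, Y₁⟫ = q + t V - b c`. -/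
theorem Jt.quad {p : E →L[ℝ] E} {z : E} {k : (ℝ × E) →L[ℝ] ℝ}
    {K : (ℝ × E) →L[ℝ] (ℝ × E) →L[ℝ] ℝ} {l : E →L[ℝ] ℝ} {Q : E →L[ℝ] E →L[ℝ] ℝ}
    (h : Jt p z k K l Q) :
    K (GV p (em p z) k) (GV p (em p z) k) = Q (Yf p z l) (Yf p z l) -
      2 * k (1, 0) * ‖p (Yf p z l)‖ ^ 2 -
      l z * (8 * (1 - ‖p z‖ ^ 2) * bV p k + ‖vg l - p (vg l)‖ ^ 2 + qf p z l +
        (1 - ‖p z‖ ^ 2) * ‖p (vg l)‖ ^ 2 - l (z - p z) * l (p z)) := by
  obtain ⟨-, f2, -, -, -⟩ := h.first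
  obtain ⟨g1, -, -, g4⟩ := h.gv
  have hp := h.proj
  have hz1 : ‖p z‖ ≤ 1 := by
    have h1 := pyth hp z
    have h2 := h.ball
    nlinarith [norm_nonneg z, norm_nonneg (p z), sq_nonneg ‖z - p z‖]
  have ht : tt p (em p z) = 1 - ‖p z‖ ^ 2 := tt_em hp hz1
  have hpp : ∀ u : E, inner ℝ u (p u) = ‖p u‖ ^ 2 := by
    intro u
    rw [← real_inner_self_eq_norm_sq, hp.symm u (p u), hp.idem]
  have hpq : ∀ u : E, inner ℝ u (u - p u) = ‖u - p u‖ ^ 2 := by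
    intro u
    have h1 : inner ℝ (p u) (u - p u) = 0 := by
      rw [hp.symm, map_sub, hp.idem, sub_self, inner_zero_right]
    rw [← real_inner_self_eq_norm_sq]
    conv_rhs => rw [inner_sub_left, h1, sub_zero]
  set Y : E := Yf p z l with hY
  set κ : E := vg (k.comp (ContinuousLinearMap.inr ℝ ℝ E)) with hκ
  have e2 := h.e2
  set ξ : ℝ × E := (2 * (em p z).1, (em p z).2 + p (em p z).2) with hξ
  obtain ⟨D, hD⟩ : ∃ D : ℝ × E, D = (2 * inner ℝ (p z) Y, Y + p Y) := ⟨_, rfl⟩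
  rw [← hD] at g4
  have s1 : K D D = Q Y Y - 2 * k (1, 0) * ‖p Y‖ ^ 2 := by
    have h1 := h.hQ Y Y
    rw [← hD, real_inner_comm, hpp] at h1
    linarith
  have s2 : K ξ D = -k (2 * D.1, D.2 + p D.2) := e2 D
  have s3 : K ξ ξ = -k (2 * ξ.1, ξ.2 + p ξ.2) := e2 ξ
  have s4 : K D ξ = K ξ D := h.sy _ _
  have s5 : K (D + l z • ξ) (D + l z • ξ) =
      K D D + l z * (K D ξ + K ξ D) + l z ^ 2 * K ξ ξ := by
    simp only [map_add, map_smul, ContinuousLinearMap.add_apply, ContinuousLinearMap.smul_apply,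
      smul_eq_mul]
    ring
  have n1 : k (2 * (GV p (em p z) k).1, (GV p (em p z) k).2 + p (GV p (em p z) k).2) =
      k (2 * D.1, D.2 + p D.2) + l z * k (2 * ξ.1, ξ.2 + p ξ.2) := by
    rw [g4, ← smul_eq_mul (l z), ← map_smul, ← map_add]
    congr 1
    refine Prod.ext ?_ ?_
    · simp only [Prod.fst_add, Prod.smul_fst, smul_eq_mul]
      ring
    · simp only [Prod.snd_add, Prod.smul_snd, map_add, map_smul, smul_add]
      abel
  have n2 : k (2 * (GV p (em p z) k).1, (GV p (em p z) k).2 + p (GV p (em p z) k).2) =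
      8 * (1 - ‖p z‖ ^ 2) * bV p k + ‖vg l - p (vg l)‖ ^ 2 := by
    have h1 : (GV p (em p z) k).1 = -(4 * (1 - ‖p z‖ ^ 2) * k (1, 0)) := by
      rw [← ht]
      rfl
    have h2 : (GV p (em p z) k).2 = (4 * (1 - ‖p z‖ ^ 2)) • p κ + (κ - p κ) := by
      rw [← ht]
      rfl
    have h3 : p (GV p (em p z) k).2 = (4 * (1 - ‖p z‖ ^ 2)) • p κ := by
      rw [h2, map_add, map_smul, map_sub, hp.idem, sub_self, add_zero]
    have h4 : bV p k = ‖p κ‖ ^ 2 - (k (1, 0)) ^ 2 := rfl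
    rw [lin_dec, h3, h2, h1, f2, h4, ← hκ]
    simp only [inner_add_right, inner_smul_right, hpp, hpq]
    ring
  have n3 : k (2 * D.1, D.2 + p D.2) = l Y + l (p Y) := by
    rw [h.hl Y, h.hl (p Y), ← map_add]
    have h1 : inner ℝ (p z) (p Y) = inner ℝ (p z) Y := by
      rw [← hp.symm, hp.idem]
    congr 1
    refine Prod.ext ?_ ?_
    · simp only [hD, Prod.fst_add, h1]
      ring
    · simp only [hD, Prod.snd_add, map_add]
  have n4 : l (p Y) = (1 - ‖p z‖ ^ 2) * ‖p (vg l)‖ ^ 2 - l (z - p z) * l (p z) := by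
    rw [g1, map_sub, map_smul, map_smul, smul_eq_mul, smul_eq_mul, ← vg_inner l (p (vg l)), hpp]
  have n5 : qf p z l = l Y := rfl
  rw [g4, s5, s4, s1, n5]
  have e1 : l z * (K ξ D + K ξ D) + l z ^ 2 * K ξ ξ =
      -(l z * (k (2 * D.1, D.2 + p D.2) +
        (k (2 * D.1, D.2 + p D.2) + l z * k (2 * ξ.1, ξ.2 + p ξ.2)))) := by
    rw [s2, s3]
    ring
  rw [add_assoc, e1, ← n1, n2, n3, n4]
  ring

/-- piece `ROT-L4`: the two operators agree.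
Proof. `√((1 - ‖z‖²) / q) = √(1 - ‖z‖²) / √q`, `q = qf p z l = k (GV) > 0` (`qf_pos`). Compare the brackets:
`Tf Q + a (l z + l z₁) - (Q Y Y + b Df) / q = trV K - (K GV GV + 4 b bV) / q`. `l z = c + b`, `l z₁ = c`,
`l z + l z₁ = - 2 k₀ t` (R1). By `Jt.trace` it remains to show (multiply by `q`)
`(2 t k₀ - b) q = K GV GV - Q Y Y + b (4 bV - Df)`, `Df = r V - c²`. By `Jt.quad`, (R4) and
`‖κ₂‖² = q - 4 t bV = q - t V - 2 k₀ t b` the right side is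
`- 2 k₀ (t² V - 2 t b c + b² r) - (c + b) (2 q + 2 t V + 2 k₀ t b - b c) + b (t V + 2 k₀ b + c²)`. The left side is
`- 2 (b + c) q` by (R1). The rest vanishes: with `2 k₀ t = - (b + 2 c)`, the terms with `t V`:
`(b + 2 c) - 2 (c + b) + b = 0`, and the others divided by `b`: `- 2 c (b + 2 c) + (c + b) (b + 2 c) + (c + b) c + c²
- b (b + 2 c) = 0` (`- 2 k₀ b² r + 2 k₀ b² = 2 k₀ t b²`). -/
theorem Jt.main {a : ℕ} {p : E →L[ℝ] E} {z : E} {k : (ℝ × E) →L[ℝ] ℝ}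
    {K : (ℝ × E) →L[ℝ] (ℝ × E) →L[ℝ] ℝ} {l : E →L[ℝ] ℝ} {Q : E →L[ℝ] E →L[ℝ] ℝ}
    (h : Jt p z k K l Q) (hk : l ≠ 0)
    (hr : Module.finrank ℝ (LinearMap.range (p : E →ₗ[ℝ] E)) = a + 1) :
    MM a p z l Q = √(1 - ‖z‖ ^ 2) * EM p (em p z) k K := by
  obtain ⟨_, _, hb, hR1, hR4⟩ := h.first
  obtain ⟨hY1, hqG, hqv, _⟩ := h.gv
  have htr := h.trace hr
  have hqd := h.quad
  have hq : 0 < qf p z l := qf_pos h.proj h.ball hk
  have hx : (em p z).2 - p (em p z).2 = z - p z := by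
    simp only [em, map_add, h.proj.idem]; abel
  have hlz : l z = l (z - p z) + l (p z) := by
    rw [← map_add, sub_add_cancel]
  have hin : inner ℝ (p (vg l)) (p z) = l (p z) := by
    rw [h.proj.symm, h.proj.idem, vg_inner]
  have hY : ‖p (Yf p z l)‖ ^ 2 = (1 - ‖p z‖ ^ 2) ^ 2 * ‖p (vg l)‖ ^ 2 -
      2 * (1 - ‖p z‖ ^ 2) * l (z - p z) * l (p z) + l (z - p z) ^ 2 * ‖p z‖ ^ 2 := by
    rw [hY1, norm_sub_sq_real, norm_smul, norm_smul, inner_smul_left, inner_smul_right, hin,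
      mul_pow, mul_pow, Real.norm_eq_abs, Real.norm_eq_abs, sq_abs, sq_abs]
    simp only [conj_trivial]
    ring
  have hball : 0 ≤ 1 - ‖z‖ ^ 2 := by
    nlinarith [h.ball, norm_nonneg z]
  have hsq : √((1 - ‖z‖ ^ 2) / qf p z l) = √(1 - ‖z‖ ^ 2) / √(qf p z l) :=
    Real.sqrt_div hball _
  have hD : K (GV p (em p z) k) (GV p (em p z) k) + 4 * l (z - p z) * bV p k =
      Q (Yf p z l) (Yf p z l) + l (z - p z) * Df p z l +
        (2 * (1 - ‖p z‖ ^ 2) * k (1, 0) - l (z - p z)) * qf p z l := by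
    rw [hqd, hY, hlz, hqv]
    unfold Df
    linear_combination (-2 * (1 - ‖p z‖ ^ 2) * ‖p (vg l)‖ ^ 2 - ‖vg l - p (vg l)‖ ^ 2 +
      2 * l (z - p z) * l (p z)) * hR1 +
      (l (z - p z) - 2 * (l (z - p z) + l (p z)) * (1 - ‖p z‖ ^ 2)) * hR4
  have key : Tf p z Q + a * (l z + l (p z)) -
      (Q (Yf p z l) (Yf p z l) + l (z - p z) * Df p z l) / qf p z l =
      trV p (em p z) K - (K (GV p (em p z) k) (GV p (em p z) k) +
        4 * l (z - p z) * bV p k) / qf p z l := by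
    rw [hD, add_div (Q (Yf p z l) (Yf p z l) + l (z - p z) * Df p z l), mul_div_assoc,
      div_self hq.ne', htr, hlz]
    linear_combination (a : ℝ) * hR1
  unfold MM EM
  rw [hsq, hx, ← hb, ← hqG, key]
  ring

/-- piece `ROT-L5`: chain rule for `Φ ∘ em`, `em_deriv`, `euler`. The derivative of `y ↦ Φ' (em y) (2 ⟪p y, u'⟫, u' + p u')` in
the direction `u` is `Φ'' (DX u) (DX u') + Φ' (2 ⟪p u, u'⟫, 0)`. -/
theorem jt_em {p : E →L[ℝ] E} (hp : Pj p) {Φ : ℝ × E → ℝ} (sm : ContDiffOn ℝ 3 Φ (Cn p))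
    (hom : ∀ X ∈ Cn p, ∀ l : ℝ, 0 < l → Φ (sc p l X) = Φ X) {z : E}
    (hz : z ∈ Metric.ball (0 : E) 1) :
    Jt p z (fderiv ℝ Φ (em p z)) (SV Φ (em p z)) (fderiv ℝ (fun y => Φ (em p y)) z)
      (S2 (fun y => Φ (em p y)) z) := by
  have hX := em_Cn hp hz
  obtain ⟨he1, he2, he3⟩ := euler hp sm hom hX
  have hcd : ∀ y ∈ Metric.ball (0 : E) 1, ContDiffAt ℝ 3 Φ (em p y) := fun y hy =>
    sm.contDiffAt ((Cn_open p).mem_nhds (em_Cn hp hy))
  have hchain : ∀ y ∈ Metric.ball (0 : E) 1, ∀ u : E, fderiv ℝ (fun y => Φ (em p y)) y u =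
      fderiv ℝ Φ (em p y) (2 * inner ℝ (p y) u, u + p u) := by
    intro y hy u
    have h1 : HasFDerivAt Φ (fderiv ℝ Φ (em p y)) (em p y) :=
      ((hcd y hy).differentiableAt (by norm_num)).hasFDerivAt
    have h2 := h1.comp y (em_deriv hp y)
    have h3 : fderiv ℝ (fun y => Φ (em p y)) y = _ := h2.fderiv
    rw [h3]
    rfl
  refine ⟨hp, mem_ball_zero_iff.1 hz, he1, he2, he3, hchain z hz, ?_⟩
  intro u u'
  have h1 : HasFDerivAt (fun Y => fderiv ℝ Φ Y) (SV Φ (em p z)) (em p z) :=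
    (((hcd z hz).fderiv_right (m := 1) (by norm_num)).differentiableAt (by norm_num)).hasFDerivAt
  have h2 := @HasFDerivAt.comp ℝ _ E _ _ (ℝ × E) _ _ ((ℝ × E) →L[ℝ] ℝ) _ _ (em p) _ z
      (fun Y => fderiv ℝ Φ Y) (SV Φ (em p z)) h1 (em_deriv hp z)
  have h3 : HasFDerivAt (fun y : E => ((2 * inner ℝ (p y) u', u' + p u') : ℝ × E))
      (((2 : ℝ) • ((innerSL ℝ u').comp p)).prod (0 : E →L[ℝ] E)) z := by
    refine HasFDerivAt.prodMk ?_ (hasFDerivAt_const _ _)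
    have h4 : (fun y : E => 2 * inner ℝ (p y) u') = fun y => ((2 : ℝ) • ((innerSL ℝ u').comp p)) y := by
      funext y
      rw [real_inner_comm]
      rfl
    rw [h4]
    exact ContinuousLinearMap.hasFDerivAt _
  have h4 := h2.clm_apply h3
  have h5 : HasFDerivAt (fun y => fderiv ℝ (fun y => Φ (em p y)) y)
      (S2 (fun y => Φ (em p y)) z) z := by
    have h6 : ContDiffAt ℝ 3 (fun y => Φ (em p y)) z :=
      (hcd z hz).comp z (em_smooth p).contDiffAt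
    exact ((h6.fderiv_right (m := 1) (by norm_num)).differentiableAt (by norm_num)).hasFDerivAt
  have h6 := h5.clm_apply (hasFDerivAt_const u' z)
  have h7 : (fun y => fderiv ℝ (fun y => Φ (em p y)) y u') =ᶠ[𝓝 z]
      fun y => fderiv ℝ Φ (em p y) (2 * inner ℝ (p y) u', u' + p u') := by
    filter_upwards [Metric.isOpen_ball.mem_nhds hz] with y hy
    exact hchain y hy u'
  have h8 := (h4.congr_of_eventuallyEq h7).unique h6
  have h9 := congrArg (fun L : E →L[ℝ] ℝ => L u) h8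
  simp at h9
  have h10 : fderiv ℝ Φ (em p z) (2 * inner ℝ u' (p u), 0) =
      2 * inner ℝ (p u) u' * fderiv ℝ Φ (em p z) (1, 0) := by
    have e1 : ((2 * inner ℝ u' (p u), 0) : ℝ × E) = (2 * inner ℝ (p u) u') • ((1 : ℝ), (0 : E)) := by
      rw [Prod.smul_mk, smul_zero, smul_eq_mul, mul_one, real_inner_comm]
    rw [e1, map_smul, smul_eq_mul]
  rw [h10] at h9
  rw [← h9, add_comm]

/-- piece `ROT-L5`: if the derivative of `Φ ∘ em` vanishes then so does that of `Φ` (`decomp`, `euler`). -/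
theorem fderiv_em_ne {p : E →L[ℝ] E} (hp : Pj p) {Φ : ℝ × E → ℝ} (sm : ContDiffOn ℝ 3 Φ (Cn p))
    (hom : ∀ X ∈ Cn p, ∀ l : ℝ, 0 < l → Φ (sc p l X) = Φ X) {z : E}
    (hz : z ∈ Metric.ball (0 : E) 1) (h : fderiv ℝ Φ (em p z) ≠ 0) :
    fderiv ℝ (fun y => Φ (em p y)) z ≠ 0 := by
  intro h0
  apply h
  have J := jt_em hp sm hom hz
  have h1 : ‖p z‖ < 1 := by
    have h2 := pyth hp z
    have h3 : ‖z‖ < 1 := mem_ball_zero_iff.1 hz
    have h4 : ‖z‖ ^ 2 < 1 := by nlinarith [norm_nonneg z]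
    have h5 : ‖p z‖ ^ 2 < 1 := by nlinarith [sq_nonneg ‖z - p z‖]
    nlinarith [norm_nonneg (p z)]
  refine ContinuousLinearMap.ext fun v => ?_
  obtain ⟨u, κ, rfl⟩ := decomp hp h1 v
  rw [map_add, map_smul, J.e1, ← J.hl, h0]
  simp

/-- piece `ROT-L5`: link of the operators -/
theorem Mb_em {a : ℕ} {p : E →L[ℝ] E} (hp : Pj p)
    (hr : Module.finrank ℝ (LinearMap.range (p : E →ₗ[ℝ] E)) = a + 1) {Φ : ℝ × E → ℝ}
    (sm : ContDiffOn ℝ 3 Φ (Cn p))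
    (hom : ∀ X ∈ Cn p, ∀ l : ℝ, 0 < l → Φ (sc p l X) = Φ X) {z : E}
    (hz : z ∈ Metric.ball (0 : E) 1) (h : fderiv ℝ Φ (em p z) ≠ 0) :
    Mb a p (fun y => Φ (em p y)) z = √(1 - ‖z‖ ^ 2) * EE p Φ (em p z) := by
  exact (jt_em hp sm hom hz).main (fderiv_em_ne hp sm hom hz h) hr

end Pool.Agent.Helper75.ROT
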