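import Pool.Agent.Helper75.ROT.Op

/-! # ROT: the mean curvature of the metric in the chart

`Helper41/ALX/Ball.lean` (`meanCurv_ball` and the private theorems before it) has the same computation without the
projection `p` and the field `T`; its code can be copied. -/

set_option autoImplicit false
set_option linter.unusedSectionVars false
set_option linter.unusedVariables false

namespace Pool.Agent.Helper75.ROT

open Filter Topology
open scoped ContDiff
open Pool.Agent.Helper41.ALX (S2 Vertical ballMetric meanCurv divg)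

variable {E : Type*} [NormedAddCommGroup E] [InnerProductSpace ℝ E] [FiniteDimensional ℝ E]

/-! auxiliary results -/

private theorem rotG1_apply (P : E → E →L[ℝ] E) (z v : E) :
    ballMetric P z v = (1 - ‖z‖ ^ 2)⁻¹ • v +
      ((1 - ‖z‖ ^ 2) ^ 2)⁻¹ • (inner ℝ z v • z + ‖z‖ ^ 2 • P z v) := by
  simp [ballMetric, Pool.Agent.Helper41.ALX.radial]

private theorem rotG1_inner {a : ℕ} {P : E → E →L[ℝ] E} (hP : Vertical a P) {z : E} (hz : ‖z‖ < 1)
    (v : E) : ‖v‖ ^ 2 ≤ inner ℝ (ballMetric P z v) v := by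
  have hs : 0 < (1 - ‖z‖ ^ 2) := by
    have := norm_nonneg z
    nlinarith
  have hs1 : (1 - ‖z‖ ^ 2) ≤ 1 := by
    have := sq_nonneg ‖z‖
    linarith
  rw [rotG1_apply, inner_add_left, inner_smul_left, inner_smul_left, inner_add_left,
    inner_smul_left, inner_smul_left, real_inner_self_eq_norm_sq]
  have h1 : inner ℝ (P z v) v = ‖P z v‖ ^ 2 := by
    rw [← hP.idem z v, hP.symm, hP.idem, real_inner_self_eq_norm_sq]
  rw [h1]
  simp only [conj_trivial]
  have h2 : (1 : ℝ) ≤ (1 - ‖z‖ ^ 2)⁻¹ := (one_le_inv₀ hs).mpr hs1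
  have h3 : 0 ≤ ((1 - ‖z‖ ^ 2) ^ 2)⁻¹ * (inner ℝ z v * inner ℝ z v + ‖z‖ ^ 2 * ‖P z v‖ ^ 2) := by
    have := mul_self_nonneg (inner ℝ z v)
    positivity
  nlinarith [sq_nonneg ‖v‖]

private theorem rotG2_grad_sum (ρ : E → ℝ) (y : E) :
    gradient ρ y = ∑ i, (fderiv ℝ ρ y (stdOrthonormalBasis ℝ E i)) • stdOrthonormalBasis ℝ E i := by
  conv_lhs => rw [← (stdOrthonormalBasis ℝ E).sum_repr' (gradient ρ y)]
  refine Finset.sum_congr rfl fun i _ => ?_
  rw [real_inner_comm, inner_gradient_left]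

/-- the derivative of the gradient -/
private noncomputable def rotG2_H (ρ : E → ℝ) (z : E) : E →L[ℝ] E :=
  ∑ i, ((S2 ρ z).flip (stdOrthonormalBasis ℝ E i)).smulRight (stdOrthonormalBasis ℝ E i)

private theorem rotG2_H_inner (ρ : E → ℝ) (z v w : E) : inner ℝ w (rotG2_H ρ z v) = S2 ρ z v w := by
  have h1 : rotG2_H ρ z v =
      ∑ i, (S2 ρ z v (stdOrthonormalBasis ℝ E i)) • stdOrthonormalBasis ℝ E i := by
    simp [rotG2_H]
  rw [h1, inner_sum]
  conv_rhs => rw [← (stdOrthonormalBasis ℝ E).sum_repr' w]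
  rw [map_sum]
  refine Finset.sum_congr rfl fun i _ => ?_
  rw [map_smul, inner_smul_right, smul_eq_mul, mul_comm, real_inner_comm]

private theorem rotG2_d2 {ρ : E → ℝ} (hs : ContDiffOn ℝ 3 ρ (Metric.ball 0 1)) {z : E}
    (hz : z ∈ Metric.ball (0 : E) 1) :
    HasFDerivAt (fun y => fderiv ℝ ρ y) (S2 ρ z) z := by
  have h3 : ContDiffAt ℝ 3 ρ z := hs.contDiffAt (Metric.isOpen_ball.mem_nhds hz)
  have h4 : ContDiffAt ℝ 2 (fderiv ℝ ρ) z := h3.fderiv_right (by norm_num)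
  exact (h4.differentiableAt (by norm_num)).hasFDerivAt

private theorem rotG2_sym {ρ : E → ℝ} (hs : ContDiffOn ℝ 3 ρ (Metric.ball 0 1)) {z : E}
    (hz : z ∈ Metric.ball (0 : E) 1) (u v : E) : S2 ρ z u v = S2 ρ z v u := by
  have h3 : ContDiffAt ℝ 3 ρ z := hs.contDiffAt (Metric.isOpen_ball.mem_nhds hz)
  have h4 : IsSymmSndFDerivAt ℝ ρ z := h3.isSymmSndFDerivAt (by simp; norm_num)
  exact h4.eq u v

private theorem rotG2_hasGrad {ρ : E → ℝ} {z : E}
    (h2 : HasFDerivAt (fun y => fderiv ℝ ρ y) (S2 ρ z) z) :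
    HasFDerivAt (gradient ρ) (rotG2_H ρ z) z := by
  have h3 : gradient ρ = fun y => ∑ i, (fderiv ℝ ρ y (stdOrthonormalBasis ℝ E i)) •
      stdOrthonormalBasis ℝ E i := by
    funext y
    exact rotG2_grad_sum ρ y
  rw [h3]
  unfold rotG2_H
  apply HasFDerivAt.fun_sum
  intro i _
  have h4 : HasFDerivAt (fun y => fderiv ℝ ρ y (stdOrthonormalBasis ℝ E i))
      ((S2 ρ z).flip (stdOrthonormalBasis ℝ E i)) z := by
    have := h2.clm_apply (hasFDerivAt_const (stdOrthonormalBasis ℝ E i) z)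
    refine this.congr_fderiv ?_
    ext v
    simp
  exact h4.smul_const _

private theorem rotG2_u {ρ : E → ℝ} {z : E}
    (h2 : HasFDerivAt (fun y => fderiv ℝ ρ y) (S2 ρ z) z) :
    HasFDerivAt (fun y => fderiv ℝ ρ y y) ((S2 ρ z).flip z + fderiv ℝ ρ z) z := by
  have := h2.clm_apply (hasFDerivAt_id z)
  refine this.congr_fderiv ?_
  ext v
  simp [add_comm]

private theorem rotG2_up {ρ : E → ℝ} {z : E} (p : E →L[ℝ] E)
    (h2 : HasFDerivAt (fun y => fderiv ℝ ρ y) (S2 ρ z) z) :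
    HasFDerivAt (fun y => fderiv ℝ ρ y (p y)) ((S2 ρ z).flip (p z) + (fderiv ℝ ρ z).comp p) z := by
  have := h2.clm_apply (p.hasFDerivAt (x := z))
  refine this.congr_fderiv ?_
  ext v
  simp [add_comm]

private theorem rotG2_pn (p : E →L[ℝ] E) (z : E) :
    HasFDerivAt (fun y : E => ‖p y‖ ^ 2) ((2 : ℝ) • (innerSL ℝ (p z)).comp p) z := by
  have h3 := (p.hasFDerivAt (x := z)).norm_sq
  refine h3.congr_fderiv ?_
  ext v
  simp

private theorem rotG2_Yeq {p : E →L[ℝ] E} (ρ : E → ℝ) (y : E) :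
    Yf p y (fderiv ℝ ρ y) = gradient ρ y - fderiv ℝ ρ y y • y - ‖p y‖ ^ 2 • p (gradient ρ y) +
      fderiv ℝ ρ y (p y) • p y := by
  have h1 : vg (fderiv ℝ ρ y) = gradient ρ y := rfl
  have h2 : ∀ w, inner ℝ w (gradient ρ y) = fderiv ℝ ρ y w := fun w => by
    rw [real_inner_comm, inner_gradient_left]
  simp only [Yf, Gop, h1, add_apply, sub_apply, smul_apply,
    ContinuousLinearMap.id_apply, ContinuousLinearMap.smulRight_apply, innerSL_apply_apply, h2]

private theorem rotG2_Y {p : E →L[ℝ] E} {ρ : E → ℝ} {z : E}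
    (h2 : HasFDerivAt (fun y => fderiv ℝ ρ y) (S2 ρ z) z) :
    HasFDerivAt (fun y => Yf p y (fderiv ℝ ρ y))
      (rotG2_H ρ z - (fderiv ℝ ρ z z • ContinuousLinearMap.id ℝ E +
        ((S2 ρ z).flip z + fderiv ℝ ρ z).smulRight z) -
        (‖p z‖ ^ 2 • p.comp (rotG2_H ρ z) +
          ((2 : ℝ) • (innerSL ℝ (p z)).comp p).smulRight (p (gradient ρ z))) +
        (fderiv ℝ ρ z (p z) • p +
          ((S2 ρ z).flip (p z) + (fderiv ℝ ρ z).comp p).smulRight (p z))) z := by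
  have h3 : (fun y => Yf p y (fderiv ℝ ρ y)) = fun y => gradient ρ y - fderiv ℝ ρ y y • y -
      ‖p y‖ ^ 2 • p (gradient ρ y) + fderiv ℝ ρ y (p y) • p y := by
    funext y
    exact rotG2_Yeq ρ y
  rw [h3]
  have hg := rotG2_hasGrad h2
  have hpg : HasFDerivAt (fun y => p (gradient ρ y)) (p.comp (rotG2_H ρ z)) z :=
    p.hasFDerivAt.comp z hg
  exact ((hg.sub ((rotG2_u h2).smul (hasFDerivAt_id z))).sub
    ((rotG2_pn p z).smul hpg)).add ((rotG2_up p h2).smul (p.hasFDerivAt (x := z)))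

private theorem rotG3_q {p : E →L[ℝ] E} (hp : Pj p) {ρ : E → ℝ} {z : E}
    (h2 : HasFDerivAt (fun y => fderiv ℝ ρ y) (S2 ρ z) z) :
    ∃ D : E →L[ℝ] ℝ, HasFDerivAt (fun y => qf p y (fderiv ℝ ρ y)) D z ∧
      ∀ u, D u = 2 * S2 ρ z u (Yf p z (fderiv ℝ ρ z)) - 2 * fderiv ℝ ρ z z * fderiv ℝ ρ z u -
        2 * inner ℝ (p z) u * ‖p (gradient ρ z)‖ ^ 2 +
        2 * fderiv ℝ ρ z (p z) * fderiv ℝ ρ z (p u) := by
  have hin : ∀ y w, inner ℝ (gradient ρ y) w = fderiv ℝ ρ y w := fun y w => inner_gradient_left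
  have h3 : (fun y => qf p y (fderiv ℝ ρ y)) = fun y => ‖gradient ρ y‖ ^ 2 - fderiv ℝ ρ y y ^ 2 -
      ‖p y‖ ^ 2 * ‖p (gradient ρ y)‖ ^ 2 + fderiv ℝ ρ y (p y) ^ 2 := by
    funext y
    have e1 : fderiv ℝ ρ y (gradient ρ y) = ‖gradient ρ y‖ ^ 2 := by
      rw [← hin, real_inner_self_eq_norm_sq]
    have e2 : fderiv ℝ ρ y (p (gradient ρ y)) = ‖p (gradient ρ y)‖ ^ 2 := by
      rw [← hin, ← real_inner_self_eq_norm_sq, hp.symm, hp.idem]
    rw [qf, rotG2_Yeq]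
    simp only [map_add, map_sub, map_smul, smul_eq_mul, e1, e2]
    ring
  have hg := rotG2_hasGrad h2
  have hpg : HasFDerivAt (fun y => p (gradient ρ y)) (p.comp (rotG2_H ρ z)) z :=
    p.hasFDerivAt.comp z hg
  have h4 := ((hg.norm_sq.sub ((rotG2_u h2).pow 2)).sub ((rotG2_pn p z).mul hpg.norm_sq)).add
    ((rotG2_up p h2).pow 2)
  refine ⟨_, h4.congr_of_eventuallyEq (Eventually.of_forall fun y => congrFun h3 y), ?_⟩
  · intro u
    have e3 : inner ℝ (gradient ρ z) (rotG2_H ρ z u) = S2 ρ z u (gradient ρ z) :=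
      rotG2_H_inner _ _ _ _
    have e4 : inner ℝ (p (gradient ρ z)) (p (rotG2_H ρ z u)) = S2 ρ z u (p (gradient ρ z)) := by
      rw [← rotG2_H_inner ρ z u, ← hp.symm, hp.idem]
    have e5 : inner ℝ (p z) (p u) = inner ℝ (p z) u := by
      rw [← hp.symm, hp.idem]
    rw [rotG2_Yeq]
    simp [e3, e4, e5]
    ring

/-- piece `ROT-G1`: the inverse metric. Proof: as `inv_ball` in Helper41/ALX/Ball.lean (injectivity of `ballMetric P z` from
`⟪ballMetric P z v, v⟫ ≥ ‖v‖²`; the metric maps the right side to `v`: `P z z = 0`, `⟪z, P z v⟫ = 0`, `P z (P z v) = P z v`). -/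
theorem inv_full {a : ℕ} {P : E → E →L[ℝ] E} (hP : Vertical a P) {z : E} (hz : ‖z‖ < 1) (v : E) :
    (ballMetric P z).inverse v =
      (1 - ‖z‖ ^ 2) • (v - inner ℝ z v • z - ‖z‖ ^ 2 • P z v) := by
  have hinj : Function.Injective (ballMetric P z : E →ₗ[ℝ] E) := by
    rw [injective_iff_map_eq_zero]
    intro v hv
    have h := rotG1_inner hP hz v
    have hv' : ballMetric P z v = 0 := hv
    rw [hv', inner_zero_left] at h
    have h2 : ‖v‖ ^ 2 = 0 := le_antisymm h (sq_nonneg _)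
    exact norm_eq_zero.mp (pow_eq_zero_iff (two_ne_zero) |>.mp h2)
  let e : E ≃L[ℝ] E := (LinearEquiv.ofInjectiveEndo (ballMetric P z : E →ₗ[ℝ] E)
    hinj).toContinuousLinearEquiv
  have he : (e : E →L[ℝ] E) = ballMetric P z := by
    ext v
    rfl
  rw [← he, ContinuousLinearMap.inverse_equiv]
  change e.symm v = _
  rw [ContinuousLinearEquiv.symm_apply_eq]
  change v = ballMetric P z _
  have hs : (1 - ‖z‖ ^ 2) ≠ 0 := by
    have := norm_nonneg z
    nlinarith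
  have h1 : inner ℝ z (P z v) = 0 := by
    rw [← hP.symm, hP.radial, inner_zero_left]
  have h2 : inner ℝ z (v - inner ℝ z v • z - ‖z‖ ^ 2 • P z v) = (1 - ‖z‖ ^ 2) * inner ℝ z v := by
    rw [inner_sub_right, inner_sub_right, inner_smul_right, inner_smul_right, h1,
      real_inner_self_eq_norm_sq]
    ring
  have h3 : P z (v - inner ℝ z v • z - ‖z‖ ^ 2 • P z v) = (1 - ‖z‖ ^ 2) • P z v := by
    rw [map_sub, map_sub, map_smul, map_smul, hP.radial, hP.idem, smul_zero, sub_zero, sub_smul,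
      one_smul]
  rw [rotG1_apply, inner_smul_right, h2, map_smul, h3, smul_smul, inv_mul_cancel₀ hs, one_smul,
    smul_add, smul_smul, smul_smul, smul_smul, smul_smul]
  have h4 : ((1 - ‖z‖ ^ 2) ^ 2)⁻¹ * ((1 - ‖z‖ ^ 2) * ((1 - ‖z‖ ^ 2) * inner ℝ z v)) =
      inner ℝ z v := by
    field_simp
  have h5 : ((1 - ‖z‖ ^ 2) ^ 2)⁻¹ * (‖z‖ ^ 2 * ((1 - ‖z‖ ^ 2) * (1 - ‖z‖ ^ 2))) =
      ‖z‖ ^ 2 := by
    field_simp
  rw [h4, mul_assoc, mul_assoc, h5]
  abel

/-- piece `ROT-G1`: for vectors that are orthogonal to the vertical spaces of `z - p z`; `inv_full` and `hA.vert`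
(`Gop p z v = v - ⟪z, v⟫ z - ‖p z‖² p v + ⟪p z, v⟫ p z`). -/
theorem Axis.inv {a : ℕ} {P : E → E →L[ℝ] E} (hP : Vertical a P) {p : E →L[ℝ] E}
    {T : E →L[ℝ] E →L[ℝ] E →L[ℝ] E} (hA : Axis a P p T) {z : E} (hz : ‖z‖ < 1) {v : E}
    (hv : ∀ b c, inner ℝ (T (p b) (p c) z) v = 0) :
    (ballMetric P z).inverse v = (1 - ‖z‖ ^ 2) • (Gop p z v - T (p z) (p v) z) := by
  rw [inv_full hP hz, hA.vert z v hv]
  congr 1
  simp only [Gop, add_apply, sub_apply, smul_apply,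
    ContinuousLinearMap.id_apply, ContinuousLinearMap.smulRight_apply, innerSL_apply_apply]
  abel

/-- piece `ROT-G2`: the functions and fields of the computation are differentiable (`ρ` is `C³` near `z`):
`gradient ρ y = vg (fderiv ρ y)` is `C²`, everything else is polynomial in `y` and the gradient. -/
theorem diff_all {p : E →L[ℝ] E} {T : E →L[ℝ] E →L[ℝ] E →L[ℝ] E} {ρ : E → ℝ}
    (hs : ContDiffOn ℝ 3 ρ (Metric.ball 0 1)) {z : E} (hz : z ∈ Metric.ball (0 : E) 1) :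
    DifferentiableAt ℝ (fun y => Yf p y (fderiv ℝ ρ y)) z ∧
    DifferentiableAt ℝ (fun y => qf p y (fderiv ℝ ρ y)) z ∧
    DifferentiableAt ℝ (fun y => T (p y) (p (gradient ρ y)) y) z := by
  have h2 := rotG2_d2 hs hz
  have hg := rotG2_hasGrad h2
  refine ⟨(rotG2_Y h2).differentiableAt, ?_, ?_⟩
  · have h3 : DifferentiableAt ℝ (fun y => fderiv ℝ ρ y (Yf p y (fderiv ℝ ρ y))) z :=
      h2.differentiableAt.clm_apply (rotG2_Y h2).differentiableAt
    exact h3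
  · have h4 : DifferentiableAt ℝ (fun y => p (gradient ρ y)) z :=
      p.differentiableAt.comp z hg.differentiableAt
    have h5 : DifferentiableAt ℝ (fun y => T (p y)) z :=
      (T.comp p).differentiableAt
    exact (h5.clm_apply h4).clm_apply differentiableAt_id

private theorem rotG2_tr {p : E →L[ℝ] E} (hp : Pj p) :
    ∑ i, inner ℝ (stdOrthonormalBasis ℝ E i) (p (stdOrthonormalBasis ℝ E i)) =
      (Module.finrank ℝ (LinearMap.range (p : E →ₗ[ℝ] E)) : ℝ) := by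
  have h1 : IsIdempotentElem (p : E →ₗ[ℝ] E) := by
    ext v
    exact hp.idem v
  have h2 := LinearMap.IsProj.trace (LinearMap.IsIdempotentElem.isProj_range _ h1)
  rw [← h2, LinearMap.trace_eq_sum_inner _ (stdOrthonormalBasis ℝ E)]
  rfl

private theorem rotG2_sum (f : E →L[ℝ] ℝ) (x : E) :
    ∑ i, f (stdOrthonormalBasis ℝ E i) * inner ℝ (stdOrthonormalBasis ℝ E i) x = f x := by
  conv_rhs => rw [← (stdOrthonormalBasis ℝ E).sum_repr' x]
  rw [map_sum]
  refine Finset.sum_congr rfl fun i _ => ?_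
  rw [map_smul, smul_eq_mul, mul_comm]

/-- piece `ROT-G2`: divergence of `Y`. `l = fderiv ρ z`.
Proof. `v y = gradient ρ y`, `D v u = H u` with `⟪H u, w⟫ = S2 ρ z u w`. `Y = v - ⟪y, v⟫ y - ‖p y‖² p v + ⟪p y, v⟫ p y`, so
`D Y u = H u - (⟪u, v⟫ + ⟪z, H u⟫) z - ⟪z, v⟫ u - 2 ⟪p z, u⟫ p v - ‖p z‖² p (H u) + (⟪p u, v⟫ + ⟪p z, H u⟫) p z + ⟪p z, v⟫ p u`.
Trace (`∑ ⟪D Y e_i, e_i⟫`): `∑ S2 e_i e_i - l z - S2 z z - N l z - 2 l (p z) - ‖p z‖² ∑ S2 e_i (p e_i) + l (p z) + S2 (p z) (p z) +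
l (p z) (a + 1)` (`N` = dimension, `∑ ⟪p e_i, e_i⟫ = a + 1`), and `Tf p z (S2 ρ z) = ∑ S2 e_i e_i - S2 z z - ‖p z‖² ∑ S2 (p e_i) e_i +
S2 (p z) (p z)`. -/
theorem div_Y {a : ℕ} {p : E →L[ℝ] E} (hp : Pj p)
    (hr : Module.finrank ℝ (LinearMap.range (p : E →ₗ[ℝ] E)) = a + 1) {ρ : E → ℝ}
    (hs : ContDiffOn ℝ 3 ρ (Metric.ball 0 1)) {z : E} (hz : z ∈ Metric.ball (0 : E) 1) :
    divg (fun y => Yf p y (fderiv ℝ ρ y)) z = Tf p z (S2 ρ z) -
      (Module.finrank ℝ E + 1) * fderiv ℝ ρ z z + a * fderiv ℝ ρ z (p z) := by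
  have h2 := rotG2_d2 hs hz
  have hin : ∀ y w, inner ℝ (gradient ρ y) w = fderiv ℝ ρ y w := fun y w => inner_gradient_left
  have hsy := rotG2_sym hs hz
  unfold divg
  rw [(rotG2_Y h2).fderiv, LinearMap.trace_eq_sum_inner _ (stdOrthonormalBasis ℝ E)]
  set b := stdOrthonormalBasis ℝ E with hb
  set l := fderiv ℝ ρ z with hl
  have e1 : ∀ i, inner ℝ (b i) ((((rotG2_H ρ z - (l z • ContinuousLinearMap.id ℝ E +
        ((S2 ρ z).flip z + l).smulRight z) -
        (‖p z‖ ^ 2 • p.comp (rotG2_H ρ z) +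
          ((2 : ℝ) • (innerSL ℝ (p z)).comp p).smulRight (p (gradient ρ z))) +
        (l (p z) • p + ((S2 ρ z).flip (p z) + l.comp p).smulRight (p z)) : E →L[ℝ] E) :
          E →ₗ[ℝ] E)) (b i)) =
      S2 ρ z (b i) (b i) - l z - (S2 ρ z).flip z (b i) * inner ℝ (b i) z -
        l (b i) * inner ℝ (b i) z - ‖p z‖ ^ 2 * S2 ρ z (p (b i)) (b i) -
        2 * (((innerSL ℝ (p z)).comp p) (b i) * inner ℝ (b i) (p (gradient ρ z))) +
        l (p z) * inner ℝ (b i) (p (b i)) + (S2 ρ z).flip (p z) (b i) * inner ℝ (b i) (p z) +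
        (l.comp p) (b i) * inner ℝ (b i) (p z) := by
    intro i
    have g1 : inner ℝ (b i) (p (rotG2_H ρ z (b i))) = S2 ρ z (p (b i)) (b i) := by
      rw [← hp.symm, rotG2_H_inner, hsy]
    have g2 : inner ℝ (b i) (b i) = (1 : ℝ) := by
      rw [real_inner_self_eq_norm_sq, b.norm_eq_one, one_pow]
    simp only [ContinuousLinearMap.coe_coe, add_apply, sub_apply, smul_apply,
      ContinuousLinearMap.id_apply, ContinuousLinearMap.smulRight_apply,
      ContinuousLinearMap.comp_apply, innerSL_apply_apply, inner_add_right, inner_sub_right,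
      inner_smul_right, rotG2_H_inner, g1, g2, smul_eq_mul]
    ring
  rw [Finset.sum_congr rfl fun i _ => e1 i]
  simp only [Finset.sum_add_distrib, Finset.sum_sub_distrib, ← Finset.mul_sum]
  have hN : ∑ i : Fin (Module.finrank ℝ E), l z = Module.finrank ℝ E * l z := by
    simp
  rw [hb, rotG2_sum, rotG2_sum, rotG2_sum, rotG2_tr hp, rotG2_sum, rotG2_sum, hr, hN, ← hb]
  have e2 : Tf p z (S2 ρ z) = ∑ i, S2 ρ z (b i) (b i) - S2 ρ z z z -
      ‖p z‖ ^ 2 * ∑ i, S2 ρ z (p (b i)) (b i) + S2 ρ z (p z) (p z) := by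
    have g1 : ∀ i, S2 ρ z (Gop p z (b i)) (b i) = S2 ρ z (b i) (b i) -
        S2 ρ z z (b i) * inner ℝ (b i) z - ‖p z‖ ^ 2 * S2 ρ z (p (b i)) (b i) +
        S2 ρ z (p z) (b i) * inner ℝ (b i) (p z) := by
      intro i
      rw [real_inner_comm z (b i), real_inner_comm (p z) (b i)]
      simp only [Gop, add_apply, sub_apply, smul_apply, map_add, map_sub, map_smul,
        ContinuousLinearMap.id_apply, ContinuousLinearMap.smulRight_apply, innerSL_apply_apply,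
        smul_eq_mul]
      ring
    unfold Tf
    rw [← hb, Finset.sum_congr rfl fun i _ => g1 i]
    simp only [Finset.sum_add_distrib, Finset.sum_sub_distrib, ← Finset.mul_sum]
    rw [hb, rotG2_sum, rotG2_sum]
  rw [e2]
  have e3 : ((innerSL ℝ (p z)).comp p) (p (gradient ρ z)) = l (p z) := by
    simp only [ContinuousLinearMap.comp_apply, innerSL_apply_apply]
    rw [hp.idem, ← hp.symm, hp.idem, real_inner_comm, hin]
  have e4 : (l.comp p) (p z) = l (p z) := by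
    rw [ContinuousLinearMap.comp_apply, hp.idem]
  have e5 : (S2 ρ z).flip z z = S2 ρ z z z := rfl
  have e6 : (S2 ρ z).flip (p z) (p z) = S2 ρ z (p z) (p z) := rfl
  rw [e3, e4, e5, e6]
  push_cast
  ring

/-- piece `ROT-G3`: derivative of `q` in the direction `Y`. `l = fderiv ρ z`, `v = gradient ρ z`, `v₁ = p v`.
Proof. `q = ‖v‖² - ⟪y, v⟫² - ‖p y‖² ‖p v‖² + ⟪p y, v⟫²`, so `D q u = 2 S2 u Y - 2 (l z) l u - 2 ⟪p z, u⟫ ‖v₁‖² + 2 l (p z) l (p u)`
(`D v u = H u`; the terms with `H u` sum up to `2 ⟪H u, Gop p z v⟫`). For `u = Y`: `l Y = q`, `⟪p z, Y⟫ = l (p z) - ‖p z‖² l z`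
(`Gop p z (p z) = p z - ‖p z‖² z`), `l (p Y) = ‖v₁‖² (1 - ‖p z‖²) + (l (p z) - l z) l (p z)`. Sum:
`2 S2 Y Y - 2 (l z) q + 2 ‖p z‖² ‖v₁‖² (l z - l (p z)) - 2 (l z - l (p z)) l (p z)² = 2 (S2 Y Y - (l z) q + l (z - p z) Df)`. -/
theorem q_Y {p : E →L[ℝ] E} (hp : Pj p) {ρ : E → ℝ}
    (hs : ContDiffOn ℝ 3 ρ (Metric.ball 0 1)) {z : E} (hz : z ∈ Metric.ball (0 : E) 1) :
    fderiv ℝ (fun y => qf p y (fderiv ℝ ρ y)) z (Yf p z (fderiv ℝ ρ z)) =
      2 * (S2 ρ z (Yf p z (fderiv ℝ ρ z)) (Yf p z (fderiv ℝ ρ z)) -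
        fderiv ℝ ρ z z * qf p z (fderiv ℝ ρ z) +
        fderiv ℝ ρ z (z - p z) * Df p z (fderiv ℝ ρ z)) := by
  have h2 := rotG2_d2 hs hz
  obtain ⟨D, hD, h⟩ := rotG3_q hp h2
  have hin : ∀ y w, inner ℝ (gradient ρ y) w = fderiv ℝ ρ y w := fun y w => inner_gradient_left
  rw [hD.fderiv, h]
  have e1 : fderiv ℝ ρ z (Yf p z (fderiv ℝ ρ z)) = qf p z (fderiv ℝ ρ z) := rfl
  have e2 : inner ℝ (p z) (Yf p z (fderiv ℝ ρ z)) =
      fderiv ℝ ρ z (p z) - ‖p z‖ ^ 2 * fderiv ℝ ρ z z := by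
    rw [rotG2_Yeq]
    simp only [inner_add_right, inner_sub_right, inner_smul_right]
    rw [real_inner_comm (gradient ρ z) (p z), hin, real_inner_self_eq_norm_sq]
    have e3 : inner ℝ (p z) (p (gradient ρ z)) = fderiv ℝ ρ z (p z) := by
      rw [← hp.symm, hp.idem, real_inner_comm, hin]
    have e4 : inner ℝ (p z) z = ‖p z‖ ^ 2 := by
      rw [← hp.idem z, hp.symm, hp.idem, real_inner_self_eq_norm_sq]
    rw [e3, e4]
    ring
  have e5 : fderiv ℝ ρ z (p (Yf p z (fderiv ℝ ρ z))) =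
      ‖p (gradient ρ z)‖ ^ 2 * (1 - ‖p z‖ ^ 2) +
        (fderiv ℝ ρ z (p z) - fderiv ℝ ρ z z) * fderiv ℝ ρ z (p z) := by
    have e6 : fderiv ℝ ρ z (p (gradient ρ z)) = ‖p (gradient ρ z)‖ ^ 2 := by
      rw [← hin, ← real_inner_self_eq_norm_sq, hp.symm, hp.idem]
    rw [rotG2_Yeq]
    simp only [map_add, map_sub, map_smul, smul_eq_mul, hp.idem, e6]
    ring
  have e7 : vg (fderiv ℝ ρ z) = gradient ρ z := rfl
  rw [e1, e2, e5, Df, e7, map_sub]
  ring

/-- piece `ROT-G4`: the field `T`. Differentiate `⟪T (p b) (p c) y, ∇ρ y⟫ = fderiv ρ y (T (p b) (p c) y) = 0` in the direction `u`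
(`S2 ρ z u w` is symmetric). -/
theorem T_S2 {p : E →L[ℝ] E} {T : E →L[ℝ] E →L[ℝ] E →L[ℝ] E} {ρ : E → ℝ}
    (hs : ContDiffOn ℝ 3 ρ (Metric.ball 0 1))
    (hv : ∀ y ∈ Metric.ball (0 : E) 1, ∀ b c, inner ℝ (T (p b) (p c) y) (gradient ρ y) = 0)
    {z : E} (hz : z ∈ Metric.ball (0 : E) 1) (b c u : E) :
    S2 ρ z u (T (p b) (p c) z) = -fderiv ℝ ρ z (T (p b) (p c) u) := by
  have h2 := rotG2_d2 hs hz
  have hin : ∀ y w, inner ℝ (gradient ρ y) w = fderiv ℝ ρ y w := fun y w => inner_gradient_left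
  have h3 : HasFDerivAt (fun y => fderiv ℝ ρ y (T (p b) (p c) y))
      ((S2 ρ z).flip (T (p b) (p c) z) + (fderiv ℝ ρ z).comp (T (p b) (p c))) z := by
    have := h2.clm_apply ((T (p b) (p c)).hasFDerivAt (x := z))
    refine this.congr_fderiv ?_
    ext v
    simp [add_comm]
  have h4 : (fun y => fderiv ℝ ρ y (T (p b) (p c) y)) =ᶠ[𝓝 z] fun _ => (0 : ℝ) := by
    filter_upwards [Metric.isOpen_ball.mem_nhds hz] with y hy
    rw [← hin, real_inner_comm]
    exact hv y hy b c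
  have h5 : HasFDerivAt (fun _ : E => (0 : ℝ)) ((S2 ρ z).flip (T (p b) (p c) z) +
      (fderiv ℝ ρ z).comp (T (p b) (p c))) z := h3.congr_of_eventuallyEq h4.symm
  have h6 := h5.unique (hasFDerivAt_const (0 : ℝ) z)
  have h7 := congrArg (fun L : E →L[ℝ] ℝ => L u) h6
  simp only [add_apply, ContinuousLinearMap.flip_apply, ContinuousLinearMap.comp_apply,
    zero_apply] at h7
  linarith

/-- piece `ROT-G4`: `q` is constant in the direction of `A z`, `A = T (p b) (p c)`.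
Proof. `A` is skew, `p A = 0`, so `A p = 0`. With the formula for `D q u` in `q_Y` and `u = A z`: `D v (A z) = H (A z) = A v`, because
`⟪H (A z), w⟫ = S2 w (A z) = - l (A w) = ⟪A v, w⟫`. So `D ‖v‖² = 2 ⟪v, A v⟫ = 0`, `D ⟪y, v⟫ = ⟪A z, v⟫ + ⟪z, A v⟫ = 0`,
`D (p y) = p A z = 0`, `D (p v) = p A v = 0`, `D ⟪p y, v⟫ = ⟪p z, A v⟫ = 0`. -/
theorem T_q {a : ℕ} {P : E → E →L[ℝ] E} {p : E →L[ℝ] E}
    {T : E →L[ℝ] E →L[ℝ] E →L[ℝ] E} (hA : Axis a P p T) {ρ : E → ℝ}
    (hs : ContDiffOn ℝ 3 ρ (Metric.ball 0 1))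
    (hv : ∀ y ∈ Metric.ball (0 : E) 1, ∀ b c, inner ℝ (T (p b) (p c) y) (gradient ρ y) = 0)
    {z : E} (hz : z ∈ Metric.ball (0 : E) 1) (b c : E) :
    fderiv ℝ (fun y => qf p y (fderiv ℝ ρ y)) z (T (p b) (p c) z) = 0 := by
  have h2 := rotG2_d2 hs hz
  have hp : Pj p := ⟨hA.symm, hA.idem⟩
  obtain ⟨D, hD, h⟩ := rotG3_q hp h2
  have hin : ∀ y w, inner ℝ (gradient ρ y) w = fderiv ℝ ρ y w := fun y w => inner_gradient_left
  rw [hD.fderiv, h]
  set A := T (p b) (p c) with hAA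
  have hsk : ∀ u v, inner ℝ (A u) v = -inner ℝ u (A v) := hA.skew (p b) (p c)
  have hpA : ∀ u, p (A u) = 0 := hA.ran (p b) (p c)
  have hAp : ∀ u, A (p u) = 0 := by
    intro u
    have h3 : inner ℝ (A (p u)) (A (p u)) = 0 := by
      rw [hsk, hp.symm, hpA, inner_zero_right, neg_zero]
    exact inner_self_eq_zero.1 h3
  have e1 : fderiv ℝ ρ z (A z) = 0 := by
    rw [← hin, real_inner_comm]
    exact hv z hz b c
  have e2 : S2 ρ z (A z) (Yf p z (fderiv ℝ ρ z)) = 0 := by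
    rw [rotG2_sym hs hz, T_S2 hs hv hz b c, ← hAA, rotG2_Yeq]
    have g1 : fderiv ℝ ρ z (A (gradient ρ z)) = 0 := by
      have g2 := hsk (gradient ρ z) (gradient ρ z)
      rw [real_inner_comm, hin] at g2
      linarith
    simp only [map_add, map_sub, map_smul, hAp, e1, g1, smul_zero, sub_zero, add_zero, neg_zero]
  have e3 : inner ℝ (p z) (A z) = 0 := by
    rw [hp.symm, hpA, inner_zero_right]
  rw [e1, e2, e3, hpA, map_zero]
  ring

private theorem rotG4_comm (L M : E →L[ℝ] E) :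
    ∑ i, inner ℝ (stdOrthonormalBasis ℝ E i) (L (M (stdOrthonormalBasis ℝ E i))) =
      ∑ i, inner ℝ (stdOrthonormalBasis ℝ E i) (M (L (stdOrthonormalBasis ℝ E i))) := by
  have h := LinearMap.trace_mul_comm ℝ (L : E →ₗ[ℝ] E) (M : E →ₗ[ℝ] E)
  rw [LinearMap.trace_eq_sum_inner _ (stdOrthonormalBasis ℝ E),
    LinearMap.trace_eq_sum_inner _ (stdOrthonormalBasis ℝ E)] at h
  exact h

private theorem rotG4_bil {p : E →L[ℝ] E} (hp : Pj p) (Q : E →L[ℝ] E →L[ℝ] ℝ) :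
    ∑ i, Q (p (stdOrthonormalBasis ℝ E i)) (stdOrthonormalBasis ℝ E i) =
      ∑ i, Q (stdOrthonormalBasis ℝ E i) (p (stdOrthonormalBasis ℝ E i)) := by
  set b := stdOrthonormalBasis ℝ E with hb
  have h1 : ∀ i, Q (p (b i)) (b i) = ∑ j, inner ℝ (b j) (p (b i)) * Q (b j) (b i) := by
    intro i
    conv_lhs => rw [← b.sum_repr' (p (b i))]
    rw [map_sum, ContinuousLinearMap.sum_apply]
    refine Finset.sum_congr rfl fun j _ => ?_
    rw [map_smul, smul_apply, smul_eq_mul]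
  have h2 : ∀ j, Q (b j) (p (b j)) = ∑ i, inner ℝ (b j) (p (b i)) * Q (b j) (b i) := by
    intro j
    conv_lhs => rw [← b.sum_repr' (p (b j))]
    rw [map_sum]
    refine Finset.sum_congr rfl fun i _ => ?_
    rw [map_smul, smul_eq_mul, ← hp.symm, real_inner_comm]
  rw [Finset.sum_congr rfl fun i _ => h1 i, Finset.sum_congr rfl fun i _ => h2 i,
    Finset.sum_comm]

/-- piece `ROT-G4`: divergence of the field `τ y = T (p y) (p v) y`, `v y = gradient ρ y`.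
Proof. `D τ u = T (p u) (p v) z + T (p z) (p (H u)) z + T (p z) (p v) u`. Traces: the third map is skew, trace `0`. First: the map
`B u = T (p u) (p v) z` satisfies `B = B ∘ p` and `p ∘ B = 0`, so `trace B = trace (B ∘ p) = trace (p ∘ B) = 0`. Second: `C u = T (p z) (p u) z`,
`trace (C ∘ H) = trace (H ∘ C) = ∑ ⟪H (C e_i), e_i⟫ = ∑ S2 e_i (C e_i) = - ∑ l (T (p z) (p e_i) e_i)` (`T_S2` with `b = z`, `c = e_i`, `u = e_i`), and
`∑ T (p z) (p e_i) e_i = ∑ T (p z) (p e_i) (p e_i) = 0` (`p` is symmetric and idempotent; `A p = 0` for `A = T (p z) (p e)`). -/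
theorem T_div {a : ℕ} {P : E → E →L[ℝ] E} {p : E →L[ℝ] E}
    {T : E →L[ℝ] E →L[ℝ] E →L[ℝ] E} (hA : Axis a P p T) {ρ : E → ℝ}
    (hs : ContDiffOn ℝ 3 ρ (Metric.ball 0 1))
    (hv : ∀ y ∈ Metric.ball (0 : E) 1, ∀ b c, inner ℝ (T (p b) (p c) y) (gradient ρ y) = 0)
    {z : E} (hz : z ∈ Metric.ball (0 : E) 1) :
    divg (fun y => T (p y) (p (gradient ρ y)) y) z = 0 := by
  have h2 := rotG2_d2 hs hz
  have hp : Pj p := ⟨hA.symm, hA.idem⟩
  have hin : ∀ y w, inner ℝ (gradient ρ y) w = fderiv ℝ ρ y w := fun y w => inner_gradient_left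
  have hg := rotG2_hasGrad h2
  have hAp : ∀ b c u, T b c (p u) = 0 := by
    intro b c u
    have h3 : inner ℝ (T b c (p u)) (T b c (p u)) = 0 := by
      rw [hA.skew, hp.symm, hA.ran, inner_zero_right, neg_zero]
    exact inner_self_eq_zero.1 h3
  set v := gradient ρ z with hvd
  set H := rotG2_H ρ z with hH
  have hpg : HasFDerivAt (fun y => p (gradient ρ y)) (p.comp H) z := p.hasFDerivAt.comp z hg
  have hTp : HasFDerivAt (fun y => T (p y)) (T.comp p) z := (T.comp p).hasFDerivAt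
  have h3 := (hTp.clm_apply hpg).clm_apply (hasFDerivAt_id z)
  have h4 : HasFDerivAt (fun y => T (p y) (p (gradient ρ y)) y) _ z := h3
  unfold divg
  rw [h4.fderiv, LinearMap.trace_eq_sum_inner _ (stdOrthonormalBasis ℝ E)]
  set b := stdOrthonormalBasis ℝ E with hb
  have e1 : ∀ i, inner ℝ (b i) (T (p z) (p v) (b i)) = 0 := by
    intro i
    have g1 := hA.skew (p z) (p v) (b i) (b i)
    rw [real_inner_comm] at g1
    linarith
  have e2 : ∑ i, inner ℝ (b i) (T (p (b i)) (p v) z) = 0 := by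
    have g1 := rotG4_comm ((T.flip (p v)).flip z) p
    have g2 : ∀ u, (T.flip (p v)).flip z u = T u (p v) z := fun u => rfl
    simp only [g2, hA.ran, inner_zero_right, Finset.sum_const_zero] at g1
    exact g1
  have e3 : ∑ i, inner ℝ (b i) (T (p z) (p (H (b i))) z) = 0 := by
    have g1 := rotG4_comm (((T (p z)).flip z).comp p) H
    have g2 : ∀ u, (((T (p z)).flip z).comp p) u = T (p z) (p u) z := fun u => rfl
    simp only [g2] at g1
    rw [hb, g1]
    have g4 := rotG4_bil hp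
      ((ContinuousLinearMap.compL ℝ E E ℝ (fderiv ℝ ρ z)).comp (T (p z)))
    have g5 : ∀ c u, ((ContinuousLinearMap.compL ℝ E E ℝ (fderiv ℝ ρ z)).comp (T (p z))) c u =
        fderiv ℝ ρ z (T (p z) c u) := fun c u => rfl
    simp only [g5, hAp, map_zero, Finset.sum_const_zero] at g4
    have g3 : ∀ i, inner ℝ (stdOrthonormalBasis ℝ E i)
        (H (T (p z) (p (stdOrthonormalBasis ℝ E i)) z)) =
        -fderiv ℝ ρ z (T (p z) (p (stdOrthonormalBasis ℝ E i)) (stdOrthonormalBasis ℝ E i)) := by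
      intro i
      rw [hH, rotG2_H_inner, rotG2_sym hs hz, T_S2 hs hv hz]
    rw [Finset.sum_congr rfl fun i _ => g3 i, Finset.sum_neg_distrib, g4, neg_zero]
  have e4 : ∀ i, inner ℝ (b i) ((T (p z) (p v) (b i)) + (T (p z) (p (H (b i))) z +
      T (p (b i)) (p v) z)) = inner ℝ (b i) (T (p z) (p v) (b i)) +
      (inner ℝ (b i) (T (p z) (p (H (b i))) z) + inner ℝ (b i) (T (p (b i)) (p v) z)) := by
    intro i
    rw [inner_add_right, inner_add_right]
  calc _ = ∑ i, inner ℝ (b i) ((T (p z) (p v) (b i)) + (T (p z) (p (H (b i))) z +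
      T (p (b i)) (p v) z)) := by
        refine Finset.sum_congr rfl fun i _ => ?_
        rfl
    _ = 0 := by
        rw [Finset.sum_congr rfl fun i _ => e4 i, Finset.sum_add_distrib, Finset.sum_add_distrib,
          e2, e3, Finset.sum_congr rfl fun i _ => e1 i]
        simp

private theorem rotG5_s (z : E) :
    HasFDerivAt (fun y : E => 1 - ‖y‖ ^ 2) (-((2 : ℝ) • innerSL ℝ z)) z := by
  have h3 := ((hasFDerivAt_id z).norm_sq).const_sub 1
  refine h3.congr_fderiv ?_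
  ext v
  simp

/-- piece `ROT-G5`: the mean curvature.
Proof (compare `meanCurv_ball`). `s = 1 - ‖y‖²`, `K = N + a`, `q y = qf p y (fderiv ρ y) > 0` near `z` (`qf_pos`; `q` is continuous), `τ y = T (p y) (p ∇ρ) y`. Near
`z` the vector field in `meanCurv` is `(√(s ^ K q))⁻¹ • (Y - τ)`: `Axis.inv` and `det_ball`; `⟪∇ρ, s (Y - τ)⟫ = s q` as `⟪∇ρ, τ⟫ = 0`.
Divergence of `f • X` is `D f X + f div X`. `f = (√(s ^ K q))⁻¹`, `D f u = - f / 2 * (K D s u / s + D q u / q)`. `div (Y - τ) = div Y`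
(`T_div`), `D s τ = - 2 ⟪z, τ⟫ = 0` (`hA.skew`), `D q τ = 0` (`T_q`), `D s Y = - 2 ⟪z, Y⟫ = - 2 s l z` (`Gop p z z = s z`, `Gop` symmetric), `D q Y`:
`q_Y`. Sum: `f (K l z - (S2 Y Y - (l z) q + l (z - p z) Df) / q + Tf - (N + 1) l z + a l (p z)) =
f (Tf + a (l z + l (p z)) - (S2 Y Y + l (z - p z) Df) / q)`, and `(√det)⁻¹ f = √(s / q)`. -/
theorem meanCurv_eq {a : ℕ} {P : E → E →L[ℝ] E} (hP : Vertical a P) {p : E →L[ℝ] E}
    {T : E →L[ℝ] E →L[ℝ] E →L[ℝ] E} (hA : Axis a P p T) {ρ : E → ℝ}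
    (hs : ContDiffOn ℝ 3 ρ (Metric.ball 0 1))
    (hv : ∀ y ∈ Metric.ball (0 : E) 1, ∀ b c, inner ℝ (T (p b) (p c) y) (gradient ρ y) = 0)
    {z : E} (hz : z ∈ Metric.ball (0 : E) 1) (hne : fderiv ℝ ρ z ≠ 0) :
    meanCurv (ballMetric P) ρ z = Mb a p ρ z := by
  have hz1 : ‖z‖ < 1 := by simpa using hz
  have hsp : ∀ y : E, ‖y‖ < 1 → 0 < 1 - ‖y‖ ^ 2 := by
    intro y hy
    have := norm_nonneg y
    nlinarith
  have hp : Pj p := ⟨hA.symm, hA.idem⟩
  obtain ⟨dY, dq, dT⟩ := diff_all (p := p) (T := T) hs hz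
  set l := fderiv ℝ ρ z with hl
  set Y := Yf p z l with hY
  set q := qf p z l with hq
  set s := 1 - ‖z‖ ^ 2 with hsdef
  have hs0 : 0 < s := hsp z hz1
  have hq0 : 0 < q := qf_pos hp hz1 hne
  have hgr : ∀ y w, inner ℝ (gradient ρ y) w = fderiv ℝ ρ y w := fun y w => inner_gradient_left
  have hvg : ∀ y, vg (fderiv ℝ ρ y) = gradient ρ y := fun y => rfl
  -- the field near `z`
  set K := Module.finrank ℝ E + a with hK
  have hfield : (fun y => (√(LinearMap.det (ballMetric P y : E →ₗ[ℝ] E)) /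
      √(inner ℝ (gradient ρ y) ((ballMetric P y).inverse (gradient ρ y)))) •
        (ballMetric P y).inverse (gradient ρ y)) =ᶠ[𝓝 z]
      fun y => (√((1 - ‖y‖ ^ 2) ^ K * qf p y (fderiv ℝ ρ y)))⁻¹ •
        (Yf p y (fderiv ℝ ρ y) - T (p y) (p (gradient ρ y)) y) := by
    filter_upwards [Metric.isOpen_ball.mem_nhds hz] with y hy
    have hy1 : ‖y‖ < 1 := by simpa using hy
    have hy0 := hsp y hy1
    have e4 : (ballMetric P y).inverse (gradient ρ y) = (1 - ‖y‖ ^ 2) •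
        (Yf p y (fderiv ℝ ρ y) - T (p y) (p (gradient ρ y)) y) := by
      rw [Axis.inv hP hA hy1 (hv y hy)]
      rfl
    have e5 : inner ℝ (gradient ρ y) (Yf p y (fderiv ℝ ρ y) - T (p y) (p (gradient ρ y)) y) =
        qf p y (fderiv ℝ ρ y) := by
      rw [inner_sub_right, real_inner_comm (T (p y) (p (gradient ρ y)) y), hv y hy, sub_zero,
        hgr]
      rfl
    rw [e4, inner_smul_right, e5, Pool.Agent.Helper41.ALX.det_ball hP hy1, smul_smul]
    congr 1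
    generalize 1 - ‖y‖ ^ 2 = t at hy0
    generalize qf p y (fderiv ℝ ρ y) = r
    have e6 : t⁻¹ ^ (Module.finrank ℝ E + 1 + a) = (t ^ K)⁻¹ * t⁻¹ := by
      rw [hK, ← inv_pow]
      ring
    rw [e6, Real.sqrt_mul (by positivity), Real.sqrt_mul hy0.le, Real.sqrt_mul (by positivity),
      Real.sqrt_inv, Real.sqrt_inv]
    have e7 : √t ≠ 0 := (Real.sqrt_pos.2 hy0).ne'
    have e8 : √t * √t = t := Real.mul_self_sqrt hy0.le
    have e9 : √(t ^ K) ≠ 0 := (Real.sqrt_pos.2 (by positivity)).ne'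
    clear e6
    generalize √(t ^ K) = W at e9 ⊢
    generalize √t = w at e7 e8 ⊢
    generalize √r = r'
    subst e8
    rcases eq_or_ne r' 0 with h0 | h0
    · rw [h0]
      simp
    · field_simp
  -- derivatives
  set q' := fderiv ℝ (fun y => qf p y (fderiv ℝ ρ y)) z with hq'
  have hG : HasFDerivAt (fun y : E => (1 - ‖y‖ ^ 2) ^ K * qf p y (fderiv ℝ ρ y))
      (s ^ K • q' + q • ((K • s ^ (K - 1)) • -((2 : ℝ) • innerSL ℝ z))) z := by
    exact ((rotG5_s z).pow K).mul dq.hasFDerivAt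
  set G := s ^ K * q with hGd
  have hG0 : 0 < G := by positivity
  have hr0 : √G ≠ 0 := (Real.sqrt_pos.2 hG0).ne'
  have hphi : HasDerivAt (fun x : ℝ => (√x)⁻¹) (-(1 / (2 * √G)) / (√G) ^ 2) G :=
    (Real.hasDerivAt_sqrt hG0.ne').inv hr0
  have hf := hphi.comp_hasFDerivAt z hG
  have hfm := hf.smul (dY.hasFDerivAt.sub dT.hasFDerivAt)
  -- algebra at `z`
  set X := Y - T (p z) (p (gradient ρ z)) z with hX
  have f1 : inner ℝ z X = s * l z := by
    have g1 : inner ℝ z Y = s * l z := by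
      have g2 : Gop p z z = s • z := by
        simp only [Gop, add_apply, sub_apply, smul_apply,
          ContinuousLinearMap.id_apply, ContinuousLinearMap.smulRight_apply, innerSL_apply_apply]
        have g3 : inner ℝ (p z) z = ‖p z‖ ^ 2 := by
          rw [← hp.idem z, hp.symm, hp.idem, real_inner_self_eq_norm_sq]
        rw [g3, real_inner_self_eq_norm_sq, hsdef, sub_smul, one_smul]
        abel
      have g4 : inner ℝ (Gop p z z) (vg l) = inner ℝ z (Gop p z (vg l)) :=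
        (Gop_spd hp hz1).1 z (vg l)
      have g5 : inner ℝ z (vg l) = l z := by
        rw [real_inner_comm]
        exact hgr z z
      rw [hY, Yf, ← g4, g2, inner_smul_left, g5]
      simp
    have g6 : inner ℝ z (T (p z) (p (gradient ρ z)) z) = 0 := by
      have g7 := hA.skew (p z) (p (gradient ρ z)) z z
      rw [real_inner_comm] at g7
      linarith
    rw [hX, inner_sub_right, g1, g6, sub_zero]
  have f2 : q' X = 2 * (S2 ρ z Y Y - l z * q + l (z - p z) * Df p z l) := by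
    have g1 : q' (T (p z) (p (gradient ρ z)) z) = 0 := by
      have := T_q hA hs hv hz (p z) (gradient ρ z)
      rw [hA.idem] at this
      exact this
    have g2 : q' Y = 2 * (S2 ρ z Y Y - l z * q + l (z - p z) * Df p z l) := q_Y hp hs hz
    rw [hX, map_sub, g1, g2, sub_zero]
  have hdiv : divg (fun y => (√((1 - ‖y‖ ^ 2) ^ K * qf p y (fderiv ℝ ρ y)))⁻¹ •
        (Yf p y (fderiv ℝ ρ y) - T (p y) (p (gradient ρ y)) y)) z =
      (√G)⁻¹ * (Tf p z (S2 ρ z) - (Module.finrank ℝ E + 1) * l z + a * l (p z)) +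
      (-(1 / (2 * √G)) / (√G) ^ 2) * (s ^ K * q' X + q * (K * s ^ (K - 1) * -(2 * (s * l z)))) := by
    have g1 := div_Y hp hA.rank hs hz
    have g2 := T_div hA hs hv hz
    unfold divg at g1 g2 ⊢
    have h3 : fderiv ℝ (fun y => (√((1 - ‖y‖ ^ 2) ^ K * qf p y (fderiv ℝ ρ y)))⁻¹ •
        (Yf p y (fderiv ℝ ρ y) - T (p y) (p (gradient ρ y)) y)) z = _ := HasFDerivAt.fderiv hfm
    rw [h3, ContinuousLinearMap.toLinearMap_add, ContinuousLinearMap.toLinearMap_smul, map_add,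
      map_smul, ContinuousLinearMap.toLinearMap_sub, map_sub, g1, g2, sub_zero, smul_eq_mul]
    congr 1
    rw [ContinuousLinearMap.coe_smulRight, LinearMap.trace_smulRight]
    simp only [ContinuousLinearMap.coe_coe, smul_apply, add_apply, neg_apply,
      smul_eq_mul, nsmul_eq_mul, innerSL_apply_apply]
    rw [← f1]
    rfl
  rw [meanCurv]
  have h5 : divg (fun y => (√(LinearMap.det (ballMetric P y : E →ₗ[ℝ] E)) /
      √(inner ℝ (gradient ρ y) ((ballMetric P y).inverse (gradient ρ y)))) •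
        (ballMetric P y).inverse (gradient ρ y)) z =
      divg (fun y => (√((1 - ‖y‖ ^ 2) ^ K * qf p y (fderiv ℝ ρ y)))⁻¹ •
        (Yf p y (fderiv ℝ ρ y) - T (p y) (p (gradient ρ y)) y)) z := by
    unfold divg
    rw [hfield.fderiv_eq]
  rw [h5, hdiv, Pool.Agent.Helper41.ALX.det_ball hP hz1, f2]
  unfold Mb MM
  rw [← hl, ← hq, ← hY, ← hsdef]
  generalize Tf p z (S2 ρ z) = TT
  generalize S2 ρ z Y Y = M
  generalize l (z - p z) * Df p z l = D
  generalize l (p z) = u1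
  generalize l z = u
  have e12 : s ^ K * (2 * (M - u * q + D)) + q * (K * s ^ (K - 1) * -(2 * (s * u))) =
      2 * s ^ K * (M + D - u * q - K * q * u) := by
    rcases Nat.eq_zero_or_pos K with h0 | h0
    · rw [h0]
      simp
      ring
    · obtain ⟨k, hk⟩ : ∃ k, K = k + 1 := ⟨K - 1, by omega⟩
      rw [hk, Nat.add_sub_cancel, pow_succ]
      ring
  rw [e12]
  have e13 : √G ^ 2 = G := Real.sq_sqrt hG0.le
  have e14 : -(1 / (2 * √G)) / √G ^ 2 * (2 * s ^ K * (M + D - u * q - K * q * u)) =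
      (√G)⁻¹ * (-((M + D) / q) + u + K * u) := by
    rw [e13, hGd]
    have : √(s ^ K * q) ≠ 0 := hr0
    generalize √(s ^ K * q) = w at this ⊢
    field_simp
    ring
  rw [e14, ← mul_add]
  have e15 : (√(s⁻¹ ^ (Module.finrank ℝ E + 1 + a)))⁻¹ * (√G)⁻¹ = √(s / q) := by
    have e16 : s⁻¹ ^ (Module.finrank ℝ E + 1 + a) = (s ^ K)⁻¹ * s⁻¹ := by
      rw [hK, ← inv_pow]
      ring
    rw [e16, hGd, ← Real.sqrt_inv, ← Real.sqrt_inv, ← Real.sqrt_mul (by positivity)]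
    congr 1
    field_simp
  rw [← mul_assoc, e15]
  congr 1
  rw [hK]
  push_cast
  ring

end Pool.Agent.Helper75.ROT
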