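import Pool.Agent.Helper75.ROT.Fn
import Pool.Agent.Helper75.ROT.Mc

/-! # ROT: main theorem -/

set_option autoImplicit false
set_option linter.unusedSectionVars false
set_option linter.unusedVariables false

namespace Pool.Agent.Helper75.ROT

open Filter Topology
open scoped ContDiff
open Pool.Agent.Helper41.ALX (S2 Vertical ballMetric meanCurv)

variable {E : Type*} [NormedAddCommGroup E] [InnerProductSpace ℝ E] [FiniteDimensional ℝ E]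

theorem rot_main {a : ℕ} (ha : 0 < a) {P : E → E →L[ℝ] E} (hP : Vertical a P) {p : E →L[ℝ] E}
    {T : E →L[ℝ] E →L[ℝ] E →L[ℝ] E} (hA : Axis a P p T) {ρ : E → ℝ} {H : ℝ}
    (hs : ContDiffOn ℝ 3 ρ (Metric.ball 0 1))
    (hv : ∀ y ∈ Metric.ball (0 : E) 1, ∀ b c, inner ℝ (T (p b) (p c) y) (gradient ρ y) = 0)
    (hbd : ∃ R : ℝ, R < 1 ∧ ∀ z ∈ Metric.ball (0 : E) 1, ρ z ≤ 0 → ‖z‖ ≤ R)
    (hne : ∃ z ∈ Metric.ball (0 : E) 1, ρ z < 0)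
    (hcon : IsPreconnected {z ∈ Metric.ball (0 : E) 1 | ρ z = 0})
    (hreg : ∀ z ∈ Metric.ball (0 : E) 1, ρ z = 0 → fderiv ℝ ρ z ≠ 0)
    (heq : ∀ z ∈ Metric.ball (0 : E) 1, ρ z = 0 → meanCurv (ballMetric P) ρ z = H) :
    ∃ (c : E) (R : ℝ), p c = c ∧ ‖c‖ < 1 ∧ 1 < R ∧ ∀ z ∈ Metric.ball (0 : E) 1,
      (ρ z < 0 ↔ 1 - 2 * inner ℝ z c + ‖p z‖ ^ 2 * ‖c‖ ^ 2 <
        R * (1 - ‖z‖ ^ 2) * (1 - ‖c‖ ^ 2)) ∧
      (ρ z = 0 ↔ 1 - 2 * inner ℝ z c + ‖p z‖ ^ 2 * ‖c‖ ^ 2 =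
        R * (1 - ‖z‖ ^ 2) * (1 - ‖c‖ ^ 2)) := by
  have hp : Pj p := ⟨hA.symm, hA.idem⟩
  have hD : Dm H p (fun X => ρ (pr p X)) := by
    refine mk_Dm hp hA.rank hs hbd hne hcon hreg fun z hz h0 => ?_
    rw [← meanCurv_eq hP hA hs hv hz (hreg z hz h0)]
    exact heq z hz h0
  obtain ⟨c, R, h1, h2, h3, h4⟩ := rot_round ha hp hA.rank hD
  refine ⟨c, R, h1, h2, h3, fun z hz => ?_⟩
  have h5 : ‖p z‖ ≤ 1 := by
    have h6 := pyth hp z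
    have h7 : ‖z‖ < 1 := by simpa using hz
    have h8 := norm_nonneg z
    have h9 := norm_nonneg (p z)
    have h10 := sq_nonneg ‖z - p z‖
    nlinarith
  have h11 := h4 z hz
  rw [pr_em hp h5] at h11
  exact h11

end Pool.Agent.Helper75.ROT
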