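import Pool.Agent.Helper75.ROT.Defs

/-! # ROT: the model: the form `B1`, reflections, scaling, the cone `Cn`, the maps `em` and `pr` -/

set_option autoImplicit false
set_option linter.unusedSectionVars false
set_option linter.unusedVariables false

namespace Pool.Agent.Helper75.ROT

open Filter Topology
open scoped ContDiff

variable {E : Type*} [NormedAddCommGroup E] [InnerProductSpace ℝ E] [FiniteDimensional ℝ E]

/-! ### piece `ROT-M1`: algebra of `B1` and `rf` (all direct from the definitions; `Un p n` gives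
`p n.2 = n.2`, `B1 p n n = 1`) -/

theorem B1_comm (p : E →L[ℝ] E) (X Y : ℝ × E) : B1 p X Y = B1 p Y X := by
  unfold B1
  rw [real_inner_comm, mul_comm]

theorem B1_add_left (p : E →L[ℝ] E) (X Y Z : ℝ × E) : B1 p (X + Y) Z = B1 p X Z + B1 p Y Z := by
  unfold B1
  rw [Prod.snd_add, Prod.fst_add, map_add, inner_add_left]
  ring

theorem B1_sub_left (p : E →L[ℝ] E) (X Y Z : ℝ × E) : B1 p (X - Y) Z = B1 p X Z - B1 p Y Z := by
  unfold B1
  rw [Prod.snd_sub, Prod.fst_sub, map_sub, inner_sub_left]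
  ring

theorem B1_smul_left (p : E →L[ℝ] E) (c : ℝ) (X Y : ℝ × E) : B1 p (c • X) Y = c * B1 p X Y := by
  unfold B1
  rw [Prod.smul_snd, Prod.smul_fst, map_smul, real_inner_smul_left, smul_eq_mul]
  ring

theorem B1_neg_left (p : E →L[ℝ] E) (X Y : ℝ × E) : B1 p (-X) Y = -B1 p X Y := by
  unfold B1
  rw [Prod.snd_neg, Prod.fst_neg, map_neg, inner_neg_left]
  ring

private theorem rotM1_sub_right (p : E →L[ℝ] E) (X Y Z : ℝ × E) :
    B1 p X (Y - Z) = B1 p X Y - B1 p X Z := by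
  rw [B1_comm, B1_sub_left, B1_comm p Y X, B1_comm p Z X]

private theorem rotM1_smul_right (p : E →L[ℝ] E) (c : ℝ) (X Y : ℝ × E) :
    B1 p X (c • Y) = c * B1 p X Y := by
  rw [B1_comm, B1_smul_left, B1_comm p Y X]

private theorem rotM1_neg_right (p : E →L[ℝ] E) (X Y : ℝ × E) : B1 p X (-Y) = -B1 p X Y := by
  rw [B1_comm, B1_neg_left, B1_comm p Y X]

/-- the component `X.2 - p X.2` plays no role in `B1` -/
theorem B1_congr {p : E →L[ℝ] E} {X X' Y : ℝ × E} (h1 : X.1 = X'.1) (h2 : p X.2 = p X'.2) :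
    B1 p X Y = B1 p X' Y := by
  unfold B1
  rw [h1, h2]

theorem continuous_B1 (p : E →L[ℝ] E) :
    Continuous (fun x : (ℝ × E) × (ℝ × E) => B1 p x.1 x.2) := by
  unfold B1
  exact ((p.continuous.comp (continuous_snd.comp continuous_fst)).inner
    (p.continuous.comp (continuous_snd.comp continuous_snd))).sub
    ((continuous_fst.comp continuous_fst).mul (continuous_fst.comp continuous_snd))

theorem Un_neg {p : E →L[ℝ] E} {n : ℝ × E} (hn : Un p n) : Un p (-n) := by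
  refine ⟨?_, ?_⟩
  · rw [Prod.snd_neg, map_neg, hn.mem]
  · rw [B1_neg_left, rotM1_neg_right, neg_neg, hn.one]

theorem Un_zero {p : E →L[ℝ] E} {n : E} (h1 : p n = n) (h2 : ‖n‖ = 1) : Un p ((0 : ℝ), n) := by
  refine ⟨h1, ?_⟩
  unfold B1
  simp only [h1, real_inner_self_eq_norm_sq, h2]
  norm_num

/-- `cosh² - sinh² = 1` -/
theorem Un_nt {p : E →L[ℝ] E} {n : E} (h1 : p n = n) (h2 : ‖n‖ = 1) (τ : ℝ) : Un p (nt n τ) := by
  refine ⟨?_, ?_⟩
  · unfold nt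
    simp only [map_smul, h1]
  · unfold B1 nt
    simp only [map_smul, h1, real_inner_self_eq_norm_sq]
    rw [norm_smul, h2, mul_one, Real.norm_eq_abs, sq_abs]
    have := Real.cosh_sq τ
    linarith [sq (Real.sinh τ)]

theorem rf_neg (p : E →L[ℝ] E) (n X : ℝ × E) : rf p (-n) X = rf p n X := by
  unfold rf
  rw [rotM1_neg_right, smul_neg, mul_neg, neg_smul, neg_neg]

theorem rf_add (p : E →L[ℝ] E) (n X Y : ℝ × E) : rf p n (X + Y) = rf p n X + rf p n Y := by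
  unfold rf
  rw [B1_add_left, mul_add, add_smul]
  abel

theorem rf_smul (p : E →L[ℝ] E) (n X : ℝ × E) (c : ℝ) : rf p n (c • X) = c • rf p n X := by
  unfold rf
  rw [B1_smul_left, smul_sub, smul_smul]
  congr 2
  ring

private theorem rotM1_n {p : E →L[ℝ] E} {n : ℝ × E} (hn : Un p n) (X : ℝ × E) :
    B1 p (rf p n X) n = -B1 p X n := by
  unfold rf
  rw [B1_sub_left, B1_smul_left, hn.one]
  ring

theorem rf_rf {p : E →L[ℝ] E} {n : ℝ × E} (hn : Un p n) (X : ℝ × E) : rf p n (rf p n X) = X := by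
  have h := rotM1_n hn X
  have e : rf p n (rf p n X) = rf p n X - (2 * B1 p (rf p n X) n) • n := rfl
  rw [e, h]
  unfold rf
  rw [mul_neg, neg_smul]
  abel

theorem B1_rf {p : E →L[ℝ] E} {n : ℝ × E} (hn : Un p n) (X Y : ℝ × E) :
    B1 p (rf p n X) (rf p n Y) = B1 p X Y := by
  unfold rf
  rw [B1_sub_left, rotM1_sub_right, rotM1_sub_right, B1_smul_left, rotM1_smul_right,
    rotM1_smul_right, B1_smul_left, hn.one, B1_comm p n Y]
  ring

/-- `rf p n` is self adjoint for `B1` -/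
theorem B1_rf_left (p : E →L[ℝ] E) (n X Y : ℝ × E) : B1 p (rf p n X) Y = B1 p X (rf p n Y) := by
  unfold rf
  rw [B1_sub_left, rotM1_sub_right, B1_smul_left, rotM1_smul_right, B1_comm p n Y]
  ring

theorem B1_rf_n {p : E →L[ℝ] E} {n : ℝ × E} (hn : Un p n) (X : ℝ × E) :
    B1 p (rf p n X) n = -B1 p X n := by
  exact rotM1_n hn X

theorem rf_fix {p : E →L[ℝ] E} {n X : ℝ × E} (h : B1 p X n = 0) : rf p n X = X := by
  unfold rf
  rw [h, mul_zero, zero_smul, sub_zero]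

/-- the component orthogonal to the line does not change -/
theorem rf_W {p : E →L[ℝ] E} {n : ℝ × E} (hn : Un p n) (X : ℝ × E) :
    (rf p n X).2 - p (rf p n X).2 = X.2 - p X.2 := by
  unfold rf
  rw [Prod.snd_sub, Prod.smul_snd, map_sub, map_smul, hn.mem]
  abel

theorem tt_rf {p : E →L[ℝ] E} {n : ℝ × E} (hn : Un p n) (X : ℝ × E) : tt p (rf p n X) = tt p X := by
  unfold tt
  rw [B1_rf hn]

theorem continuous_rf (p : E →L[ℝ] E) :
    Continuous (fun x : (ℝ × E) × (ℝ × E) => rf p x.1 x.2) := by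
  unfold rf
  have h : Continuous fun x : (ℝ × E) × (ℝ × E) => B1 p x.2 x.1 :=
    (continuous_B1 p).comp continuous_swap
  exact continuous_snd.sub ((continuous_const.mul h).smul continuous_fst)

/-- `rf` of a reflected normal vector: `rf (rf m n) = rf m ∘ rf n ∘ rf m` -/
theorem rf_conj {p : E →L[ℝ] E} {m n : ℝ × E} (hm : Un p m) (hn : Un p n) (X : ℝ × E) :
    rf p (rf p m n) X = rf p m (rf p n (rf p m X)) := by
  have e1 : rf p n (rf p m X) = rf p m X + (-(2 * B1 p (rf p m X) n)) • n := by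
    rw [neg_smul, ← sub_eq_add_neg]
    rfl
  have e2 : rf p (rf p m n) X = X - (2 * B1 p X (rf p m n)) • rf p m n := rfl
  rw [e1, rf_add, rf_smul, rf_rf hm, e2, ← B1_rf_left, neg_smul, sub_eq_add_neg]

theorem Un_rf {p : E →L[ℝ] E} (hp : Pj p) {m n : ℝ × E} (hm : Un p m) (hn : Un p n) :
    Un p (rf p m n) := by
  refine ⟨?_, ?_⟩
  · unfold rf
    rw [Prod.snd_sub, Prod.smul_snd, map_sub, map_smul, hm.mem, hn.mem]
  · rw [B1_rf hm, hn.one]

/-! ### piece `ROT-M2`: time like vectors, the cone, scaling -/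

/-- Reversed Cauchy–Schwarz: `|⟪pX₂, pY₂⟫| ≤ ‖pX₂‖ ‖pY₂‖` and `‖pX₂‖ < X₁`, `‖pY₂‖ < Y₁`. -/
theorem B1_neg {p : E →L[ℝ] E} {X Y : ℝ × E} (hX : 0 < X.1) (hX' : B1 p X X < 0) (hY : 0 < Y.1)
    (hY' : B1 p Y Y < 0) : B1 p X Y < 0 := by
  have h1 : ‖p X.2‖ < X.1 := by
    have h : ‖p X.2‖ ^ 2 < X.1 ^ 2 := by
      have := hX'
      unfold B1 at this
      rw [real_inner_self_eq_norm_sq] at this
      nlinarith
    exact lt_of_pow_lt_pow_left₀ 2 hX.le h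
  have h2 : ‖p Y.2‖ < Y.1 := by
    have h : ‖p Y.2‖ ^ 2 < Y.1 ^ 2 := by
      have := hY'
      unfold B1 at this
      rw [real_inner_self_eq_norm_sq] at this
      nlinarith
    exact lt_of_pow_lt_pow_left₀ 2 hY.le h
  have h3 : inner ℝ (p X.2) (p Y.2) ≤ ‖p X.2‖ * ‖p Y.2‖ := real_inner_le_norm _ _
  have h4 : ‖p X.2‖ * ‖p Y.2‖ < X.1 * Y.1 :=
    mul_lt_mul'' h1 h2 (norm_nonneg _) (norm_nonneg _)
  unfold B1
  linarith

/-- `(rf p n X).1 = -B1 (rf p n X) (1, 0) = -B1 X (rf p n (1, 0))`, and `rf p n (1, 0) = (1 + 2 n₁², 2 n₁ n₂)` is a time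
like vector with positive first component; use `B1_neg`, `rf_W`, `tt_rf`, `B1_rf`. -/
theorem rf_Cn {p : E →L[ℝ] E} (hp : Pj p) {n : ℝ × E} (hn : Un p n) {X : ℝ × E} (hX : X ∈ Cn p) :
    rf p n X ∈ Cn p := by
  obtain ⟨hX1, hX2, hX3⟩ := hX
  have hU : B1 p ((1 : ℝ), (0 : E)) n = -n.1 := by
    unfold B1
    rw [map_zero, inner_zero_left, one_mul, zero_sub]
  have hY : (rf p n ((1 : ℝ), (0 : E))).1 = 1 + 2 * n.1 ^ 2 := by
    unfold rf
    rw [hU, Prod.fst_sub, Prod.smul_fst, smul_eq_mul]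
    ring
  have hY1 : 0 < (rf p n ((1 : ℝ), (0 : E))).1 := by
    rw [hY]
    positivity
  have hY2 : B1 p (rf p n ((1 : ℝ), (0 : E))) (rf p n ((1 : ℝ), (0 : E))) < 0 := by
    rw [B1_rf hn]
    unfold B1
    rw [map_zero, inner_zero_left]
    norm_num
  have h1 := B1_neg hX1 hX2 hY1 hY2
  rw [← B1_rf_left] at h1
  have h2 : B1 p (rf p n X) ((1 : ℝ), (0 : E)) = -(rf p n X).1 := by
    unfold B1
    rw [map_zero, inner_zero_right, mul_one, zero_sub]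
  rw [h2] at h1
  refine ⟨by linarith, ?_, ?_⟩
  · rw [B1_rf hn]
    exact hX2
  · rw [rf_W hn, tt_rf hn]
    exact hX3

theorem Cn_open (p : E →L[ℝ] E) : IsOpen (Cn p) := by
  have hB : Continuous fun X : ℝ × E => B1 p X X :=
    (continuous_B1 p).comp (continuous_id.prodMk continuous_id)
  have ht : Continuous fun X : ℝ × E => tt p X := Real.continuous_sqrt.comp hB.neg
  have hw : Continuous fun X : ℝ × E => ‖X.2 - p X.2‖ ^ 2 :=
    ((continuous_snd.sub (p.continuous.comp continuous_snd)).norm).pow 2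
  exact (isOpen_lt continuous_const continuous_fst).inter
    ((isOpen_lt hB continuous_const).inter (isOpen_lt hw ht))

theorem tt_pos {p : E →L[ℝ] E} {X : ℝ × E} (hX : X ∈ Cn p) : 0 < tt p X :=
  Real.sqrt_pos.2 (neg_pos.2 hX.2.1)

theorem tt_sq {p : E →L[ℝ] E} {X : ℝ × E} (hX : X ∈ Cn p) : tt p X ^ 2 = -B1 p X X :=
  Real.sq_sqrt (neg_nonneg.2 hX.2.1.le)

private theorem rotM2_psc {p : E →L[ℝ] E} (hp : Pj p) (l : ℝ) (X : ℝ × E) :
    p (sc p l X).2 = l ^ 2 • p X.2 := by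
  unfold sc
  rw [map_add, map_smul, map_smul, map_sub, hp.idem, sub_self, smul_zero, add_zero]

theorem B1_sc {p : E →L[ℝ] E} (hp : Pj p) (l : ℝ) (X Y : ℝ × E) :
    B1 p (sc p l X) Y = l ^ 2 * B1 p X Y := by
  have h1 : (sc p l X).1 = l ^ 2 * X.1 := rfl
  unfold B1
  rw [rotM2_psc hp, h1, real_inner_smul_left]
  ring

private theorem rotM2_Bss {p : E →L[ℝ] E} (hp : Pj p) (l : ℝ) (X : ℝ × E) :
    B1 p (sc p l X) (sc p l X) = (l ^ 2) ^ 2 * B1 p X X := by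
  rw [B1_sc hp, B1_comm, B1_sc hp]
  ring

theorem tt_sc {p : E →L[ℝ] E} (hp : Pj p) (l : ℝ) (X : ℝ × E) :
    tt p (sc p l X) = l ^ 2 * tt p X := by
  unfold tt
  rw [rotM2_Bss hp, ← mul_neg, Real.sqrt_mul (sq_nonneg _), Real.sqrt_sq (sq_nonneg l)]

/-- `p (sc p l X).2 = l² pX₂` and `(sc p l X).2 - p (sc p l X).2 = l (X₂ - pX₂)` -/
theorem sc_W {p : E →L[ℝ] E} (hp : Pj p) (l : ℝ) (X : ℝ × E) :
    p (sc p l X).2 = l ^ 2 • p X.2 ∧ (sc p l X).2 - p (sc p l X).2 = l • (X.2 - p X.2) := by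
  refine ⟨rotM2_psc hp l X, ?_⟩
  rw [rotM2_psc hp]
  exact add_sub_cancel_left _ _

theorem sc_Cn {p : E →L[ℝ] E} (hp : Pj p) {l : ℝ} (hl : 0 < l) {X : ℝ × E} (hX : X ∈ Cn p) :
    sc p l X ∈ Cn p := by
  obtain ⟨hX1, hX2, hX3⟩ := hX
  have hl2 : 0 < l ^ 2 := pow_pos hl 2
  refine ⟨mul_pos hl2 hX1, ?_, ?_⟩
  · rw [rotM2_Bss hp]
    exact mul_neg_of_pos_of_neg (pow_pos hl2 2) hX2
  · rw [(sc_W hp l X).2, tt_sc hp, norm_smul, mul_pow, Real.norm_eq_abs, sq_abs]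
    exact mul_lt_mul_of_pos_left hX3 hl2

theorem sc_sc {p : E →L[ℝ] E} (hp : Pj p) (l m : ℝ) (X : ℝ × E) :
    sc p l (sc p m X) = sc p (l * m) X := by
  refine Prod.ext ?_ ?_
  · change l ^ 2 * (m ^ 2 * X.1) = (l * m) ^ 2 * X.1
    ring
  · change l ^ 2 • p (sc p m X).2 + l • ((sc p m X).2 - p (sc p m X).2) =
      (l * m) ^ 2 • p X.2 + (l * m) • (X.2 - p X.2)
    rw [(sc_W hp m X).2, (sc_W hp m X).1, smul_smul, smul_smul, mul_pow]

theorem sc_one (p : E →L[ℝ] E) (X : ℝ × E) : sc p 1 X = X := by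
  refine Prod.ext ?_ ?_
  · change (1 : ℝ) ^ 2 * X.1 = X.1
    ring
  · change (1 : ℝ) ^ 2 • p X.2 + (1 : ℝ) • (X.2 - p X.2) = X.2
    rw [one_pow, one_smul, one_smul]
    exact add_sub_cancel _ _

/-- `rf p n` commutes with the scaling, as `n` has no component orthogonal to the line -/
theorem sc_rf {p : E →L[ℝ] E} (hp : Pj p) {n : ℝ × E} (hn : Un p n) (l : ℝ) (X : ℝ × E) :
    sc p l (rf p n X) = rf p n (sc p l X) := by
  refine Prod.ext ?_ ?_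
  · change l ^ 2 * (X.1 - 2 * B1 p X n * n.1) =
      l ^ 2 * X.1 - 2 * B1 p (sc p l X) n * n.1
    rw [B1_sc hp]
    ring
  · have h1 : p (rf p n X).2 = p X.2 - (2 * B1 p X n) • n.2 := by
      change p (X.2 - (2 * B1 p X n) • n.2) = _
      rw [map_sub, map_smul, hn.mem]
    change l ^ 2 • p (rf p n X).2 + l • ((rf p n X).2 - p (rf p n X).2) =
      l ^ 2 • p X.2 + l • (X.2 - p X.2) - (2 * B1 p (sc p l X) n) • n.2
    rw [rf_W hn, h1, B1_sc hp, smul_sub, smul_smul]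
    have h2 : l ^ 2 * (2 * B1 p X n) = 2 * (l ^ 2 * B1 p X n) := by ring
    rw [h2]
    abel

/-! ### piece `ROT-M3`: the maps `em` and `pr` -/

/-- `p (z + p z) = 2 p z`, `z + p z - p (z + p z) = z - p z` -/
theorem em_W {p : E →L[ℝ] E} (hp : Pj p) (z : E) :
    p (em p z).2 = (2 : ℝ) • p z ∧ (em p z).2 - p (em p z).2 = z - p z := by
  have h1 : p (em p z).2 = (2 : ℝ) • p z := by
    change p (z + p z) = _
    rw [map_add, hp.idem, two_smul]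
  refine ⟨h1, ?_⟩
  rw [h1]
  change z + p z - (2 : ℝ) • p z = _
  rw [two_smul]
  abel

/-- `‖z‖² = ‖p z‖² + ‖z - p z‖²` -/
theorem pyth {p : E →L[ℝ] E} (hp : Pj p) (z : E) : ‖z‖ ^ 2 = ‖p z‖ ^ 2 + ‖z - p z‖ ^ 2 := by
  have h1 : inner ℝ (p z) (z - p z) = 0 := by
    rw [inner_sub_right, ← hp.symm (p z) z, hp.idem, sub_self]
  have h2 : z = p z + (z - p z) := by abel
  have h3 := norm_add_sq_real (p z) (z - p z)
  rw [← h2, h1] at h3
  linarith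

theorem B1_em_self {p : E →L[ℝ] E} (hp : Pj p) (z : E) :
    B1 p (em p z) (em p z) = -(1 - ‖p z‖ ^ 2) ^ 2 := by
  unfold B1
  rw [(em_W hp z).1, real_inner_self_eq_norm_sq, norm_smul]
  change (‖(2 : ℝ)‖ * ‖p z‖) ^ 2 - (1 + ‖p z‖ ^ 2) * (1 + ‖p z‖ ^ 2) = _
  rw [Real.norm_of_nonneg zero_le_two]
  ring

theorem tt_em {p : E →L[ℝ] E} (hp : Pj p) {z : E} (hz : ‖p z‖ ≤ 1) :
    tt p (em p z) = 1 - ‖p z‖ ^ 2 := by
  unfold tt
  rw [B1_em_self hp z, neg_neg]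
  exact Real.sqrt_sq (by nlinarith [norm_nonneg (p z)])

theorem em_Cn {p : E →L[ℝ] E} (hp : Pj p) {z : E} (hz : z ∈ Metric.ball (0 : E) 1) :
    em p z ∈ Cn p := by
  have hz1 : ‖z‖ < 1 := by simpa using hz
  have h1 := pyth hp z
  have h2 : ‖z‖ ^ 2 < 1 := by nlinarith [norm_nonneg z]
  have h3 : ‖p z‖ ^ 2 < 1 := by nlinarith [sq_nonneg ‖z - p z‖]
  have h4 : ‖p z‖ ≤ 1 := by
    by_contra h5
    rw [not_le] at h5
    nlinarith
  refine ⟨?_, ?_, ?_⟩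
  · change 0 < 1 + ‖p z‖ ^ 2
    positivity
  · rw [B1_em_self hp z]
    have : 0 < (1 - ‖p z‖ ^ 2) ^ 2 := by
      have : 0 < 1 - ‖p z‖ ^ 2 := by linarith
      positivity
    linarith
  · rw [(em_W hp z).2, tt_em hp h4]
    linarith

/-- `X₁ + tt = 2` for `X = em p z` -/
theorem pr_em {p : E →L[ℝ] E} (hp : Pj p) {z : E} (hz : ‖p z‖ ≤ 1) : pr p (em p z) = z := by
  unfold pr
  rw [tt_em hp hz, (em_W hp z).2, (em_W hp z).1]
  have h1 : (em p z).1 + (1 - ‖p z‖ ^ 2) = 2 := by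
    change 1 + ‖p z‖ ^ 2 + (1 - ‖p z‖ ^ 2) = 2
    ring
  rw [h1, div_self two_ne_zero, Real.sqrt_one, one_smul, smul_smul, inv_mul_cancel₀ two_ne_zero,
    one_smul]
  abel

private theorem rotM3_S {p : E →L[ℝ] E} {X : ℝ × E} (hX : X ∈ Cn p) :
    0 < X.1 + tt p X ∧ ‖p X.2‖ ^ 2 = (X.1 - tt p X) * (X.1 + tt p X) := by
  have h1 : 0 ≤ tt p X := Real.sqrt_nonneg _
  refine ⟨by linarith [hX.1], ?_⟩
  have h2 : tt p X ^ 2 = -B1 p X X := Real.sq_sqrt (neg_pos.2 hX.2.1).le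
  unfold B1 at h2
  rw [real_inner_self_eq_norm_sq] at h2
  linear_combination h2

private theorem rotM3_ppr {p : E →L[ℝ] E} (hp : Pj p) (X : ℝ × E) :
    p (pr p X) = (X.1 + tt p X)⁻¹ • p X.2 := by
  unfold pr
  rw [map_add, map_smul, map_smul, map_sub, hp.idem, sub_self, smul_zero, add_zero]

/-- With `S = X₁ + tt X`, `l = √(2 / S)`: `p (pr X) = pX₂ / S`, `1 + ‖pX₂‖² / S² = 2 X₁ / S` because
`‖pX₂‖² = X₁² - tt² = (X₁ - tt) S`. -/
theorem em_pr {p : E →L[ℝ] E} (hp : Pj p) {X : ℝ × E} (hX : X ∈ Cn p) :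
    0 < √(2 / (X.1 + tt p X)) ∧ em p (pr p X) = sc p (√(2 / (X.1 + tt p X))) X := by
  obtain ⟨hS, hN⟩ := rotM3_S hX
  have hl : 0 < √(2 / (X.1 + tt p X)) := Real.sqrt_pos.2 (div_pos two_pos hS)
  have hl2 : √(2 / (X.1 + tt p X)) ^ 2 = 2 / (X.1 + tt p X) :=
    Real.sq_sqrt (div_pos two_pos hS).le
  refine ⟨hl, ?_⟩
  have h1 := rotM3_ppr hp X
  unfold em sc
  rw [h1, hl2]
  refine Prod.ext ?_ ?_
  · change 1 + ‖(X.1 + tt p X)⁻¹ • p X.2‖ ^ 2 = 2 / (X.1 + tt p X) * X.1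
    rw [norm_smul, mul_pow, hN, norm_inv, Real.norm_of_nonneg hS.le]
    field_simp
    ring
  · change pr p X + (X.1 + tt p X)⁻¹ • p X.2 = (2 / (X.1 + tt p X)) • p X.2 +
      √(2 / (X.1 + tt p X)) • (X.2 - p X.2)
    unfold pr
    rw [add_right_comm, ← add_smul]
    congr 2
    field_simp
    norm_num

/-- `‖pr X‖² = ‖pX₂‖² / S² + 2 ‖W‖² / S = (X₁ - tt + 2 ‖W‖²) / S` -/
theorem norm_pr {p : E →L[ℝ] E} (hp : Pj p) {X : ℝ × E} (hX : X ∈ Cn p) :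
    ‖pr p X‖ ^ 2 = 1 - 2 * (tt p X - ‖X.2 - p X.2‖ ^ 2) / (X.1 + tt p X) := by
  obtain ⟨hS, hN⟩ := rotM3_S hX
  have hl2 : √(2 / (X.1 + tt p X)) ^ 2 = 2 / (X.1 + tt p X) :=
    Real.sq_sqrt (div_pos two_pos hS).le
  have h1 := rotM3_ppr hp X
  have h2 : pr p X - p (pr p X) = √(2 / (X.1 + tt p X)) • (X.2 - p X.2) := by
    rw [h1]
    unfold pr
    rw [add_sub_cancel_left]
  rw [pyth hp (pr p X), h2, h1, norm_smul, norm_smul, mul_pow, mul_pow, hN, norm_inv,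
    Real.norm_of_nonneg hS.le, Real.norm_of_nonneg (Real.sqrt_nonneg _), hl2]
  field_simp
  ring

theorem pr_ball {p : E →L[ℝ] E} (hp : Pj p) {X : ℝ × E} (hX : X ∈ Cn p) :
    pr p X ∈ Metric.ball (0 : E) 1 := by
  obtain ⟨hS, hN⟩ := rotM3_S hX
  rw [mem_ball_zero_iff]
  have h1 := norm_pr hp hX
  have h2 : 0 < 2 * (tt p X - ‖X.2 - p X.2‖ ^ 2) / (X.1 + tt p X) :=
    div_pos (mul_pos two_pos (sub_pos.2 hX.2.2)) hS
  have h3 : ‖pr p X‖ ^ 2 < 1 := by linarith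
  by_contra h4
  rw [not_lt] at h4
  nlinarith

/-- smoothness: `tt` is the root of a positive function on `Cn p`, `X₁ + tt > 0` -/
theorem pr_smooth {p : E →L[ℝ] E} (hp : Pj p) : ContDiffOn ℝ 3 (pr p) (Cn p) := by
  have hB : ContDiff ℝ 3 (fun X : ℝ × E => -B1 p X X) := by
    unfold B1
    exact (((p.contDiff.comp contDiff_snd).inner ℝ (p.contDiff.comp contDiff_snd)).sub
      (contDiff_fst.mul contDiff_fst)).neg
  have ht : ContDiffOn ℝ 3 (tt p) (Cn p) := by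
    unfold tt
    exact hB.contDiffOn.sqrt fun X hX => (neg_pos.2 hX.2.1).ne'
  have hS : ContDiffOn ℝ 3 (fun X : ℝ × E => X.1 + tt p X) (Cn p) :=
    contDiff_fst.contDiffOn.add ht
  have hp2 : ContDiffOn ℝ 3 (fun X : ℝ × E => p X.2) (Cn p) :=
    (p.contDiff.comp contDiff_snd).contDiffOn
  unfold pr
  refine ((hS.inv fun X hX => (rotM3_S hX).1.ne').smul hp2).add
    (((contDiffOn_const.div hS fun X hX => (rotM3_S hX).1.ne').sqrt fun X hX => ?_).smul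
      (contDiff_snd.contDiffOn.sub hp2))
  exact (div_pos two_pos (rotM3_S hX).1).ne'

theorem em_smooth (p : E →L[ℝ] E) : ContDiff ℝ 3 (em p) := by
  unfold em
  exact (contDiff_const.add (p.contDiff.norm_sq ℝ)).prodMk (contDiff_id.add p.contDiff)

/-- the derivative of `em`: `‖p z‖² = ⟪p z, p z⟫`, derivative `2 ⟪p z, p u⟫ = 2 ⟪p z, u⟫` -/
theorem em_deriv {p : E →L[ℝ] E} (hp : Pj p) (z : E) :
    HasFDerivAt (em p) (((2 : ℝ) • innerSL ℝ (p z)).prod (ContinuousLinearMap.id ℝ E + p)) z := by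
  have h1 : HasFDerivAt (fun z => 1 + ‖p z‖ ^ 2) ((2 : ℝ) • innerSL ℝ (p z)) z := by
    have h2 := (p.hasFDerivAt (x := z)).norm_sq.const_add 1
    refine h2.congr_fderiv ?_
    refine ContinuousLinearMap.ext fun u => ?_
    change 2 • inner ℝ (p z) (p u) = (2 : ℝ) * inner ℝ (p z) u
    rw [← hp.symm (p z) u, hp.idem, nsmul_eq_mul]
    push_cast
    ring
  exact h1.prodMk ((hasFDerivAt_id z).add p.hasFDerivAt)

/-- Decomposition of `ℝ × E` into the tangent space of `em` and the Euler field of the scaling.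
Proof. `κ = (v₁ - ⟪p z, v₂⟫) / (2 (1 - ‖p z‖²))` and `u` with `u + p u = v₂ - κ • (z + 3 • p z)`, i.e.
`u = v₂ - κ (z + 3 p z) - 1/2 p (v₂ - κ (z + 3 p z)) = v₂ - 1/2 p v₂ - κ (z + p z)`; first component:
`2 ⟪p z, u⟫ + 2 κ (1 + ‖p z‖²) = ⟪p z, v₂⟫ - 4 κ ‖p z‖² + 2 κ (1 + ‖p z‖²) = v₁`. -/
theorem decomp {p : E →L[ℝ] E} (hp : Pj p) {z : E} (hz : ‖p z‖ < 1) (v : ℝ × E) :
    ∃ (u : E) (κ : ℝ), v = (2 * inner ℝ (p z) u, u + p u) +
      κ • (2 * (em p z).1, (em p z).2 + p (em p z).2) := by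
  have hP : 0 < 1 - ‖p z‖ ^ 2 := by
    have := norm_nonneg (p z)
    nlinarith
  obtain ⟨κ, hκ⟩ : ∃ κ : ℝ, κ = (v.1 - inner ℝ (p z) v.2) / (2 * (1 - ‖p z‖ ^ 2)) := ⟨_, rfl⟩
  have hκ' : v.1 = inner ℝ (p z) v.2 + 2 * κ * (1 - ‖p z‖ ^ 2) := by
    rw [hκ]
    field_simp
    ring
  have hin : ∀ w : E, inner ℝ (p z) (p w) = inner ℝ (p z) w := by
    intro w
    rw [← hp.symm (p z) w, hp.idem]
  have hin2 : inner ℝ (p z) z = ‖p z‖ ^ 2 := by
    rw [← hin z, real_inner_self_eq_norm_sq]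
  refine ⟨v.2 - (1 / 2 : ℝ) • p v.2 - κ • (z + p z), κ, Prod.ext ?_ ?_⟩
  · change v.1 = 2 * inner ℝ (p z) (v.2 - (1 / 2 : ℝ) • p v.2 - κ • (z + p z)) +
      κ * (2 * (1 + ‖p z‖ ^ 2))
    rw [inner_sub_right, inner_sub_right, inner_smul_right, inner_smul_right, inner_add_right,
      hin, hin, hin2, hκ']
    ring
  · change v.2 = (v.2 - (1 / 2 : ℝ) • p v.2 - κ • (z + p z) +
      p (v.2 - (1 / 2 : ℝ) • p v.2 - κ • (z + p z))) +
      κ • ((em p z).2 + p (em p z).2)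
    rw [(em_W hp z).1]
    change v.2 = (v.2 - (1 / 2 : ℝ) • p v.2 - κ • (z + p z) +
      p (v.2 - (1 / 2 : ℝ) • p v.2 - κ • (z + p z))) + κ • (z + p z + (2 : ℝ) • p z)
    rw [map_sub, map_sub, map_smul, map_smul, map_add, hp.idem, hp.idem]
    module

/-! ### piece `ROT-M4`: the reflection in the chart -/

/-- the reflection in the ball -/
noncomputable def rr (p : E →L[ℝ] E) (n : ℝ × E) (z : E) : E := pr p (rf p n (em p z))

private theorem rotM4_norm {p : E →L[ℝ] E} (hp : Pj p) {z : E}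
    (hz : z ∈ Metric.ball (0 : E) 1) : ‖p z‖ ≤ 1 := by
  have h1 := pyth hp z
  have h2 : ‖z‖ < 1 := by simpa using hz
  have h3 : 0 ≤ ‖z‖ := norm_nonneg z
  nlinarith [norm_nonneg (p z), sq_nonneg ‖z - p z‖]

theorem rr_ball {p : E →L[ℝ] E} (hp : Pj p) {n : ℝ × E} (hn : Un p n) {z : E}
    (hz : z ∈ Metric.ball (0 : E) 1) : rr p n z ∈ Metric.ball (0 : E) 1 := by
  exact pr_ball hp (rf_Cn hp hn (em_Cn hp hz))

/-- `em (rr z)` is `rf n (em z)` up to scaling (`em_pr`) -/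
theorem em_rr {p : E →L[ℝ] E} (hp : Pj p) {n : ℝ × E} (hn : Un p n) {z : E}
    (hz : z ∈ Metric.ball (0 : E) 1) :
    ∃ l : ℝ, 0 < l ∧ em p (rr p n z) = sc p l (rf p n (em p z)) := by
  obtain ⟨h1, h2⟩ := em_pr hp (rf_Cn hp hn (em_Cn hp hz))
  exact ⟨_, h1, h2⟩

/-- Proof. `em (rr (rr z))` is `em z` up to scaling by some `m > 0` (`em_rr`, `sc_rf`, `rf_rf`, `sc_sc`); `tt + X₁ = 2` on
the image of `em`, and `tt + X₁` is multiplied by `m²`; so `m = 1` and `pr_em`. -/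
theorem rr_rr {p : E →L[ℝ] E} (hp : Pj p) {n : ℝ × E} (hn : Un p n) {z : E}
    (hz : z ∈ Metric.ball (0 : E) 1) : rr p n (rr p n z) = z := by
  have hz1 := rr_ball hp hn hz
  have hz2 := rr_ball hp hn hz1
  obtain ⟨l, hl, h1⟩ := em_rr hp hn hz
  obtain ⟨l', hl', h2⟩ := em_rr hp hn hz1
  have h3 : em p (rr p n (rr p n z)) = sc p (l' * l) (em p z) := by
    rw [h2, h1, ← sc_rf hp hn l, rf_rf hn, sc_sc hp]
  have h4 : ∀ w ∈ Metric.ball (0 : E) 1, (em p w).1 + tt p (em p w) = 2 := by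
    intro w hw
    rw [tt_em hp (rotM4_norm hp hw)]
    show 1 + ‖p w‖ ^ 2 + (1 - ‖p w‖ ^ 2) = 2
    ring
  have h5 := h4 _ hz2
  have h6 := h4 _ hz
  rw [h3, tt_sc hp] at h5
  have h7 : (sc p (l' * l) (em p z)).1 = (l' * l) ^ 2 * (em p z).1 := rfl
  rw [h7, ← mul_add, h6] at h5
  have h8 : l' * l = 1 := by
    have h9 : 0 < l' * l := mul_pos hl' hl
    nlinarith
  rw [h8, sc_one] at h3
  rw [← pr_em hp (rotM4_norm hp hz2), h3, pr_em hp (rotM4_norm hp hz)]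

theorem rr_cont {p : E →L[ℝ] E} (hp : Pj p) {n : ℝ × E} (hn : Un p n) :
    ContinuousOn (rr p n) (Metric.ball (0 : E) 1) := by
  have h1 : Continuous fun z : E => rf p n (em p z) :=
    (continuous_rf p).comp (continuous_const.prodMk (em_smooth p).continuous)
  exact (pr_smooth hp).continuousOn.comp h1.continuousOn
    fun z hz => rf_Cn hp hn (em_Cn hp hz)

/-- `em (rr z) = sc l (rf n (em z))`, `B1_sc`, `B1_rf_n` -/
theorem B1_rr {p : E →L[ℝ] E} (hp : Pj p) {n : ℝ × E} (hn : Un p n) {z : E}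
    (hz : z ∈ Metric.ball (0 : E) 1) : ∃ m : ℝ, 0 < m ∧
      B1 p (em p (rr p n z)) n = -(m * B1 p (em p z) n) := by
  obtain ⟨l, hl, h1⟩ := em_rr hp hn hz
  refine ⟨l ^ 2, by positivity, ?_⟩
  rw [h1, B1_sc hp, B1_rf_n hn, mul_neg]

/-- for functions that are constant along the scaling -/
theorem phi_rr {p : E →L[ℝ] E} (hp : Pj p) {n : ℝ × E} (hn : Un p n) {Φ : ℝ × E → ℝ}
    (hom : ∀ X ∈ Cn p, ∀ l : ℝ, 0 < l → Φ (sc p l X) = Φ X) {z : E}
    (hz : z ∈ Metric.ball (0 : E) 1) :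
    Φ (em p (rr p n z)) = Φ (rf p n (em p z)) ∧ Φ (rf p n (em p (rr p n z))) = Φ (em p z) := by
  obtain ⟨l, hl, h1⟩ := em_rr hp hn hz
  have h2 := em_Cn hp hz
  constructor
  · rw [h1, hom _ (rf_Cn hp hn h2) l hl]
  · rw [h1, ← sc_rf hp hn l, rf_rf hn, hom _ h2 l hl]

theorem phi_pr {p : E →L[ℝ] E} (hp : Pj p) {Φ : ℝ × E → ℝ}
    (hom : ∀ X ∈ Cn p, ∀ l : ℝ, 0 < l → Φ (sc p l X) = Φ X) {X : ℝ × E}
    (hX : X ∈ Cn p) : Φ (em p (pr p X)) = Φ X := by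
  obtain ⟨h1, h2⟩ := em_pr hp hX
  rw [h2, hom _ hX _ h1]

/-- `B1 (em (pr X)) n` has the sign of `B1 X n` -/
theorem B1_pr {p : E →L[ℝ] E} (hp : Pj p) {X : ℝ × E} (hX : X ∈ Cn p) (n : ℝ × E) :
    ∃ m : ℝ, 0 < m ∧ B1 p (em p (pr p X)) n = m * B1 p X n := by
  obtain ⟨h1, h2⟩ := em_pr hp hX
  refine ⟨√(2 / (X.1 + tt p X)) ^ 2, by positivity, ?_⟩
  rw [h2, B1_sc hp]

end Pool.Agent.Helper75.ROT
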