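import Pool.Agent.Helper75.ROT.Hopf

/-! # ROT: strong maximum principle for level sets -/

set_option autoImplicit false
set_option linter.unusedSectionVars false
set_option linter.unusedVariables false

namespace Pool.Agent.Helper75.ROT

open Filter Topology
open scoped ContDiff
open Pool.Agent.Helper41.ALX (S2)

variable {E : Type*} [NormedAddCommGroup E] [InnerProductSpace ℝ E] [FiniteDimensional ℝ E]

/-- the part orthogonal to `ν` -/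
private noncomputable def rotS1_pi (ν v : E) : E := v - inner ℝ ν v • ν

private theorem rotS1_sub (ν a b : E) : rotS1_pi ν (a - b) = rotS1_pi ν a - rotS1_pi ν b := by
  unfold rotS1_pi
  rw [inner_sub_right, sub_smul]
  abel

private theorem rotS1_inner {ν : E} (hν : ‖ν‖ = 1) (v : E) : inner ℝ ν (rotS1_pi ν v) = 0 := by
  unfold rotS1_pi
  rw [inner_sub_right, inner_smul_right, real_inner_self_eq_norm_sq, hν]
  ring

private theorem rotS1_norm {ν : E} (hν : ‖ν‖ = 1) (v : E) :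
    ‖rotS1_pi ν v‖ ^ 2 = ‖v‖ ^ 2 - inner ℝ ν v ^ 2 := by
  unfold rotS1_pi
  rw [norm_sub_sq_real, inner_smul_right, norm_smul, hν, real_inner_comm, mul_one,
    Real.norm_eq_abs, sq_abs]
  ring

private theorem rotS1_le {ν : E} (hν : ‖ν‖ = 1) (v : E) : ‖rotS1_pi ν v‖ ≤ ‖v‖ := by
  refine (pow_le_pow_iff_left₀ (norm_nonneg _) (norm_nonneg _) two_ne_zero).1 ?_
  rw [rotS1_norm hν]
  nlinarith [sq_nonneg (inner ℝ ν v)]

private theorem rotS1_cont (ν z₀ : E) : Continuous fun z : E => ‖rotS1_pi ν (z - z₀)‖ := by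
  unfold rotS1_pi
  fun_prop

private theorem rotS1_wf {ν : E} (hν : ‖ν‖ = 1) (z₀ z₁ z : E) {d : ℝ} (hd : d ≠ 0)
    (hd' : d = ‖rotS1_pi ν (z₁ - z₀)‖) :
    wf z₁ ν (d⁻¹ • rotS1_pi ν (z₀ - z₁)) (2 * d) z = d ^ 2 - ‖rotS1_pi ν (z - z₀)‖ ^ 2 := by
  have h1 : d ^ 2 = ‖z₀ - z₁‖ ^ 2 - inner ℝ ν (z₀ - z₁) ^ 2 := by
    rw [hd', rotS1_norm hν, ← neg_sub z₀ z₁, norm_neg, inner_neg_right]
    ring
  have h2 : ‖rotS1_pi ν (z - z₀)‖ ^ 2 = ‖z - z₁‖ ^ 2 - 2 * inner ℝ (z - z₁) (z₀ - z₁) +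
      ‖z₀ - z₁‖ ^ 2 - (inner ℝ ν (z - z₁) - inner ℝ ν (z₀ - z₁)) ^ 2 := by
    rw [rotS1_norm hν, show z - z₀ = (z - z₁) - (z₀ - z₁) by abel, norm_sub_sq_real,
      inner_sub_right ν]
  rw [h2, h1]
  unfold wf rotS1_pi
  rw [inner_smul_left, inner_sub_left, inner_smul_left, real_inner_comm (z - z₁) (z₀ - z₁)]
  have h3 : ∀ x : ℝ, 2 * d * ((starRingEnd ℝ) d⁻¹ * x) = 2 * x := by
    intro x
    rw [conj_trivial]
    field_simp
  rw [h3, conj_trivial]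
  ring

private theorem rotS1_unit {l : E →L[ℝ] ℝ} (hl : l ≠ 0) : ∃ ν : E, ‖ν‖ = 1 ∧ 0 < l ν := by
  obtain ⟨v, hv⟩ : ∃ v, l v ≠ 0 := by
    by_contra h
    push Not at h
    exact hl (ContinuousLinearMap.ext h)
  have h1 : ∃ v, 0 < l v := by
    rcases lt_or_gt_of_ne hv with h | h
    · exact ⟨-v, by rw [map_neg]; linarith⟩
    · exact ⟨v, h⟩
  obtain ⟨u, hu⟩ := h1
  have hu0 : u ≠ 0 := by
    rintro rfl
    simp at hu
  have hn : 0 < ‖u‖ := norm_pos_iff.2 hu0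
  refine ⟨‖u‖⁻¹ • u, ?_, ?_⟩
  · rw [norm_smul, norm_inv, norm_norm, inv_mul_cancel₀ hn.ne']
  · rw [map_smul, smul_eq_mul]
    exact mul_pos (inv_pos.2 hn) hu

private theorem rotS1_pos {g : E → ℝ} {y ν : E} (hg : ContDiffAt ℝ 3 g y)
    (h : 0 < fderiv ℝ g y ν) : ∀ᶠ z in 𝓝 y, 0 < fderiv ℝ g z ν := by
  have h1 : ContinuousAt (fun z => fderiv ℝ g z) y :=
    (hg.fderiv_right (m := 2) (by norm_num)).continuousAt
  have h2 : ContinuousAt (fun z => fderiv ℝ g z ν) y := h1.clm_apply continuousAt_const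
  exact h2.eventually (lt_mem_nhds h)

/-- piece `ROT-S1`: interior touching.
Proof. By `par` `f'(y) = c g'(y)`, `c > 0`. Let `ν` be a unit vector with `g'(y) ν > 0`, `π v = v - ⟪ν, v⟫ ν`. It
suffices to prove `∀ᶠ z, g z = 0 → f z = 0`: then `sgn` (applied with `f := g`, `g := f`) gives the claim. `gl` for `g`
gives `K ≥ 1`, `δ` with `‖z - x‖ ≤ K ‖π (z - x)‖` for `x, z ∈ B (y, δ) ∩ {g = 0}`; make `δ` smaller so that on `B (y, δ)`
also: `f, g` are `C³`, `g'(z) ν > 0`, `f'(z) ν > 0`, `z ∈ U`, the equations (in the form: for every `z ∈ B (y, δ)` with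
`f z = 0` ..., so they hold near every point of the ball) and `g ≤ 0 → f ≤ 0`. Suppose that there are points `z₀`
arbitrarily close to `y` with `g z₀ = 0`, `f z₀ ≠ 0`, so `f z₀ < 0`; take one with `‖z₀ - y‖ < δ / (8 K)`. The set
`Z = {z | ‖z - y‖ ≤ δ / 2, g z = 0, f z = 0}` is compact and contains `y`. Let `z₁ ∈ Z` minimise `‖π (z - z₀)‖`,
`d = ‖π (z₁ - z₀)‖ ≤ ‖π (y - z₀)‖ < δ / (8 K)`. `d > 0`, otherwise `z₁ = z₀` by `gl`, but `f z₀ ≠ 0`. `‖z₁ - y‖ ≤ K ‖π (z₁ - y)‖ ≤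
K (d + ‖π (z₀ - y)‖) < δ / 4`, so a neighbourhood of `z₁` lies in `B (y, δ / 2)`. Put `e = d⁻¹ • π (z₀ - z₁)` (unit,
orthogonal to `ν`), `R = 2 d`: `wf z₁ ν e R z = 2 ⟪π (z₀ - z₁), π (z - z₁)⟫ - ‖π (z - z₁)‖² = d² - ‖π (z - z₀)‖²`. If `z`
is near `z₁`, `g z = 0` and `0 < wf z₁ ν e R z`, then `‖π (z - z₀)‖ < d`, so `z ∉ Z` by minimality, `f z ≠ 0`, and `f z ≤ 0`
because `g z = 0`: `f z < 0`. By `par` at `z₁` and `hopf` at `z₁`: contradiction. -/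
theorem smp {U : Set E} {F : E → (E →L[ℝ] ℝ) → (E →L[ℝ] E →L[ℝ] ℝ) → ℝ} (hF : Ell U F)
    {f g : E → ℝ} {y : E} {H : ℝ} (hy : y ∈ U)
    (hf : ContDiffAt ℝ 3 f y) (hg : ContDiffAt ℝ 3 g y) (hf0 : f y = 0) (hg0 : g y = 0)
    (hf1 : fderiv ℝ f y ≠ 0) (hg1 : fderiv ℝ g y ≠ 0)
    (hfe : ∀ᶠ z in 𝓝 y, f z = 0 → F z (fderiv ℝ f z) (S2 f z) = H)
    (hge : ∀ᶠ z in 𝓝 y, g z = 0 → F z (fderiv ℝ g z) (S2 g z) = H)
    (h : ∀ᶠ z in 𝓝 y, g z ≤ 0 → f z ≤ 0) :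
    ∀ᶠ z in 𝓝 y, (g z < 0 ↔ f z < 0) ∧ (g z = 0 ↔ f z = 0) := by
  obtain ⟨c, hc, hfg⟩ := par (hf.differentiableAt (by norm_num))
    (hg.differentiableAt (by norm_num)) hf0 hg0 hf1 hg1 h
  obtain ⟨ν, hν, hgν⟩ := rotS1_unit hg1
  have hfν : 0 < fderiv ℝ f y ν := by
    rw [hfg]
    exact mul_pos hc hgν
  have key : ∀ᶠ z in 𝓝 y, g z = 0 → f z = 0 := by
    obtain ⟨K₀, δ₁, hK₀, hδ₁, hgl₀⟩ := gl (hg.of_le (by norm_num)) hν hgν
    obtain ⟨K, hK, hgl⟩ : ∃ K : ℝ, 1 ≤ K ∧ ∀ x ∈ Metric.ball y δ₁, ∀ z ∈ Metric.ball y δ₁,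
        g x = g z → ‖z - x‖ ≤ K * ‖rotS1_pi ν (z - x)‖ := by
      refine ⟨K₀ + 1, by linarith, fun x hx z hz hxz => (hgl₀ x hx z hz hxz).trans ?_⟩
      show K₀ * ‖rotS1_pi ν (z - x)‖ ≤ _
      exact mul_le_mul_of_nonneg_right (by linarith) (norm_nonneg _)
    have hK0 : 0 < K := by linarith
    have hall : ∀ᶠ z in 𝓝 y, ContDiffAt ℝ 3 f z ∧ ContDiffAt ℝ 3 g z ∧ 0 < fderiv ℝ f z ν ∧
        0 < fderiv ℝ g z ν ∧ z ∈ U ∧
        (∀ᶠ x in 𝓝 z, f x = 0 → F x (fderiv ℝ f x) (S2 f x) = H) ∧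
        (∀ᶠ x in 𝓝 z, g x = 0 → F x (fderiv ℝ g x) (S2 g x) = H) ∧
        (∀ᶠ x in 𝓝 z, g x ≤ 0 → f x ≤ 0) := by
      filter_upwards [hf.eventually (by norm_num), hg.eventually (by norm_num),
        rotS1_pos hf hfν, rotS1_pos hg hgν, hF.opn.mem_nhds hy, hfe.eventually_nhds,
        hge.eventually_nhds, h.eventually_nhds] with z a1 a2 a3 a4 a5 a6 a7 a8
      exact ⟨a1, a2, a3, a4, a5, a6, a7, a8⟩
    obtain ⟨δ₂, hδ₂, hball⟩ := Metric.eventually_nhds_iff_ball.1 hall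
    obtain ⟨δ, hδ, hδa, hδb⟩ : ∃ δ : ℝ, 0 < δ ∧ δ ≤ δ₁ ∧ δ ≤ δ₂ :=
      ⟨min δ₁ δ₂, lt_min hδ₁ hδ₂, min_le_left _ _, min_le_right _ _⟩
    by_contra hcon
    have hfr : ∃ᶠ z in 𝓝 y, ¬(g z = 0 → f z = 0) := Filter.not_eventually.1 hcon
    have hsmall : ∀ᶠ z in 𝓝 y, z ∈ Metric.ball y (δ / (8 * K)) :=
      Metric.ball_mem_nhds y (by positivity)
    obtain ⟨z₀, hz₀, hz₀'⟩ := (hfr.and_eventually (hsmall.and h)).exists
    obtain ⟨hz₀b, hz₀h⟩ := hz₀'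
    push Not at hz₀
    obtain ⟨hgz₀, hfz₀⟩ := hz₀
    rw [Metric.mem_ball, dist_eq_norm] at hz₀b
    have hsm : δ / (8 * K) ≤ δ / 8 := by
      apply div_le_div_of_nonneg_left hδ.le (by norm_num)
      linarith
    have hz₀δ : z₀ ∈ Metric.ball y δ := by
      rw [Metric.mem_ball, dist_eq_norm]
      linarith
    -- the compact set
    have hsub : Metric.closedBall y (δ / 2) ⊆ Metric.ball y δ :=
      Metric.closedBall_subset_ball (by linarith)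
    have hcf : ContinuousOn f (Metric.closedBall y (δ / 2)) := fun z hz =>
      ((hball z (Metric.ball_subset_ball hδb (hsub hz))).1.continuousAt).continuousWithinAt
    have hcg : ContinuousOn g (Metric.closedBall y (δ / 2)) := fun z hz =>
      ((hball z (Metric.ball_subset_ball hδb (hsub hz))).2.1.continuousAt).continuousWithinAt
    have hZc : IsCompact (Metric.closedBall y (δ / 2) ∩ (fun z => (g z, f z)) ⁻¹' {((0 : ℝ), (0 : ℝ))}) :=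
      (isCompact_closedBall y (δ / 2)).of_isClosed_subset
        ((hcg.prodMk hcf).preimage_isClosed_of_isClosed Metric.isClosed_closedBall
          isClosed_singleton) Set.inter_subset_left
    have hyZ : y ∈ Metric.closedBall y (δ / 2) ∩
        (fun z => (g z, f z)) ⁻¹' {((0 : ℝ), (0 : ℝ))} := by
      refine ⟨Metric.mem_closedBall_self (by linarith), ?_⟩
      show (g y, f y) = _
      rw [hg0, hf0]
    obtain ⟨z₁, hz₁, hmin⟩ := hZc.exists_isMinOn ⟨y, hyZ⟩ (rotS1_cont ν z₀).continuousOn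
    obtain ⟨hz₁b, hz₁0⟩ := hz₁
    have hgz₁ : g z₁ = 0 := congrArg Prod.fst hz₁0
    have hfz₁ : f z₁ = 0 := congrArg Prod.snd hz₁0
    obtain ⟨d, hd⟩ : ∃ d : ℝ, d = ‖rotS1_pi ν (z₁ - z₀)‖ := ⟨_, rfl⟩
    have hmin' : ∀ z ∈ Metric.closedBall y (δ / 2), g z = 0 → f z = 0 →
        d ≤ ‖rotS1_pi ν (z - z₀)‖ := by
      intro z hz h1 h2
      rw [hd]
      refine hmin ⟨hz, ?_⟩
      show (g z, f z) = _
      rw [h1, h2]
    have hz₁δ : z₁ ∈ Metric.ball y δ := hsub hz₁b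
    have hd1 : d ≤ ‖z₀ - y‖ := by
      refine (hmin' y (Metric.mem_closedBall_self (by linarith)) hg0 hf0).trans ?_
      rw [← norm_neg (z₀ - y), neg_sub]
      exact rotS1_le hν _
    have hd0 : 0 < d := by
      rcases (norm_nonneg (rotS1_pi ν (z₁ - z₀))).eq_or_lt with h1 | h1
      · exfalso
        have h2 := hgl z₀ (Metric.ball_subset_ball hδa hz₀δ) z₁
          (Metric.ball_subset_ball hδa hz₁δ) (by rw [hgz₀, hgz₁])
        rw [← h1, mul_zero] at h2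
        have h3 : z₁ - z₀ = 0 := norm_eq_zero.1 (le_antisymm h2 (norm_nonneg _))
        rw [sub_eq_zero] at h3
        exact hfz₀ (h3 ▸ hfz₁)
      · rw [hd]
        exact h1
    have hz₁y : ‖z₁ - y‖ < δ / 4 := by
      have h1 := hgl y (Metric.mem_ball_self hδ₁) z₁ (Metric.ball_subset_ball hδa hz₁δ)
        (by rw [hg0, hgz₁])
      have h2 : rotS1_pi ν (z₁ - y) = rotS1_pi ν (z₁ - z₀) + rotS1_pi ν (z₀ - y) := by
        rw [rotS1_sub, rotS1_sub, rotS1_sub]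
        abel
      have h3 : ‖rotS1_pi ν (z₁ - y)‖ ≤ d + ‖z₀ - y‖ := by
        rw [h2, hd]
        exact (norm_add_le _ _).trans (add_le_add le_rfl (rotS1_le hν _))
      have h4 : d + ‖z₀ - y‖ < 2 * (δ / (8 * K)) := by linarith
      calc ‖z₁ - y‖ ≤ K * ‖rotS1_pi ν (z₁ - y)‖ := h1
        _ ≤ K * (d + ‖z₀ - y‖) := mul_le_mul_of_nonneg_left h3 hK0.le
        _ < K * (2 * (δ / (8 * K))) := mul_lt_mul_of_pos_left h4 hK0
        _ = δ / 4 := by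
          field_simp
          ring
    obtain ⟨b1, b2, b3, b4, b5, b6, b7, b8⟩ := hball z₁ (Metric.ball_subset_ball hδb hz₁δ)
    have hf1' : fderiv ℝ f z₁ ≠ 0 := by
      intro h0
      rw [h0] at b3
      simp at b3
    have hg1' : fderiv ℝ g z₁ ≠ 0 := by
      intro h0
      rw [h0] at b4
      simp at b4
    obtain ⟨c', hc', hfg'⟩ := par (b1.differentiableAt (by norm_num))
      (b2.differentiableAt (by norm_num)) hfz₁ hgz₁ hf1' hg1' b8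
    have hnd : ‖rotS1_pi ν (z₀ - z₁)‖ = d := by
      rw [hd, ← neg_sub z₁ z₀]
      have : rotS1_pi ν (-(z₁ - z₀)) = -rotS1_pi ν (z₁ - z₀) := by
        unfold rotS1_pi
        rw [inner_neg_right, neg_smul]
        abel
      rw [this, norm_neg]
    refine hopf hF b5 b1 b2 hfz₁ hgz₁ b6 b7 hν (e := d⁻¹ • rotS1_pi ν (z₀ - z₁)) ?_ ?_ b4 hc'
      hfg' (R := 2 * d) (by linarith) ?_
    · rw [norm_smul, hnd, norm_inv, Real.norm_of_nonneg hd0.le, inv_mul_cancel₀ hd0.ne']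
    · rw [inner_smul_right, rotS1_inner hν, mul_zero]
    · have hnear : ∀ᶠ z in 𝓝 z₁, z ∈ Metric.closedBall y (δ / 2) := by
        refine Filter.mem_of_superset (Metric.ball_mem_nhds z₁ (show (0 : ℝ) < δ / 4 by linarith)) ?_
        intro z hz
        rw [Metric.mem_ball, dist_eq_norm] at hz
        show z ∈ Metric.closedBall y (δ / 2)
        rw [Metric.mem_closedBall, dist_eq_norm]
        have h1 : z - y = (z - z₁) + (z₁ - y) := by abel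
        rw [h1]
        exact (norm_add_le _ _).trans (by linarith)
      filter_upwards [hnear, b8] with z hz1 hz2 hgz hw
      rw [rotS1_wf hν z₀ z₁ z hd0.ne' hd] at hw
      have h1 : f z ≤ 0 := hz2 hgz.le
      refine lt_of_le_of_ne h1 fun h2 => ?_
      have h3 := hmin' z hz1 hgz h2
      have h4 : d ^ 2 ≤ ‖rotS1_pi ν (z - z₀)‖ ^ 2 := pow_le_pow_left₀ hd0.le h3 2
      linarith
  exact sgn (hg.of_le (by norm_num)) (hf.of_le (by norm_num)) hg0 hf0 hgν hfν key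

private theorem rotS2_dir {g' φ' : E →L[ℝ] ℝ} (hg1 : g' ≠ 0)
    (hu : ∃ u, g' u = 0 ∧ φ' u ≠ 0) : ∃ ν : E, ‖ν‖ = 1 ∧ 0 < g' ν ∧ φ' ν = 0 := by
  obtain ⟨u, hu1, hu2⟩ := hu
  obtain ⟨v, hv1, hv2⟩ := rotS1_unit hg1
  obtain ⟨w, hw⟩ : ∃ w, w = v - (φ' v / φ' u) • u := ⟨_, rfl⟩
  have h1 : 0 < g' w := by
    rw [hw, map_sub, map_smul, hu1, smul_zero, sub_zero]
    exact hv2
  have h2 : φ' w = 0 := by
    rw [hw, map_sub, map_smul, smul_eq_mul, div_mul_cancel₀ _ hu2, sub_self]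
  have hn : 0 < ‖w‖ := by
    rw [norm_pos_iff]
    intro h0
    rw [h0, map_zero] at h1
    exact lt_irrefl _ h1
  refine ⟨‖w‖⁻¹ • w, ?_, ?_, ?_⟩
  · rw [norm_smul, norm_inv, norm_norm, inv_mul_cancel₀ hn.ne']
  · rw [map_smul, smul_eq_mul]
    exact mul_pos (inv_pos.2 hn) h1
  · rw [map_smul, h2, smul_zero]

private theorem rotS2_grad {φ' : E →L[ℝ] ℝ} (h : φ' ≠ 0) :
    ∃ (e : E) (β : ℝ), ‖e‖ = 1 ∧ 0 < β ∧ ∀ v, φ' v = β * inner ℝ e v := by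
  obtain ⟨w, hw⟩ : ∃ w, w = (InnerProductSpace.toDual ℝ E).symm φ' := ⟨_, rfl⟩
  have h1 : ∀ v, φ' v = inner ℝ w v := by
    intro v
    rw [hw, InnerProductSpace.toDual_symm_apply]
  have hn : 0 < ‖w‖ := by
    rw [norm_pos_iff]
    intro h0
    apply h
    ext v
    rw [h1, h0, inner_zero_left]
    rfl
  refine ⟨‖w‖⁻¹ • w, ‖w‖, ?_, hn, ?_⟩
  · rw [norm_smul, norm_inv, norm_norm, inv_mul_cancel₀ hn.ne']
  · intro v
    rw [h1, inner_smul_left, conj_trivial, ← mul_assoc, mul_inv_cancel₀ hn.ne', one_mul]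

private theorem rotS2_calc {C K β t N P φz : ℝ} (hC : 0 < C) (hK : 0 < K) (hβ : 0 < β)
    (hP : 0 ≤ P) (h1 : -(C * N) ≤ φz - β * t) (h2 : N ≤ K ^ 2 * P)
    (h3 : P < β / (2 * C * K ^ 2 + 1) * t) : 0 < φz := by
  have hD : 0 < 2 * C * K ^ 2 + 1 := by positivity
  have hR : 0 < β / (2 * C * K ^ 2 + 1) := by positivity
  have ht : 0 < t := (mul_pos_iff_of_pos_left hR).1 (lt_of_le_of_lt hP h3)
  have h4 : P * (2 * C * K ^ 2 + 1) < β * t := by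
    rw [div_mul_eq_mul_div, lt_div_iff₀ hD] at h3
    exact h3
  have h5 : C * N ≤ C * (K ^ 2 * P) := mul_le_mul_of_nonneg_left h2 hC.le
  have h6 : 0 ≤ C * (K ^ 2 * P) := by positivity
  nlinarith

/-- piece `ROT-S2`: touching at a point of a transversal hypersurface `{φ = 0}`.
Proof. Replace `u` by `± u`: `g'(y) u = 0`, `φ'(y) u > 0`. Take `v` with `g'(y) v > 0` and
`ν₀ = v - (φ'(y) v / φ'(y) u) u`: `g'(y) ν₀ > 0`, `φ'(y) ν₀ = 0`; `ν = ν₀ / ‖ν₀‖`. Let `e` be the unit vector with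
`φ'(y) = β ⟪e, ·⟫`, `β = ‖φ'(y)‖ > 0` (`InnerProductSpace.toDual`); `⟪ν, e⟫ = 0`. `π v = v - ⟪ν, v⟫ ν`. With `K, δ` from `gl`
and `C` from `quad`: for `z` near `y` with `g z = 0`, `φ z ≥ β ⟪e, z - y⟫ - C ‖z - y‖² ≥ β ⟪e, z - y⟫ - C K² ‖π (z - y)‖²`.
Let `R = β / (2 C K² + 1)`. If `0 < wf y ν e R z = R ⟪e, z - y⟫ - ‖π (z - y)‖²` then `⟪e, z - y⟫ > 0` and
`C K² ‖π (z - y)‖² ≤ C K² R ⟪e, z - y⟫ < β ⟪e, z - y⟫`, so `φ z > 0` and by hypothesis `f z < 0`. Apply `hopf` with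
`c = 1`. -/
theorem bnd {U : Set E} {F : E → (E →L[ℝ] ℝ) → (E →L[ℝ] E →L[ℝ] ℝ) → ℝ} (hF : Ell U F)
    {f g φ : E → ℝ} {y : E} {H : ℝ} (hy : y ∈ U)
    (hf : ContDiffAt ℝ 3 f y) (hg : ContDiffAt ℝ 3 g y) (hφ : ContDiffAt ℝ 2 φ y)
    (hf0 : f y = 0) (hg0 : g y = 0) (hφ0 : φ y = 0)
    (hg1 : fderiv ℝ g y ≠ 0) (hfg : fderiv ℝ f y = fderiv ℝ g y)
    (hu : ∃ u, fderiv ℝ g y u = 0 ∧ fderiv ℝ φ y u ≠ 0)
    (hfe : ∀ᶠ z in 𝓝 y, f z = 0 → F z (fderiv ℝ f z) (S2 f z) = H)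
    (hge : ∀ᶠ z in 𝓝 y, g z = 0 → F z (fderiv ℝ g z) (S2 g z) = H)
    (h : ∀ᶠ z in 𝓝 y, g z = 0 → 0 < φ z → f z < 0) : False := by
  obtain ⟨ν, hν, hgν, hφν⟩ := rotS2_dir hg1 hu
  have hφ1 : fderiv ℝ φ y ≠ 0 := by
    obtain ⟨u, -, hu2⟩ := hu
    intro h0
    rw [h0] at hu2
    exact hu2 rfl
  obtain ⟨e, β, he, hβ, heφ⟩ := rotS2_grad hφ1
  have hνe : inner ℝ ν e = 0 := by
    have h1 := heφ ν
    rw [hφν] at h1
    rw [real_inner_comm]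
    rcases mul_eq_zero.1 h1.symm with h2 | h2
    · exact absurd h2 hβ.ne'
    · exact h2
  obtain ⟨K, δ, hK, hδ, hgl⟩ := gl (hg.of_le (by norm_num)) hν hgν
  obtain ⟨C, hC, hq⟩ := quad hφ
  have hR : 0 < β / (2 * C * K ^ 2 + 1) := by positivity
  refine hopf hF hy hf hg hf0 hg0 hfe hge hν he hνe hgν one_pos (by rw [hfg, one_smul]) hR ?_
  filter_upwards [h, hq, Metric.ball_mem_nhds y hδ] with z h1 h2 h3 hgz hw
  refine h1 hgz ?_
  have h4 : ‖z - y‖ ≤ K * ‖rotS1_pi ν (z - y)‖ :=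
    hgl y (Metric.mem_ball_self hδ) z h3 (by rw [hg0, hgz])
  rw [hφ0, sub_zero, heφ] at h2
  have h6 : ‖z - y‖ ^ 2 ≤ K ^ 2 * ‖rotS1_pi ν (z - y)‖ ^ 2 := by
    rw [← mul_pow]
    exact pow_le_pow_left₀ (norm_nonneg _) h4 2
  refine rotS2_calc hC hK hβ (sq_nonneg ‖rotS1_pi ν (z - y)‖) (abs_le.1 h2).1 h6 ?_
  rw [rotS1_norm hν]
  unfold wf at hw
  linarith

end Pool.Agent.Helper75.ROT
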