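import Pool.Agent.Helper75.ROT.Dm
import Pool.Agent.Helper75.ROT.Smp

/-! # ROT: moving planes

`n` with `Un p n` is the unit normal vector of the plane `B1 X n = 0`, `rf p n` the reflection, `rr p n` the reflection in
the ball. The hypersurface is `{z | Φ (em p z) = 0}` in the ball, its reflection `{z | Φ (rf p n (em p z)) = 0}`. -/

set_option autoImplicit false
set_option linter.unusedSectionVars false
set_option linter.unusedVariables false

namespace Pool.Agent.Helper75.ROT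

open Filter Topology
open scoped ContDiff
open Pool.Agent.Helper41.ALX (S2)

variable {E : Type*} [NormedAddCommGroup E] [InnerProductSpace ℝ E] [FiniteDimensional ℝ E]

/-- piece `ROT-P1`: far planes do not meet the domain.
Proof. Let `Φ (em z) ≤ 0`, `‖z‖ ≤ R < 1` (`hD.bd`; make `R ≥ 0`), `x = ‖p z‖ ≤ R`. `B1 (em z) (nt n τ) = 2 cosh τ ⟪p z, n⟫ -
sinh τ (1 + x²) ≤ 2 x cosh τ - sinh τ (1 + x²) = - sinh τ (1 - x)² + 2 x (cosh τ - sinh τ) ≤ - sinh τ (1 - R)² + 2 exp (-τ)`,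
which is `< 0` for `τ` large. So both conditions are vacuous. -/
theorem start {H : ℝ} {p : E →L[ℝ] E} (hp : Pj p) {Φ : ℝ × E → ℝ} (hD : Dm H p Φ) {n : E}
    (h1 : p n = n) (h2 : ‖n‖ = 1) :
    ∃ T : ℝ, 0 < T ∧ ∀ τ, T ≤ τ → PP p Φ (nt n τ) ∧ QQ p Φ (nt n τ) := by
  obtain ⟨R, hR1, hR⟩ := hD.bd
  obtain ⟨S, hS0, hS1, hRS⟩ : ∃ S : ℝ, 0 ≤ S ∧ S < 1 ∧ R ≤ S :=
    ⟨max R 0, le_max_right _ _, max_lt hR1 one_pos, le_max_left _ _⟩
  have hc : 0 < (1 - S) ^ 2 := by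
    have : 0 < 1 - S := by linarith
    positivity
  -- for large `τ`: `2 exp (-τ) < sinh τ (1 - S)²`
  obtain ⟨T, hT0, hT⟩ : ∃ T : ℝ, 0 < T ∧ ∀ τ, T ≤ τ →
      2 * Real.exp (-τ) < Real.sinh τ * (1 - S) ^ 2 := by
    refine ⟨2 / (1 - S) ^ 2 + 1, by positivity, fun τ hτ => ?_⟩
    have hpos : 0 < 2 / (1 - S) ^ 2 := by positivity
    have hτ0 : 0 < τ := by linarith
    have h3 : Real.exp (-τ) < 1 := by
      rw [Real.exp_lt_one_iff]
      linarith
    have h4 : τ ≤ Real.sinh τ := Real.self_le_sinh_iff.2 hτ0.le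
    have h5 : 2 ≤ 2 / (1 - S) ^ 2 * (1 - S) ^ 2 := by
      rw [div_mul_cancel₀ _ hc.ne']
    nlinarith
  have hneg : ∀ τ, T ≤ τ → ∀ z ∈ Metric.ball (0 : E) 1, Φ (em p z) ≤ 0 →
      B1 p (em p z) (nt n τ) < 0 := by
    intro τ hτ z hz hz0
    have hτ0 : 0 < τ := hT0.trans_le hτ
    have hzR : ‖z‖ ≤ S := (hR z hz hz0).trans hRS
    have hx : ‖p z‖ ≤ S := by
      have h6 := pyth hp z
      have h7 : ‖p z‖ ^ 2 ≤ ‖z‖ ^ 2 := by nlinarith [sq_nonneg ‖z - p z‖]
      exact (abs_le_of_sq_le_sq' h7 (norm_nonneg _)).2.trans hzR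
    have hx0 : 0 ≤ ‖p z‖ := norm_nonneg _
    have e1 : B1 p (em p z) (nt n τ) =
        2 * Real.cosh τ * inner ℝ (p z) n - (1 + ‖p z‖ ^ 2) * Real.sinh τ := by
      unfold B1 em nt
      simp only [map_add, map_smul, hp.idem, h1, inner_smul_right, inner_add_left]
      ring
    have h8 : inner ℝ (p z) n ≤ ‖p z‖ := by
      have := real_inner_le_norm (p z) n
      rwa [h2, mul_one] at this
    have h9 : 0 < Real.cosh τ := Real.cosh_pos τ
    have h10 : 0 < Real.sinh τ := Real.sinh_pos_iff.2 hτ0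
    have h11 : Real.cosh τ - Real.sinh τ = Real.exp (-τ) := Real.cosh_sub_sinh τ
    have h12 : 0 < Real.exp (-τ) := Real.exp_pos _
    have h13 := hT τ hτ
    have h14 : 2 * Real.cosh τ * inner ℝ (p z) n ≤ 2 * Real.cosh τ * ‖p z‖ :=
      mul_le_mul_of_nonneg_left h8 (by positivity)
    have h15 : (1 - S) ^ 2 ≤ (1 - ‖p z‖) ^ 2 := by
      apply pow_le_pow_left₀ (by linarith)
      linarith
    have h16 : Real.sinh τ * (1 - S) ^ 2 ≤ Real.sinh τ * (1 - ‖p z‖) ^ 2 :=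
      mul_le_mul_of_nonneg_left h15 h10.le
    have h17 : Real.exp (-τ) * ‖p z‖ ≤ Real.exp (-τ) * 1 :=
      mul_le_mul_of_nonneg_left (by linarith) h12.le
    have h18 : Real.cosh τ = Real.sinh τ + Real.exp (-τ) := by linarith
    rw [e1]
    rw [h18] at h14
    rw [h18]
    nlinarith
  refine ⟨T, hT0, fun τ hτ => ⟨?_, ?_⟩⟩
  · intro z hz hz0 hB
    exact absurd hB (hneg τ hτ z hz hz0.le).ne
  · intro z hz hz0 hB
    exact absurd hB (not_lt.2 (hneg τ hτ z hz hz0).le)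

/-- piece `ROT-P1`: limit.
Proof. For `τ ↓ s`, `B1 (em z) (nt n τ) > 0` and `Φ (rf (nt n τ) (em z)) < 0`; `Φ` is continuous at `rf (nt n s) (em z) ∈ Cn p`. -/
theorem limit {H : ℝ} {p : E →L[ℝ] E} (hp : Pj p) {Φ : ℝ × E → ℝ} (hD : Dm H p Φ) {n : E}
    (h1 : p n = n) (h2 : ‖n‖ = 1) {s : ℝ} (h : ∀ τ, s < τ → QQ p Φ (nt n τ)) :
    WW p Φ (nt n s) := by
  intro z hz hz0 hB
  have cn : Continuous (fun τ : ℝ => nt n τ) := by
    unfold nt
    exact Real.continuous_sinh.prodMk (Real.continuous_cosh.smul continuous_const)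
  have hX : em p z ∈ Cn p := em_Cn hp hz
  have cB : Continuous (fun τ : ℝ => B1 p (em p z) (nt n τ)) :=
    (continuous_B1 p).comp (continuous_const.prodMk cn)
  have cR : Continuous (fun τ : ℝ => rf p (nt n τ) (em p z)) :=
    (continuous_rf p).comp (cn.prodMk continuous_const)
  have hY : rf p (nt n s) (em p z) ∈ Cn p := rf_Cn hp (Un_nt h1 h2 s) hX
  have cΦ : ContinuousAt (fun τ : ℝ => Φ (rf p (nt n τ) (em p z))) s :=
    ContinuousAt.comp (f := fun τ : ℝ => rf p (nt n τ) (em p z)) (g := Φ) (x := s)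
      (hD.sm.continuousOn.continuousAt ((Cn_open p).mem_nhds hY)) cR.continuousAt
  have e1 : ∀ᶠ τ in 𝓝[>] s, 0 < B1 p (em p z) (nt n τ) :=
    (cB.continuousAt.eventually_const_lt (u := 0) hB).filter_mono nhdsWithin_le_nhds
  have e2 : ∀ᶠ τ in 𝓝[>] s, Φ (rf p (nt n τ) (em p z)) ≤ 0 := by
    filter_upwards [e1, self_mem_nhdsWithin] with τ h3 h4
    exact (h τ h4 z hz hz0 h3).le
  exact le_of_tendsto (cΦ.tendsto.mono_left nhdsWithin_le_nhds) e2

/-- bad pairs of a plane and a point -/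
private def rotP2_bad (p : E →L[ℝ] E) (Φ : ℝ × E → ℝ) (n : ℝ × E) (z : E) : Prop :=
  (Φ (em p z) = 0 ∧ B1 p (em p z) n = 0 ∧ fderiv ℝ Φ (em p z) n ≤ 0) ∨
    (Φ (em p z) ≤ 0 ∧ 0 < B1 p (em p z) n ∧ 0 ≤ Φ (rf p n (em p z)))

private lemma rotP2_local {H : ℝ} {p : E →L[ℝ] E} (hp : Pj p) {Φ : ℝ × E → ℝ} (hD : Dm H p Φ)
    {n : ℝ × E} (hn : Un p n) (hP : PP p Φ n) (hQ : QQ p Φ n) {z : E}
    (hz : z ∈ Metric.ball (0 : E) 1) :
    ∀ᶠ x : (ℝ × E) × E in 𝓝 (n, z), ¬ rotP2_bad p Φ x.1 x.2 := by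
  have hX : em p z ∈ Cn p := em_Cn hp hz
  have hCn := Cn_open p
  have cE : ContinuousAt (fun x : (ℝ × E) × E => em p x.2) (n, z) :=
    ((em_smooth p).continuous.comp continuous_snd).continuousAt
  have cB : ContinuousAt (fun x : (ℝ × E) × E => B1 p (em p x.2) x.1) (n, z) :=
    ((continuous_B1 p).comp
      (((em_smooth p).continuous.comp continuous_snd).prodMk continuous_fst)).continuousAt
  have cR0 : ContinuousAt (fun x : (ℝ × E) × E => rf p x.1 (em p x.2)) (n, z) :=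
    ((continuous_rf p).comp
      (continuous_fst.prodMk ((em_smooth p).continuous.comp continuous_snd))).continuousAt
  have cΦ : ∀ Y ∈ Cn p, ContinuousAt Φ Y := fun Y hY =>
    hD.sm.continuousOn.continuousAt (hCn.mem_nhds hY)
  have cF : ContinuousAt (fun x : (ℝ × E) × E => Φ (em p x.2)) (n, z) :=
    ContinuousAt.comp (f := fun x : (ℝ × E) × E => em p x.2) (g := Φ) (x := (n, z))
      (cΦ _ hX) cE
  have cR : ContinuousAt (fun x : (ℝ × E) × E => Φ (rf p x.1 (em p x.2))) (n, z) :=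
    ContinuousAt.comp (f := fun x : (ℝ × E) × E => rf p x.1 (em p x.2)) (g := Φ) (x := (n, z))
      (cΦ _ (rf_Cn hp hn hX)) cR0
  rcases lt_or_ge 0 (Φ (em p z)) with h1 | h1
  · filter_upwards [cF.eventually_const_lt (u := 0) h1] with x hx hb
    rcases hb with hb | hb
    · exact hx.ne' hb.1
    · exact absurd hb.1 (not_le.2 hx)
  rcases lt_or_ge (B1 p (em p z) n) 0 with h2 | h2
  · filter_upwards [cB.eventually_lt_const (u := 0) h2] with x hx hb
    rcases hb with hb | hb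
    · exact hx.ne hb.2.1
    · exact absurd hb.2.1 (not_lt.2 hx.le)
  rcases h2.eq_or_lt with h3 | h3
  · have hr : rf p n (em p z) = em p z := rf_fix h3.symm
    rcases h1.eq_or_lt with h4 | h4
    · have hpos : 0 < fderiv ℝ Φ (em p z) n := hP z hz h4 h3.symm
      obtain ⟨δ, hδ, hmono⟩ := dir_mono hD.sm hX hpos
      have cD : ContinuousAt (fun x : (ℝ × E) × E => fderiv ℝ Φ (em p x.2) x.1) (n, z) := by
        have c0 : ContinuousAt (fderiv ℝ Φ) (em p z) :=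
          ((hD.sm.fderiv_of_isOpen (m := 2) hCn (by norm_num)).continuousOn).continuousAt
            (hCn.mem_nhds hX)
        have c1 : ContinuousAt (fun x : (ℝ × E) × E => fderiv ℝ Φ (em p x.2)) (n, z) :=
          ContinuousAt.comp (f := fun x : (ℝ × E) × E => em p x.2) (g := fun Y => fderiv ℝ Φ Y)
            (x := (n, z)) c0 cE
        exact c1.clm_apply continuousAt_fst
      have e2 : ∀ᶠ x : (ℝ × E) × E in 𝓝 (n, z), x.1 ∈ Metric.ball n δ ∧
          em p x.2 ∈ Metric.ball (em p z) δ ∧ rf p x.1 (em p x.2) ∈ Metric.ball (em p z) δ :=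
        (continuousAt_fst.eventually_mem (Metric.ball_mem_nhds n hδ)).and
          ((cE.eventually_mem (Metric.ball_mem_nhds (em p z) hδ)).and
            (cR0.eventually_mem (by
              show Metric.ball (em p z) δ ∈ 𝓝 (rf p n (em p z))
              rw [hr]
              exact Metric.ball_mem_nhds _ hδ)))
      filter_upwards [e2, cD.eventually_const_lt (u := 0) hpos] with x hx hx' hb
      rcases hb with hb | hb
      · exact absurd hb.2.2 (not_le.2 hx')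
      · obtain ⟨b1, b2, b3⟩ := hb
        have h6 : rf p x.1 (em p x.2) + (2 * B1 p (em p x.2) x.1) • x.1 = em p x.2 := by
          unfold rf
          abel
        have h7 := hmono x.1 hx.1 (rf p x.1 (em p x.2)) hx.2.2 (2 * B1 p (em p x.2) x.1)
          (by positivity) (by rw [h6]; exact hx.2.1)
        rw [h6] at h7
        linarith
    · filter_upwards [cF.eventually_lt_const (u := 0) h4,
        cR.eventually_lt_const (u := 0) (by show Φ (rf p n (em p z)) < 0; rw [hr]; exact h4)]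
        with x hx hx' hb
      rcases hb with hb | hb
      · exact hx.ne hb.1
      · exact absurd hb.2.2 (not_le.2 hx')
  · filter_upwards [cB.eventually_const_lt (u := 0) h3,
      cR.eventually_lt_const (u := 0) (hQ z hz h1 h3)] with x hx hx' hb
    rcases hb with hb | hb
    · exact hx.ne' hb.2.1
    · exact absurd hb.2.2 (not_le.2 hx')

/-- piece `ROT-P2`: openness.
Proof. Otherwise there is a sequence `τ_k → s` at which `PP` or `QQ` fails, with bad points `z_k`, `‖z_k‖ ≤ R < 1`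
(`hD.bd`), and a subsequence with `z_k → z`, `Φ (em z) ≤ 0`. If `PP` fails along the subsequence: `Φ (em z) = 0`,
`B1 (em z) (nt n s) = 0` and `Φ'(em z) (nt n s) ≤ 0` in the limit, against `PP`. If `QQ` fails: `Φ (em z_k) ≤ 0`,
`β_k = B1 (em z_k) n_k > 0`, `Φ (rf n_k (em z_k)) ≥ 0`, `n_k = nt n τ_k`; in the limit `B1 (em z) n_s ≥ 0`,
`Φ (rf n_s (em z)) ≥ 0`. If `B1 (em z) n_s > 0` this contradicts `QQ`. If it is `0`: `rf n_s (em z) = em z`, `Φ (em z) = 0`, so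
`Φ'(em z) n_s > 0` by `PP`, and `dir_mono` at `em z`, `n_s` with `Y = rf n_k (em z_k)`, `em z_k = Y + 2 β_k n_k`:
`0 ≤ Φ Y < Φ (em z_k) ≤ 0` for large `k`, contradiction. (Helper41/ALX/StepA.lean, `exists_smaller`, has the same
argument.) -/
theorem opn_PQ {H : ℝ} {p : E →L[ℝ] E} (hp : Pj p) {Φ : ℝ × E → ℝ} (hD : Dm H p Φ) {n : E}
    (h1 : p n = n) (h2 : ‖n‖ = 1) {s : ℝ} (hP : PP p Φ (nt n s)) (hQ : QQ p Φ (nt n s)) :
    ∀ᶠ τ in 𝓝 s, PP p Φ (nt n τ) ∧ QQ p Φ (nt n τ) := by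
  obtain ⟨R, hR1, hR⟩ := hD.bd
  have cn : Continuous (fun τ : ℝ => nt n τ) := by
    unfold nt
    exact Real.continuous_sinh.prodMk (Real.continuous_cosh.smul continuous_const)
  have key : ∀ᶠ τ in 𝓝 s, ∀ z ∈ Metric.closedBall (0 : E) R, ¬ rotP2_bad p Φ (nt n τ) z := by
    refine (isCompact_closedBall (0 : E) R).eventually_forall_of_forall_eventually ?_
    intro z hz
    have hz' : z ∈ Metric.ball (0 : E) 1 := by
      rw [mem_closedBall_zero_iff] at hz
      rw [mem_ball_zero_iff]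
      exact hz.trans_lt hR1
    have hc : Tendsto (fun x : ℝ × E => (nt n x.1, x.2)) (𝓝 (s, z)) (𝓝 (nt n s, z)) :=
      ((cn.comp continuous_fst).prodMk continuous_snd).tendsto (s, z)
    exact hc.eventually (rotP2_local hp hD (Un_nt h1 h2 s) hP hQ hz')
  filter_upwards [key] with τ hτ
  constructor
  · intro z hz hz0 hB
    by_contra hc
    exact hτ z (mem_closedBall_zero_iff.2 (hR z hz hz0.le)) (Or.inl ⟨hz0, hB, not_lt.1 hc⟩)
  · intro z hz hz0 hB
    by_contra hc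
    exact hτ z (mem_closedBall_zero_iff.2 (hR z hz hz0)) (Or.inr ⟨hz0, hB, not_lt.1 hc⟩)

/-- piece `ROT-P3`: interior touching point.
Proof. There is `z` with `Φ (em z) ≤ 0`, `0 < B1 (em z) n` and `Φ (rf n (em z)) ≥ 0`, so `= 0` by `WW`. If `Φ (em z) < 0`, then
for all `z'` near `z`: `Φ (em z') < 0`, `0 < B1 (em z') n`, so `Φ (rf n (em z')) ≤ 0`: then `Φ ≤ 0` near
`X = rf n (em z)` (for `Y` near `X`, `Y' = rf n Y` is near `em z`, `z' = pr Y'` is near `pr (em z) = z`, `pr_smooth`, and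
`Φ (rf n (em z')) = Φ (rf n Y') = Φ Y` by `phi_pr` for the function `Φ ∘ rf n`), against `no_max`. -/
theorem touch {H : ℝ} {p : E →L[ℝ] E} (hp : Pj p) {Φ : ℝ × E → ℝ} (hD : Dm H p Φ) {n : ℝ × E}
    (hn : Un p n) (hW : WW p Φ n) (hQ : ¬ QQ p Φ n) :
    ∃ z ∈ Metric.ball (0 : E) 1, Φ (em p z) = 0 ∧ 0 < B1 p (em p z) n ∧
      Φ (rf p n (em p z)) = 0 := by
  unfold QQ at hQ
  push Not at hQ
  obtain ⟨z, hz, h1, h2, h3⟩ := hQ
  have h4 : Φ (rf p n (em p z)) = 0 := le_antisymm (hW z hz h1 h2) h3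
  rcases h1.lt_or_eq with h5 | h5
  swap
  · exact ⟨z, hz, h5, h2, h4⟩
  exfalso
  have hzC := em_Cn hp hz
  have hXC := rf_Cn hp hn hzC
  have hpz : ‖p z‖ ≤ 1 := by
    have e1 := pyth hp z
    have e2 : ‖z‖ < 1 := by simpa using hz
    nlinarith [norm_nonneg (p z), norm_nonneg z, sq_nonneg ‖z - p z‖]
  have hrf : Continuous (rf p n) :=
    (continuous_rf p).comp (continuous_const.prodMk continuous_id)
  have hy0 : pr p (rf p n (rf p n (em p z))) = z := by
    rw [rf_rf hn, pr_em hp hpz]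
  have hcont : ContinuousAt (fun Y => pr p (rf p n Y)) (rf p n (em p z)) := by
    have e1 : ContinuousAt (pr p) (rf p n (rf p n (em p z))) := by
      rw [rf_rf hn]
      exact (pr_smooth hp).continuousOn.continuousAt ((Cn_open p).mem_nhds hzC)
    exact ContinuousAt.comp e1 hrf.continuousAt
  have htend : Tendsto (fun Y => pr p (rf p n Y)) (𝓝 (rf p n (em p z))) (𝓝 z) := by
    have e1 := hcont.tendsto
    rwa [hy0] at e1
  have hΦ : ContinuousAt (fun y => Φ (em p y)) z := by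
    have e1 : ContinuousAt Φ (em p z) :=
      hD.sm.continuousOn.continuousAt ((Cn_open p).mem_nhds hzC)
    exact ContinuousAt.comp e1 (em_smooth p).continuous.continuousAt
  have hB : ContinuousAt (fun y => B1 p (em p y) n) z :=
    ((continuous_B1 p).comp ((em_smooth p).continuous.prodMk continuous_const)).continuousAt
  have f1 : ∀ᶠ Y in 𝓝 (rf p n (em p z)), Φ (em p (pr p (rf p n Y))) < 0 :=
    htend.eventually (hΦ.eventually_lt continuousAt_const h5)
  have f2 : ∀ᶠ Y in 𝓝 (rf p n (em p z)), 0 < B1 p (em p (pr p (rf p n Y))) n :=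
    htend.eventually (continuousAt_const.eventually_lt hB h2)
  have f3 : ∀ᶠ Y in 𝓝 (rf p n (em p z)), Y ∈ Cn p := (Cn_open p).mem_nhds hXC
  have hom' : ∀ X ∈ Cn p, ∀ l : ℝ, 0 < l →
      (fun X => Φ (rf p n X)) (sc p l X) = (fun X => Φ (rf p n X)) X := by
    intro X hX l hl
    change Φ (rf p n (sc p l X)) = Φ (rf p n X)
    rw [← sc_rf hp hn l, hD.hom _ (rf_Cn hp hn hX) l hl]
  obtain ⟨Y, g0, g1, g2, g3⟩ := ((no_max hD hXC h4).and_eventually
    (f1.and (f2.and f3))).exists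
  have g4 := hW _ (pr_ball hp (rf_Cn hp hn g3)) g1.le g2
  have g5 := phi_pr hp (Φ := fun X => Φ (rf p n X)) hom' (rf_Cn hp hn g3)
  change Φ (rf p n (em p (pr p (rf p n Y)))) = Φ (rf p n (rf p n Y)) at g5
  rw [g5, rf_rf hn] at g4
  linarith

private theorem rotP4_hom {p : E →L[ℝ] E} (hp : Pj p) {Φ : ℝ × E → ℝ}
    (hom : ∀ X ∈ Cn p, ∀ l : ℝ, 0 < l → Φ (sc p l X) = Φ X) {n : ℝ × E} (hn : Un p n) :
    ∀ X ∈ Cn p, ∀ l : ℝ, 0 < l →
      (fun X => Φ (rf p n X)) (sc p l X) = (fun X => Φ (rf p n X)) X := by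
  intro X hX l hl
  change Φ (rf p n (sc p l X)) = Φ (rf p n X)
  rw [← sc_rf hp hn, hom _ (rf_Cn hp hn hX) l hl]

/-- for `Φ' n < 0` -/
private theorem rotP4_neg {p : E →L[ℝ] E} (hp : Pj p) {Φ : ℝ × E → ℝ}
    (sm : ContDiffOn ℝ 3 Φ (Cn p))
    (hom : ∀ X ∈ Cn p, ∀ l : ℝ, 0 < l → Φ (sc p l X) = Φ X) {n : ℝ × E} (hn : Un p n)
    (hQ : QQ p Φ n) {z : E} (hz : z ∈ Metric.ball (0 : E) 1) (h0 : Φ (em p z) = 0)
    (hB : B1 p (em p z) n = 0) : ¬ fderiv ℝ Φ (em p z) n < 0 := by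
  intro hneg
  have hem := em_Cn hp hz
  have hd : DifferentiableAt ℝ Φ (em p z) :=
    (sm.contDiffAt ((Cn_open p).mem_nhds hem)).differentiableAt (by norm_num)
  have hline : HasDerivAt (fun t : ℝ => em p z + t • n) n 0 := by
    have h1 := ((hasDerivAt_id (0 : ℝ)).smul_const n).const_add (em p z)
    simpa using h1
  have hl0 : em p z + (0 : ℝ) • n = em p z := by rw [zero_smul, add_zero]
  have hder : HasDerivAt (fun t : ℝ => Φ (em p z + t • n)) (fderiv ℝ Φ (em p z) n) 0 := by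
    have h1 : HasFDerivAt Φ (fderiv ℝ Φ (em p z)) (em p z + (0 : ℝ) • n) := by
      rw [hl0]
      exact hd.hasFDerivAt
    exact h1.comp_hasDerivAt (0 : ℝ) hline
  rw [hasDerivAt_iff_tendsto_slope] at hder
  have hev := hder.eventually (gt_mem_nhds hneg)
  rw [eventually_nhdsWithin_iff] at hev
  have hcn : ∀ᶠ t : ℝ in 𝓝 0, em p z + t • n ∈ Cn p := by
    have h1 : Tendsto (fun t : ℝ => em p z + t • n) (𝓝 0) (𝓝 (em p z)) := by
      have h2 := hline.continuousAt.tendsto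
      rwa [hl0] at h2
    exact h1.eventually ((Cn_open p).mem_nhds hem)
  obtain ⟨ε, hε, hb⟩ := Metric.eventually_nhds_iff.1 (hev.and hcn)
  have hslope : ∀ t : ℝ, t ≠ 0 → |t| < ε → Φ (em p z + t • n) / t < 0 := by
    intro t ht htε
    have h1 := (hb (y := t) (by simpa using htε)).1 ht
    rw [slope_def_field] at h1
    simp only [zero_smul, add_zero, h0, sub_zero] at h1
    exact h1
  set t := ε / 2 with ht
  have ht0 : 0 < t := by positivity
  have htε : |t| < ε := by rw [abs_of_pos ht0]; linarith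
  have a1 : Φ (em p z + t • n) < 0 := by
    have h1 := hslope t ht0.ne' htε
    rcases div_neg_iff.1 h1 with h2 | h2
    · exact absurd h2.2 (not_lt.2 ht0.le)
    · exact h2.1
  have a2 : 0 < Φ (em p z + (-t) • n) := by
    have h1 := hslope (-t) (by linarith [ht0] : -t < 0).ne (by rwa [abs_neg])
    rcases div_neg_iff.1 h1 with h2 | h2
    · exact h2.1
    · exact absurd h2.2 (not_lt.2 (by linarith))
  have hX : em p z + t • n ∈ Cn p := (hb (y := t) (by simpa using htε)).2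
  have hBX : B1 p (em p z + t • n) n = t := by
    rw [B1_add_left, B1_smul_left, hB, hn.one]
    ring
  have hrX : rf p n (em p z + t • n) = em p z + (-t) • n := by
    rw [rf, hBX]
    module
  have hz' := pr_ball hp hX
  have b1 : Φ (em p (pr p (em p z + t • n))) = Φ (em p z + t • n) := phi_pr hp hom hX
  have b2 : Φ (rf p n (em p (pr p (em p z + t • n)))) = Φ (rf p n (em p z + t • n)) :=
    phi_pr (Φ := fun X => Φ (rf p n X)) hp (rotP4_hom hp hom hn) hX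
  obtain ⟨m, hm, hB'⟩ := B1_pr hp hX n
  have c1 := hQ _ hz' (by rw [b1]; exact a1.le) (by rw [hB', hBX]; positivity)
  rw [b2, hrX] at c1
  exact absurd c1 (not_lt.2 a2.le)

/-- piece `ROT-P4`: `QQ` implies `PP` (boundary point lemma).
Proof. Let `Φ (em z) = 0`, `B1 (em z) n = 0` and suppose `Φ'(em z) n ≤ 0`. If `Φ'(em z) n < 0`: `dir_mono` for `- Φ` (or the
derivative at `t = 0` of `t ↦ Φ (em z + t n)`) gives small `t > 0` with `Φ (em z + t n) < 0 < Φ (em z - t n)`; with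
`X = em z + t n ∈ Cn p`, `B1 X n = t > 0`, `rf n X = em z - t n`, `z' = pr X`, `phi_pr`, `B1_pr`: `QQ` at `z'` gives
`Φ (rf n X) < 0`, contradiction. If `Φ'(em z) n = 0`: apply `bnd` with `F = MM a p` (`ell`), `f = Φ ∘ rf n ∘ em`,
`g = Φ ∘ em`, `φ = B1 (em ·) n`, `y = z`: `tangent_plane` gives `f' = g'` and the transversality, `Dm.chart` for `hD` and for
`hD.refl` the equations (`Mb a p f z = MM a p z (f' z) (S2 f z)`) and the regularity, `rf_fix`: `f z = 0`, and `QQ` the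
inequality `f < 0` on `{g = 0, φ > 0}`. -/
theorem no_bnd {a : ℕ} {H : ℝ} {p : E →L[ℝ] E} (hp : Pj p)
    (hr : Module.finrank ℝ (LinearMap.range (p : E →ₗ[ℝ] E)) = a + 1) {Φ : ℝ × E → ℝ}
    (hD : Dm H p Φ) {n : ℝ × E} (hn : Un p n) (hQ : QQ p Φ n) : PP p Φ n := by
  intro z hz h0 hB
  by_contra hcon
  rw [not_lt] at hcon
  rcases hcon.lt_or_eq with hlt | heq
  · exact rotP4_neg hp hD.sm hD.hom hn hQ hz h0 hB hlt
  · obtain ⟨t1, t2, t3⟩ := tangent_plane hp hn hD.sm hD.hom hz hB heq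
    obtain ⟨c1, c2, c3⟩ := hD.chart hp hr
    obtain ⟨d1, d2, d3⟩ := (hD.refl hp hn).chart hp hr
    have hball : Metric.ball (0 : E) 1 ∈ 𝓝 z := Metric.isOpen_ball.mem_nhds hz
    refine bnd (ell (a := (a : ℝ)) hp) (f := fun y => Φ (rf p n (em p y)))
      (g := fun y => Φ (em p y)) (φ := fun y => B1 p (em p y) n) (y := z) (H := H) hz
      (d1.contDiffAt hball) (c1.contDiffAt hball) (t2.of_le (by norm_num)) ?_ h0 hB
      (c2 z hz h0) t1 t3 ?_ ?_ ?_
    · rw [rf_fix hB, h0]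
    · filter_upwards [hball] with y hy h
      exact d3 y hy h
    · filter_upwards [hball] with y hy h
      exact c3 y hy h
    · filter_upwards [hball] with y hy h1 h2
      exact hQ y hy h1.le h2

/-- The hypersurface and its reflection have the same germ (with sides) at `z`. -/
def Gm (p : E →L[ℝ] E) (Φ : ℝ × E → ℝ) (n : ℝ × E) (z : E) : Prop :=
  ∀ᶠ y in 𝓝 z, (Φ (em p y) < 0 ↔ Φ (rf p n (em p y)) < 0) ∧
    (Φ (em p y) = 0 ↔ Φ (rf p n (em p y)) = 0)

/-- piece `ROT-P5`: `isOpen_setOf_eventually_nhds` -/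
theorem Gm_open (p : E →L[ℝ] E) (Φ : ℝ × E → ℝ) (n : ℝ × E) : IsOpen {z | Gm p Φ n z} := by
  exact isOpen_setOf_eventually_nhds

/-- piece `ROT-P5`: `phi_rr`, and `rr` is continuous at `rr z` with `rr (rr z) = z` -/
theorem Gm_rr {p : E →L[ℝ] E} (hp : Pj p) {Φ : ℝ × E → ℝ}
    (hom : ∀ X ∈ Cn p, ∀ l : ℝ, 0 < l → Φ (sc p l X) = Φ X) {n : ℝ × E} (hn : Un p n) {z : E}
    (hz : z ∈ Metric.ball (0 : E) 1) (h : Gm p Φ n z) : Gm p Φ n (rr p n z) := by
  have hz' := rr_ball hp hn hz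
  have hnb := Metric.isOpen_ball.mem_nhds hz'
  have hc : Tendsto (rr p n) (𝓝 (rr p n z)) (𝓝 z) := by
    have h1 := ((rr_cont hp hn).continuousAt hnb).tendsto
    rwa [rr_rr hp hn hz] at h1
  have h2 := hc.eventually h
  unfold Gm
  filter_upwards [h2, hnb] with y hy hyb
  obtain ⟨e1, e2⟩ := phi_rr hp hn hom hyb
  rw [e1, e2] at hy
  exact ⟨hy.1.symm, hy.2.symm⟩

/-- piece `ROT-P5`: strong maximum principle at an interior touching point.
Proof. `smp` with `F = MM a p` (`ell`), `U` the ball, `f = Φ ∘ rf n ∘ em`, `g = Φ ∘ em`; `Dm.chart` for `hD` and `hD.refl`;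
`g ≤ 0 → f ≤ 0` near `z` by `WW` (`B1 (em y) n > 0` near `z`). -/
theorem Gm_touch {a : ℕ} {H : ℝ} {p : E →L[ℝ] E} (hp : Pj p)
    (hr : Module.finrank ℝ (LinearMap.range (p : E →ₗ[ℝ] E)) = a + 1) {Φ : ℝ × E → ℝ}
    (hD : Dm H p Φ) {n : ℝ × E} (hn : Un p n) (hW : WW p Φ n) {z : E}
    (hz : z ∈ Metric.ball (0 : E) 1) (h0 : Φ (em p z) = 0) (h1 : Φ (rf p n (em p z)) = 0)
    (h2 : 0 < B1 p (em p z) n) : Gm p Φ n z := by
  obtain ⟨cg, rg, eg⟩ := Dm.chart hp hr hD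
  obtain ⟨cf, rf', ef⟩ := Dm.chart hp hr (hD.refl hp hn)
  have hnb := Metric.isOpen_ball.mem_nhds hz
  have cB : ContinuousAt (fun y : E => B1 p (em p y) n) z :=
    ((continuous_B1 p).comp ((em_smooth p).continuous.prodMk continuous_const)).continuousAt
  exact smp (ell (a := (a : ℝ)) hp) (H := H) hz (cf.contDiffAt hnb) (cg.contDiffAt hnb) h1 h0
    (rf' z hz h1) (rg z hz h0)
    (by filter_upwards [hnb] with y hy h3 using ef y hy h3)
    (by filter_upwards [hnb] with y hy h3 using eg y hy h3)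
    (by
      filter_upwards [hnb, cB.eventually_const_lt (u := 0) h2] with y hy h3 h4
      exact hW y hy h4 h3)

private theorem rotP6_main {H : ℝ} {p : E →L[ℝ] E} (hp : Pj p) {Φ : ℝ × E → ℝ} (hD : Dm H p Φ)
    {n : ℝ × E} (hn : Un p n) {z : E} (hz : z ∈ Metric.ball (0 : E) 1) (h0 : Φ (em p z) = 0)
    (h1 : B1 p (em p z) n = 0) (h2 : 0 < fderiv ℝ Φ (em p z) n) :
    ∀ᶠ y in 𝓝 z, Φ (em p y) = 0 → ¬ Gm p Φ n y := by
  obtain ⟨δ, hδ, hmono⟩ := dir_mono hD.sm (em_Cn hp hz) h2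
  have hn0 : n ∈ Metric.ball n δ := Metric.mem_ball_self hδ
  have hem : Continuous fun y : E => em p y := (em_smooth p).continuous
  have hrf : Continuous fun X : ℝ × E => rf p n X :=
    (continuous_rf p).comp (continuous_const.prodMk continuous_id)
  have e1 : ∀ᶠ y in 𝓝 z, y ∈ Metric.ball (0 : E) 1 := Metric.isOpen_ball.mem_nhds hz
  have e2 : ∀ᶠ y in 𝓝 z, em p y ∈ Metric.ball (em p z) δ :=
    hem.continuousAt.eventually (Metric.ball_mem_nhds _ hδ)
  have e3 : ∀ᶠ y in 𝓝 z, rf p n (em p y) ∈ Metric.ball (em p z) δ := by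
    refine (hrf.comp hem).continuousAt.eventually (Metric.isOpen_ball.mem_nhds ?_)
    show rf p n (em p z) ∈ Metric.ball (em p z) δ
    rw [rf_fix h1]
    exact Metric.mem_ball_self hδ
  filter_upwards [e1, e2, e3] with y hy1 hy2 hy3 hy0 hG
  have hr0 : Φ (rf p n (em p y)) = 0 := (Eventually.self_of_nhds hG).2.1 hy0
  have hrd : rf p n (em p y) = em p y - (2 * B1 p (em p y) n) • n := rfl
  have hB : B1 p (em p y) n = 0 := by
    rcases lt_trichotomy (B1 p (em p y) n) 0 with hb | hb | hb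
    · exfalso
      have h5 : em p y + (-(2 * B1 p (em p y) n)) • n = rf p n (em p y) := by
        rw [hrd, neg_smul, sub_eq_add_neg]
      have h6 := hmono n hn0 (em p y) hy2 (-(2 * B1 p (em p y) n)) (by linarith)
        (by rw [h5]; exact hy3)
      rw [h5, hy0, hr0] at h6
      exact lt_irrefl _ h6
    · exact hb
    · exfalso
      have h5 : rf p n (em p y) + (2 * B1 p (em p y) n) • n = em p y := by
        rw [hrd, sub_add_cancel]
      have h6 := hmono n hn0 (rf p n (em p y)) hy3 (2 * B1 p (em p y) n) (by linarith)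
        (by rw [h5]; exact hy2)
      rw [h5, hy0, hr0] at h6
      exact lt_irrefl _ h6
  have hfix := rf_fix hB
  have hCy := em_Cn hp hy1
  -- the path `em y - t n`
  have hc1 : Continuous fun t : ℝ => em p y - t • n :=
    continuous_const.sub (continuous_id.smul continuous_const)
  have hc2 : Continuous fun t : ℝ => em p y + t • n :=
    continuous_const.add (continuous_id.smul continuous_const)
  have f1 : ∀ᶠ t in 𝓝 (0 : ℝ), em p y - t • n ∈ Cn p := by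
    refine hc1.continuousAt.eventually ((Cn_open p).mem_nhds ?_)
    show em p y - (0 : ℝ) • n ∈ Cn p
    rwa [zero_smul, sub_zero]
  have f2 : ∀ᶠ t in 𝓝 (0 : ℝ), em p y - t • n ∈ Metric.ball (em p z) δ := by
    refine hc1.continuousAt.eventually (Metric.isOpen_ball.mem_nhds ?_)
    show em p y - (0 : ℝ) • n ∈ Metric.ball (em p z) δ
    rwa [zero_smul, sub_zero]
  have f3 : ∀ᶠ t in 𝓝 (0 : ℝ), em p y + t • n ∈ Metric.ball (em p z) δ := by
    refine hc2.continuousAt.eventually (Metric.isOpen_ball.mem_nhds ?_)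
    show em p y + (0 : ℝ) • n ∈ Metric.ball (em p z) δ
    rwa [zero_smul, add_zero]
  have f4 : ∀ᶠ t in 𝓝 (0 : ℝ), (Φ (em p (pr p (em p y - t • n))) < 0 ↔
      Φ (rf p n (em p (pr p (em p y - t • n)))) < 0) := by
    have h5 : ContinuousAt (pr p) (em p y) :=
      (pr_smooth hp).continuousOn.continuousAt ((Cn_open p).mem_nhds hCy)
    have h6 : Tendsto (fun t : ℝ => em p y - t • n) (𝓝 0) (𝓝 (em p y)) := by
      have h7 := hc1.tendsto 0
      rwa [zero_smul, sub_zero] at h7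
    have h7 : Tendsto (fun t : ℝ => pr p (em p y - t • n)) (𝓝 0) (𝓝 y) := by
      have h8 := h5.tendsto.comp h6
      have h9 : ‖p y‖ ≤ 1 := by
        have h10 := pyth hp y
        have h11 : ‖y‖ < 1 := by simpa using hy1
        have h12 : 0 ≤ ‖y‖ := norm_nonneg y
        nlinarith [norm_nonneg (p y), sq_nonneg ‖y - p y‖]
      rw [pr_em hp h9] at h8
      exact h8
    exact (h7.eventually hG).mono fun t ht => ht.1
  have f5 : ∀ᶠ t in 𝓝[>] (0 : ℝ), False := by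
    have g1 : ∀ᶠ t in 𝓝[>] (0 : ℝ), 0 < t := eventually_mem_nhdsWithin
    filter_upwards [g1, f1.filter_mono nhdsWithin_le_nhds, f2.filter_mono nhdsWithin_le_nhds,
      f3.filter_mono nhdsWithin_le_nhds, f4.filter_mono nhdsWithin_le_nhds] with t ht k1 k2 k3 k4
    have k5 : Φ (em p y - t • n) < 0 := by
      have k6 := hmono n hn0 _ k2 t ht (by rw [sub_add_cancel]; exact hy2)
      rwa [sub_add_cancel, hy0] at k6
    have k6 : 0 < Φ (em p y + t • n) := by
      have k7 := hmono n hn0 _ hy2 t ht k3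
      rwa [hy0] at k7
    have k7 : rf p n (em p y - t • n) = em p y + t • n := by
      have k8 : B1 p (em p y - t • n) n = -t := by
        rw [B1_sub_left, B1_smul_left, hB, hn.one]
        ring
      show em p y - t • n - (2 * B1 p (em p y - t • n) n) • n = em p y + t • n
      rw [k8]
      module
    have k8 : Φ (em p (pr p (em p y - t • n))) = Φ (em p y - t • n) := phi_pr hp hD.hom k1
    have k9 : Φ (rf p n (em p (pr p (em p y - t • n)))) = Φ (rf p n (em p y - t • n)) := by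
      refine phi_pr (Φ := fun X => Φ (rf p n X)) hp ?_ k1
      intro X hX l hl
      show Φ (rf p n (sc p l X)) = Φ (rf p n X)
      rw [← sc_rf hp hn, hD.hom _ (rf_Cn hp hn hX) l hl]
    rw [k8, k9, k7] at k4
    exact absurd (k4.1 k5) (not_lt.2 k6.le)
  exact f5.exists.elim fun _ h => h

/-- piece `ROT-P6`: at a point of the plane with `Φ' n ≠ 0` there is no common germ nearby.
Proof. Replace `n` by `- n` if necessary (`rf_neg`, `Gm` does not change): `Φ'(em z) n > 0`. Let `δ` be as in `dir_mono` at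
`em z`, `n`. For `y` near `z`, `em y` and `rf n (em y)` lie in `B (em z, δ)`, `em y = rf n (em y) + 2 B1 (em y) n • n`. Let
`Φ (em y) = 0` and suppose `Gm y`; in particular `Φ (rf n (em y)) = 0`, so `B1 (em y) n = 0` by `dir_mono` (applied with
`Y = rf n (em y)` or with `Y = em y`). For small `t > 0` put `X = em y - t n`, `rf n X = em y + t n` (`rf_fix`, `B1 n n = 1`),
`Φ X < 0 < Φ (rf n X)` (`dir_mono`, `Φ (em y) = 0`), and `y' = pr X → pr (em y) = y` as `t → 0` (`pr_smooth`, `pr_em`):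
`Φ (em y') = Φ X < 0`, `Φ (rf n (em y')) = Φ (rf n X) > 0` (`phi_pr` for `Φ` and `Φ ∘ rf n`), against `Gm y`. -/
theorem no_Gm {H : ℝ} {p : E →L[ℝ] E} (hp : Pj p) {Φ : ℝ × E → ℝ} (hD : Dm H p Φ) {n : ℝ × E}
    (hn : Un p n) {z : E} (hz : z ∈ Metric.ball (0 : E) 1) (h0 : Φ (em p z) = 0)
    (h1 : B1 p (em p z) n = 0) (h2 : fderiv ℝ Φ (em p z) n ≠ 0) :
    ∀ᶠ y in 𝓝 z, Φ (em p y) = 0 → ¬ Gm p Φ n y := by
  rcases lt_or_gt_of_ne h2 with h3 | h3
  · have h4 : B1 p (em p z) (-n) = 0 := by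
      rw [B1_comm, B1_neg_left, B1_comm, h1, neg_zero]
    have h5 : 0 < fderiv ℝ Φ (em p z) (-n) := by
      rw [map_neg]
      linarith
    filter_upwards [rotP6_main hp hD (Un_neg hn) hz h0 h4 h5] with y hy h6 h7
    refine hy h6 ?_
    have h8 : ∀ X, rf p (-n) X = rf p n X := rf_neg p n
    unfold Gm at h7 ⊢
    simp only [h8]
    exact h7
  · exact rotP6_main hp hD hn hz h0 h1 h3

/-- piece `ROT-P7`: closedness off the plane.
Proof. By continuity `Φ (em z) = 0` and `Φ (rf n (em z)) = 0` (at the points of the hypothesis both vanish). If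
`B1 (em z) n > 0`: `Gm_touch`. If `B1 (em z) n < 0`: `z* = rr z` has `B1 (em z*) n > 0` (`B1_rr`),
`Φ (em z*) = Φ (rf n (em z)) = 0`, `Φ (rf n (em z*)) = Φ (em z) = 0` (`phi_rr`), so `Gm z*` by `Gm_touch` and
`Gm z` by `Gm_rr`, `rr_rr`. -/
theorem Gm_closed1 {a : ℕ} {H : ℝ} {p : E →L[ℝ] E} (hp : Pj p)
    (hr : Module.finrank ℝ (LinearMap.range (p : E →ₗ[ℝ] E)) = a + 1) {Φ : ℝ × E → ℝ}
    (hD : Dm H p Φ) {n : ℝ × E} (hn : Un p n) (hW : WW p Φ n) {z : E}
    (hz : z ∈ Metric.ball (0 : E) 1) (h2 : B1 p (em p z) n ≠ 0)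
    (h : ∃ᶠ y in 𝓝 z, Φ (em p y) = 0 ∧ Gm p Φ n y) : Gm p Φ n z := by
  have hX : em p z ∈ Cn p := em_Cn hp hz
  have hCn := Cn_open p
  have cE : ContinuousAt (fun y : E => em p y) z := (em_smooth p).continuous.continuousAt
  have cR0 : ContinuousAt (fun y : E => rf p n (em p y)) z :=
    ((continuous_rf p).comp
      (continuous_const.prodMk (em_smooth p).continuous)).continuousAt
  have cΦ : ∀ Y ∈ Cn p, ContinuousAt Φ Y := fun Y hY =>
    hD.sm.continuousOn.continuousAt (hCn.mem_nhds hY)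
  have cF : ContinuousAt (fun y : E => Φ (em p y)) z :=
    ContinuousAt.comp (f := fun y : E => em p y) (g := Φ) (x := z) (cΦ _ hX) cE
  have cR : ContinuousAt (fun y : E => Φ (rf p n (em p y))) z :=
    ContinuousAt.comp (f := fun y : E => rf p n (em p y)) (g := Φ) (x := z)
      (cΦ _ (rf_Cn hp hn hX)) cR0
  have e1 : Φ (em p z) = 0 := by
    by_contra hne
    exact h ((cF.eventually_ne hne).mono fun y hy hy' => hy hy'.1)
  have e2 : Φ (rf p n (em p z)) = 0 := by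
    by_contra hne
    refine h ((cR.eventually_ne hne).mono fun y hy hy' => hy ?_)
    have h3 := hy'.2
    unfold Gm at h3
    exact (h3.self_of_nhds.2).1 hy'.1
  rcases lt_or_gt_of_ne h2 with h3 | h3
  · obtain ⟨m, hm, h4⟩ := B1_rr hp hn hz
    obtain ⟨h5, h6⟩ := phi_rr hp hn hD.hom hz
    have hz' := rr_ball hp hn hz
    have h7 : Gm p Φ n (rr p n z) := by
      refine Gm_touch hp hr hD hn hW hz' ?_ ?_ ?_
      · rw [h5, e2]
      · rw [h6, e1]
      · rw [h4, ← mul_neg]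
        exact mul_pos hm (neg_pos.2 h3)
    have h8 := Gm_rr hp hD.hom hn hz' h7
    rwa [rr_rr hp hn hz] at h8
  · exact Gm_touch hp hr hD hn hW hz e1 e2 h3

private theorem rotP8_side {S G : Set E} (hS : IsPreconnected S) (hG : IsOpen G)
    (hne : (S ∩ G).Nonempty) (hcl : ∀ x ∈ S, (∃ᶠ y in 𝓝 x, y ∈ S ∩ G) → x ∈ G) : S ⊆ G := by
  rw [isPreconnected_iff_subset_of_disjoint] at hS
  have h1 : S ⊆ G ∪ (closure (S ∩ G))ᶜ := by
    intro x hx
    by_cases hxG : x ∈ G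
    · exact Or.inl hxG
    · refine Or.inr fun hc => hxG (hcl x hx ?_)
      exact mem_closure_iff_frequently.1 hc
  have h2 : S ∩ (G ∩ (closure (S ∩ G))ᶜ) = ∅ := by
    ext x
    simp only [Set.mem_inter_iff, Set.mem_compl_iff, Set.mem_empty_iff_false, iff_false]
    rintro ⟨h1, h2, h3⟩
    exact h3 (subset_closure ⟨h1, h2⟩)
  rcases hS G (closure (S ∩ G))ᶜ hG isClosed_closure.isOpen_compl h1 h2 with h | h
  · exact h
  · obtain ⟨x, hx⟩ := hne
    exact absurd (subset_closure hx) (h hx.1)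

/-- piece `ROT-P8`: closedness at a point of the plane at which the hypersurface is orthogonal to the plane.
Proof. `f = Φ ∘ em`, `φ = B1 (em ·) n`. By `tangent_plane` `f` and `f' := Φ ∘ rf n ∘ em` have the same derivative at `z`, and
there is the vector `u` needed in `lc`. Let `U` be the set of `lc` with `V` = the ball. `A = {y ∈ U | f y = 0, Gm y}`. Let
`U₁ ⊆ U` be a neighbourhood of `z` with `rr U₁ ⊆ U` (`rr z = z` as `rf_fix`, `pr_em`; continuity). By hypothesis there is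
`y ∈ U₁` with `f y = 0`, `Gm y`, and by the last property of `U` and `Gm_open` one with `φ y ≠ 0` (in the open set
`interior U₁ ∩ {Gm}`). `y` and `rr y` lie in `U`, satisfy `f = 0` and `Gm` (`Gm_rr`, `phi_rr`, `Gm` at `y` gives
`Φ (rf n (em y)) = 0`), and `φ` has opposite signs (`B1_rr`). So `A` meets `S₊ = {y ∈ U | f y = 0, 0 < φ y}` and
`S₋ = {y ∈ U | f y = 0, φ y < 0}`. `{Gm}` is open, and by `Gm_closed1` `A ∩ S₊` is relatively closed in `S₊`; `S₊` is preconnected, so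
`S₊ ⊆ {Gm}`; the same for `S₋` (for a preconnected `S`, `isPreconnected_iff_subset_of_disjoint` with the open sets
`{Gm}` and the complement of the closure of `S ∩ {Gm}`). Hence for `y ∈ U` with `f y = 0`: `f' y = 0` (if `φ y = 0`
then `rf n (em y) = em y`). By `sgn` (with a vector `ν`, `f'(z) ν > 0`; the derivatives agree and are nonzero by
`Dm.chart`) `Gm z`. -/
theorem Gm_closed2 {a : ℕ} {H : ℝ} {p : E →L[ℝ] E} (hp : Pj p)
    (hr : Module.finrank ℝ (LinearMap.range (p : E →ₗ[ℝ] E)) = a + 1) {Φ : ℝ × E → ℝ}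
    (hD : Dm H p Φ) {n : ℝ × E} (hn : Un p n) (hW : WW p Φ n) {z : E}
    (hz : z ∈ Metric.ball (0 : E) 1) (h0 : Φ (em p z) = 0) (h1 : B1 p (em p z) n = 0)
    (h2 : fderiv ℝ Φ (em p z) n = 0)
    (h : ∃ᶠ y in 𝓝 z, Φ (em p y) = 0 ∧ Gm p Φ n y) : Gm p Φ n z := by
  obtain ⟨hcf, hrf, -⟩ := hD.chart hp hr
  obtain ⟨hcf', hrf', -⟩ := (hD.refl hp hn).chart hp hr
  obtain ⟨hder, hφ, hu⟩ := tangent_plane hp hn hD.sm hD.hom hz h1 h2
  have hzn : Metric.ball (0 : E) 1 ∈ 𝓝 z := Metric.isOpen_ball.mem_nhds hz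
  have hf1 : ContDiffAt ℝ 1 (fun y => Φ (em p y)) z := (hcf.contDiffAt hzn).of_le (by norm_num)
  have hf1' : ContDiffAt ℝ 1 (fun y => Φ (rf p n (em p y))) z :=
    (hcf'.contDiffAt hzn).of_le (by norm_num)
  have hφ1 : ContDiffAt ℝ 1 (fun y => B1 p (em p y) n) z := hφ.of_le (by norm_num)
  have hne : fderiv ℝ (fun y => Φ (em p y)) z ≠ 0 := hrf z hz h0
  obtain ⟨U, hUo, hzU, hUV, hSp, hSm, hcl⟩ := lc hf1 hφ1 h0 h1 hne hu hzn
  -- `rr z = z`
  have hpz : ‖p z‖ ≤ 1 := by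
    have e1 := pyth hp z
    have e2 : ‖z‖ < 1 := by simpa using hz
    nlinarith [sq_nonneg ‖z - p z‖, norm_nonneg z, norm_nonneg (p z)]
  have hrz : rr p n z = z := by
    unfold rr
    rw [rf_fix h1, pr_em hp hpz]
  have hrc : ContinuousAt (rr p n) z := (rr_cont hp hn).continuousAt hzn
  have hU1 : U ∩ rr p n ⁻¹' U ∈ 𝓝 z := by
    refine Filter.inter_mem (hUo.mem_nhds hzU) (hrc.preimage_mem_nhds ?_)
    rw [hrz]
    exact hUo.mem_nhds hzU
  obtain ⟨W, hWU, hWo, hzW⟩ := mem_nhds_iff.1 hU1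
  have hGo := Gm_open p Φ n
  obtain ⟨y₀, ⟨hy0, hGy0⟩, hyW0⟩ := (h.and_eventually (hWo.mem_nhds hzW)).exists
  -- a point off the plane
  obtain ⟨y, ⟨hyU, hy, hyφ⟩, hyW, hGy⟩ : ∃ y, (y ∈ U ∧ Φ (em p y) = 0 ∧ B1 p (em p y) n ≠ 0) ∧
      y ∈ W ∧ Gm p Φ n y := by
    have e1 := hcl y₀ (hWU hyW0).1 hy0
    rw [mem_closure_iff_frequently] at e1
    obtain ⟨y, hy1, hy2⟩ := (e1.and_eventually
      (Filter.inter_mem (hWo.mem_nhds hyW0) (hGo.mem_nhds hGy0))).exists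
    exact ⟨y, hy1, hy2.1, hy2.2⟩
  have hyb : y ∈ Metric.ball (0 : E) 1 := hUV hyU
  have hrU : rr p n y ∈ U := (hWU hyW).2
  have hGr : Gm p Φ n (rr p n y) := Gm_rr hp hD.hom hn hyb hGy
  have hfr : Φ (em p (rr p n y)) = 0 := by
    rw [(phi_rr hp hn hD.hom hyb).1]
    exact (hGy.self_of_nhds.2).1 hy
  obtain ⟨m, hm, hBr⟩ := B1_rr hp hn hyb
  -- the two sides
  have hside : ∀ S : Set E, S ⊆ {x | x ∈ U ∧ Φ (em p x) = 0 ∧ B1 p (em p x) n ≠ 0} →
      IsPreconnected S → (S ∩ {x | Gm p Φ n x}).Nonempty → S ⊆ {x | Gm p Φ n x} := by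
    intro S hS hSc hSn
    refine rotP8_side hSc hGo hSn fun x hx hfreq => ?_
    refine Gm_closed1 hp hr hD hn hW (hUV (hS hx).1) (hS hx).2.2 ?_
    exact hfreq.mono fun y hy => ⟨(hS hy.1).2.1, hy.2⟩
  have hp1 : ({x | x ∈ U ∧ Φ (em p x) = 0 ∧ 0 < B1 p (em p x) n} ∩ {x | Gm p Φ n x}).Nonempty := by
    rcases lt_or_gt_of_ne hyφ with hlt | hgt
    · refine ⟨rr p n y, ⟨hrU, hfr, ?_⟩, hGr⟩
      rw [hBr]
      nlinarith
    · exact ⟨y, ⟨hyU, hy, hgt⟩, hGy⟩
  have hm1 : ({x | x ∈ U ∧ Φ (em p x) = 0 ∧ B1 p (em p x) n < 0} ∩ {x | Gm p Φ n x}).Nonempty := by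
    rcases lt_or_gt_of_ne hyφ with hlt | hgt
    · exact ⟨y, ⟨hyU, hy, hlt⟩, hGy⟩
    · refine ⟨rr p n y, ⟨hrU, hfr, ?_⟩, hGr⟩
      rw [hBr]
      nlinarith
  have hP := hside _ (fun x hx => ⟨hx.1, hx.2.1, hx.2.2.ne'⟩) hSp hp1
  have hM := hside _ (fun x hx => ⟨hx.1, hx.2.1, hx.2.2.ne⟩) hSm hm1
  have hev : ∀ᶠ x in 𝓝 z, Φ (em p x) = 0 → Φ (rf p n (em p x)) = 0 := by
    filter_upwards [hUo.mem_nhds hzU] with x hx h0x
    rcases lt_trichotomy (B1 p (em p x) n) 0 with hlt | heq | hgt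
    · have e1 : Gm p Φ n x := hM ⟨hx, h0x, hlt⟩
      exact (e1.self_of_nhds.2).1 h0x
    · rw [rf_fix heq, h0x]
    · have e1 : Gm p Φ n x := hP ⟨hx, h0x, hgt⟩
      exact (e1.self_of_nhds.2).1 h0x
  obtain ⟨ν, hν⟩ : ∃ ν, 0 < fderiv ℝ (fun y => Φ (em p y)) z ν := by
    by_contra hcon
    push Not at hcon
    refine hne (ContinuousLinearMap.ext fun v => ?_)
    have e1 := hcon v
    have e2 := hcon (-v)
    rw [map_neg, neg_nonpos] at e2
    exact le_antisymm e1 e2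
  have h0' : Φ (rf p n (em p z)) = 0 := by rw [rf_fix h1, h0]
  exact sgn hf1 hf1' h0 h0' hν (by rw [hder]; exact hν) hev

/-- piece `ROT-P9`: an interior touching point implies symmetry.
Proof. `Σ = {z ∈ ball | Φ (em z) = 0}` is preconnected (`hD.con`). `{Gm}` is open; by `Gm_closed1`, `Gm_closed2`, `no_Gm` a point
of `Σ` in the closure of `Σ ∩ {Gm}` is in `{Gm}`. `Gm_touch` gives a point in `Σ ∩ {Gm}`. So `Σ ⊆ {Gm}`
(`isPreconnected_iff_subset_of_disjoint` with `{Gm}` and `(closure (Σ ∩ {Gm}))ᶜ`), and `Gm z` with `Φ (em z) = 0` gives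
`Φ (rf n (em z)) = 0`. -/
theorem touch_sy {a : ℕ} {H : ℝ} {p : E →L[ℝ] E} (hp : Pj p)
    (hr : Module.finrank ℝ (LinearMap.range (p : E →ₗ[ℝ] E)) = a + 1) {Φ : ℝ × E → ℝ}
    (hD : Dm H p Φ) {n : ℝ × E} (hn : Un p n) (hW : WW p Φ n)
    (h : ∃ z ∈ Metric.ball (0 : E) 1, Φ (em p z) = 0 ∧ 0 < B1 p (em p z) n ∧
      Φ (rf p n (em p z)) = 0) : Sy p Φ n := by
  set Sg : Set E := {z ∈ Metric.ball (0 : E) 1 | Φ (em p z) = 0} with hSg
  set G : Set E := {z | Gm p Φ n z} with hG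
  have hGo : IsOpen G := Gm_open p Φ n
  have hcl : ∀ z ∈ Sg, z ∈ closure (Sg ∩ G) → z ∈ G := by
    intro z hz hzc
    have h1 : ∃ᶠ y in 𝓝 z, Φ (em p y) = 0 ∧ Gm p Φ n y :=
      (mem_closure_iff_frequently.1 hzc).mono fun y hy => ⟨hy.1.2, hy.2⟩
    by_cases h2 : B1 p (em p z) n = 0
    · by_cases h3 : fderiv ℝ Φ (em p z) n = 0
      · exact Gm_closed2 hp hr hD hn hW hz.1 hz.2 h2 h3 h1
      · have h4 := no_Gm hp hD hn hz.1 hz.2 h2 h3
        obtain ⟨y, hy1, hy2⟩ := (h1.and_eventually h4).exists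
        exact absurd hy1.2 (hy2 hy1.1)
    · exact Gm_closed1 hp hr hD hn hW hz.1 h2 h1
  obtain ⟨z₀, hz₀, e0, e1, e2⟩ := h
  have hz₀G : z₀ ∈ G := Gm_touch hp hr hD hn hW hz₀ e0 e2 e1
  have hsub : ∀ z ∈ Sg, z ∈ G := by
    intro z hz
    by_contra hzG
    obtain ⟨y, hy1, hy2, hy3⟩ := hD.con G (closure (Sg ∩ G))ᶜ hGo isClosed_closure.isOpen_compl
      (fun y hy => by
        by_cases h5 : y ∈ closure (Sg ∩ G)
        · exact Or.inl (hcl y hy h5)
        · exact Or.inr h5)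
      ⟨z₀, ⟨hz₀, e0⟩, hz₀G⟩ ⟨z, hz, fun h5 => hzG (hcl z hz h5)⟩
    exact hy3 (subset_closure ⟨hy1, hy2⟩)
  intro z hz hz0
  have h6 : ∀ᶠ y in 𝓝 z, (Φ (em p y) < 0 ↔ Φ (rf p n (em p y)) < 0) ∧
    (Φ (em p y) = 0 ↔ Φ (rf p n (em p y)) = 0) := hsub z ⟨hz, hz0⟩
  exact (h6.self_of_nhds.2).1 hz0

/-- piece `ROT-P10`: the moving planes reach the origin.
Proof. Let `S = {τ | 0 ≤ τ ∧ ∀ τ' > τ, PP (nt n τ') ∧ QQ (nt n τ')}`, nonempty by `start`, `s = sInf S ≥ 0`; `s ∈ S`. By `limit`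
`WW (nt n s)`. If `s = 0`, `nt n 0 = (0, n)`: done. If `s > 0`: `(nt n s).1 = sinh s ≠ 0`, so `¬ Sy (nt n s)` by `hS`
(`Un_nt`); by `touch` and `touch_sy` `QQ (nt n s)`, by `no_bnd` `PP (nt n s)`, and by `opn_PQ` there is `0 ≤ s' < s` with
`s' ∈ S`, contradiction. -/
theorem planes {a : ℕ} {H : ℝ} {p : E →L[ℝ] E} (hp : Pj p)
    (hr : Module.finrank ℝ (LinearMap.range (p : E →ₗ[ℝ] E)) = a + 1) {Φ : ℝ × E → ℝ}
    (hD : Dm H p Φ) (hS : ∀ n, Un p n → Sy p Φ n → n.1 = 0) (n : E) (h1 : p n = n)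
    (h2 : ‖n‖ = 1) : WW p Φ ((0 : ℝ), n) := by
  let S : Set ℝ := {τ | 0 ≤ τ ∧ ∀ τ' : ℝ, τ < τ' → PP p Φ (nt n τ') ∧ QQ p Φ (nt n τ')}
  have hS0 : S.Nonempty := by
    obtain ⟨T, hT, hT'⟩ := start hp hD h1 h2
    exact ⟨T, hT.le, fun τ' h => hT' τ' h.le⟩
  have hSb : BddBelow S := ⟨0, fun τ hτ => hτ.1⟩
  have hs0 : 0 ≤ sInf S := le_csInf hS0 fun τ hτ => hτ.1
  have hs1 : ∀ τ' : ℝ, sInf S < τ' → PP p Φ (nt n τ') ∧ QQ p Φ (nt n τ') := by
    intro τ' hτ'
    obtain ⟨σ, hσ, hσ'⟩ := exists_lt_of_csInf_lt hS0 hτ'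
    exact hσ.2 τ' hσ'
  have hW : WW p Φ (nt n (sInf S)) := limit hp hD h1 h2 fun τ hτ => (hs1 τ hτ).2
  rcases hs0.eq_or_lt with h0 | h0
  · rw [← h0] at hW
    unfold nt at hW
    rw [Real.sinh_zero, Real.cosh_zero, one_smul] at hW
    exact hW
  · exfalso
    have hn := Un_nt h1 h2 (sInf S)
    have hSy : ¬ Sy p Φ (nt n (sInf S)) := by
      intro h
      have h3 : Real.sinh (sInf S) = 0 := hS _ hn h
      exact h0.ne' (Real.sinh_eq_zero.1 h3)
    have hQ : QQ p Φ (nt n (sInf S)) := by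
      by_contra h
      exact hSy (touch_sy hp hr hD hn hW (touch hp hD hn hW h))
    have hP : PP p Φ (nt n (sInf S)) := no_bnd hp hr hD hn hQ
    obtain ⟨ε, hε, h4⟩ := Metric.eventually_nhds_iff.1 (opn_PQ hp hD h1 h2 hP hQ)
    have h5 : max 0 (sInf S - ε / 2) ∈ S := by
      refine ⟨le_max_left _ _, fun τ' hτ' => ?_⟩
      rcases lt_or_ge (sInf S) τ' with h6 | h6
      · exact hs1 τ' h6
      · refine h4 ?_
        have h7 : sInf S - ε / 2 < τ' := (le_max_right _ _).trans_lt hτ'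
        rw [Real.dist_eq, abs_lt]
        constructor <;> linarith
    have h6 := csInf_le hSb h5
    have h7 : max 0 (sInf S - ε / 2) < sInf S := max_lt h0 (by linarith)
    exact absurd h6 (not_le.2 h7)

end Pool.Agent.Helper75.ROT
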